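import Mathlib

set_option autoImplicit false

/-!
# Linear algebra: the lattice of matrices `[skew-symmetric 3 × 3 | arbitrary 3 × e]`
-/

namespace Pool.Agent.J4H74.T3

/-- Column indices. -/
abbrev JJ (e : ℕ) : Type := Fin 3 ⊕ Fin e

/-- Coordinates of the lattice. -/
abbrev Idx (e : ℕ) : Type := Fin 3 ⊕ (Fin 3 × Fin e)

theorem card_Idx (e : ℕ) : Fintype.card (Idx e) = 3 * (e + 1) := by
  simp [Idx]; ring

/-- The skew-symmetric matrix of a vector. -/
def skew {R : Type*} [Zero R] [Neg R] (v : Fin 3 → R) : Fin 3 → Fin 3 → R :=
  ![![0, v 2, -v 1], ![-v 2, 0, v 0], ![v 1, -v 0, 0]]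

/-- The matrix with given coordinates. -/
def mat {R : Type*} [Zero R] [Neg R] {e : ℕ} (c : Idx e → R) (i : Fin 3) : JJ e → R
  | Sum.inl j => skew (fun k => c (Sum.inl k)) i j
  | Sum.inr t => c (Sum.inr (i, t))

variable {e : ℕ}

theorem skew_add {R : Type*} [AddCommGroup R] (v w : Fin 3 → R) (i j : Fin 3) :
    skew (v + w) i j = skew v i j + skew w i j := by
  fin_cases i <;> fin_cases j <;> simp [skew] <;> abel

theorem skew_map {R S : Type*} [AddCommGroup R] [AddCommGroup S] (φ : R →+ S) (v : Fin 3 → R)
    (i j : Fin 3) : φ (skew v i j) = skew (fun k => φ (v k)) i j := by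
  fin_cases i <;> fin_cases j <;> simp [skew]

theorem mat_add {R : Type*} [AddCommGroup R] (c c' : Idx e → R) (i : Fin 3) (j : JJ e) :
    mat (c + c') i j = mat c i j + mat c' i j := by
  rcases j with j | t
  · exact skew_add (fun k => c (Sum.inl k)) (fun k => c' (Sum.inl k)) i j
  · rfl

theorem mat_map {R S : Type*} [AddCommGroup R] [AddCommGroup S] (φ : R →+ S) (c : Idx e → R)
    (i : Fin 3) (j : JJ e) : φ (mat c i j) = mat (fun x => φ (c x)) i j := by
  rcases j with j | t
  · exact skew_map φ (fun k => c (Sum.inl k)) i j
  · rfl

theorem mat_zero {R : Type*} [AddCommGroup R] (i : Fin 3) (j : JJ e) :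
    mat (0 : Idx e → R) i j = 0 := by
  have h := mat_add (0 : Idx e → R) 0 i j
  rw [add_zero] at h
  exact left_eq_add.mp h

theorem mat_neg {R : Type*} [AddCommGroup R] (c : Idx e → R) (i : Fin 3) (j : JJ e) :
    mat (-c) i j = - mat c i j := by
  have h := mat_add c (-c) i j
  rw [add_neg_cancel, mat_zero] at h
  exact (neg_eq_of_add_eq_zero_right h.symm).symm

theorem mat_smul {R : Type*} [Ring R] (s : R) (c : Idx e → R) (i : Fin 3) (j : JJ e) :
    mat (s • c) i j = s * mat c i j := by
  exact (mat_map (AddMonoidHom.mulLeft s) c i j).symm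

theorem eq_zero_of_mat {R : Type*} [AddCommGroup R] (c : Idx e → R)
    (h : ∀ i j, mat c i j = 0) : c = 0 := by
  funext x
  rcases x with k | ⟨i, t⟩
  · fin_cases k
    · have := h 1 (Sum.inl 2); simpa [mat, skew] using this
    · have := h 2 (Sum.inl 0); simpa [mat, skew] using this
    · have := h 0 (Sum.inl 1); simpa [mat, skew] using this
  · exact h i (Sum.inr t)

/-- A space of such matrices over a field whose columns lie in a given subspace `C` has dimension at
most `(e + 1) dim C`. -/
theorem finrank_mat_le {k : Type*} [Field k] (C : Submodule k (Fin 3 → k))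
    (D : Submodule k (Idx e → k)) (hD : ∀ c ∈ D, ∀ j, (fun i => mat c i j) ∈ C) :
    Module.finrank k D ≤ (e + 1) * Module.finrank k C := by
  by_cases hC : C = ⊤
  · have h1 : Module.finrank k C = 3 := by rw [hC, finrank_top]; simp
    have h2 : Module.finrank k D ≤ 3 * (e + 1) := by
      refine (Submodule.finrank_le D).trans ?_
      rw [Module.finrank_fintype_fun_eq_card, card_Idx]
    rw [h1]; omega
  · obtain ⟨f, hf0, hf⟩ := Submodule.exists_le_ker_of_lt_top C (lt_top_iff_ne_top.mpr hC)
    have hex : ∃ j₀ : Fin 3, f (Pi.single j₀ 1) ≠ 0 := by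
      by_contra hcon
      push Not at hcon
      apply hf0
      apply LinearMap.pi_ext'
      intro i
      apply LinearMap.ext_ring
      simpa using hcon i
    obtain ⟨j₀, hj₀⟩ := hex
    let col : JJ e → (Idx e → k) →ₗ[k] (Fin 3 → k) := fun j =>
      { toFun := fun c i => mat c i j
        map_add' := fun c c' => by funext i; exact mat_add c c' i j
        map_smul' := fun s c => by funext i; exact mat_smul s c i j }
    let j₁ : Fin 3 := j₀ + 1
    let Φ : D →ₗ[k] (Option (Fin e) → C) := LinearMap.pi fun o =>
      ((col (o.elim (Sum.inl j₁) Sum.inr)).domRestrict D).codRestrict C (fun c => hD c c.2 _)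
    have hΦ : Function.Injective Φ := by
      rw [← LinearMap.ker_eq_bot, LinearMap.ker_eq_bot']
      intro c hc
      have hcol : ∀ o : Option (Fin e), ∀ i, mat (c : Idx e → k) i (o.elim (Sum.inl j₁) Sum.inr) = 0 := by
        intro o i
        have h1 := congrFun hc o
        exact congrArg (fun x : C => (x : Fin 3 → k) i) h1
      have hfv : ∀ v : Fin 3 → k, f v = v 0 * f (Pi.single 0 1) + v 1 * f (Pi.single 1 1) +
          v 2 * f (Pi.single 2 1) := by
        intro v
        have h1 : v = v 0 • Pi.single 0 (1 : k) + v 1 • Pi.single 1 (1 : k) +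
            v 2 • Pi.single 2 (1 : k) := by
          funext i
          fin_cases i <;> simp
        conv_lhs => rw [h1]
        simp only [map_add, map_smul, smul_eq_mul]
      have hker : ∀ j, f (fun i => mat (c : Idx e → k) i j) = 0 := fun j => hf (hD c c.2 j)
      have hsk : ∀ m : Fin 3, (c : Idx e → k) (Sum.inl m) = 0 := by
        have hc1 := hcol none
        simp only [Option.elim_none] at hc1
        have a0 := hker (Sum.inl 0)
        have a1 := hker (Sum.inl 1)
        have a2 := hker (Sum.inl 2)
        rw [hfv] at a0 a1 a2
        simp only [mat, skew, Matrix.cons_val_zero, Matrix.cons_val_one, Matrix.cons_val] at a0 a1 a2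
        have b0 := hc1 0
        have b1 := hc1 1
        have b2 := hc1 2
        fin_cases j₀
        · simp only [j₁, mat, skew] at b0 b1 b2
          simp at b0 b1 b2
          intro m
          fin_cases m
          · exact b2
          · simp only [b2, b0] at a0 a1 a2
            simp at a0 a1 a2
            have := a2.resolve_right (by simpa using hj₀)
            simpa using this
          · exact b0
        · simp only [j₁, mat, skew] at b0 b1 b2
          simp at b0 b1 b2
          intro m
          fin_cases m
          · exact b1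
          · exact b0
          · simp only [b1, b0] at a0 a1 a2
            simp at a0 a1 a2
            have := a0.resolve_right (by simpa using hj₀)
            simpa using this
        · simp only [j₁, mat, skew] at b0 b1 b2
          simp at b0 b1 b2
          intro m
          fin_cases m
          · simp only [b1, b2] at a0 a1 a2
            simp at a0 a1 a2
            have := a1.resolve_right (by simpa using hj₀)
            simpa using this
          · exact b2
          · exact b1
      apply Subtype.ext
      funext x
      rcases x with m | ⟨i, t⟩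
      · exact hsk m
      · exact hcol (some t) i
    have := LinearMap.finrank_le_finrank_of_injective hΦ
    rwa [Module.finrank_pi_fintype, Finset.sum_const, Finset.card_univ, Fintype.card_option,
      Fintype.card_fin, smul_eq_mul] at this

/-- Two linearly independent relations between the `Φ j` give a nonzero matrix in the lattice which
kills the vector of the `Φ j`. -/
theorem exists_mat_rel {F V : Type*} [CommRing F] [IsDomain F] [AddCommGroup V] [Module F V]
    (Φ : JJ e → V) (k h : JJ e → F) (hk : ∑ j, k j • Φ j = 0) (hh : ∑ j, h j • Φ j = 0)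
    (hind : ∀ a b : F, a • k + b • h = 0 → a = 0 ∧ b = 0) :
    ∃ c : Idx e → F, c ≠ 0 ∧ ∀ i, ∑ j, mat c i j • Φ j = 0 := by
  have hk0 : k ≠ 0 := by
    rintro rfl
    have := (hind 1 0 (by simp)).1
    exact one_ne_zero this
  by_cases hz : ∀ i : Fin 3, k (Sum.inl i) = 0 ∧ h (Sum.inl i) = 0
  · obtain ⟨j, hj⟩ : ∃ j, k j ≠ 0 := by
      by_contra hcon
      push Not at hcon
      exact hk0 (funext hcon)
    obtain ⟨t, rfl⟩ : ∃ t, j = Sum.inr t := by
      rcases j with i | t
      · exact absurd (hz i).1 hj
      · exact ⟨t, rfl⟩
    refine ⟨fun x => x.elim (fun _ => 0) (fun y => if y.1 = 0 then k (Sum.inr y.2) else 0), ?_, ?_⟩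
    · intro h0
      have := congrFun h0 (Sum.inr (0, t))
      simp at this
      exact hj this
    · intro i
      by_cases hi : i = 0
      · rw [← hk]
        refine Finset.sum_congr rfl fun j _ => ?_
        congr 1
        rcases j with j | t
        · rw [(hz j).1]
          have : mat (fun x : Idx e => x.elim (fun _ => (0 : F))
            (fun y => if y.1 = 0 then k (Sum.inr y.2) else 0)) i (Sum.inl j) =
            skew (fun _ => (0 : F)) i j := rfl
          rw [this]
          have h2 := skew_map (0 : F →+ F) (fun _ => (0 : F)) i j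
          simpa using h2.symm
        · show (if i = 0 then k (Sum.inr t) else 0) = k (Sum.inr t)
          rw [if_pos hi]
      · refine Finset.sum_eq_zero fun j _ => ?_
        have : mat (fun x : Idx e => x.elim (fun _ => (0 : F))
            (fun y => if y.1 = 0 then k (Sum.inr y.2) else 0)) i j = 0 := by
          rcases j with j | t
          · have : mat (fun x : Idx e => x.elim (fun _ => (0 : F))
              (fun y => if y.1 = 0 then k (Sum.inr y.2) else 0)) i (Sum.inl j) =
              skew (fun _ => (0 : F)) i j := rfl
            rw [this]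
            have h2 := skew_map (0 : F →+ F) (fun _ => (0 : F)) i j
            simpa using h2.symm
          · show (if i = 0 then k (Sum.inr t) else 0) = 0
            rw [if_neg hi]
        rw [this, zero_smul]
  · -- the matrix `h_i k_j - k_i h_j`
    let c0 : Idx e → F := fun x => x.elim
        ![h (Sum.inl 1) * k (Sum.inl 2) - k (Sum.inl 1) * h (Sum.inl 2),
          h (Sum.inl 2) * k (Sum.inl 0) - k (Sum.inl 2) * h (Sum.inl 0),
          h (Sum.inl 0) * k (Sum.inl 1) - k (Sum.inl 0) * h (Sum.inl 1)]
        (fun y => h (Sum.inl y.1) * k (Sum.inr y.2) - k (Sum.inl y.1) * h (Sum.inr y.2))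
    have hform : ∀ i j, mat c0 i j = h (Sum.inl i) * k j - k (Sum.inl i) * h j := by
      intro i j
      rcases j with j | t
      · fin_cases i <;> fin_cases j <;> simp [mat, skew, c0] <;> ring
      · rfl
    refine ⟨c0, ?_, fun i => ?_⟩
    rotate_left
    · simp only [hform i, sub_smul, mul_smul]
      rw [Finset.sum_sub_distrib, ← Finset.smul_sum, ← Finset.smul_sum, hk, hh, smul_zero,
        smul_zero, sub_zero]
    · intro h0
      apply hz
      intro i
      have h1 : h (Sum.inl i) • k + (-k (Sum.inl i)) • h = 0 := by
        funext j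
        have h2 := hform i j
        rw [h0, mat_zero] at h2
        simp only [Pi.add_apply, Pi.smul_apply, smul_eq_mul, Pi.zero_apply]
        linear_combination -h2
      have h2 := hind _ _ h1
      exact ⟨neg_eq_zero.mp h2.2, h2.1⟩

end Pool.Agent.J4H74.T3
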