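import Mathlib

set_option autoImplicit false

/-!
# Elements of a Galois number field whose conjugates are multiplicatively independent
-/

namespace Pool.Agent.J4H74.T3

open NumberField

section conj

variable {N : Type} [Field N] [NumberField N]

/-- Conjugation of units. -/
def cj (g : N ≃ₐ[ℚ] N) : Nˣ →* Nˣ := Units.map ((g : N →ₐ[ℚ] N) : N →* N)

theorem cj_val (g : N ≃ₐ[ℚ] N) (z : Nˣ) : ((cj g z : Nˣ) : N) = g (z : N) := rfl

theorem cj_mul (g h : N ≃ₐ[ℚ] N) (z : Nˣ) : cj (g * h) z = cj g (cj h z) := by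
  ext; rfl

theorem cj_one (z : Nˣ) : cj (1 : N ≃ₐ[ℚ] N) z = z := by
  ext; rfl

/-- An integral element which is moved by all nontrivial automorphisms. -/
theorem exists_theta (N : Type) [Field N] [NumberField N] :
    ∃ θ : 𝓞 N, θ ≠ 0 ∧ ∀ g : N ≃ₐ[ℚ] N, g (θ : N) = θ → g = 1 := by
  obtain ⟨α, hα⟩ := Field.exists_primitive_element ℚ N
  have halg : IsAlgebraic ℚ α := Algebra.IsAlgebraic.isAlgebraic α
  have halgZ : IsAlgebraic ℤ α := (IsFractionRing.isAlgebraic_iff ℤ ℚ N).2 halg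
  obtain ⟨y, hy0, hy⟩ := halgZ.exists_integral_multiple
  have hyN : (y : N) ≠ 0 := by exact_mod_cast hy0
  have key : ∀ g : N ≃ₐ[ℚ] N, g α = α → g = 1 := by
    intro g hg
    ext x
    have hx : x ∈ IntermediateField.adjoin ℚ {α} := by rw [hα]; trivial
    induction hx using IntermediateField.adjoin_induction with
    | mem x hx =>
      rw [Set.mem_singleton_iff] at hx
      rw [hx, hg]; rfl
    | algebraMap x => rw [AlgEquiv.commutes]; rfl
    | add x y _ _ hx hy => rw [map_add, hx, hy]; rfl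
    | inv x _ hx => rw [map_inv₀, hx]; rfl
    | mul x y _ _ hx hy => rw [map_mul, hx, hy]; rfl
  by_cases h0 : y • α = 0
  · refine ⟨1, one_ne_zero, fun g _ => key g ?_⟩
    have : α = 0 := by
      rw [zsmul_eq_mul] at h0
      exact (mul_eq_zero.mp h0).resolve_left hyN
    rw [this, map_zero]
  · refine ⟨⟨y • α, hy⟩, ?_, fun g hg => key g ?_⟩
    · intro h
      exact h0 (congrArg (fun x : 𝓞 N => (x : N)) h)
    · have h1 : g (y • α) = y • α := hg
      rw [map_zsmul, zsmul_eq_mul, zsmul_eq_mul] at h1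
      exact mul_left_cancel₀ hyN h1

/-- The units of the localisation of `𝓞 N` at a prime ideal. -/
def locU (q : Ideal (𝓞 N)) [hq : q.IsPrime] : Subgroup Nˣ where
  carrier := {x | ∃ α β : 𝓞 N, α ∉ q ∧ β ∉ q ∧ (x : N) * (β : N) = (α : N)}
  mul_mem' := by
    rintro x y ⟨a, b, ha, hb, h1⟩ ⟨c, d, hc, hd, h2⟩
    refine ⟨a * c, b * d, fun h => ?_, fun h => ?_, ?_⟩
    · exact (hq.mem_or_mem h).elim ha hc
    · exact (hq.mem_or_mem h).elim hb hd
    · show (x : N) * (y : N) * ((b : N) * (d : N)) = (a : N) * (c : N)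
      rw [← h1, ← h2]
      ring
  one_mem' := by
    have h : (1 : 𝓞 N) ∉ q := fun h => hq.ne_top ((Ideal.eq_top_iff_one q).mpr h)
    exact ⟨1, 1, h, h, by simp⟩
  inv_mem' := by
    rintro x ⟨a, b, ha, hb, h1⟩
    refine ⟨b, a, hb, ha, ?_⟩
    rw [← h1, ← mul_assoc, ← Units.val_mul, inv_mul_cancel, Units.val_one, one_mul]

theorem mem_locU_of_int {q : Ideal (𝓞 N)} [hq : q.IsPrime] {x : Nˣ} {a : 𝓞 N} (ha : a ∉ q)
    (h : (x : N) = a) : x ∈ locU q := by
  have h1 : (1 : 𝓞 N) ∉ q := fun h => hq.ne_top ((Ideal.eq_top_iff_one q).mpr h)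
  exact ⟨a, 1, ha, h1, by rw [h]; simp⟩

theorem eq_zero_of_zpow_mem {q : Ideal (𝓞 N)} [hq : q.IsPrime] {x : Nˣ} {a : 𝓞 N} (ha : a ∈ q)
    (h : (x : N) = a) {n : ℤ} (hn : x ^ n ∈ locU q) : n = 0 := by
  have key : ∀ k : ℕ, x ^ k ∈ locU q → k = 0 := by
    rintro k ⟨c, d, hc, hd, h1⟩
    by_contra hk
    apply hc
    have h2 : a ^ k * d = c := by
      apply RingOfIntegers.ext
      push_cast
      rw [← h1, Units.val_pow_eq_pow_val, h]
    rw [← h2]
    exact q.mul_mem_right _ (Ideal.pow_mem_of_mem q ha k (Nat.pos_of_ne_zero hk))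
  obtain ⟨k, rfl | rfl⟩ := n.eq_nat_or_neg
  · rw [zpow_natCast] at hn
    rw [key k hn]; rfl
  · have h2 := (locU q).inv_mem hn
    rw [zpow_neg, inv_inv, zpow_natCast] at h2
    rw [key k h2]; rfl

/-- The norm of an algebraic integer is the product of its conjugates. -/
theorem norm_prod [IsGalois ℚ N] (c : 𝓞 N) :
    ((Algebra.norm ℤ c : ℤ) : 𝓞 N) = ∏ g : N ≃ₐ[ℚ] N, RingOfIntegers.mapRingHom (g : N →+* N) c := by
  apply RingOfIntegers.ext
  have h1 := Algebra.norm_eq_prod_automorphisms ℚ (c : N)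
  rw [← Algebra.coe_norm_int] at h1
  show algebraMap (𝓞 N) N _ = algebraMap (𝓞 N) N _
  rw [map_prod]
  have h2 : ∀ g : N ≃ₐ[ℚ] N, algebraMap (𝓞 N) N (RingOfIntegers.mapRingHom (g : N →+* N) c) =
      g (c : N) := fun g => rfl
  simp only [h2]
  rw [← h1]
  simp

theorem exists_step [IsGalois ℚ N] {ι : Type} [Fintype ι] (T : ι → Nˣ) {m : ℕ} (hm : 0 < m) :
    ∃ z : Nˣ, (∃ r : 𝓞 N, (z : N) = 1 - m * r) ∧
      ∀ (a : (N ≃ₐ[ℚ] N) → ℤ) (e : ι → ℤ), ∏ g, cj g z ^ a g = ∏ i, T i ^ e i → a = 0 := by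
  classical
  obtain ⟨θ, hθ0, hθ⟩ := exists_theta N
  have hT : ∀ i, ∃ a b : 𝓞 N, a ≠ 0 ∧ b ≠ 0 ∧ (T i : N) * b = a := by
    intro i
    obtain ⟨a, b, hb, h⟩ := IsFractionRing.div_surjective (A := 𝓞 N) (T i : N)
    have hb0 : b ≠ 0 := nonZeroDivisors.ne_zero hb
    have hbN : algebraMap (𝓞 N) N b ≠ 0 := by
      rw [Ne, FaithfulSMul.algebraMap_eq_zero_iff]
      exact hb0
    refine ⟨a, b, ?_, hb0, ?_⟩
    · rintro rfl
      rw [map_zero, zero_div] at h
      exact (T i).ne_zero h.symm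
    · rw [← h]
      exact div_mul_cancel₀ _ hbN
  choose A B hA hB hAB using hT
  let gO : (N ≃ₐ[ℚ] N) → 𝓞 N →+* 𝓞 N := fun g => RingOfIntegers.mapRingHom (g : N →+* N)
  have hgO : ∀ g x, ((gO g x : 𝓞 N) : N) = g (x : N) := fun g x => rfl
  have hgOne : ∀ x, gO 1 x = x := fun x => RingOfIntegers.ext rfl
  let c : 𝓞 N := (∏ i, A i * B i) * ∏ g ∈ Finset.univ.erase (1 : N ≃ₐ[ℚ] N), (θ - gO g θ)
  have hc0 : c ≠ 0 := by
    refine mul_ne_zero ?_ ?_
    · rw [Finset.prod_ne_zero_iff]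
      exact fun i _ => mul_ne_zero (hA i) (hB i)
    · rw [Finset.prod_ne_zero_iff]
      intro g hg h
      rw [Finset.mem_erase] at hg
      apply hg.1
      apply hθ
      have h2 : (θ : N) - g (θ : N) = 0 := congrArg (fun x : 𝓞 N => (x : N)) h
      exact (sub_eq_zero.mp h2).symm
  set M : ℤ := Algebra.norm ℤ c with hM
  have hMprod : ((M : ℤ) : 𝓞 N) = ∏ g, gO g c := norm_prod c
  have hM0 : M ≠ 0 := by
    rw [hM, Ne, Algebra.norm_eq_zero_iff]
    exact hc0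
  -- a complex embedding
  obtain ⟨φ⟩ : Nonempty (N →+* ℂ) := inferInstance
  have hpos : ∀ g : N ≃ₐ[ℚ] N, 0 < ‖φ (g (θ : N))‖ := by
    intro g
    rw [norm_pos_iff, Ne, map_eq_zero, map_eq_zero]
    intro h
    exact hθ0 (RingOfIntegers.ext h)
  obtain ⟨s, hs⟩ : ∃ s : ℕ, ∀ g : N ≃ₐ[ℚ] N, 2 < (s : ℝ) * ‖φ (g (θ : N))‖ := by
    have h1 : ∀ g : N ≃ₐ[ℚ] N, ∃ s : ℕ, 2 < (s : ℝ) * ‖φ (g (θ : N))‖ := by
      intro g
      obtain ⟨s, hs⟩ := exists_nat_gt (2 / ‖φ (g (θ : N))‖)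
      exact ⟨s, (div_lt_iff₀ (hpos g)).mp hs⟩
    choose s hs using h1
    refine ⟨∑ g, s g, fun g => lt_of_lt_of_le (hs g) ?_⟩
    gcongr
    exact Finset.single_le_sum (f := s) (fun _ _ => Nat.zero_le _) (Finset.mem_univ g)
  set a : ℕ := m * M.natAbs * s with ha
  have has : s ≤ a := by
    rw [ha]
    exact Nat.le_mul_of_pos_left s (Nat.mul_pos hm (Int.natAbs_pos.mpr hM0))
  let z0 : 𝓞 N := 1 - (a : 𝓞 N) * θ
  have hnorm : ∀ g : N ≃ₐ[ℚ] N, 1 < ‖φ (g (z0 : N))‖ := by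
    intro g
    have h1 : φ (g (z0 : N)) = 1 - (a : ℂ) * φ (g (θ : N)) := by
      have : (z0 : N) = 1 - (a : N) * (θ : N) := by
        simp [z0]
      rw [this]
      simp
    have h2 : ‖(a : ℂ) * φ (g (θ : N))‖ ≤ ‖1 - (a : ℂ) * φ (g (θ : N))‖ + 1 := by
      have h3 := norm_sub_le (1 : ℂ) (1 - (a : ℂ) * φ (g (θ : N)))
      rw [sub_sub_cancel, norm_one] at h3
      linarith
    rw [norm_mul, Complex.norm_natCast] at h2
    have h3 : (s : ℝ) * ‖φ (g (θ : N))‖ ≤ (a : ℝ) * ‖φ (g (θ : N))‖ := by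
      gcongr
    rw [h1]
    have := hs g
    linarith
  have hz0 : (z0 : N) ≠ 0 := by
    intro h
    have := hnorm 1
    rw [h, map_zero, map_zero, norm_zero] at this
    linarith
  have hnu : ¬ IsUnit z0 := by
    intro h
    have h1 : IsUnit (Algebra.norm ℤ z0) := h.map (Algebra.norm ℤ)
    have h2 : ‖φ (((Algebra.norm ℤ z0 : ℤ) : N))‖ = 1 := by
      rcases Int.isUnit_iff.mp h1 with h2 | h2 <;> rw [h2] <;> simp
    have h3 : ((Algebra.norm ℤ z0 : ℤ) : N) = ∏ g : N ≃ₐ[ℚ] N, g (z0 : N) := by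
      have h4 := congrArg (algebraMap (𝓞 N) N) (norm_prod z0)
      rw [map_prod, map_intCast] at h4
      exact h4
    rw [h3, map_prod, _root_.norm_prod] at h2
    have h4 : ∏ _g : N ≃ₐ[ℚ] N, (1 : ℝ) < ∏ g : N ≃ₐ[ℚ] N, ‖φ (g (z0 : N))‖ :=
      Finset.prod_lt_prod_of_nonempty (fun _ _ => one_pos) (fun g _ => hnorm g)
        ⟨1, Finset.mem_univ _⟩
    rw [Finset.prod_const_one] at h4
    exact absurd h2 h4.ne'
  obtain ⟨q, hqm, hzq⟩ := exists_max_ideal_of_mem_nonunits (mem_nonunits_iff.mpr hnu)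
  have hq : q.IsPrime := hqm.isPrime
  have haq : (a : 𝓞 N) ∉ q := by
    intro h
    apply hq.ne_top
    rw [Ideal.eq_top_iff_one]
    have : (1 : 𝓞 N) = z0 + (a : 𝓞 N) * θ := by simp [z0]
    rw [this]
    exact q.add_mem hzq (q.mul_mem_right _ h)
  have hMq : ((M : ℤ) : 𝓞 N) ∉ q := by
    intro h
    apply haq
    have h1 : ((M : ℤ) : 𝓞 N) ∣ ((a : ℕ) : 𝓞 N) := by
      have h2 : M ∣ ((a : ℕ) : ℤ) := by
        rw [ha, mul_comm m, mul_assoc, Nat.cast_mul]
        exact (Int.dvd_natAbs_self).mul_right _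
      obtain ⟨k, hk⟩ := h2
      refine ⟨(k : 𝓞 N), ?_⟩
      have := congrArg (fun x : ℤ => (x : 𝓞 N)) hk
      push_cast at this
      exact this
    obtain ⟨k, hk⟩ := h1
    rw [hk]
    exact q.mul_mem_right _ h
  have hcq : ∀ g, gO g c ∉ q := by
    intro g h
    apply hMq
    rw [hMprod]
    obtain ⟨k, hk⟩ := Finset.dvd_prod_of_mem (fun g => gO g c) (Finset.mem_univ g)
    rw [hk]
    exact q.mul_mem_right _ h
  have hAq : ∀ g i, gO g (A i) ∉ q ∧ gO g (B i) ∉ q := by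
    intro g i
    have h1 : A i * B i ∣ c := Dvd.dvd.mul_right (Finset.dvd_prod_of_mem _ (Finset.mem_univ i)) _
    constructor
    · intro h
      apply hcq g
      obtain ⟨k, hk⟩ := h1
      rw [hk, map_mul, map_mul]
      exact q.mul_mem_right _ (q.mul_mem_right _ h)
    · intro h
      apply hcq g
      obtain ⟨k, hk⟩ := h1
      rw [hk, map_mul, map_mul]
      exact q.mul_mem_right _ (q.mul_mem_left _ h)
  have hzgq : ∀ g, g ≠ 1 → gO g z0 ∉ q := by
    intro g hg h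
    have h1 : z0 - gO g z0 = (a : 𝓞 N) * (gO g θ - θ) := by
      simp only [z0, map_sub, map_one, map_mul, map_natCast]
      ring
    have h2 : (a : 𝓞 N) * (gO g θ - θ) ∈ q := by
      rw [← h1]; exact q.sub_mem hzq h
    have h3 := (hq.mem_or_mem h2).resolve_left haq
    apply hcq 1
    rw [hgOne]
    have h4 : θ - gO g θ ∣ c := Dvd.dvd.mul_left
      (Finset.dvd_prod_of_mem _ (Finset.mem_erase.mpr ⟨hg, Finset.mem_univ g⟩)) _
    obtain ⟨k, hk⟩ := h4
    rw [hk, ← neg_sub]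
    exact q.mul_mem_right _ (q.neg_mem h3)
  refine ⟨Units.mk0 (z0 : N) hz0, ⟨(M.natAbs * s : ℕ) * θ, ?_⟩, ?_⟩
  · rw [Units.val_mk0]
    simp only [z0, ha]
    push_cast
    ring
  · intro a e h
    set z : Nˣ := Units.mk0 (z0 : N) hz0 with hz
    funext γ
    have h1 := congrArg (cj γ⁻¹) h
    rw [map_prod, map_prod, ← Finset.mul_prod_erase _ _ (Finset.mem_univ γ), map_zpow, ← cj_mul,
      inv_mul_cancel, cj_one] at h1
    have h2 : ∏ g ∈ Finset.univ.erase γ, cj γ⁻¹ (cj g z ^ a g) ∈ locU q := by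
      refine Subgroup.prod_mem _ fun g hg => ?_
      rw [map_zpow, ← cj_mul]
      refine Subgroup.zpow_mem _ ?_ _
      refine mem_locU_of_int (a := gO (γ⁻¹ * g) z0) (hzgq _ ?_) ?_
      · rw [Finset.mem_erase] at hg
        intro h3
        exact hg.1 (inv_mul_eq_one.mp h3).symm
      · rw [cj_val, hgO]; rfl
    have h3 : ∏ i, cj γ⁻¹ (T i ^ e i) ∈ locU q := by
      refine Subgroup.prod_mem _ fun i _ => ?_
      rw [map_zpow]
      refine Subgroup.zpow_mem _ ?_ _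
      refine ⟨gO γ⁻¹ (A i), gO γ⁻¹ (B i), (hAq _ i).1, (hAq _ i).2, ?_⟩
      rw [cj_val, hgO, hgO, ← hAB, map_mul]
    have h4 : z ^ a γ ∈ locU q := by
      have h5 : z ^ a γ = (∏ i, cj γ⁻¹ (T i ^ e i)) *
          (∏ g ∈ Finset.univ.erase γ, cj γ⁻¹ (cj g z ^ a g))⁻¹ := by
        rw [← h1, mul_inv_cancel_right]
      rw [h5]
      exact (locU q).mul_mem h3 ((locU q).inv_mem h2)
    exact eq_zero_of_zpow_mem hzq rfl h4

/-- Finitely many elements congruent to `1` modulo `m` whose conjugates are multiplicatively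
independent. -/
theorem exists_family_fin [IsGalois ℚ N] {m : ℕ} (hm : 0 < m) (k : ℕ) :
    ∃ z : Fin k → Nˣ, (∀ j, ∃ r : 𝓞 N, (z j : N) = 1 - m * r) ∧
      ∀ a : Fin k → (N ≃ₐ[ℚ] N) → ℤ, ∏ j, ∏ g, cj g (z j) ^ a j g = 1 → a = 0 := by
  classical
  induction k with
  | zero => exact ⟨fun j => j.elim0, fun j => j.elim0, fun a _ => funext fun j => j.elim0⟩
  | succ k ih =>
    obtain ⟨z, hz, hind⟩ := ih
    obtain ⟨y, hy, hyi⟩ := exists_step (fun x : Fin k × (N ≃ₐ[ℚ] N) => cj x.2 (z x.1)) hm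
    refine ⟨Fin.snoc z y, ?_, ?_⟩
    · intro j
      induction j using Fin.lastCases with
      | last => rw [Fin.snoc_last]; exact hy
      | cast j => rw [Fin.snoc_castSucc]; exact hz j
    · intro a h
      rw [Fin.prod_univ_castSucc] at h
      simp only [Fin.snoc_castSucc, Fin.snoc_last] at h
      have h1 : a (Fin.last k) = 0 := by
        apply hyi (a (Fin.last k)) (fun x => - a x.1.castSucc x.2)
        rw [Fintype.prod_prod_type]
        simp only [zpow_neg, Finset.prod_inv_distrib]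
        exact eq_inv_of_mul_eq_one_right h
      rw [h1] at h
      simp only [Pi.zero_apply, zpow_zero, Finset.prod_const_one, mul_one] at h
      have h2 := hind (fun j => a j.castSucc) h
      funext j
      induction j using Fin.lastCases with
      | last => exact h1
      | cast j => exact congrFun h2 j

theorem exists_family [IsGalois ℚ N] {m : ℕ} (hm : 0 < m) (J : Type) [Fintype J] :
    ∃ z : J → Nˣ, (∀ j, ∃ r : 𝓞 N, (z j : N) = 1 - m * r) ∧
      ∀ a : J → (N ≃ₐ[ℚ] N) → ℤ, ∏ j, ∏ g, cj g (z j) ^ a j g = 1 → a = 0 := by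
  classical
  let e := Fintype.equivFin J
  obtain ⟨z, hz, hind⟩ := exists_family_fin (N := N) hm (Fintype.card J)
  refine ⟨fun j => z (e j), fun j => hz _, fun a h => ?_⟩
  have h1 := hind (fun k => a (e.symm k)) (by
    rw [← h, ← Equiv.prod_comp e]
    simp)
  funext j
  have := congrFun h1 (e j)
  simpa using this

end conj

end Pool.Agent.J4H74.T3
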