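import Mathlib
import Pool.Agent.H440R3.Defs
import Pool.Agent.H440R3.Fill
import Pool.Agent.J4H74.T3.Comb
import Pool.Agent.J4H74.T3.Gen

set_option autoImplicit false

/-!
# The group `L`, its rank, and its position with respect to algebraic subgroups
-/

namespace Pool.Agent.J4H74.T3

open Pool.Agent.H440R3

theorem prod_zpow_sum {ι G : Type*} [CommGroup G] (s : Finset ι) (u : G) (f : ι → ℤ) :
    ∏ x ∈ s, u ^ f x = u ^ ∑ x ∈ s, f x := by
  classical
  induction s using Finset.induction_on with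
  | empty => simp
  | insert a s ha ih => rw [Finset.prod_insert ha, Finset.sum_insert ha, zpow_add, ih]

/-- The data of the construction. -/
structure Dat (K N : Type) [Field K] [NumberField K] [Field N] [NumberField N] [Algebra K N]
    (n e : ℕ) where
  /-- matrix coefficients -/
  m : Fin 3 → Fin n → (N ≃ₐ[ℚ] N) → ℤ
  hspan : ∀ a : Fin 3 → Fin n → ℚ, (∀ g, ∑ i, ∑ s, a i s * (m i s g : ℚ) = 0) → a = 0
  /-- independent elements -/
  z : JJ e × Fin n → Nˣ
  hz : ∀ a : JJ e × Fin n → (N ≃ₐ[ℚ] N) → ℤ, ∏ j, ∏ g, cj g (z j) ^ a j g = 1 → a = 0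
  /-- elements of `K` -/
  y : Fin 3 → JJ e → Kˣ
  hy : ∀ i j, Units.map (algebraMap K N : K →* N) (y i j) =
    ∏ s, ∏ g, cj g (z (j, s)) ^ m i s g

namespace Dat

variable {K N : Type} [Field K] [NumberField K] [Field N] [NumberField N] [Algebra K N]
  {n e : ℕ} (P : Dat K N n e)

/-- The homomorphism whose image is `L`. -/
def Y : Multiplicative (Idx e → ℤ) →* Kˣ where
  toFun c := ∏ i, ∏ j, P.y i j ^ (mat (Multiplicative.toAdd c) i j)
  map_one' := by
    refine Finset.prod_eq_one fun i _ => Finset.prod_eq_one fun j _ => ?_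
    rw [toAdd_one, mat_zero, zpow_zero]
  map_mul' c c' := by
    rw [← Finset.prod_mul_distrib]
    refine Finset.prod_congr rfl fun i _ => ?_
    rw [← Finset.prod_mul_distrib]
    refine Finset.prod_congr rfl fun j _ => ?_
    rw [toAdd_mul, mat_add, zpow_add]

theorem Y_apply (c : Idx e → ℤ) :
    P.Y (Multiplicative.ofAdd c) = ∏ i, ∏ j, P.y i j ^ (mat c i j) := rfl

/-- The conjugates of the elements of `L`. -/
theorem cj_Y (γ : N ≃ₐ[ℚ] N) (c : Idx e → ℤ) :
    cj γ (Units.map (algebraMap K N : K →* N) (P.Y (Multiplicative.ofAdd c))) =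
      ∏ j : JJ e × Fin n, ∏ g, cj g (P.z j) ^ (∑ i, mat c i j.1 * P.m i j.2 (γ⁻¹ * g)) := by
  rw [Y_apply, map_prod, map_prod]
  have h1 : ∀ i, cj γ (Units.map (algebraMap K N : K →* N) (∏ j, P.y i j ^ (mat c i j))) =
      ∏ j : JJ e × Fin n, ∏ g, cj g (P.z j) ^ (mat c i j.1 * P.m i j.2 (γ⁻¹ * g)) := by
    intro i
    rw [map_prod, map_prod, Fintype.prod_prod_type]
    refine Finset.prod_congr rfl fun j _ => ?_
    rw [map_zpow, map_zpow, P.hy, map_prod, ← Finset.prod_zpow]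
    refine Finset.prod_congr rfl fun s _ => ?_
    rw [map_prod, ← Finset.prod_zpow, ← Equiv.prod_comp (Equiv.mulLeft γ)
      (fun g => cj g (P.z (j, s)) ^ (mat c i j * P.m i s (γ⁻¹ * g)))]
    refine Finset.prod_congr rfl fun g _ => ?_
    rw [map_zpow, ← cj_mul, Equiv.coe_mulLeft, inv_mul_cancel_left, ← zpow_mul, mul_comm (P.m i s g)]
  simp only [h1]
  rw [Finset.prod_comm]
  refine Finset.prod_congr rfl fun j _ => ?_
  rw [Finset.prod_comm]
  refine Finset.prod_congr rfl fun g _ => ?_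
  rw [prod_zpow_sum]

theorem eq_zero_of_sum {a : Fin 3 → ℚ} (hn : 0 < n)
    (h : ∀ s g, ∑ i, a i * (P.m i s g : ℚ) = 0) : a = 0 := by
  have h1 := P.hspan (fun i s => if s = ⟨0, hn⟩ then a i else 0) (by
    intro g
    rw [Finset.sum_comm]
    refine Finset.sum_eq_zero fun s _ => ?_
    by_cases hs : s = ⟨0, hn⟩
    · subst hs
      simp only [if_true]
      exact h _ g
    · simp [hs])
  funext i
  have := congrFun (congrFun h1 i) ⟨0, hn⟩
  simpa using this

theorem Y_injective (hn : 0 < n) : Function.Injective P.Y := by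
  rw [injective_iff_map_eq_one]
  intro c hc
  obtain ⟨c, rfl⟩ := Multiplicative.ofAdd.surjective c
  have h := P.cj_Y 1 c
  rw [hc, map_one, map_one] at h
  have h1 := P.hz _ h.symm
  have h2 : c = 0 := by
    apply eq_zero_of_mat
    intro i j
    have h3 : (fun i => ((mat c i j : ℤ) : ℚ)) = 0 := by
      apply P.eq_zero_of_sum hn
      intro s g
      have h4 := congrFun (congrFun h1 (j, s)) g
      simp only [inv_one, one_mul, Pi.zero_apply] at h4
      exact_mod_cast h4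
    have h5 := congrFun h3 i
    simpa using h5
  rw [h2, ofAdd_zero]

/-- The group `L`. -/
def L : Subgroup Kˣ := P.Y.range

theorem L_fg : P.L.FG := by
  unfold L
  exact (Group.fg_iff_subgroup_fg _).mp (Group.fg_range P.Y)

/-- `L` is free. -/
noncomputable def eqL (hn : 0 < n) : Multiplicative (Idx e → ℤ) ≃* P.L :=
  MonoidHom.ofInjective (P.Y_injective hn)

theorem rk_L (hn : 0 < n) : rk P.L = 3 * (e + 1) := by
  unfold rk
  let f : Additive P.L ≃+ (Idx e → ℤ) :=
    { toFun := fun x => Multiplicative.toAdd ((P.eqL hn).symm x.toMul)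
      invFun := fun c => Additive.ofMul (P.eqL hn (Multiplicative.ofAdd c))
      left_inv := fun x => by simp
      right_inv := fun c => by simp
      map_add' := fun x y => by
        rw [toMul_add, map_mul, toAdd_mul] }
  rw [f.toIntLinearEquiv.finrank_eq, Module.finrank_fintype_fun_eq_card, card_Idx]

section emb

variable (p : ℕ) [Fact p.Prime] (ι : N →ₐ[ℚ] AlgebraicClosure ℚ_[p])
  (γ : Emb p K → (N ≃ₐ[ℚ] N)) (hγ : ∀ τ (x : K), τ x = ι (γ τ (algebraMap K N x)))

theorem map_emb {p : ℕ} [Fact p.Prime] {ι : N →ₐ[ℚ] AlgebraicClosure ℚ_[p]}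
    {γ : Emb p K → (N ≃ₐ[ℚ] N)} (hγ : ∀ τ (x : K), τ x = ι (γ τ (algebraMap K N x)))
    (τ : Emb p K) (x : Kˣ) :
    Units.map (τ : K →* AlgebraicClosure ℚ_[p]) x =
      Units.map (ι : N →* AlgebraicClosure ℚ_[p])
        (cj (γ τ) (Units.map (algebraMap K N : K →* N) x)) := by
  ext
  exact hγ τ x

include hγ in
theorem charValue_Y (χ : Emb p K → ℤ) (c : Idx e → ℤ) :
    charValue p K χ (P.Y (Multiplicative.ofAdd c)) =
      Units.map (ι : N →* AlgebraicClosure ℚ_[p])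
        (∏ j : JJ e × Fin n, ∏ g, cj g (P.z j) ^
          (∑ τ, χ τ * ∑ i, mat c i j.1 * P.m i j.2 ((γ τ)⁻¹ * g))) := by
  unfold charValue
  simp only [map_emb hγ, cj_Y]
  simp only [← map_zpow]
  rw [← map_prod]
  congr 1
  simp only [← Finset.prod_zpow]
  rw [Finset.prod_comm]
  refine Finset.prod_congr rfl fun j _ => ?_
  rw [Finset.prod_comm]
  refine Finset.prod_congr rfl fun g _ => ?_
  have h1 : ∀ τ, (cj g (P.z j) ^ ∑ i, mat c i j.1 * P.m i j.2 ((γ τ)⁻¹ * g)) ^ χ τ =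
      cj g (P.z j) ^ (χ τ * ∑ i, mat c i j.1 * P.m i j.2 ((γ τ)⁻¹ * g)) := by
    intro τ
    rw [← zpow_mul, mul_comm]
  simp only [map_zpow] at h1 ⊢
  simp only [h1]
  exact prod_zpow_sum _ _ _

variable (Ψ : AddSubgroup (Emb p K → ℤ))

/-- The vectors of `ℚ³` killed by all characters of `Ψ`. -/
def CC : Submodule ℚ (Fin 3 → ℚ) where
  carrier := {a | ∀ χ ∈ Ψ, ∀ s g, ∑ τ, (χ τ : ℚ) * ∑ i, a i * (P.m i s ((γ τ)⁻¹ * g) : ℚ) = 0}
  add_mem' := by
    intro v w hv hw χ hχ s g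
    simp only [Pi.add_apply, add_mul, mul_add, Finset.sum_add_distrib, hv χ hχ s g, hw χ hχ s g,
      add_zero]
  zero_mem' := by
    intro χ _ s g
    simp
  smul_mem' := by
    intro r v hv χ hχ s g
    have h : ∀ τ, (χ τ : ℚ) * ∑ i, (r • v) i * (P.m i s ((γ τ)⁻¹ * g) : ℚ) =
        r * ((χ τ : ℚ) * ∑ i, v i * (P.m i s ((γ τ)⁻¹ * g) : ℚ)) := by
      intro τ
      simp only [Pi.smul_apply, smul_eq_mul, mul_assoc]
      rw [← Finset.mul_sum]
      ring
    simp only [h, ← Finset.mul_sum, hv χ hχ s g, mul_zero]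

/-- The matrices whose columns lie in `CC`. -/
def DD : Submodule ℚ (Idx e → ℚ) where
  carrier := {c | ∀ j, (fun i => mat c i j) ∈ P.CC p γ Ψ}
  add_mem' := by
    intro c c' hc hc' j
    have h : (fun i => mat (c + c') i j) = (fun i => mat c i j) + fun i => mat c' i j := by
      funext i; exact mat_add c c' i j
    rw [h]
    exact (P.CC p γ Ψ).add_mem (hc j) (hc' j)
  zero_mem' := by
    intro j
    have h : (fun i => mat (0 : Idx e → ℚ) i j) = 0 := by
      funext i; exact mat_zero i j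
    rw [h]
    exact (P.CC p γ Ψ).zero_mem
  smul_mem' := by
    intro s c hc j
    have h : (fun i => mat (s • c) i j) = s • fun i => mat c i j := by
      funext i; exact mat_smul s c i j
    rw [h]
    exact (P.CC p γ Ψ).smul_mem s (hc j)

include hγ in
theorem mem_DD (c : Idx e → ℤ)
    (h : P.Y (Multiplicative.ofAdd c) ∈ ratPoints p K Ψ) :
    (fun x => (c x : ℚ)) ∈ P.DD p γ Ψ := by
  intro j χ hχ s g
  have h1 : charValue p K χ (P.Y (Multiplicative.ofAdd c)) = 1 := h χ hχ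
  rw [P.charValue_Y p ι γ hγ] at h1
  have h2 : Function.Injective (Units.map (ι : N →* AlgebraicClosure ℚ_[p])) :=
    Units.map_injective ι.toRingHom.injective
  have h3 := h2 (h1.trans (map_one _).symm)
  have h4 := congrFun (congrFun (P.hz _ h3) (j, s)) g
  simp only [Pi.zero_apply] at h4
  have h5 : ((∑ τ, χ τ * ∑ i, mat c i j * P.m i s ((γ τ)⁻¹ * g) : ℤ) : ℚ) = 0 := by
    rw [h4]; simp
  rw [← h5]
  push_cast
  refine Finset.sum_congr rfl fun τ _ => ?_
  congr 1
  refine Finset.sum_congr rfl fun i _ => ?_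
  congr 1
  exact (mat_map (Int.castAddHom ℚ) c i j).symm

include hγ in
theorem rk_inf_le (hn : 0 < n) :
    rk ↥(P.L ⊓ ratPoints p K Ψ) ≤ Module.finrank ℚ (P.DD p γ Ψ) := by
  unfold rk
  let g : ↥(P.L ⊓ ratPoints p K Ψ) → (Idx e → ℤ) := fun x =>
    Multiplicative.toAdd ((P.eqL hn).symm ⟨x.1, x.2.1⟩)
  have hg : ∀ x, P.Y (Multiplicative.ofAdd (g x)) = x.1 := by
    intro x
    have h := (P.eqL hn).apply_symm_apply ⟨x.1, x.2.1⟩
    exact congrArg Subtype.val h
  have hgadd : ∀ x y, g (x * y) = g x + g y := by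
    intro x y
    have h1 : Multiplicative.ofAdd (g (x * y)) =
        Multiplicative.ofAdd (g x) * Multiplicative.ofAdd (g y) := by
      apply P.Y_injective hn
      rw [hg, map_mul, hg, hg]; rfl
    exact h1
  let f : Additive ↥(P.L ⊓ ratPoints p K Ψ) →+ P.DD p γ Ψ := AddMonoidHom.mk'
    (fun x => ⟨fun i => ((g x.toMul i : ℤ) : ℚ), P.mem_DD p ι γ hγ Ψ (g x.toMul) (by
      rw [hg]; exact x.toMul.2.2)⟩) (by
      intro x y
      apply Subtype.ext
      funext i
      show ((g (x + y).toMul i : ℤ) : ℚ) = (g x.toMul i : ℚ) + (g y.toMul i : ℚ)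
      rw [toMul_add, hgadd]
      simp)
  refine finrank_int_le f ?_
  intro x y hxy
  have h1 : g x.toMul = g y.toMul := by
    funext i
    have := congrFun (congrArg Subtype.val hxy) i
    have h2 : ((g x.toMul i : ℤ) : ℚ) = ((g y.toMul i : ℤ) : ℚ) := this
    exact_mod_cast h2
  have h2 : (x.toMul : ↥(P.L ⊓ ratPoints p K Ψ)).1 = (y.toMul : ↥(P.L ⊓ ratPoints p K Ψ)).1 := by
    rw [← hg, ← hg, h1]
  exact Additive.toMul.injective (Subtype.ext h2)

/-- The linear map `(a_s) ↦ (τ ↦ ∑_{s, i} a_s(i) m_i(s, γ_τ⁻¹))`. -/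
def Th : (Fin n → P.CC p γ Ψ) →ₗ[ℚ] (Emb p K → ℚ) where
  toFun a τ := ∑ i, ∑ s, (a s : Fin 3 → ℚ) i * (P.m i s (γ τ)⁻¹ : ℚ)
  map_add' w w' := by
    funext τ
    simp only [Pi.add_apply, Submodule.coe_add, add_mul, Finset.sum_add_distrib]
  map_smul' s w := by
    funext τ
    simp only [Pi.smul_apply, Submodule.coe_smul, RingHom.id_apply, smul_eq_mul, mul_assoc,
      Finset.mul_sum]

/-- Every automorphism is, up to an automorphism trivial on `K`, of the form `γ τ`; the matrix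
coefficients do not see the difference. -/
def Cover : Prop := ∀ g : N ≃ₐ[ℚ] N, ∃ τ : Emb p K, ∀ i s, P.m i s (γ τ)⁻¹ = P.m i s g

theorem Th_injective (hcov : P.Cover p γ) : Function.Injective (P.Th p γ Ψ) := by
  rw [← LinearMap.ker_eq_bot, LinearMap.ker_eq_bot']
  intro a ha
  have h1 := P.hspan (fun i s => (a s : Fin 3 → ℚ) i) (by
    intro g
    obtain ⟨τ, hτ⟩ := hcov g
    have h2 := congrFun ha τ
    simp only [Th, LinearMap.coe_mk, AddHom.coe_mk, Pi.zero_apply, hτ] at h2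
    exact h2)
  funext s
  apply Subtype.ext
  funext i
  exact congrFun (congrFun h1 i) s

/-- The `ℚ`-span of the characters. -/
def PQ : Submodule ℚ (Emb p K → ℚ) :=
  Submodule.span ℚ ((fun (χ : Emb p K → ℤ) τ => (χ τ : ℚ)) '' (Ψ : Set (Emb p K → ℤ)))

omit P in
theorem finrank_Psi_le : Module.finrank ℤ Ψ ≤ Module.finrank ℚ (PQ p Ψ) := by
  let f : Ψ →+ PQ p Ψ := AddMonoidHom.mk'
    (fun χ => ⟨fun τ => ((χ : Emb p K → ℤ) τ : ℚ),
      Submodule.subset_span ⟨(χ : Emb p K → ℤ), χ.2, rfl⟩⟩) (by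
      intro χ χ'
      apply Subtype.ext
      funext τ
      show (((χ + χ' : Ψ) : Emb p K → ℤ) τ : ℚ) =
        ((χ : Emb p K → ℤ) τ : ℚ) + ((χ' : Emb p K → ℤ) τ : ℚ)
      simp)
  refine finrank_int_le f ?_
  intro χ χ' h
  apply Subtype.ext
  funext τ
  have := congrFun (congrArg Subtype.val h) τ
  have h2 : (((χ : Emb p K → ℤ) τ : ℤ) : ℚ) = (((χ' : Emb p K → ℤ) τ : ℤ) : ℚ) := this
  exact_mod_cast h2

theorem orth (u v : Emb p K → ℚ) (hu : u ∈ PQ p Ψ) (hv : v ∈ LinearMap.range (P.Th p γ Ψ)) :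
    ∑ τ, u τ * v τ = 0 := by
  obtain ⟨a, rfl⟩ := hv
  induction hu using Submodule.span_induction with
  | mem x hx =>
    obtain ⟨χ, hχ, rfl⟩ := hx
    simp only [Th, LinearMap.coe_mk, AddHom.coe_mk]
    have h1 : ∀ τ, (χ τ : ℚ) * ∑ i, ∑ s, (a s : Fin 3 → ℚ) i * (P.m i s (γ τ)⁻¹ : ℚ) =
        ∑ s, (χ τ : ℚ) * ∑ i, (a s : Fin 3 → ℚ) i * (P.m i s ((γ τ)⁻¹ * 1) : ℚ) := by
      intro τ
      rw [Finset.sum_comm, Finset.mul_sum]
      simp only [mul_one]
    simp only [h1]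
    rw [Finset.sum_comm]
    refine Finset.sum_eq_zero fun s _ => ?_
    exact (a s).2 χ hχ s 1
  | zero => simp
  | add x y _ _ hx hy =>
    simp only [Pi.add_apply, add_mul, Finset.sum_add_distrib, hx, hy, add_zero]
  | smul r x _ hx =>
    simp only [Pi.smul_apply, smul_eq_mul, mul_assoc, ← Finset.mul_sum, hx, mul_zero]

theorem dim_le (hcov : P.Cover p γ) :
    n * Module.finrank ℚ (P.CC p γ Ψ) + Module.finrank ℤ Ψ ≤ Module.finrank ℚ K := by
  have hdisj : Disjoint (PQ p Ψ) (LinearMap.range (P.Th p γ Ψ)) := by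
    rw [Submodule.disjoint_def]
    intro u hu hv
    have h := P.orth p γ Ψ u u hu hv
    have h2 : ∀ τ ∈ Finset.univ, u τ * u τ = 0 :=
      (Finset.sum_eq_zero_iff_of_nonneg (fun τ _ => mul_self_nonneg (u τ))).mp h
    funext τ
    exact mul_self_eq_zero.mp (h2 τ (Finset.mem_univ _))
  have h1 := Submodule.finrank_add_finrank_le_of_disjoint hdisj
  rw [LinearMap.finrank_range_of_inj (P.Th_injective p γ Ψ hcov), Module.finrank_pi_fintype,
    Finset.sum_const, Finset.card_univ, Fintype.card_fin, smul_eq_mul,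
    Module.finrank_fintype_fun_eq_card] at h1
  have h2 : Fintype.card (Emb p K) = Module.finrank ℚ K := AlgHom.card ℚ K _
  rw [h2] at h1
  have h3 := finrank_Psi_le (K := K) p Ψ
  omega

end emb

end Dat

theorem Dat.rank_condition {K N : Type} [Field K] [NumberField K] [Field N] [NumberField N]
    [Algebra K N] {e : ℕ} (P : Dat K N (e + 1) e) (p : ℕ) [Fact p.Prime]
    (ι : N →ₐ[ℚ] AlgebraicClosure ℚ_[p])
    (γ : Emb p K → (N ≃ₐ[ℚ] N)) (hγ : ∀ τ (x : K), τ x = ι (γ τ (algebraMap K N x)))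
    (hcov : P.Cover p γ) (Ψ : AddSubgroup (Emb p K → ℤ)) :
    rk ↥(P.L ⊓ ratPoints p K Ψ) + Module.finrank ℤ Ψ ≤ Module.finrank ℚ K := by
  have h1 := P.rk_inf_le p ι γ hγ Ψ (Nat.succ_pos e)
  have h2 := finrank_mat_le (P.CC p γ Ψ) (P.DD p γ Ψ) (fun c hc => hc)
  have h3 := P.dim_le p γ Ψ hcov
  omega

end Pool.Agent.J4H74.T3
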