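import Mathlib
import Pool.Agent.J4H74.T3.Dat

set_option autoImplicit false

/-!
# Construction of the data from a representation
-/

namespace Pool.Agent.J4H74.T3

open NumberField

theorem exists_den {T : Type} [Fintype T] (q : T → ℚ) : ∃ D : ℕ, 0 < D ∧ ∀ t, ∃ k : ℤ,
    (k : ℚ) = D * q t := by
  classical
  refine ⟨∏ t, (q t).den, Finset.prod_pos fun t _ => (q t).den_pos, fun t => ?_⟩
  obtain ⟨c, hc⟩ := Finset.dvd_prod_of_mem (fun t => (q t).den) (Finset.mem_univ t)
  refine ⟨c * (q t).num, ?_⟩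
  rw [hc]
  push_cast
  have h1 : ((q t).den : ℚ) * q t = (q t).num := by
    rw [mul_comm]; exact Rat.mul_den_eq_num _
  linear_combination (-(c : ℚ)) * h1

variable {K N : Type} [Field K] [NumberField K] [Field N] [NumberField N] [Algebra K N]
  [IsGalois ℚ N]

/-- The data of the construction. -/
theorem exists_dat {W : Type} [AddCommGroup W] [Module ℚ W] {n : ℕ}
    (b : Module.Basis (Fin n) ℚ W) (ρ : Representation ℚ (N ≃ₐ[ℚ] N) W) (w : Fin 3 → W)
    (hfix : ∀ g : N ≃ₐ[ℚ] N, (∀ x : K, g (algebraMap K N x) = algebraMap K N x) →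
      ∀ i, ρ g (w i) = w i)
    (hspan : Submodule.span ℚ {v : Fin 3 → W | ∃ g, v = fun i => ρ g (w i)} = ⊤)
    (e : ℕ) {M : ℕ} (hM : 0 < M) {D₀ : ℕ} (hD₀ : 0 < D₀) :
    ∃ (D : ℕ) (P : Dat K N n e), 0 < D ∧
      (∀ i s g, (P.m i s g : ℚ) = D * b.repr (ρ g⁻¹ (w i)) s) ∧
      (∀ i s g, ∃ k : ℤ, P.m i s g = D₀ * k) ∧
      (∀ j, ∃ r : 𝓞 N, (P.z j : N) = 1 - M * r) := by
  classical
  obtain ⟨D, hD, hk⟩ := exists_den (fun t : Fin 3 × Fin n × (N ≃ₐ[ℚ] N) =>
    b.repr (ρ t.2.2⁻¹ (w t.1)) t.2.1)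
  choose k hk using hk
  obtain ⟨z, hz, hind⟩ := exists_family (N := N) hM (JJ e × Fin n)
  let m : Fin 3 → Fin n → (N ≃ₐ[ℚ] N) → ℤ := fun i s g => D₀ * k (i, s, g)
  have hm : ∀ i s g, (m i s g : ℚ) = (D₀ * D : ℕ) * b.repr (ρ g⁻¹ (w i)) s := by
    intro i s g
    have := hk (i, s, g)
    simp only [m]
    push_cast
    rw [this]
    ring
  have hinv : ∀ h : N ≃ₐ[ℚ] N, (∀ x : K, h (algebraMap K N x) = algebraMap K N x) →
      ∀ i s g, m i s (h⁻¹ * g) = m i s g := by
    intro h hh i s g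
    have h1 : ((m i s (h⁻¹ * g) : ℤ) : ℚ) = ((m i s g : ℤ) : ℚ) := by
      rw [hm, hm, mul_inv_rev, inv_inv, map_mul, Module.End.mul_apply, hfix h hh]
    exact_mod_cast h1
  let x : Fin 3 → JJ e → Nˣ := fun i j => ∏ s, ∏ g, cj g (z (j, s)) ^ m i s g
  have hx : ∀ h : N ≃ₐ[ℚ] N, (∀ x : K, h (algebraMap K N x) = algebraMap K N x) →
      ∀ i j, cj h (x i j) = x i j := by
    intro h hh i j
    simp only [x]
    rw [map_prod]
    refine Finset.prod_congr rfl fun s _ => ?_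
    rw [map_prod, ← Equiv.prod_comp (Equiv.mulLeft h) (fun g => cj g (z (j, s)) ^ m i s g)]
    refine Finset.prod_congr rfl fun g _ => ?_
    rw [map_zpow, ← cj_mul, Equiv.coe_mulLeft, ← hinv h hh i s (h * g), inv_mul_cancel_left]
  have htower : IsScalarTower ℚ K N := inferInstance
  have hgal : IsGalois K N := IsGalois.tower_top_of_isGalois ℚ K N
  have hfd : FiniteDimensional K N := FiniteDimensional.right ℚ K N
  have hex : ∀ i j, ∃ y : Kˣ, Units.map (algebraMap K N : K →* N) y = x i j := by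
    intro i j
    have h1 : ((x i j : Nˣ) : N) ∈ Set.range (algebraMap K N) := by
      rw [IsGalois.mem_range_algebraMap_iff_fixed]
      intro f
      have h2 := hx (f.restrictScalars ℚ) (fun y => f.commutes y) i j
      have h3 := congrArg (fun u : Nˣ => (u : N)) h2
      exact h3
    obtain ⟨y, hy⟩ := h1
    have hy0 : y ≠ 0 := by
      rintro rfl
      rw [map_zero] at hy
      exact (x i j).ne_zero hy.symm
    refine ⟨Units.mk0 y hy0, ?_⟩
    ext
    exact hy
  choose y hy using hex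
  refine ⟨D₀ * D, ⟨m, ?_, z, hind, y, hy⟩, Nat.mul_pos hD₀ hD, hm, fun i s g => ⟨_, rfl⟩, hz⟩
  intro a ha
  let F : (Fin 3 → W) →ₗ[ℚ] ℚ :=
    ∑ i, ∑ s, a i s • ((b.coord s).comp (LinearMap.proj i))
  have hF : ∀ v, F v = ∑ i, ∑ s, a i s * b.repr (v i) s := by
    intro v
    simp only [F, LinearMap.sum_apply, LinearMap.smul_apply, LinearMap.comp_apply,
      LinearMap.proj_apply, Module.Basis.coord_apply, smul_eq_mul]
  have hDQ : ((D₀ * D : ℕ) : ℚ) ≠ 0 := by exact_mod_cast (Nat.mul_pos hD₀ hD).ne'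
  have hF0 : F = 0 := by
    apply LinearMap.ext_on hspan
    rintro _ ⟨g, rfl⟩
    rw [hF, LinearMap.zero_apply]
    have h1 := ha g⁻¹
    simp only [hm, inv_inv] at h1
    have h2 : ∑ i, ∑ s, a i s * (((D₀ * D : ℕ) : ℚ) * b.repr (ρ g (w i)) s) =
        ((D₀ * D : ℕ) : ℚ) * ∑ i, ∑ s, a i s * b.repr (ρ g (w i)) s := by
      simp only [Finset.mul_sum]
      refine Finset.sum_congr rfl fun i _ => Finset.sum_congr rfl fun s _ => ?_
      ring
    rw [h2] at h1
    exact (mul_eq_zero.mp h1).resolve_left hDQ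
  funext i s
  have h1 := congrArg (fun f => f (Pi.single i (b s))) hF0
  simp only [hF, LinearMap.zero_apply] at h1
  rw [Finset.sum_eq_single i, Finset.sum_eq_single s] at h1
  · simpa using h1
  · intro s' _ hs
    rw [Pi.single_eq_same, Module.Basis.repr_self, Finsupp.single_eq_of_ne hs, mul_zero]
  · intro h; exact absurd (Finset.mem_univ _) h
  · intro i' _ hi
    rw [Pi.single_eq_of_ne hi]
    simp
  · intro h; exact absurd (Finset.mem_univ _) h

/-- Every homomorphism of `N` differs from a given one by an automorphism. -/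
theorem exists_gal {E : Type} [Field E] [CharZero E] (ι τ : N →ₐ[ℚ] E) :
    ∃ g : N ≃ₐ[ℚ] N, ∀ x, τ x = ι (g x) := by
  letI : Algebra N E := ι.toRingHom.toAlgebra
  haveI : IsScalarTower ℚ N E := IsScalarTower.of_algebraMap_eq fun q => (ι.commutes q).symm
  refine ⟨Normal.algHomEquivAut ℚ E N τ, fun x => ?_⟩
  have h := (Normal.algHomEquivAut ℚ E N).symm_apply_apply τ
  conv_lhs => rw [← h]
  rfl

/-- Every homomorphism of `K` is the restriction of a homomorphism of `N`. -/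
theorem exists_gal_sub {E : Type} [Field E] [CharZero E] [IsAlgClosed E] (ι : N →ₐ[ℚ] E)
    (τ : K →ₐ[ℚ] E) : ∃ g : N ≃ₐ[ℚ] N, ∀ x, τ x = ι (g (algebraMap K N x)) := by
  letI : Algebra K E := τ.toRingHom.toAlgebra
  have htower : IsScalarTower ℚ K N := inferInstance
  have halg : Algebra.IsAlgebraic K N := Algebra.IsAlgebraic.tower_top (K := ℚ) K
  let f : N →ₐ[K] E := IsAlgClosed.lift
  obtain ⟨g, hg⟩ := exists_gal ι (f : N →+* E).toRatAlgHom
  refine ⟨g, fun x => ?_⟩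
  rw [← hg]
  exact (f.commutes x).symm

end Pool.Agent.J4H74.T3
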