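import Mathlib

set_option autoImplicit false

/-!
# Fields in the commutant of an irreducible rational representation of a finite group
-/

namespace Pool.Agent.J4H74.T3

open Polynomial

section

variable {G : Type} [Group G] {W : Type} [AddCommGroup W] [Module ℚ W]

/-- The only invariant subspaces are the trivial ones. -/
def Irr (ρ : Representation ℚ G W) : Prop :=
  ∀ Y : Submodule ℚ W, (∀ g, ∀ y ∈ Y, ρ g y ∈ Y) → Y = ⊥ ∨ Y = ⊤

/-- `e` commutes with the action. -/
def Cm (ρ : Representation ℚ G W) (e : Module.End ℚ W) : Prop := ∀ g y, e (ρ g y) = ρ g (e y)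

variable {ρ : Representation ℚ G W}

theorem Cm.mul {e f : Module.End ℚ W} (he : Cm ρ e) (hf : Cm ρ f) : Cm ρ (e * f) := by
  intro g y
  rw [Module.End.mul_apply, Module.End.mul_apply, hf, he]

theorem Cm.add {e f : Module.End ℚ W} (he : Cm ρ e) (hf : Cm ρ f) : Cm ρ (e + f) := by
  intro g y
  rw [LinearMap.add_apply, LinearMap.add_apply, hf, he, map_add]

theorem Cm.sub {e f : Module.End ℚ W} (he : Cm ρ e) (hf : Cm ρ f) : Cm ρ (e - f) := by
  intro g y
  rw [LinearMap.sub_apply, LinearMap.sub_apply, hf, he, map_sub]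

theorem Cm.scalar (q : ℚ) : Cm ρ (algebraMap ℚ (Module.End ℚ W) q) := by
  intro g y
  rw [Module.algebraMap_end_apply, Module.algebraMap_end_apply, map_smul]

theorem Cm.aeval {x : Module.End ℚ W} (hx : Cm ρ x) (q : ℚ[X]) : Cm ρ (aeval x q) := by
  induction q using Polynomial.induction_on' with
  | add p q hp hq => rw [map_add]; exact hp.add hq
  | monomial n a =>
    rw [Polynomial.aeval_monomial]
    refine (Cm.scalar a).mul ?_
    induction n with
    | zero => rw [pow_zero]; intro g y; rfl
    | succ n ih => rw [pow_succ]; exact ih.mul hx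

theorem Cm.injective (hirr : Irr ρ) {e : Module.End ℚ W} (he : Cm ρ e) (h0 : e ≠ 0) :
    Function.Injective e := by
  rcases hirr (LinearMap.ker e) (by
    intro g y hy
    rw [LinearMap.mem_ker] at hy ⊢
    rw [he, hy, map_zero]) with h | h
  · exact LinearMap.ker_eq_bot.mp h
  · exact absurd (LinearMap.ker_eq_top.mp h) h0

theorem Cm.mul_eq_zero (hirr : Irr ρ) {e f : Module.End ℚ W} (he : Cm ρ e) (h : e * f = 0) :
    e = 0 ∨ f = 0 := by
  by_cases h0 : e = 0
  · exact Or.inl h0
  · right
    apply LinearMap.ext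
    intro y
    apply he.injective hirr h0
    have := congrArg (fun h => h y) h
    simpa using this

variable [FiniteDimensional ℚ W] [Nontrivial W]

theorem minpoly_irreducible (hirr : Irr ρ) {x : Module.End ℚ W} (hx : Cm ρ x) :
    Irreducible (minpoly ℚ x) := by
  have hint : IsIntegral ℚ x := Algebra.IsIntegral.isIntegral x
  refine ⟨minpoly.not_isUnit ℚ x, fun a b hab => ?_⟩
  have h1 : aeval x a * aeval x b = 0 := by
    rw [← map_mul, ← hab, minpoly.aeval]
  have hne : minpoly ℚ x ≠ 0 := minpoly.ne_zero hint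
  have ha0 : a ≠ 0 := by rintro rfl; rw [zero_mul] at hab; exact hne hab
  have hb0 : b ≠ 0 := by rintro rfl; rw [mul_zero] at hab; exact hne hab
  rcases (hx.aeval a).mul_eq_zero hirr h1 with h | h
  · right
    have h2 := minpoly.dvd ℚ x h
    rw [hab] at h2
    obtain ⟨c, hc⟩ := h2
    apply IsUnit.of_mul_eq_one c
    apply mul_left_cancel₀ ha0
    linear_combination -hc
  · left
    have h2 := minpoly.dvd ℚ x h
    rw [hab] at h2
    obtain ⟨c, hc⟩ := h2
    apply IsUnit.of_mul_eq_one c
    apply mul_left_cancel₀ hb0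
    linear_combination -hc

end

section

variable {W : Type} [AddCommGroup W] [Module ℚ W]

theorem map_aevalQ {R S : Type} [Ring R] [Ring S] [Algebra ℚ R] [Algebra ℚ S] (s : R →+* S)
    (y : R) (q : ℚ[X]) : s (aeval y q) = aeval (s y) q := by
  induction q using Polynomial.induction_on' with
  | add p q hp hq => rw [map_add, map_add, map_add, hp, hq]
  | monomial n a =>
    rw [Polynomial.aeval_monomial, Polynomial.aeval_monomial, map_mul, map_pow]
    congr 1
    exact RingHom.congr_fun (Subsingleton.elim (s.comp (algebraMap ℚ R)) (algebraMap ℚ S)) a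

/-- The field generated by an element of the commutant. -/
abbrev Fd (x : Module.End ℚ W) : Type := AdjoinRoot (minpoly ℚ x)

/-- The action of the field generated by an element of the commutant. -/
noncomputable def phi (x : Module.End ℚ W) : Fd x →+* Module.End ℚ W :=
  Ideal.Quotient.lift (Ideal.span {minpoly ℚ x}) ((aeval x : ℚ[X] →ₐ[ℚ] Module.End ℚ W) :
    ℚ[X] →+* Module.End ℚ W) (by
      intro a ha
      rw [Ideal.mem_span_singleton] at ha
      obtain ⟨b, rfl⟩ := ha
      show aeval x (minpoly ℚ x * b) = 0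
      rw [map_mul, minpoly.aeval, zero_mul])

theorem phi_mk (x : Module.End ℚ W) (q : ℚ[X]) : phi x (AdjoinRoot.mk _ q) = aeval x q := rfl

theorem phi_root (x : Module.End ℚ W) : phi x (AdjoinRoot.root _) = x := by
  rw [AdjoinRoot.root, phi_mk, aeval_X]

theorem phi_cm {G : Type} [Group G] {ρ : Representation ℚ G W} {x : Module.End ℚ W}
    (hx : Cm ρ x) (a : Fd x) : Cm ρ (phi x a) := by
  obtain ⟨q, rfl⟩ := AdjoinRoot.mk_surjective a
  rw [phi_mk]
  exact hx.aeval q

variable [FiniteDimensional ℚ W] [Nontrivial W]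

omit [Nontrivial W] in
theorem numberField_Fd (x : Module.End ℚ W) [Fact (Irreducible (minpoly ℚ x))] :
    NumberField (Fd x) := by
  have h1 : CharZero (Fd x) := algebraRat.charZero _
  have h2 : FiniteDimensional ℚ (Fd x) := by
    have := (AdjoinRoot.powerBasis (minpoly.ne_zero (Algebra.IsIntegral.isIntegral (R := ℚ) x))).finite
    convert this
  exact ⟨⟩

/-- The data which are needed for the square of a representation. -/
def HasField {G : Type} [Group G] (ρ : Representation ℚ G W) : Prop :=
  ∃ (E : Type) (_ : Field E) (_ : NumberField E) (φ : E →+* Module.End ℚ W) (ς : E ≃ₐ[ℚ] E)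
    (e : E), (∀ a, Cm ρ (φ a)) ∧ ς e ≠ e

theorem hasField_of_adjoint {G : Type} [Group G] {ρ : Representation ℚ G W} (hirr : Irr ρ)
    {x : Module.End ℚ W} (hx : Cm ρ x) (h0 : x ≠ 0) (B : W →ₗ[ℚ] W →ₗ[ℚ] ℚ)
    (hB : ∀ u, (∀ v, B u v = 0) → u = 0) (hxB : ∀ u v, B (x u) v = - B u (x v)) :
    HasField ρ := by
  have hfact : Fact (Irreducible (minpoly ℚ x)) := ⟨minpoly_irreducible hirr hx⟩
  have hnf : NumberField (Fd x) := numberField_Fd x
  have h1 : ∀ (q : ℚ[X]) u v, B (aeval (-x) q u) v = B u (aeval x q v) := by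
    intro q
    induction q using Polynomial.induction_on' with
    | add p q hp hq =>
      intro u v
      rw [map_add, map_add, LinearMap.add_apply, LinearMap.add_apply, map_add, map_add,
        LinearMap.add_apply, hp, hq]
    | monomial n a =>
      have h2 : ∀ n u v, B (((-x) ^ n) u) v = B u ((x ^ n) v) := by
        intro n
        induction n with
        | zero => intro u v; rfl
        | succ n ih =>
          intro u v
          rw [pow_succ', pow_succ, Module.End.mul_apply, Module.End.mul_apply, ← ih,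
            LinearMap.neg_apply, map_neg, LinearMap.neg_apply, hxB, neg_neg]
      intro u v
      rw [Polynomial.aeval_monomial, Polynomial.aeval_monomial, Module.End.mul_apply,
        Module.End.mul_apply, Module.algebraMap_end_apply, Module.algebraMap_end_apply, map_smul,
        map_smul, LinearMap.smul_apply, h2]
  have h2 : aeval (-x) (minpoly ℚ x) = 0 := by
    apply LinearMap.ext
    intro u
    rw [LinearMap.zero_apply]
    apply hB
    intro v
    rw [h1, minpoly.aeval, LinearMap.zero_apply, map_zero]
  have hinj : Function.Injective (phi x) := (phi x).injective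
  have h3 : (aeval (-(AdjoinRoot.root (minpoly ℚ x)))) (minpoly ℚ x) = (0 : Fd x) := by
    apply hinj
    rw [map_zero, ← h2]
    rw [map_aevalQ, map_neg, phi_root]
  let s : Fd x →+* Fd x := AdjoinRoot.lift (algebraMap ℚ (Fd x))
    (-(AdjoinRoot.root (minpoly ℚ x))) h3
  have hsr : s (AdjoinRoot.root (minpoly ℚ x)) = -(AdjoinRoot.root (minpoly ℚ x)) :=
    AdjoinRoot.lift_root h3
  have hss : ∀ a, s (s a) = a := by
    intro a
    obtain ⟨q, rfl⟩ := AdjoinRoot.mk_surjective a
    have h5 : (s.comp s).comp (AdjoinRoot.mk (minpoly ℚ x)) = AdjoinRoot.mk (minpoly ℚ x) := by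
      apply Polynomial.ringHom_ext'
      · exact Subsingleton.elim _ _
      · show s (s (AdjoinRoot.root (minpoly ℚ x))) = AdjoinRoot.root (minpoly ℚ x)
        rw [hsr, map_neg, hsr, neg_neg]
    exact RingHom.congr_fun h5 q
  let ς : Fd x ≃+* Fd x :=
    { toFun := s
      invFun := s
      left_inv := hss
      right_inv := hss
      map_mul' := map_mul s
      map_add' := map_add s }
  refine ⟨Fd x, inferInstance, hnf, phi x, AlgEquiv.ofRingEquiv (f := ς)
    (fun q => map_ratCast ς q), AdjoinRoot.root (minpoly ℚ x), phi_cm hx, ?_⟩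
  · show s (AdjoinRoot.root (minpoly ℚ x)) ≠ _
    rw [hsr]
    intro h
    have h5 : (AdjoinRoot.root (minpoly ℚ x)) = 0 := by
      have : (2 : Fd x) * AdjoinRoot.root (minpoly ℚ x) = 0 := by linear_combination -h
      exact (mul_eq_zero.mp this).resolve_left two_ne_zero
    apply h0
    rw [← phi_root x, h5, map_zero]

end

end Pool.Agent.J4H74.T3
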