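import Mathlib
import Pool.Agent.J4H74.T3.Endo

set_option autoImplicit false

/-!
# Central elements generate abelian fields
-/

namespace Pool.Agent.J4H74.T3

open Polynomial

/-- The trace of an endomorphism of finite order is a sum of roots of unity. -/
theorem trace_mem {E Ω W : Type} [Field E] [Field Ω] [Algebra E Ω] [IsAlgClosed Ω]
    [AddCommGroup W] [Module E W] [FiniteDimensional E W] (T : W →ₗ[E] W) (n : ℕ)
    (hT : T ^ n = 1) (F : Subfield Ω) (hF : ∀ μ : Ω, μ ^ n = 1 → μ ∈ F) :
    algebraMap E Ω (LinearMap.trace E W T) ∈ F := by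
  classical
  let b := Module.finBasis E W
  have h1 : (LinearMap.toMatrix b b T) ^ n = 1 := by
    rw [LinearMap.toMatrix_pow, hT, LinearMap.toMatrix_one]
  let A : Matrix (Fin (Module.finrank E W)) (Fin (Module.finrank E W)) Ω :=
    (algebraMap E Ω).mapMatrix (LinearMap.toMatrix b b T)
  have hA : A ^ n = 1 := by
    rw [← map_pow, h1, map_one]
  have h2 : algebraMap E Ω (LinearMap.trace E W T) = A.trace := by
    rw [LinearMap.trace_eq_matrix_trace E b, Matrix.trace, map_sum]
    rfl
  rw [h2, Matrix.trace_eq_sum_roots_charpoly]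
  apply multiset_sum_mem
  intro μ hμ
  apply hF
  have h3 : μ ∈ spectrum Ω A :=
    Matrix.mem_spectrum_iff_isRoot_charpoly.mpr (Polynomial.isRoot_of_mem_roots hμ)
  have hne : Nonempty (Fin (Module.finrank E W)) := by
    by_contra hcon
    rw [not_nonempty_iff] at hcon
    have h4 : A.charpoly = 1 := Matrix.charpoly_isEmpty
    rw [h4, Polynomial.roots_one] at hμ
    exact (Multiset.notMem_zero _ hμ).elim
  have h5 := spectrum.pow_mem_pow A n h3
  rw [hA, spectrum.one_eq] at h5
  exact h5

/-- A field with a generator in an abelian field. -/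
theorem isAbelian_of_mem {E : Type} [Field E] [NumberField E] (n : ℕ) [NeZero n]
    (hE : ∀ F : Subfield (AlgebraicClosure E), (∀ μ : AlgebraicClosure E, μ ^ n = 1 → μ ∈ F) →
      ∀ a : E, algebraMap E (AlgebraicClosure E) a ∈ F) : IsAbelianGalois ℚ E := by
  let C := CyclotomicField n ℚ
  have hC : IsCyclotomicExtension {n} ℚ C := by
    have h := CyclotomicField.isCyclotomicExtension n ℚ
    convert h
    · rfl
    · exact Subsingleton.elim _ _
  have hab : IsAbelianGalois ℚ C := IsCyclotomicExtension.isAbelianGalois {n} ℚ C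
  let Ω := AlgebraicClosure E
  have halg : Algebra.IsAlgebraic ℚ C := by
    have := IsCyclotomicExtension.finiteDimensional {n} ℚ C
    exact Algebra.IsAlgebraic.of_finite ℚ C
  let ι : C →ₐ[ℚ] Ω := IsAlgClosed.lift
  let ψ : E →ₐ[ℚ] Ω := (algebraMap E Ω).toRatAlgHom
  obtain ⟨ζ, hζ⟩ := hC.exists_isPrimitiveRoot (Set.mem_singleton n) (NeZero.ne n)
  have hζ' : IsPrimitiveRoot (ι ζ) n := hζ.map_of_injective ι.injective
  have h1 : ∀ a : E, ψ a ∈ ι.fieldRange := by
    intro a
    apply hE ι.fieldRange.toSubfield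
    intro μ hμ
    obtain ⟨i, -, hi⟩ := hζ'.eq_pow_of_pow_eq_one hμ
    exact ⟨ζ ^ i, by rw [← hi]; exact map_pow ι ζ i⟩
  have hle : ψ.range ≤ ι.range := by
    rintro _ ⟨a, rfl⟩
    exact h1 a
  let f : E →ₐ[ℚ] C := ((AlgEquiv.ofInjectiveField ι).symm.toAlgHom).comp
    ((Subalgebra.inclusion hle).comp (AlgEquiv.ofInjectiveField ψ).toAlgHom)
  exact IsAbelianGalois.of_algHom f

section

variable {G : Type} [Group G] [Fintype G] {W : Type} [AddCommGroup W] [Module ℚ W]
  [FiniteDimensional ℚ W] [Nontrivial W] {ρ : Representation ℚ G W}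

/-- **Central elements.** -/
theorem hasField_of_central (hirr : Irr ρ) {x : Module.End ℚ W} (hx : Cm ρ x) (z : G → ℚ)
    (hz : ∀ w, x w = ∑ g, z g • ρ g w) (hns : ∀ q : ℚ, x ≠ algebraMap ℚ (Module.End ℚ W) q) :
    HasField ρ := by
  have hfact : Fact (Irreducible (minpoly ℚ x)) := ⟨minpoly_irreducible hirr hx⟩
  have hnf : NumberField (Fd x) := numberField_Fd x
  let E := Fd x
  let hmod : Module E W := Module.compHom W (phi x)
  have hsm : ∀ (a : E) (w : W), a • w = phi x a w := fun a w => rfl
  have htow : IsScalarTower ℚ E W := ⟨fun q a w => by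
    rw [hsm, hsm, map_rat_smul (phi x) q a, LinearMap.smul_apply]⟩
  have hfd : FiniteDimensional E W := Module.Finite.of_restrictScalars_finite ℚ E W
  let T : G → (W →ₗ[E] W) := fun g =>
    { toFun := ρ g
      map_add' := map_add _
      map_smul' := fun a w => by
        rw [hsm, RingHom.id_apply, hsm]
        exact (phi_cm hx a g w).symm }
  have hT : ∀ g, T g ^ (Fintype.card G) = 1 := by
    intro g
    have h1 : ∀ n, ∀ w, (T g ^ n) w = ρ (g ^ n) w := by
      intro n
      induction n with
      | zero => intro w; rw [pow_zero, pow_zero, map_one]; rfl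
      | succ n ih =>
        intro w
        rw [pow_succ, pow_succ, map_mul, Module.End.mul_apply, Module.End.mul_apply, ih]
        rfl
    apply LinearMap.ext
    intro w
    rw [h1, pow_card_eq_one, map_one]
    rfl
  set r : E := AdjoinRoot.root (minpoly ℚ x) with hr
  have hrx : ∀ w : W, r • w = x w := fun w => by rw [hsm, hr, phi_root]
  have hsum : r • (LinearMap.id : W →ₗ[E] W) = ∑ g, (z g : E) • T g := by
    apply LinearMap.ext
    intro w
    rw [LinearMap.smul_apply, LinearMap.id_apply, hrx, hz, LinearMap.sum_apply]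
    refine Finset.sum_congr rfl fun g _ => ?_
    rw [LinearMap.smul_apply]
    show z g • ρ g w = (z g : E) • ρ g w
    rw [Rat.cast_smul_eq_qsmul]
  have htr := congrArg (LinearMap.trace E W) hsum
  rw [map_smul, LinearMap.trace_id, map_sum] at htr
  simp only [map_smul, smul_eq_mul] at htr
  have hm : (Module.finrank E W : E) ≠ 0 := by
    have := Module.finrank_pos (R := E) (M := W)
    exact_mod_cast this.ne'
  have hne : NeZero (Fintype.card G) := ⟨Fintype.card_ne_zero⟩
  have hab : IsAbelianGalois ℚ E := by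
    apply isAbelian_of_mem (Fintype.card G)
    intro F hF
    let F' : Subfield E := F.comap (algebraMap E (AlgebraicClosure E))
    have h1 : r ∈ F' := by
      have h2 : r = (∑ g, (z g : E) * LinearMap.trace E W (T g)) / (Module.finrank E W : E) := by
        rw [← htr, mul_div_cancel_right₀ _ hm]
      rw [h2]
      refine div_mem (sum_mem fun g _ => mul_mem (SubfieldClass.ratCast_mem F' _) ?_) (natCast_mem F' _)
      exact trace_mem (T g) (Fintype.card G) (hT g) F hF
    intro a
    show a ∈ F'
    obtain ⟨q, rfl⟩ := AdjoinRoot.mk_surjective a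
    induction q using Polynomial.induction_on' with
    | add p q hp hq => rw [map_add]; exact add_mem hp hq
    | monomial n c =>
      rw [← C_mul_X_pow_eq_monomial, map_mul, map_pow, AdjoinRoot.mk_X]
      refine mul_mem ?_ (pow_mem h1 n)
      have h3 : AdjoinRoot.mk (minpoly ℚ x) (C c) = (c : E) :=
        eq_ratCast ((AdjoinRoot.mk (minpoly ℚ x)).comp C) c
      rw [h3]
      exact SubfieldClass.ratCast_mem F' _
  by_contra hcon
  have hfix : ∀ (ς : E ≃ₐ[ℚ] E), ς r = r := by
    intro ς
    by_contra h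
    exact hcon ⟨E, inferInstance, hnf, phi x, ς, r, phi_cm hx, h⟩
  have hmem : r ∈ Set.range (algebraMap ℚ E) := by
    rw [IsGalois.mem_range_algebraMap_iff_fixed]
    exact hfix
  obtain ⟨q, hq⟩ := hmem
  apply hns q
  rw [← phi_root x, ← hr, ← hq]
  exact RingHom.congr_fun (Subsingleton.elim ((phi x).comp (algebraMap ℚ E))
    (algebraMap ℚ (Module.End ℚ W))) q

end

end Pool.Agent.J4H74.T3
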