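import Mathlib
import Pool.Agent.J4H74.T3.Endo2

set_option autoImplicit false

/-!
# A field with a nontrivial automorphism in the commutant of an irreducible representation
-/

namespace Pool.Agent.J4H74.T3

section

variable {G : Type} [Group G] [Fintype G] {W : Type} [AddCommGroup W] [Module ℚ W]
  [FiniteDimensional ℚ W] (ρ : Representation ℚ G W)

/-- An invariant positive definite form. -/
noncomputable def form : W →ₗ[ℚ] W →ₗ[ℚ] ℚ :=
  LinearMap.mk₂ ℚ (fun u v => ∑ g, ∑ i, (Module.finBasis ℚ W).repr (ρ g u) i *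
      (Module.finBasis ℚ W).repr (ρ g v) i)
    (by
      intro u u' v
      simp only [map_add, Finsupp.add_apply, add_mul, Finset.sum_add_distrib])
    (by
      intro c u v
      simp only [map_smul, Finsupp.smul_apply, smul_eq_mul, mul_assoc, Finset.mul_sum])
    (by
      intro u v v'
      simp only [map_add, Finsupp.add_apply, mul_add, Finset.sum_add_distrib])
    (by
      intro c u v
      simp only [map_smul, Finsupp.smul_apply, smul_eq_mul, Finset.mul_sum]
      refine Finset.sum_congr rfl fun g _ => Finset.sum_congr rfl fun i _ => ?_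
      ring)

theorem form_apply (u v : W) : form ρ u v = ∑ g, ∑ i, (Module.finBasis ℚ W).repr (ρ g u) i *
      (Module.finBasis ℚ W).repr (ρ g v) i := rfl

theorem form_symm (u v : W) : form ρ u v = form ρ v u := by
  rw [form_apply, form_apply]
  refine Finset.sum_congr rfl fun g _ => Finset.sum_congr rfl fun i _ => mul_comm _ _

theorem form_inv (h : G) (u v : W) : form ρ (ρ h u) (ρ h v) = form ρ u v := by
  rw [form_apply, form_apply, ← Equiv.sum_comp (Equiv.mulRight h) (fun g =>
    ∑ i, (Module.finBasis ℚ W).repr (ρ g u) i * (Module.finBasis ℚ W).repr (ρ g v) i)]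
  refine Finset.sum_congr rfl fun g _ => Finset.sum_congr rfl fun i _ => ?_
  rw [Equiv.coe_mulRight, map_mul, Module.End.mul_apply, Module.End.mul_apply]

theorem form_adj (h : G) (u v : W) : form ρ (ρ h⁻¹ u) v = form ρ u (ρ h v) := by
  rw [← form_inv ρ h, ← Module.End.mul_apply, ← map_mul, mul_inv_cancel, map_one,
    Module.End.one_apply]

theorem form_self {u : W} (hu : form ρ u u = 0) : u = 0 := by
  rw [form_apply] at hu
  rw [Finset.sum_eq_zero_iff_of_nonneg (fun g _ => Finset.sum_nonneg fun i _ =>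
    mul_self_nonneg _)] at hu
  have h1 := hu 1 (Finset.mem_univ _)
  rw [Finset.sum_eq_zero_iff_of_nonneg (fun i _ => mul_self_nonneg _)] at h1
  apply (Module.finBasis ℚ W).repr.injective
  ext i
  have h2 := h1 i (Finset.mem_univ _)
  rw [map_one, Module.End.one_apply, mul_self_eq_zero] at h2
  rw [h2, map_zero, Finsupp.zero_apply]

theorem form_nondeg {u : W} (hu : ∀ v, form ρ u v = 0) : u = 0 := form_self ρ (hu u)

/-- The form as an isomorphism with the dual space. -/
noncomputable def formEquiv : W ≃ₗ[ℚ] Module.Dual ℚ W :=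
  LinearEquiv.ofInjectiveOfFinrankEq (form ρ) (by
    rw [← LinearMap.ker_eq_bot, LinearMap.ker_eq_bot']
    intro u hu
    exact form_nondeg ρ fun v => by rw [hu, LinearMap.zero_apply]) (by
    rw [Subspace.dual_finrank_eq])

theorem formEquiv_apply (u v : W) : formEquiv ρ u v = form ρ u v := rfl

/-- The adjoint. -/
noncomputable def adj (e : Module.End ℚ W) : Module.End ℚ W :=
  (formEquiv ρ).symm.conj (Module.Dual.transpose e)

theorem form_adj_apply (e : Module.End ℚ W) (u v : W) :
    form ρ (adj ρ e u) v = form ρ u (e v) := by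
  rw [← formEquiv_apply, adj, LinearEquiv.conj_apply_apply, LinearEquiv.symm_symm,
    LinearEquiv.apply_symm_apply, Module.Dual.transpose_apply, LinearMap.comp_apply,
    formEquiv_apply]

theorem adj_unique {e e' : Module.End ℚ W} (h : ∀ u v, form ρ (e' u) v = form ρ u (e v)) :
    e' = adj ρ e := by
  apply LinearMap.ext
  intro u
  rw [← sub_eq_zero]
  apply form_nondeg ρ
  intro v
  rw [map_sub, LinearMap.sub_apply, h, form_adj_apply, sub_self]

theorem trace_adj (e : Module.End ℚ W) :
    LinearMap.trace ℚ W (adj ρ e) = LinearMap.trace ℚ W e := by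
  rw [adj, LinearMap.trace_conj', LinearMap.trace_transpose']

theorem trace_inv (g : G) : LinearMap.trace ℚ W (ρ g⁻¹) = LinearMap.trace ℚ W (ρ g) := by
  rw [← trace_adj ρ (ρ g)]
  congr 1
  exact adj_unique ρ (form_adj ρ g)

variable {ρ}

theorem adj_cm {e : Module.End ℚ W} (he : Cm ρ e) : Cm ρ (adj ρ e) := by
  intro g y
  rw [← sub_eq_zero]
  apply form_nondeg ρ
  intro v
  rw [map_sub, LinearMap.sub_apply, sub_eq_zero, form_adj_apply]
  have h1 : ∀ u v, form ρ (ρ g u) v = form ρ u (ρ g⁻¹ v) := by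
    intro u v
    have := form_adj ρ g⁻¹ u v
    rwa [inv_inv] at this
  rw [h1, h1, form_adj_apply, he]

end

section

variable {G : Type} [Group G] [Fintype G] {W : Type} [AddCommGroup W] [Module ℚ W]
  [FiniteDimensional ℚ W] [Nontrivial W] {ρ : Representation ℚ G W}

/-- The averages of rank one maps. -/
noncomputable def ep (ρ : Representation ℚ G W) (w : W) (l : W →ₗ[ℚ] ℚ) : Module.End ℚ W :=
  ∑ g, (l ∘ₗ ρ g⁻¹).smulRight (ρ g w)

omit [FiniteDimensional ℚ W] [Nontrivial W] in
theorem ep_apply (w : W) (l : W →ₗ[ℚ] ℚ) (u : W) :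
    ep ρ w l u = ∑ g, l (ρ g⁻¹ u) • ρ g w := by
  rw [ep, LinearMap.sum_apply]
  rfl

theorem ep_cm (w : W) (l : W →ₗ[ℚ] ℚ) : Cm ρ (ep ρ w l) := by
  intro h u
  rw [ep_apply, ep_apply, map_sum, ← Equiv.sum_comp (Equiv.mulLeft h)]
  refine Finset.sum_congr rfl fun g _ => ?_
  rw [Equiv.coe_mulLeft, map_smul, mul_inv_rev, map_mul, map_mul, Module.End.mul_apply,
    Module.End.mul_apply]
  congr 3
  rw [← Module.End.mul_apply, ← map_mul, inv_mul_cancel, map_one, Module.End.one_apply]

theorem trace_ep {f : Module.End ℚ W} (hf : Cm ρ f) (w : W) (l : W →ₗ[ℚ] ℚ) :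
    LinearMap.trace ℚ W (f * ep ρ w l) = Fintype.card G * l (f w) := by
  have h1 : f * ep ρ w l = ∑ g, (l ∘ₗ ρ g⁻¹).smulRight (f (ρ g w)) := by
    apply LinearMap.ext
    intro u
    rw [Module.End.mul_apply, ep_apply, map_sum, LinearMap.sum_apply]
    refine Finset.sum_congr rfl fun g _ => ?_
    rw [map_smul]
    rfl
  rw [h1, map_sum]
  have h2 : ∀ g, LinearMap.trace ℚ W ((l ∘ₗ ρ g⁻¹).smulRight (f (ρ g w))) = l (f w) := by
    intro g
    rw [LinearMap.trace_smulRight, LinearMap.comp_apply, hf, ← Module.End.mul_apply, ← map_mul,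
      inv_mul_cancel, map_one, Module.End.one_apply]
  rw [Finset.sum_congr rfl fun g _ => h2 g, Finset.sum_const, Finset.card_univ, nsmul_eq_mul]

omit [Fintype G] in
/-- Elements of the commutant are determined by traces. -/
theorem eq_zero_of_trace (hirr : Irr ρ) {d : Module.End ℚ W} (hd : Cm ρ d)
    (h : ∀ f, Cm ρ f → LinearMap.trace ℚ W (f * d) = 0) : d = 0 := by
  by_contra h0
  have hinj := hd.injective hirr h0
  let D : W ≃ₗ[ℚ] W := LinearEquiv.ofInjectiveEndo d hinj
  have hD : ∀ u, D u = d u := fun u => rfl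
  have hf : Cm ρ (D.symm : W →ₗ[ℚ] W) := by
    intro g y
    apply D.injective
    show D (D.symm (ρ g y)) = D (ρ g (D.symm y))
    rw [LinearEquiv.apply_symm_apply, hD, hd, ← hD, LinearEquiv.apply_symm_apply]
  have h1 := h _ hf
  have h2 : (D.symm : W →ₗ[ℚ] W) * d = 1 := by
    apply LinearMap.ext
    intro u
    show D.symm (D u) = u
    rw [LinearEquiv.symm_apply_apply]
  rw [h2, LinearMap.trace_one] at h1
  have := Module.finrank_pos (R := ℚ) (M := W)
  have h3 : (Module.finrank ℚ W : ℚ) ≠ 0 := by exact_mod_cast this.ne'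
  exact h3 h1

/-- The central elements given by traces. -/
noncomputable def xt (ρ : Representation ℚ G W) (a : Module.End ℚ W) : Module.End ℚ W :=
  ∑ g, LinearMap.trace ℚ W (a * ρ g⁻¹) • ρ g

omit [FiniteDimensional ℚ W] [Nontrivial W] in
theorem xt_apply (a : Module.End ℚ W) (w : W) :
    xt ρ a w = ∑ g, LinearMap.trace ℚ W (a * ρ g⁻¹) • ρ g w := by
  rw [xt, LinearMap.sum_apply]
  rfl

theorem xt_cm {a : Module.End ℚ W} (ha : Cm ρ a) : Cm ρ (xt ρ a) := by
  intro h w
  rw [xt_apply, xt_apply, map_sum, ← Equiv.sum_comp (Equiv.mulRight h⁻¹),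
    ← Equiv.sum_comp (Equiv.mulLeft h⁻¹) (fun g => ρ h (LinearMap.trace ℚ W (a * ρ g⁻¹) • ρ g w))]
  refine Finset.sum_congr rfl fun g _ => ?_
  rw [Equiv.coe_mulRight, Equiv.coe_mulLeft, map_smul, mul_inv_rev, mul_inv_rev, inv_inv]
  have h1 : ρ (g * h⁻¹) (ρ h w) = ρ h (ρ (h⁻¹ * g) w) := by
    rw [← Module.End.mul_apply, ← Module.End.mul_apply, ← map_mul, ← map_mul,
      inv_mul_cancel_right, mul_inv_cancel_left]
  have h2 : a * ρ (h * g⁻¹) = ρ h * (a * ρ g⁻¹) := by
    apply LinearMap.ext
    intro u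
    rw [map_mul, Module.End.mul_apply, Module.End.mul_apply, Module.End.mul_apply,
      Module.End.mul_apply, ha]
  rw [h1, h2, LinearMap.trace_mul_comm, mul_assoc, ← map_mul]

theorem xt_eq (hirr : Irr ρ) (hcomm : ∀ e f : Module.End ℚ W, Cm ρ e → Cm ρ f → e * f = f * e)
    {a : Module.End ℚ W} (ha : Cm ρ a) (w : W) : xt ρ a w = a (xt ρ 1 w) := by
  have h1 : ∀ (l : W →ₗ[ℚ] ℚ), ep ρ w (l ∘ₗ a) = a * ep ρ w l := by
    intro l
    rw [← sub_eq_zero]
    apply eq_zero_of_trace hirr ((ep_cm _ _).sub (ha.mul (ep_cm _ _)))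
    intro f hf
    rw [mul_sub, map_sub, ← mul_assoc, trace_ep hf, trace_ep (hf.mul ha), hcomm f a hf ha,
      LinearMap.comp_apply, Module.End.mul_apply, sub_self]
  let b := Module.finBasis ℚ W
  have h2 : ∀ T : Module.End ℚ W, LinearMap.trace ℚ W T = ∑ i, b.coord i (T (b i)) := by
    intro T
    rw [LinearMap.trace_eq_matrix_trace ℚ b, Matrix.trace]
    refine Finset.sum_congr rfl fun i _ => ?_
    rw [Matrix.diag_apply, LinearMap.toMatrix_apply]
    rfl
  have h3 : ∀ c : Module.End ℚ W, xt ρ c w = ∑ i, ep ρ w (b.coord i ∘ₗ c) (b i) := by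
    intro c
    rw [xt_apply]
    simp only [h2, ep_apply, Finset.sum_smul]
    rw [Finset.sum_comm]
    rfl
  rw [h3, h3, map_sum]
  refine Finset.sum_congr rfl fun i _ => ?_
  rw [h1]
  rfl

theorem xt_one_ne : xt ρ 1 ≠ 0 := by
  intro h
  have h1 := congrArg (LinearMap.trace ℚ W) h
  rw [xt, map_zero, map_sum] at h1
  simp only [one_mul, map_smul, smul_eq_mul, trace_inv] at h1
  rw [Finset.sum_eq_zero_iff_of_nonneg (fun g _ => mul_self_nonneg _)] at h1
  have h2 := h1 1 (Finset.mem_univ _)
  rw [map_one, LinearMap.trace_one, mul_self_eq_zero] at h2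
  have := Module.finrank_pos (R := ℚ) (M := W)
  have h3 : (Module.finrank ℚ W : ℚ) ≠ 0 := by exact_mod_cast this.ne'
  exact h3 h2

/-- **The commutant of an irreducible rational representation of a finite group contains a field
with a nontrivial automorphism, if it is not `ℚ`.** -/
theorem hasField_of_commutant (hirr : Irr ρ) {a : Module.End ℚ W} (ha : Cm ρ a)
    (hns : ∀ q : ℚ, a ≠ algebraMap ℚ (Module.End ℚ W) q) : HasField ρ := by
  by_cases hsym : ∀ e, Cm ρ e → adj ρ e = e
  · have hcomm : ∀ e f : Module.End ℚ W, Cm ρ e → Cm ρ f → e * f = f * e := by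
      intro e f he hf
      have h1 : ∀ e, Cm ρ e → ∀ u v, form ρ (e u) v = form ρ u (e v) := by
        intro e he u v
        rw [← form_adj_apply, hsym e he]
      apply LinearMap.ext
      intro v
      rw [← sub_eq_zero]
      apply form_nondeg ρ
      intro u
      rw [map_sub, LinearMap.sub_apply, sub_eq_zero, h1 _ (he.mul hf), Module.End.mul_apply,
        Module.End.mul_apply, h1 f hf, h1 e he]
    by_cases h1 : ∀ q : ℚ, xt ρ 1 ≠ algebraMap ℚ (Module.End ℚ W) q
    · refine hasField_of_central hirr (xt_cm (a := 1) (fun g y => rfl)) _ (fun w => xt_apply 1 w) h1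
    · push Not at h1
      obtain ⟨q, hq⟩ := h1
      refine hasField_of_central hirr (xt_cm ha) _ (fun w => xt_apply a w) ?_
      intro q' hq'
      have hq0 : q ≠ 0 := by
        rintro rfl
        rw [map_zero] at hq
        exact xt_one_ne hq
      apply hns (q' / q)
      apply LinearMap.ext
      intro w
      have h2 := xt_eq hirr hcomm ha w
      rw [hq, hq', Module.algebraMap_end_apply, Module.algebraMap_end_apply, map_smul] at h2
      rw [Module.algebraMap_end_apply, div_eq_inv_mul, mul_smul, h2, smul_smul,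
        inv_mul_cancel₀ hq0, one_smul]
  · push Not at hsym
    obtain ⟨e, he, hne⟩ := hsym
    refine hasField_of_adjoint hirr (x := e - adj ρ e) (he.sub (adj_cm he))
      (sub_ne_zero.mpr (Ne.symm hne)) (form ρ) (fun u hu => form_nondeg ρ hu) ?_
    intro u v
    rw [LinearMap.sub_apply, LinearMap.sub_apply, map_sub, LinearMap.sub_apply, map_sub,
      form_adj_apply, form_symm ρ u (adj ρ e v), form_adj_apply, form_symm ρ v (e u)]
    ring

end

end Pool.Agent.J4H74.T3
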