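import Mathlib
import Pool.Agent.R350.ID

set_option autoImplicit false

/-!
# The `p`-adic logarithm near `1`
-/

namespace Pool.Agent.J4H74.T3

open Filter Topology
open Pool.Agent.W245.PB

variable {p : ℕ} [hp : Fact p.Prime]

/-- `u` is close to `1`. -/
def Near (u : PadicAlgCl p) : Prop := ‖u - 1‖ * (p : ℝ) ^ 3 ≤ 1

omit hp in
theorem p3_ge (hp : Fact p.Prime) : (8 : ℝ) ≤ (p : ℝ) ^ 3 := by
  have hp2 : (2 : ℝ) ≤ p := by exact_mod_cast hp.out.two_le
  calc (8 : ℝ) = 2 ^ 3 := by norm_num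
    _ ≤ (p : ℝ) ^ 3 := by gcongr

theorem Near.lt {u : PadicAlgCl p} (h : Near u) : ‖u - 1‖ < 1 := by
  have h8 := p3_ge hp
  unfold Near at h
  have h0 := norm_nonneg (u - 1)
  nlinarith

theorem Near.norm_eq_one {u : PadicAlgCl p} (h : Near u) : ‖u‖ = 1 := by
  have h1 : u = 1 + (u - 1) := by ring
  rw [h1, IsUltrametricDist.norm_add_eq_max_of_norm_ne_norm (by rw [norm_one]; exact h.lt.ne'),
    norm_one, max_eq_left h.lt.le]

theorem Near.ne_zero {u : PadicAlgCl p} (h : Near u) : u ≠ 0 := by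
  rintro rfl
  have := h.norm_eq_one
  rw [norm_zero] at this
  exact zero_ne_one this

theorem Near.one : Near (1 : PadicAlgCl p) := by
  unfold Near; simp

theorem Near.mul {u v : PadicAlgCl p} (hu : Near u) (hv : Near v) : Near (u * v) := by
  have h1 : u * v - 1 = u * (v - 1) + (u - 1) := by ring
  have h2 : ‖u * v - 1‖ ≤ max ‖v - 1‖ ‖u - 1‖ := by
    rw [h1]
    refine (IsUltrametricDist.norm_add_le_max _ _).trans ?_
    rw [norm_mul, hu.norm_eq_one, one_mul]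
  have h8 := p3_ge hp
  unfold Near at *
  rcases max_choice ‖v - 1‖ ‖u - 1‖ with h | h <;> rw [h] at h2 <;> nlinarith

theorem Near.inv {u : PadicAlgCl p} (hu : Near u) : Near u⁻¹ := by
  have h1 : u⁻¹ - 1 = - (u⁻¹ * (u - 1)) := by
    rw [mul_sub, inv_mul_cancel₀ hu.ne_zero]; ring
  unfold Near
  rw [h1, norm_neg, norm_mul, norm_inv, hu.norm_eq_one, inv_one, one_mul]
  exact hu

theorem Near.pow {u : PadicAlgCl p} (hu : Near u) (n : ℕ) : Near (u ^ n) := by
  induction n with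
  | zero => rw [pow_zero]; exact Near.one
  | succ n ih => rw [pow_succ]; exact ih.mul hu

theorem Near.zpow {u : PadicAlgCl p} (hu : Near u) (n : ℤ) : Near (u ^ n) := by
  obtain ⟨k, rfl | rfl⟩ := n.eq_nat_or_neg
  · rw [zpow_natCast]; exact hu.pow k
  · rw [zpow_neg, zpow_natCast]; exact (hu.pow k).inv

theorem Near.prod {ι : Type*} (s : Finset ι) (f : ι → PadicAlgCl p) (h : ∀ i ∈ s, Near (f i)) :
    Near (∏ i ∈ s, f i) := by
  classical
  induction s using Finset.induction_on with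
  | empty => rw [Finset.prod_empty]; exact Near.one
  | insert a s ha ih =>
    rw [Finset.prod_insert ha]
    exact (h a (Finset.mem_insert_self _ _)).mul (ih fun i hi => h i (Finset.mem_insert_of_mem hi))

theorem norm_equiv (σ : PadicAlgCl p ≃ₐ[ℚ_[p]] PadicAlgCl p) (x : PadicAlgCl p) : ‖σ x‖ = ‖x‖ := by
  have h := spectralNorm_eq_of_equiv (K := ℚ_[p]) (L := PadicAlgCl p) σ x
  exact h.symm

theorem continuous_equiv (σ : PadicAlgCl p ≃ₐ[ℚ_[p]] PadicAlgCl p) : Continuous σ := by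
  refine AddMonoidHomClass.continuous_of_bound σ 1 fun z => ?_
  rw [norm_equiv, one_mul]

theorem Near.map {u : PadicAlgCl p} (hu : Near u) (σ : PadicAlgCl p ≃ₐ[ℚ_[p]] PadicAlgCl p) :
    Near (σ u) := by
  unfold Near
  have : σ u - 1 = σ (u - 1) := by rw [map_sub, map_one]
  rw [this, norm_equiv]
  exact hu

variable {L : PadicAlgCl p → PadicAlgCl p}

theorem Near.le_norm_log {u : PadicAlgCl p} (hu : Near u) (hL : IsIwasawaLog p L) :
    ‖u - 1‖ ≤ ‖L u‖ := by
  by_cases h0 : u - 1 = 0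
  · rw [h0, norm_zero]; exact norm_nonneg _
  have hpos : 0 < ‖u - 1‖ := norm_pos_iff.mpr h0
  have h1 := hL.approx hu
  rw [add_sub_cancel] at h1
  have hp2 : (2 : ℝ) ≤ p := by exact_mod_cast hp.out.two_le
  have h2 : p * ‖u - 1‖ < 1 := by
    have h3 : ‖u - 1‖ * (p : ℝ) ^ 3 ≤ 1 := hu
    have h4 : ‖u - 1‖ * (p : ℝ) ^ 3 = (p * ‖u - 1‖) * (p : ℝ) ^ 2 := by ring
    rw [h4] at h3
    have h5 : (4 : ℝ) ≤ (p : ℝ) ^ 2 := by nlinarith
    have h6 : 0 ≤ p * ‖u - 1‖ := by positivity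
    nlinarith
  have h3 : ‖L u - (u - 1)‖ < ‖u - 1‖ := by
    refine lt_of_le_of_lt h1 ?_
    calc p * ‖u - 1‖ ^ 2 = (p * ‖u - 1‖) * ‖u - 1‖ := by ring
      _ < 1 * ‖u - 1‖ := by gcongr
      _ = ‖u - 1‖ := one_mul _
  have h4 : L u = (L u - (u - 1)) + (u - 1) := by ring
  rw [h4, IsUltrametricDist.norm_add_eq_max_of_norm_ne_norm h3.ne, max_eq_right h3.le]

/-- The logarithm commutes with Galois automorphisms. -/
theorem Near.log_map {u : PadicAlgCl p} (hu : Near u) (hL : IsIwasawaLog p L)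
    (σ : PadicAlgCl p ≃ₐ[ℚ_[p]] PadicAlgCl p) : L (σ u) = σ (L u) := by
  have h1 := hL.ser (u - 1) hu.lt
  have h2 := hL.ser (σ u - 1) (hu.map σ).lt
  rw [add_sub_cancel] at h1 h2
  have h3 := h1.map σ.toAddEquiv.toAddMonoidHom (continuous_equiv σ)
  refine h2.unique ?_
  refine h3.congr_fun ?_
  intro n
  show _ = σ _
  simp [map_div₀, map_mul, map_pow, map_sub]

end Pool.Agent.J4H74.T3
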