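import Mathlib
import Pool.Agent.H440R3.Topo
import Pool.Agent.J4H74.T3.Log

set_option autoImplicit false

/-!
# The topology of `(ℚ_p ⊗ K)ˣ` in terms of the embeddings of `K`
-/

namespace Pool.Agent.J4H74.T3

open scoped TensorProduct
open NumberField Filter Topology Pool.Agent.H440R3

variable (p : ℕ) [hp : Fact p.Prime] (K : Type) [Field K] [NumberField K]

/-- The extension of an embedding to `ℚ_p ⊗ K`. -/
noncomputable def ext (τ : Emb p K) : Kp p K →ₐ[ℚ_[p]] PadicAlgCl p :=
  Algebra.TensorProduct.lift (Algebra.ofId ℚ_[p] (PadicAlgCl p)) τ (fun _ _ => Commute.all _ _)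

theorem ext_tmul (τ : Emb p K) (a : ℚ_[p]) (x : K) :
    ext p K τ (a ⊗ₜ x) = algebraMap ℚ_[p] (PadicAlgCl p) a * τ x :=
  Algebra.TensorProduct.lift_tmul _ _ _ _ _

theorem ext_incl (τ : Emb p K) (x : Kˣ) :
    ext p K τ ((incl p K x : QpPoints p K) : Kp p K) = τ (x : K) := by
  have h : ((incl p K x : QpPoints p K) : Kp p K) = (1 : ℚ_[p]) ⊗ₜ[ℚ] (x : K) := rfl
  rw [h, ext_tmul, map_one, one_mul]

theorem continuous_ext (τ : Emb p K) : Continuous (ext p K τ) := by
  have : ContinuousSMul ℚ_[p] (PadicAlgCl p) := inferInstance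
  exact IsModuleTopology.continuous_of_linearMap (ext p K τ).toLinearMap

theorem ext_inv (τ : Emb p K) (u : QpPoints p K) :
    ext p K τ ((u⁻¹ : (Kp p K)ˣ) : Kp p K) = (ext p K τ (u : Kp p K))⁻¹ := by
  have h : ext p K τ (u : Kp p K) * ext p K τ ((u⁻¹ : (Kp p K)ˣ) : Kp p K) = 1 := by
    rw [← map_mul, Units.mul_inv, map_one]
  exact (inv_eq_of_mul_eq_one_right h).symm

/-- The coordinates are linear combinations of the values at the embeddings. -/
theorem exists_coords : ∃ B : Emb p K → Module.Free.ChooseBasisIndex ℤ (𝓞 K) → PadicAlgCl p,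
    ∀ (y : Kp p K) l, algebraMap ℚ_[p] (PadicAlgCl p) ((bK p K).repr y l) =
      ∑ τ, ext p K τ y * B τ l := by
  classical
  let κ := Module.Free.ChooseBasisIndex ℤ (𝓞 K)
  have hcard : Fintype.card κ = Fintype.card (Emb p K) := by
    rw [AlgHom.card ℚ K (AlgebraicClosure ℚ_[p]), Module.finrank_eq_card_basis (integralBasis K)]
  let e : κ ≃ Emb p K := Fintype.equivOfCardEq hcard
  let M : Matrix κ κ (PadicAlgCl p) :=
    Algebra.embeddingsMatrixReindex ℚ (PadicAlgCl p) (integralBasis K) e
  have hM : ∀ l k, M l k = e k (integralBasis K l) := fun l k => rfl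
  have hdet : IsUnit M.det := by
    rw [isUnit_iff_ne_zero]
    intro h
    have h1 := Algebra.discr_eq_det_embeddingsMatrixReindex_pow_two ℚ (PadicAlgCl p)
      (integralBasis K) e
    rw [show (Algebra.embeddingsMatrixReindex ℚ (PadicAlgCl p) (integralBasis K) e).det = M.det
      from rfl, h] at h1
    have h2 : Algebra.discr ℚ (integralBasis K) = 0 := by
      apply (algebraMap ℚ (PadicAlgCl p)).injective
      rw [h1, map_zero]; simp
    exact Algebra.discr_not_zero_of_basis ℚ (integralBasis K) h2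
  have hy : ∀ y : Kp p K, ∀ τ, ext p K τ y =
      ∑ l, algebraMap ℚ_[p] (PadicAlgCl p) ((bK p K).repr y l) * τ (integralBasis K l) := by
    intro y τ
    conv_lhs => rw [← (bK p K).sum_repr y]
    rw [map_sum]
    refine Finset.sum_congr rfl fun l _ => ?_
    rw [bK_apply, TensorProduct.smul_tmul', smul_eq_mul, mul_one, ext_tmul]
  refine ⟨fun τ l => M⁻¹ (e.symm τ) l, fun y l => ?_⟩
  have h1 : (fun k => ext p K (e k) y) =
      Matrix.vecMul (fun l => algebraMap ℚ_[p] (PadicAlgCl p) ((bK p K).repr y l)) M := by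
    funext k
    rw [hy]
    rfl
  have h2 : Matrix.vecMul (fun k => ext p K (e k) y) M⁻¹ =
      fun l => algebraMap ℚ_[p] (PadicAlgCl p) ((bK p K).repr y l) := by
    rw [h1, Matrix.vecMul_vecMul, Matrix.mul_nonsing_inv _ hdet, Matrix.vecMul_one]
  have h3 := congrFun h2 l
  rw [← h3, ← Equiv.sum_comp e]
  simp only [Equiv.symm_apply_apply]
  rfl

theorem norm_algMap (a : ℚ_[p]) : ‖algebraMap ℚ_[p] (PadicAlgCl p) a‖ = ‖a‖ :=
  PadicAlgCl.norm_extends p a

/-- reconstruction from coordinates -/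
theorem continuous_recon : Continuous
    (fun a : Module.Free.ChooseBasisIndex ℤ (𝓞 K) → ℚ_[p] => ∑ l, a l • bK p K l) := by
  have : ContinuousSMul ℚ_[p] (Kp p K) := IsModuleTopology.toContinuousSMul ℚ_[p] _
  refine continuous_finsetSum _ fun l _ => ?_
  exact (continuous_apply l).smul continuous_const

theorem tendsto_zero_of_ext {y : ℕ → Kp p K}
    (h : ∀ τ, Tendsto (fun m => ext p K τ (y m)) atTop (𝓝 0)) : Tendsto y atTop (𝓝 0) := by
  obtain ⟨B, hB⟩ := exists_coords p K
  have h1 : ∀ l, Tendsto (fun m => (bK p K).repr (y m) l) atTop (𝓝 0) := by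
    intro l
    have h2 : Tendsto (fun m => algebraMap ℚ_[p] (PadicAlgCl p) ((bK p K).repr (y m) l)) atTop
        (𝓝 0) := by
      simp only [hB]
      have h3 : (0 : PadicAlgCl p) = ∑ τ : Emb p K, 0 * B τ l := by simp
      rw [h3]
      exact tendsto_finsetSum _ fun τ _ => (h τ).mul_const _
    rw [tendsto_zero_iff_norm_tendsto_zero] at h2 ⊢
    simpa only [norm_algMap] using h2
  have h2 : y = (fun a : Module.Free.ChooseBasisIndex ℤ (𝓞 K) → ℚ_[p] =>
      ∑ l, a l • bK p K l) ∘ fun m l => (bK p K).repr (y m) l := by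
    funext m
    exact ((bK p K).sum_repr (y m)).symm
  rw [h2]
  have h3 : ∑ l, (0 : Module.Free.ChooseBasisIndex ℤ (𝓞 K) → ℚ_[p]) l • bK p K l = 0 := by simp
  have h4 := (continuous_recon p K).tendsto 0
  rw [h3] at h4
  refine h4.comp ?_
  rw [tendsto_pi_nhds]
  exact h1

theorem tendsto_of_ext {y : ℕ → Kp p K} {a : Kp p K}
    (h : ∀ τ, Tendsto (fun m => ext p K τ (y m)) atTop (𝓝 (ext p K τ a))) :
    Tendsto y atTop (𝓝 a) := by
  have h1 : Tendsto (fun m => y m - a) atTop (𝓝 0) := by
    apply tendsto_zero_of_ext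
    intro τ
    simp only [map_sub]
    have := (h τ).sub_const (ext p K τ a)
    rwa [sub_self] at this
  have h2 := h1.add_const a
  simpa using h2

/-- Units converge to `1` if they do so at all embeddings. -/
theorem tendsto_units_of_ext {u : ℕ → QpPoints p K}
    (h : ∀ τ, Tendsto (fun m => ext p K τ (u m : Kp p K)) atTop (𝓝 1)) :
    Tendsto u atTop (𝓝 1) := by
  rw [Units.isEmbedding_embedProduct.tendsto_nhds_iff]
  have h3 : Tendsto (fun m => ((u m : QpPoints p K) : Kp p K)) atTop (𝓝 1) := by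
    apply tendsto_of_ext
    intro τ
    rw [map_one]; exact h τ
  have h4 : Tendsto (fun m => (((u m)⁻¹ : QpPoints p K) : Kp p K)) atTop (𝓝 1) := by
    apply tendsto_of_ext
    intro τ
    rw [map_one]
    simp only [ext_inv]
    have := (h τ).inv₀ one_ne_zero
    rwa [inv_one] at this
  have h5 : Units.embedProduct (Kp p K) 1 = (1, MulOpposite.op 1) := by
    rw [map_one]; rfl
  rw [h5, nhds_prod_eq]
  refine Tendsto.prodMk h3 ?_
  exact (MulOpposite.continuous_op.tendsto 1).comp h4

/-- The group of points which are close to `1` at all embeddings. -/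
noncomputable def NU : Subgroup (QpPoints p K) where
  carrier := {u | ∀ τ, Near (ext p K τ (u : Kp p K))}
  mul_mem' := by
    intro u v hu hv τ
    rw [Units.val_mul, map_mul]
    exact (hu τ).mul (hv τ)
  one_mem' := by
    intro τ
    rw [Units.val_one, map_one]
    exact Near.one
  inv_mem' := by
    intro u hu τ
    rw [ext_inv]
    exact (hu τ).inv

theorem compact_T : IsCompact {y : Kp p K | ∀ τ, Near (ext p K τ y)} := by
  obtain ⟨B, hB⟩ := exists_coords p K
  set R : ℝ := ∑ l, ∑ τ, ‖B τ l‖ with hR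
  have hcpt : IsCompact ((fun a : Module.Free.ChooseBasisIndex ℤ (𝓞 K) → ℚ_[p] =>
      ∑ l, a l • bK p K l) '' Set.pi Set.univ fun _ => Metric.closedBall 0 R) :=
    (isCompact_univ_pi fun _ => isCompact_closedBall 0 R).image (continuous_recon p K)
  refine hcpt.of_isClosed_subset ?_ ?_
  · have : {y : Kp p K | ∀ τ, Near (ext p K τ y)} =
        ⋂ τ, {y : Kp p K | ‖ext p K τ y - 1‖ * (p : ℝ) ^ 3 ≤ 1} := by
      ext y; simp [Near]
    rw [this]
    refine isClosed_iInter fun τ => ?_
    refine isClosed_le ?_ continuous_const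
    exact ((continuous_ext p K τ).sub continuous_const).norm.mul continuous_const
  · intro y hy
    refine ⟨fun l => (bK p K).repr y l, ?_, (bK p K).sum_repr y⟩
    intro l _
    rw [mem_closedBall_zero_iff, ← norm_algMap, hB]
    calc ‖∑ τ, ext p K τ y * B τ l‖ ≤ ∑ τ, ‖ext p K τ y * B τ l‖ := norm_sum_le _ _
      _ = ∑ τ, ‖B τ l‖ := by
        refine Finset.sum_congr rfl fun τ _ => ?_
        rw [norm_mul, (hy τ).norm_eq_one, one_mul]
      _ ≤ R := by
        rw [hR]
        exact Finset.single_le_sum (f := fun l => ∑ τ, ‖B τ l‖)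
          (fun l _ => Finset.sum_nonneg fun τ _ => norm_nonneg _) (Finset.mem_univ l)

theorem NU_compact : IsCompact (NU p K : Set (QpPoints p K)) := by
  have hcl : IsClosed (Set.range (Units.embedProduct (Kp p K))) := by
    have : Set.range (Units.embedProduct (Kp p K)) =
        {x : Kp p K × (Kp p K)ᵐᵒᵖ | x.1 * x.2.unop = 1} := by
      ext ⟨x, y⟩
      constructor
      · rintro ⟨u, hu⟩
        rw [Units.embedProduct_apply] at hu
        obtain ⟨rfl, rfl⟩ := Prod.mk.inj hu
        simp
      · intro h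
        refine ⟨⟨x, y.unop, h, by rw [mul_comm]; exact h⟩, ?_⟩
        rw [Units.embedProduct_apply]
        rfl
    rw [this]
    exact isClosed_eq (continuous_fst.mul (MulOpposite.continuous_unop.comp continuous_snd))
      continuous_const
  have hemb : IsClosedEmbedding (Units.embedProduct (Kp p K)) :=
    ⟨Units.isEmbedding_embedProduct, hcl⟩
  have h : (NU p K : Set (QpPoints p K)) = Units.embedProduct (Kp p K) ⁻¹'
      ({y : Kp p K | ∀ τ, Near (ext p K τ y)} ×ˢ
        (MulOpposite.unop ⁻¹' {y : Kp p K | ∀ τ, Near (ext p K τ y)})) := by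
    ext u
    constructor
    · intro hu
      refine ⟨hu, fun τ => ?_⟩
      show Near (ext p K τ ((u⁻¹ : (Kp p K)ˣ) : Kp p K))
      rw [ext_inv]
      exact (hu τ).inv
    · intro hu
      exact hu.1
  rw [h]
  apply hemb.isCompact_preimage
  refine (compact_T p K).prod ?_
  exact MulOpposite.opHomeomorph.symm.isClosedEmbedding.isCompact_preimage (compact_T p K)

end Pool.Agent.J4H74.T3
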