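import Mathlib

set_option autoImplicit false

/-!
# Degenerate lattices in a power of a representation
-/

namespace Pool.Agent.J4H74.T3

variable {G : Type} [Group G] {W W' : Type} [AddCommGroup W] [Module ℚ W] [AddCommGroup W']
  [Module ℚ W']

/-- The space of the functions `g ↦ φ (π (ρ g y))`, `y ∈ Y`. -/
def coef (ρ : Representation ℚ G W) (π : W →ₗ[ℚ] W') (Y : Submodule ℚ W) :
    Submodule ℚ (G → ℚ) :=
  Submodule.span ℚ {f | ∃ y ∈ Y, ∃ φ : W' →ₗ[ℚ] ℚ, f = fun g => φ (π (ρ g y))}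

/-- A lattice `U : Λ → W ^ J`, with values in `S ^ J`, such that the part in `Y ^ J` is not too large
for all subspaces `Y` stable under the commutant, but such that for all functionals `Φ_j` the
functions `g ↦ ∑_j Φ_j (π (ρ g U_j))` are linearly dependent. -/
structure GoodLat (ρ : Representation ℚ G W) (π : W →ₗ[ℚ] W') (S : Submodule ℚ W)
    {Λ J : Type} [AddCommGroup Λ] [Module ℚ Λ] [Fintype J] (U : Λ →ₗ[ℚ] (J → W)) : Prop where
  inj : Function.Injective U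
  mem : ∀ l j, U l j ∈ S
  rank : ∀ Y : Submodule ℚ W, Y ≤ S →
    (∀ e : W →ₗ[ℚ] W, (∀ g y, e (ρ g y) = ρ g (e y)) → ∀ y ∈ Y, e y ∈ Y) →
    Module.finrank ℚ (Submodule.comap U (Submodule.pi Set.univ fun _ => Y)) ≤
      Module.finrank ℚ (coef ρ π Y)
  deg : ∀ (F : Type) [Field F] [CharZero F] [IsAlgClosed F] (Φ : J → W' →ₗ[ℚ] F)
    (ι : Type) [Fintype ι] (b : Module.Basis ι ℚ Λ), ∃ c : ι → F, c ≠ 0 ∧
      ∀ g, ∑ i, c i * ∑ j, Φ j (π (ρ g (U (b i) j))) = 0

end Pool.Agent.J4H74.T3
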