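import Mathlib
import Pool.Agent.H440R3.Defs
import Pool.Agent.H440R3.Fill
import Pool.Agent.J4H74.T3.Gen

set_option autoImplicit false

/-!
# Groups given by integral exponents: rank, characters
-/

namespace Pool.Agent.J4H74.T3

open Pool.Agent.H440R3

theorem prod_zpow_sum' {ι G : Type*} [CommGroup G] (s : Finset ι) (u : G) (f : ι → ℤ) :
    ∏ x ∈ s, u ^ f x = u ^ ∑ x ∈ s, f x := by
  classical
  induction s using Finset.induction_on with
  | empty => simp
  | insert a s ha ih => rw [Finset.prod_insert ha, Finset.sum_insert ha, zpow_add, ih]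

/-- The data of the construction. -/
structure Ex (K N : Type) [Field K] [NumberField K] [Field N] [NumberField N] [Algebra K N]
    (I J : Type) [Fintype I] [Fintype J] where
  /-- exponents -/
  m : I → J → (N ≃ₐ[ℚ] N) → ℤ
  hind : ∀ c : I → ℚ, (∀ j g, ∑ i, c i * (m i j g : ℚ) = 0) → c = 0
  /-- independent elements -/
  z : J → Nˣ
  hz : ∀ a : J → (N ≃ₐ[ℚ] N) → ℤ, ∏ j, ∏ g, cj g (z j) ^ a j g = 1 → a = 0
  /-- elements of `K` -/
  y : I → Kˣ
  hy : ∀ i, Units.map (algebraMap K N : K →* N) (y i) = ∏ j, ∏ g, cj g (z j) ^ m i j g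

namespace Ex

variable {K N : Type} [Field K] [NumberField K] [Field N] [NumberField N] [Algebra K N]
  {I J : Type} [Fintype I] [Fintype J] (P : Ex K N I J)

/-- The homomorphism whose image is `L`. -/
def Y : Multiplicative (I → ℤ) →* Kˣ where
  toFun c := ∏ i, P.y i ^ (Multiplicative.toAdd c i)
  map_one' := by
    refine Finset.prod_eq_one fun i _ => ?_
    rw [toAdd_one, Pi.zero_apply, zpow_zero]
  map_mul' c c' := by
    rw [← Finset.prod_mul_distrib]
    refine Finset.prod_congr rfl fun i _ => ?_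
    rw [toAdd_mul, Pi.add_apply, zpow_add]

theorem Y_apply (c : I → ℤ) :
    P.Y (Multiplicative.ofAdd c) = ∏ i, P.y i ^ c i := rfl

/-- The conjugates of the elements of `L`. -/
theorem cj_Y (γ : N ≃ₐ[ℚ] N) (c : I → ℤ) :
    cj γ (Units.map (algebraMap K N : K →* N) (P.Y (Multiplicative.ofAdd c))) =
      ∏ j, ∏ g, cj g (P.z j) ^ (∑ i, c i * P.m i j (γ⁻¹ * g)) := by
  rw [Y_apply, map_prod, map_prod]
  have h1 : ∀ i, cj γ (Units.map (algebraMap K N : K →* N) (P.y i ^ c i)) =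
      ∏ j, ∏ g, cj g (P.z j) ^ (c i * P.m i j (γ⁻¹ * g)) := by
    intro i
    rw [map_zpow, map_zpow, P.hy, map_prod, ← Finset.prod_zpow]
    refine Finset.prod_congr rfl fun j _ => ?_
    rw [map_prod, ← Finset.prod_zpow, ← Equiv.prod_comp (Equiv.mulLeft γ)
      (fun g => cj g (P.z j) ^ (c i * P.m i j (γ⁻¹ * g)))]
    refine Finset.prod_congr rfl fun g _ => ?_
    rw [map_zpow, ← cj_mul, Equiv.coe_mulLeft, inv_mul_cancel_left, ← zpow_mul, mul_comm (P.m i j g)]
  simp only [h1]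
  rw [Finset.prod_comm]
  refine Finset.prod_congr rfl fun j _ => ?_
  rw [Finset.prod_comm]
  refine Finset.prod_congr rfl fun g _ => ?_
  rw [prod_zpow_sum']

theorem Y_injective : Function.Injective P.Y := by
  rw [injective_iff_map_eq_one]
  intro c hc
  obtain ⟨c, rfl⟩ := Multiplicative.ofAdd.surjective c
  have h := P.cj_Y 1 c
  rw [hc, map_one, map_one] at h
  have h1 := P.hz _ h.symm
  have h2 : (fun i => (c i : ℚ)) = 0 := by
    apply P.hind
    intro j g
    have h4 := congrFun (congrFun h1 j) g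
    simp only [inv_one, one_mul, Pi.zero_apply] at h4
    exact_mod_cast h4
  have h3 : c = 0 := by
    funext i
    have := congrFun h2 i
    simpa using this
  rw [h3, ofAdd_zero]

/-- The group `L`. -/
def L : Subgroup Kˣ := P.Y.range

theorem L_fg : P.L.FG := by
  unfold L
  exact (Group.fg_iff_subgroup_fg _).mp (Group.fg_range P.Y)

/-- `L` is free. -/
noncomputable def eqL : Multiplicative (I → ℤ) ≃* P.L := MonoidHom.ofInjective P.Y_injective

theorem rk_L : rk P.L = Fintype.card I := by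
  unfold rk
  let f : Additive P.L ≃+ (I → ℤ) :=
    { toFun := fun x => Multiplicative.toAdd (P.eqL.symm x.toMul)
      invFun := fun c => Additive.ofMul (P.eqL (Multiplicative.ofAdd c))
      left_inv := fun x => by simp
      right_inv := fun c => by simp
      map_add' := fun x y => by
        rw [toMul_add, map_mul, toAdd_mul] }
  rw [f.toIntLinearEquiv.finrank_eq, Module.finrank_fintype_fun_eq_card]

section emb

variable (p : ℕ) [Fact p.Prime] (ι : N →ₐ[ℚ] AlgebraicClosure ℚ_[p])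
  (γ : Emb p K → (N ≃ₐ[ℚ] N)) (hγ : ∀ τ (x : K), τ x = ι (γ τ (algebraMap K N x)))

theorem map_emb {p : ℕ} [Fact p.Prime] {ι : N →ₐ[ℚ] AlgebraicClosure ℚ_[p]}
    {γ : Emb p K → (N ≃ₐ[ℚ] N)} (hγ : ∀ τ (x : K), τ x = ι (γ τ (algebraMap K N x)))
    (τ : Emb p K) (x : Kˣ) :
    Units.map (τ : K →* AlgebraicClosure ℚ_[p]) x =
      Units.map (ι : N →* AlgebraicClosure ℚ_[p])
        (cj (γ τ) (Units.map (algebraMap K N : K →* N) x)) := by
  ext
  exact hγ τ x

include hγ in
theorem charValue_Y (χ : Emb p K → ℤ) (c : I → ℤ) :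
    charValue p K χ (P.Y (Multiplicative.ofAdd c)) =
      Units.map (ι : N →* AlgebraicClosure ℚ_[p])
        (∏ j, ∏ g, cj g (P.z j) ^ (∑ τ, χ τ * ∑ i, c i * P.m i j ((γ τ)⁻¹ * g))) := by
  unfold charValue
  simp only [map_emb hγ, cj_Y]
  simp only [← map_zpow]
  rw [← map_prod]
  congr 1
  simp only [← Finset.prod_zpow]
  rw [Finset.prod_comm]
  refine Finset.prod_congr rfl fun j _ => ?_
  rw [Finset.prod_comm]
  refine Finset.prod_congr rfl fun g _ => ?_
  have h1 : ∀ τ, (cj g (P.z j) ^ ∑ i, c i * P.m i j ((γ τ)⁻¹ * g)) ^ χ τ =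
      cj g (P.z j) ^ (χ τ * ∑ i, c i * P.m i j ((γ τ)⁻¹ * g)) := by
    intro τ
    rw [← zpow_mul, mul_comm]
  simp only [map_zpow] at h1 ⊢
  simp only [h1]
  exact prod_zpow_sum' _ _ _

variable (Ψ : AddSubgroup (Emb p K → ℤ))

/-- The exponent vectors of the elements killed by the characters of `Ψ`. -/
def DD : Submodule ℚ (I → ℚ) where
  carrier := {c | ∀ χ ∈ Ψ, ∀ j g, ∑ τ, (χ τ : ℚ) * ∑ i, c i * (P.m i j ((γ τ)⁻¹ * g) : ℚ) = 0}
  add_mem' := by
    intro v w hv hw χ hχ s g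
    simp only [Pi.add_apply, add_mul, mul_add, Finset.sum_add_distrib, hv χ hχ s g, hw χ hχ s g,
      add_zero]
  zero_mem' := by
    intro χ _ s g
    simp
  smul_mem' := by
    intro r v hv χ hχ s g
    have h : ∀ τ, (χ τ : ℚ) * ∑ i, (r • v) i * (P.m i s ((γ τ)⁻¹ * g) : ℚ) =
        r * ((χ τ : ℚ) * ∑ i, v i * (P.m i s ((γ τ)⁻¹ * g) : ℚ)) := by
      intro τ
      simp only [Pi.smul_apply, smul_eq_mul, mul_assoc]
      rw [← Finset.mul_sum]
      ring
    simp only [h, ← Finset.mul_sum, hv χ hχ s g, mul_zero]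

include hγ in
theorem mem_DD (c : I → ℤ)
    (h : P.Y (Multiplicative.ofAdd c) ∈ ratPoints p K Ψ) :
    (fun x => (c x : ℚ)) ∈ P.DD p γ Ψ := by
  intro χ hχ j g
  have h1 : charValue p K χ (P.Y (Multiplicative.ofAdd c)) = 1 := h χ hχ
  rw [P.charValue_Y p ι γ hγ] at h1
  have h2 : Function.Injective (Units.map (ι : N →* AlgebraicClosure ℚ_[p])) :=
    Units.map_injective ι.toRingHom.injective
  have h3 := h2 (h1.trans (map_one _).symm)
  have h4 := congrFun (congrFun (P.hz _ h3) j) g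
  simp only [Pi.zero_apply] at h4
  have h5 : ((∑ τ, χ τ * ∑ i, c i * P.m i j ((γ τ)⁻¹ * g) : ℤ) : ℚ) = 0 := by
    rw [h4]; simp
  push_cast at h5
  exact h5

include hγ in
theorem rk_inf_le :
    rk ↥(P.L ⊓ ratPoints p K Ψ) ≤ Module.finrank ℚ (P.DD p γ Ψ) := by
  unfold rk
  let g : ↥(P.L ⊓ ratPoints p K Ψ) → (I → ℤ) := fun x =>
    Multiplicative.toAdd (P.eqL.symm ⟨x.1, x.2.1⟩)
  have hg : ∀ x, P.Y (Multiplicative.ofAdd (g x)) = x.1 := by
    intro x
    have h := P.eqL.apply_symm_apply ⟨x.1, x.2.1⟩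
    exact congrArg Subtype.val h
  have hgadd : ∀ x y, g (x * y) = g x + g y := by
    intro x y
    have h1 : Multiplicative.ofAdd (g (x * y)) =
        Multiplicative.ofAdd (g x) * Multiplicative.ofAdd (g y) := by
      apply P.Y_injective
      rw [hg, map_mul, hg, hg]; rfl
    exact h1
  let f : Additive ↥(P.L ⊓ ratPoints p K Ψ) →+ P.DD p γ Ψ := AddMonoidHom.mk'
    (fun x => ⟨fun i => ((g x.toMul i : ℤ) : ℚ), P.mem_DD p ι γ hγ Ψ (g x.toMul) (by
      rw [hg]; exact x.toMul.2.2)⟩) (by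
      intro x y
      apply Subtype.ext
      funext i
      show ((g (x + y).toMul i : ℤ) : ℚ) = (g x.toMul i : ℚ) + (g y.toMul i : ℚ)
      rw [toMul_add, hgadd]
      simp)
  refine finrank_int_le f ?_
  intro x y hxy
  have h1 : g x.toMul = g y.toMul := by
    funext i
    have := congrFun (congrArg Subtype.val hxy) i
    have h2 : ((g x.toMul i : ℤ) : ℚ) = ((g y.toMul i : ℤ) : ℚ) := this
    exact_mod_cast h2
  have h2 : (x.toMul : ↥(P.L ⊓ ratPoints p K Ψ)).1 = (y.toMul : ↥(P.L ⊓ ratPoints p K Ψ)).1 := by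
    rw [← hg, ← hg, h1]
  exact Additive.toMul.injective (Subtype.ext h2)

/-- The `ℚ`-span of the characters. -/
def PQ : Submodule ℚ (Emb p K → ℚ) :=
  Submodule.span ℚ ((fun (χ : Emb p K → ℤ) τ => (χ τ : ℚ)) '' (Ψ : Set (Emb p K → ℤ)))

omit P in
theorem finrank_Psi_le : Module.finrank ℤ Ψ ≤ Module.finrank ℚ (PQ p Ψ) := by
  let f : Ψ →+ PQ p Ψ := AddMonoidHom.mk'
    (fun χ => ⟨fun τ => ((χ : Emb p K → ℤ) τ : ℚ),
      Submodule.subset_span ⟨(χ : Emb p K → ℤ), χ.2, rfl⟩⟩) (by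
      intro χ χ'
      apply Subtype.ext
      funext τ
      show (((χ + χ' : Ψ) : Emb p K → ℤ) τ : ℚ) =
        ((χ : Emb p K → ℤ) τ : ℚ) + ((χ' : Emb p K → ℤ) τ : ℚ)
      simp)
  refine finrank_int_le f ?_
  intro χ χ' h
  apply Subtype.ext
  funext τ
  have := congrFun (congrArg Subtype.val h) τ
  have h2 : (((χ : Emb p K → ℤ) τ : ℤ) : ℚ) = (((χ' : Emb p K → ℤ) τ : ℤ) : ℚ) := this
  exact_mod_cast h2

omit P in
/-- The characters and a space of vectors orthogonal to them. -/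
theorem finrank_Psi_add_le (F : Submodule ℚ (Emb p K → ℚ))
    (hF : ∀ χ ∈ Ψ, ∀ f ∈ F, ∑ τ, (χ τ : ℚ) * f τ = 0) :
    Module.finrank ℚ F + Module.finrank ℤ Ψ ≤ Module.finrank ℚ K := by
  have horth : ∀ u ∈ PQ p Ψ, ∀ v ∈ F, ∑ τ, u τ * v τ = 0 := by
    intro u hu v hv
    induction hu using Submodule.span_induction with
    | mem x hx =>
      obtain ⟨χ, hχ, rfl⟩ := hx
      exact hF χ hχ v hv
    | zero => simp
    | add x y _ _ hx hy =>
      simp only [Pi.add_apply, add_mul, Finset.sum_add_distrib, hx, hy, add_zero]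
    | smul r x _ hx =>
      simp only [Pi.smul_apply, smul_eq_mul, mul_assoc, ← Finset.mul_sum, hx, mul_zero]
  have hdisj : Disjoint (PQ p Ψ) F := by
    rw [Submodule.disjoint_def]
    intro u hu hv
    have h := horth u hu u hv
    have h2 : ∀ τ ∈ Finset.univ, u τ * u τ = 0 :=
      (Finset.sum_eq_zero_iff_of_nonneg (fun τ _ => mul_self_nonneg (u τ))).mp h
    funext τ
    exact mul_self_eq_zero.mp (h2 τ (Finset.mem_univ _))
  have h1 := Submodule.finrank_add_finrank_le_of_disjoint hdisj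
  rw [Module.finrank_fintype_fun_eq_card] at h1
  have h2 : Fintype.card (Emb p K) = Module.finrank ℚ K := AlgHom.card ℚ K _
  rw [h2] at h1
  have h3 := finrank_Psi_le (K := K) p Ψ
  omega

end emb

end Ex

end Pool.Agent.J4H74.T3
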