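import Mathlib

set_option autoImplicit false

/-!
# Rational relations between Galois-equivariant functions
-/

namespace Pool.Agent.J4H74.T3

variable {p : ℕ} [hp : Fact p.Prime]

/-- If some Galois-equivariant functions with values in `ℚ̄_p` are linearly dependent, then they
satisfy a linear relation with coefficients in `ℤ_p`. -/
theorem exists_Zp_rel {I U : Type} [Fintype I] (v : I → U → PadicAlgCl p)
    (hrel : ∃ c : I → PadicAlgCl p, c ≠ 0 ∧ ∀ u, ∑ i, c i * v i u = 0)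
    (hσ : ∀ σ : PadicAlgCl p ≃ₐ[ℚ_[p]] PadicAlgCl p, ∃ T : U → U, Function.Surjective T ∧
      ∀ i u, σ (v i u) = v i (T u)) :
    ∃ c : I → ℤ_[p], c ≠ 0 ∧ ∀ u, ∑ i, algebraMap ℚ_[p] (PadicAlgCl p) (c i) * v i u = 0 := by
  classical
  obtain ⟨c₀, hc₀0, hc₀⟩ := hrel
  have hex : ∃ n : ℕ, ∃ c : I → PadicAlgCl p, c ≠ 0 ∧ (∀ u, ∑ i, c i * v i u = 0) ∧
      (Finset.univ.filter fun j => c j ≠ 0).card = n :=
    ⟨_, c₀, hc₀0, hc₀, rfl⟩
  obtain ⟨c, hc0, hc, hcn⟩ := Nat.find_spec hex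
  have hmin : ∀ c' : I → PadicAlgCl p, (∀ u, ∑ i, c' i * v i u = 0) →
      (Finset.univ.filter fun j => c' j ≠ 0).card < Nat.find hex → c' = 0 := by
    intro c' h1 h2
    by_contra h3
    exact Nat.find_min hex h2 ⟨c', h3, h1, rfl⟩
  obtain ⟨j₀, hj₀⟩ : ∃ j, c j ≠ 0 := by
    by_contra hcon
    push Not at hcon
    exact hc0 (funext hcon)
  -- normalise
  let d : I → PadicAlgCl p := fun j => c j / c j₀
  have hd : ∀ u, ∑ j, d j * v j u = 0 := by
    intro u
    have : ∑ j, d j * v j u = (∑ j, c j * v j u) / c j₀ := by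
      rw [Finset.sum_div]
      refine Finset.sum_congr rfl fun j _ => ?_
      simp only [d]; ring
    rw [this, hc, zero_div]
  have hdj₀ : d j₀ = 1 := div_self hj₀
  have hfix : ∀ σ : PadicAlgCl p ≃ₐ[ℚ_[p]] PadicAlgCl p, ∀ j, σ (d j) = d j := by
    intro σ
    obtain ⟨T, hT, hTv⟩ := hσ σ
    have h1 : (fun j => σ (d j) - d j) = 0 := by
      apply hmin
      · intro u
        obtain ⟨w, rfl⟩ := hT u
        simp only [sub_mul, Finset.sum_sub_distrib]
        rw [hd, sub_zero]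
        have h2 := congrArg σ (hd w)
        rw [map_sum, map_zero] at h2
        rw [← h2]
        refine Finset.sum_congr rfl fun j _ => ?_
        rw [map_mul, hTv]
      · rw [← hcn]
        apply Finset.card_lt_card
        rw [Finset.ssubset_iff_of_subset]
        · refine ⟨j₀, by simpa using hj₀, ?_⟩
          simp [hdj₀]
        · intro j hj
          rw [Finset.mem_filter] at hj ⊢
          refine ⟨Finset.mem_univ _, fun h => hj.2 ?_⟩
          simp only [d, h, zero_div, map_zero, sub_zero]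
    intro j
    exact sub_eq_zero.mp (congrFun h1 j)
  have hrat : ∀ j, ∃ x : ℚ_[p], algebraMap ℚ_[p] (PadicAlgCl p) x = d j := by
    intro j
    have h := (InfiniteGalois.mem_range_algebraMap_iff_fixed (k := ℚ_[p]) (K := PadicAlgCl p)
      (d j)).mpr (fun σ => hfix σ j)
    exact h
  choose x hx using hrat
  have hx0 : x j₀ ≠ 0 := by
    intro h
    have h1 := hx j₀
    rw [h, map_zero, hdj₀] at h1
    exact zero_ne_one h1
  have hxrel : ∀ u, ∑ j, algebraMap ℚ_[p] (PadicAlgCl p) (x j) * v j u = 0 := by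
    intro u
    simp only [hx]
    exact hd u
  -- clearing denominators
  have h1 : ∀ i, ∃ N : ℕ, ‖(p : ℚ_[p]) ^ N * x i‖ ≤ 1 := by
    intro i
    have hp1 : (1 : ℝ) < p := by exact_mod_cast hp.out.one_lt
    obtain ⟨N, hN⟩ := pow_unbounded_of_one_lt ‖x i‖ hp1
    refine ⟨N, ?_⟩
    rw [norm_mul, norm_pow, Padic.norm_p, inv_pow]
    rw [inv_mul_le_iff₀ (by positivity), mul_one]
    exact hN.le
  choose N hN using h1
  have h2 : ∀ i, ‖(p : ℚ_[p]) ^ (∑ j, N j) * x i‖ ≤ 1 := by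
    intro i
    have h3 : (p : ℚ_[p]) ^ (∑ j, N j) * x i =
        (p : ℚ_[p]) ^ ((∑ j, N j) - N i) * ((p : ℚ_[p]) ^ (N i) * x i) := by
      rw [← mul_assoc, ← pow_add, Nat.sub_add_cancel]
      exact Finset.single_le_sum (f := N) (fun _ _ => Nat.zero_le _) (Finset.mem_univ i)
    rw [h3, norm_mul, norm_pow]
    have h4 : ‖(p : ℚ_[p])‖ ≤ 1 := by
      rw [Padic.norm_p]
      exact inv_le_one_of_one_le₀ (by exact_mod_cast hp.out.one_lt.le)
    exact mul_le_one₀ (pow_le_one₀ (norm_nonneg _) h4) (norm_nonneg _) (hN i)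
  have hp0 : (p : ℚ_[p]) ≠ 0 := Nat.cast_ne_zero.mpr hp.out.ne_zero
  let D : I → ℤ_[p] := fun i => ⟨_, h2 i⟩
  have hD : ∀ i, ((D i : ℤ_[p]) : ℚ_[p]) = (p : ℚ_[p]) ^ (∑ j, N j) * x i := fun i => rfl
  refine ⟨D, ?_, ?_⟩
  · intro h
    have h3 := hD j₀
    rw [h, Pi.zero_apply, PadicInt.coe_zero] at h3
    exact (mul_ne_zero (pow_ne_zero _ hp0) hx0) h3.symm
  · intro u
    simp only [hD, map_mul, mul_assoc, ← Finset.mul_sum, hxrel u, mul_zero]

end Pool.Agent.J4H74.T3
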