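import Mathlib
import Pool.Agent.J4H74.T3.Lat
import Pool.Agent.J4H74.T3.Embed
import Pool.Agent.J4H74.T3.Comm
import Pool.Agent.J4H74.T3.Rel
import Pool.Agent.J4H74.T3.Good
import Pool.Agent.J4H74.T3.Build

set_option autoImplicit false

/-!
# The `p`-adic part fails if there is a degenerate lattice
-/

namespace Pool.Agent.J4H74.T3

open Filter Topology NumberField
open Pool.Agent.H440R3 Pool.Agent.W245.PB

namespace Ex

variable {K N : Type} [Field K] [NumberField K] [Field N] [NumberField N] [Algebra K N]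
  {I J : Type} [Fintype I] [Fintype J] (P : Ex K N I J) (p : ℕ) [hp : Fact p.Prime]
  (ι : N →ₐ[ℚ] AlgebraicClosure ℚ_[p])
  (γ : Emb p K → (N ≃ₐ[ℚ] N)) (hγ : ∀ τ (x : K), τ x = ι (γ τ (algebraMap K N x)))
  (hnear : ∀ j g, Near (ι ((cj g (P.z j) : Nˣ) : N)))

include hγ in
theorem tau_y (τ : Emb p K) (i : I) : τ (P.y i : K) =
    ∏ j, ∏ g, (ι ((cj g (P.z j) : Nˣ) : N)) ^ P.m i j ((γ τ)⁻¹ * g) := by
  have h1 := congrArg (fun u : (AlgebraicClosure ℚ_[p])ˣ => (u : AlgebraicClosure ℚ_[p]))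
    (map_emb hγ τ (P.y i))
  have h2 : τ (P.y i : K) = ι ((cj (γ τ) (∏ j, ∏ g, cj g (P.z j) ^ P.m i j g) : Nˣ) : N) := by
    rw [← P.hy]
    exact h1
  rw [h2]
  simp only [map_prod, map_zpow, ← cj_mul, Units.coe_prod, Units.val_zpow_eq_zpow_val, map_zpow₀]
  refine Finset.prod_congr rfl fun j _ => ?_
  rw [← Equiv.prod_comp (Equiv.mulLeft (γ τ))
    (fun g => (ι ((cj g (P.z j) : Nˣ) : N)) ^ P.m i j ((γ τ)⁻¹ * g))]
  refine Finset.prod_congr rfl fun g _ => ?_
  rw [Equiv.coe_mulLeft, inv_mul_cancel_left]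

include hγ hnear in
theorem near_y (τ : Emb p K) (i : I) : Near (τ (P.y i : K)) := by
  rw [P.tau_y p ι γ hγ]
  exact Near.prod _ _ fun j _ => Near.prod _ _ fun g _ => Near.zpow (hnear _ _) _

theorem tau_Y (τ : Emb p K) (c : I → ℤ) :
    τ (P.Y (Multiplicative.ofAdd c) : K) = ∏ i, τ (P.y i : K) ^ (c i) := by
  rw [Y_apply]
  simp only [Units.coe_prod, Units.val_zpow_eq_zpow_val, map_prod, map_zpow₀]

include hγ hnear in
theorem near_Y (τ : Emb p K) (c : I → ℤ) : Near (τ (P.Y (Multiplicative.ofAdd c) : K)) := by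
  rw [tau_Y]
  exact Near.prod _ _ fun i _ => Near.zpow (P.near_y p ι γ hγ hnear τ i) _

include hγ hnear in
theorem L_le_NU : P.L.map (incl p K) ≤ NU p K := by
  rintro _ ⟨_, ⟨c, rfl⟩, rfl⟩
  intro τ
  rw [ext_incl]
  exact P.near_Y p ι γ hγ hnear τ (Multiplicative.toAdd c)

variable {L : PadicAlgCl p → PadicAlgCl p} (hL : IsIwasawaLog p L)

include hγ hnear hL in
theorem log_y (τ : Emb p K) (i : I) : L (τ (P.y i : K)) =
    ∑ j, ∑ g, ((P.m i j ((γ τ)⁻¹ * g) : ℤ) : PadicAlgCl p) * L (ι ((cj g (P.z j) : Nˣ) : N)) := by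
  rw [P.tau_y p ι γ hγ, hL.prod _ _ fun j _ => (Near.prod _ _ fun g _ =>
    Near.zpow (hnear _ _) _).ne_zero]
  refine Finset.sum_congr rfl fun j _ => ?_
  rw [hL.prod _ _ fun g _ => (Near.zpow (hnear _ _) _).ne_zero]
  refine Finset.sum_congr rfl fun g _ => ?_
  rw [hL.zpow (hnear _ _).ne_zero]

include hγ hnear hL in
theorem log_Y (τ : Emb p K) (c : I → ℤ) : L (τ (P.Y (Multiplicative.ofAdd c) : K)) =
    ∑ i, ((c i : ℤ) : PadicAlgCl p) * L (τ (P.y i : K)) := by
  rw [tau_Y]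
  have hy := P.near_y p ι γ hγ hnear τ
  rw [hL.prod _ _ fun i _ => (Near.zpow (hy i) _).ne_zero]
  refine Finset.sum_congr rfl fun i _ => ?_
  rw [hL.zpow (hy i).ne_zero]

include hγ hnear hL in
theorem exists_seq (cinf : I → ℤ_[p])
    (hrel : ∀ (τ : Emb p K),
      ∑ i, algebraMap ℚ_[p] (PadicAlgCl p) (cinf i : ℤ_[p]) * L (τ (P.y i : K)) = 0) :
    ∃ c : ℕ → (I → ℤ),
    Tendsto (fun m i => ((c m i : ℤ) : ℤ_[p])) atTop (𝓝 cinf) ∧
    Tendsto (fun m => incl p K (P.Y (Multiplicative.ofAdd (c m)))) atTop (𝓝 1) := by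
  have hp1 : (1 : ℝ) < p := by exact_mod_cast hp.out.one_lt
  have hlim : ∀ x, Tendsto (fun m => (((cinf x).appr m : ℤ) : ℤ_[p])) atTop (𝓝 (cinf x)) := by
    intro x
    rw [tendsto_iff_norm_sub_tendsto_zero]
    have h1 : ∀ m : ℕ, ‖(((cinf x).appr m : ℤ) : ℤ_[p]) - cinf x‖ ≤ ((p : ℝ)⁻¹) ^ m := by
      intro m
      rw [norm_sub_rev]
      have h2 := PadicInt.appr_spec m (cinf x)
      rw [← PadicInt.norm_le_pow_iff_mem_span_pow] at h2
      rw [inv_pow, ← zpow_natCast, ← zpow_neg]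
      simpa using h2
    exact squeeze_zero (fun m => norm_nonneg _) h1
      (tendsto_pow_atTop_nhds_zero_of_lt_one (by positivity) (inv_lt_one_of_one_lt₀ hp1))
  refine ⟨fun m x => ((cinf x).appr m : ℤ), tendsto_pi_nhds.mpr hlim, ?_⟩
  apply tendsto_units_of_ext
  intro τ
  simp only [ext_incl]
  rw [tendsto_iff_norm_sub_tendsto_zero]
  set C : ℕ → I → ℤ := fun m x => ((cinf x).appr m : ℤ) with hC
  have h1 : ∀ m, ‖τ (P.Y (Multiplicative.ofAdd (C m)) : K) - 1‖ ≤
      ‖∑ i, ((C m i : ℤ) : PadicAlgCl p) * L (τ (P.y i : K))‖ := by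
    intro m
    rw [← P.log_Y p ι γ hγ hnear hL]
    exact (P.near_Y p ι γ hγ hnear τ (C m)).le_norm_log hL
  have hcast : Continuous (fun a : ℤ_[p] => algebraMap ℚ_[p] (PadicAlgCl p) (a : ℚ_[p])) := by
    have h2 : Continuous (algebraMap ℚ_[p] (PadicAlgCl p)) := by
      refine AddMonoidHomClass.continuous_of_bound (algebraMap ℚ_[p] (PadicAlgCl p)) 1 fun z => ?_
      rw [norm_algMap, one_mul]
    exact h2.comp continuous_subtype_val
  have h2 : Tendsto (fun m => ∑ i, ((C m i : ℤ) : PadicAlgCl p) *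
      L (τ (P.y i : K))) atTop (𝓝 0) := by
    rw [← hrel τ]
    refine tendsto_finsetSum _ fun i _ => ?_
    refine Tendsto.mul_const _ ?_
    have h3 : ∀ m, ((C m i : ℤ) : PadicAlgCl p) =
        algebraMap ℚ_[p] (PadicAlgCl p) (((C m i : ℤ) : ℤ_[p]) : ℚ_[p]) := by
      intro m
      rw [PadicInt.coe_intCast, map_intCast]
    simp only [h3]
    exact (hcast.tendsto _).comp (hlim i)
  rw [tendsto_zero_iff_norm_tendsto_zero] at h2
  exact squeeze_zero (fun m => norm_nonneg _) h1 h2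

theorem map_L : P.L.map (incl p K) = ((incl p K).comp P.Y).range := by
  unfold L
  rw [MonoidHom.range_comp]

include hγ hnear in
theorem isCompact_closure : IsCompact (closureIn p K P.L : Set (QpPoints p K)) := by
  have hcl : IsClosed (NU p K : Set (QpPoints p K)) := (NU_compact p K).isClosed
  have h : closureIn p K P.L ≤ NU p K :=
    Subgroup.topologicalClosure_minimal _ (P.L_le_NU p ι γ hγ hnear) hcl
  exact (NU_compact p K).of_isClosed_subset (Subgroup.isClosed_topologicalClosure _) h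

include hγ hnear hL in
theorem not_PadicPart [DecidableEq I] (cinf : I → ℤ_[p]) (hcinf : cinf ≠ 0)
    (hrel : ∀ (τ : Emb p K),
      ∑ i, algebraMap ℚ_[p] (PadicAlgCl p) (cinf i : ℤ_[p]) * L (τ (P.y i : K)) = 0)
    (hrank : ∀ Ψ : AddSubgroup (Emb p K → ℤ),
      Module.finrank ℚ (P.DD p γ Ψ) + Module.finrank ℤ Ψ ≤ Module.finrank ℚ K) :
    ¬ PadicPart p K := by
  intro h
  have hCc := P.isCompact_closure p ι γ hγ hnear
  obtain ⟨H, Z, hH, hZ, ⟨φ⟩⟩ := h P.L P.L_fg
    ⟨NU p K, NU_compact p K, P.L_le_NU p ι γ hγ hnear⟩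
    (fun Ψ => (Nat.add_le_add_right (P.rk_inf_le p ι γ hγ Ψ) _).trans (hrank Ψ))
    (closureIn p K P.L) ⟨le_rfl, hCc, fun C' h' _ => h'⟩
  obtain ⟨c, hlim, hone⟩ := P.exists_seq p ι γ hγ hnear hL cinf hrel
  have hC' : closureIn p K P.L = ((incl p K).comp P.Y).range.topologicalClosure := by
    rw [← map_L]
    rfl
  have hrk := P.rk_L
  revert φ hH hZ
  revert Z
  rw [hrk]
  intro Z hH hZ φ
  exact commens_contra rfl ((incl p K).comp P.Y) _ hC' hCc H Z hH hZ φ c cinf hcinf hlim hone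

end Ex

section

variable {K N : Type} [Field K] [NumberField K] [Field N] [NumberField N] [Algebra K N]
  [IsGalois ℚ N]

/-- The vectors fixed by the automorphisms which are trivial on `K`. -/
def fixK (K : Type) [Field K] [Algebra K N] {W : Type} [AddCommGroup W] [Module ℚ W]
    (ρ : Representation ℚ (N ≃ₐ[ℚ] N) W) : Submodule ℚ W where
  carrier := {w | ∀ g : N ≃ₐ[ℚ] N, (∀ x : K, g (algebraMap K N x) = algebraMap K N x) → ρ g w = w}
  add_mem' := by
    intro v w hv hw g hg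
    rw [map_add, hv g hg, hw g hg]
  zero_mem' := by
    intro g _
    rw [map_zero]
  smul_mem' := by
    intro r v hv g hg
    rw [map_smul, hv g hg]

/-- The exponents attached to a lattice. -/
theorem exists_ex {W : Type} [AddCommGroup W] [Module ℚ W] {n : ℕ}
    (b : Module.Basis (Fin n) ℚ W) (ρ : Representation ℚ (N ≃ₐ[ℚ] N) W)
    {I J : Type} [Fintype I] [Fintype J] (u : I → J → W)
    (hfix : ∀ i j, u i j ∈ fixK K ρ) (hu : LinearIndependent ℚ u)
    {M : ℕ} (hM : 0 < M) {D₀ : ℕ} (hD₀ : 0 < D₀) :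
    ∃ (D : ℕ) (P : Ex K N I (J × Fin n)), 0 < D ∧
      (∀ i j s g, (P.m i (j, s) g : ℚ) = D * b.repr (ρ g⁻¹ (u i j)) s) ∧
      (∀ i j g, ∃ k : ℤ, P.m i j g = D₀ * k) ∧
      (∀ j, ∃ r : 𝓞 N, (P.z j : N) = 1 - M * r) := by
  classical
  obtain ⟨D, hD, hk⟩ := exists_den (fun t : I × (J × Fin n) × (N ≃ₐ[ℚ] N) =>
    b.repr (ρ t.2.2⁻¹ (u t.1 t.2.1.1)) t.2.1.2)
  choose k hk using hk
  obtain ⟨z, hz, hind⟩ := exists_family (N := N) hM (J × Fin n)
  let m : I → J × Fin n → (N ≃ₐ[ℚ] N) → ℤ := fun i j g => D₀ * k (i, j, g)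
  have hm : ∀ i j s g, (m i (j, s) g : ℚ) = (D₀ * D : ℕ) * b.repr (ρ g⁻¹ (u i j)) s := by
    intro i j s g
    have := hk (i, (j, s), g)
    simp only [m]
    push_cast
    rw [this]
    ring
  have hinv : ∀ h : N ≃ₐ[ℚ] N, (∀ x : K, h (algebraMap K N x) = algebraMap K N x) →
      ∀ i j g, m i j (h⁻¹ * g) = m i j g := by
    intro h hh i j g
    obtain ⟨j, s⟩ := j
    have h1 : ((m i (j, s) (h⁻¹ * g) : ℤ) : ℚ) = ((m i (j, s) g : ℤ) : ℚ) := by
      rw [hm, hm, mul_inv_rev, inv_inv, map_mul, Module.End.mul_apply, hfix i j h hh]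
    exact_mod_cast h1
  let x : I → Nˣ := fun i => ∏ j, ∏ g, cj g (z j) ^ m i j g
  have hx : ∀ h : N ≃ₐ[ℚ] N, (∀ x : K, h (algebraMap K N x) = algebraMap K N x) →
      ∀ i, cj h (x i) = x i := by
    intro h hh i
    simp only [x]
    rw [map_prod]
    refine Finset.prod_congr rfl fun s _ => ?_
    rw [map_prod, ← Equiv.prod_comp (Equiv.mulLeft h) (fun g => cj g (z s) ^ m i s g)]
    refine Finset.prod_congr rfl fun g _ => ?_
    rw [map_zpow, ← cj_mul, Equiv.coe_mulLeft, ← hinv h hh i s (h * g), inv_mul_cancel_left]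
  have htower : IsScalarTower ℚ K N := inferInstance
  have hgal : IsGalois K N := IsGalois.tower_top_of_isGalois ℚ K N
  have hfd : FiniteDimensional K N := FiniteDimensional.right ℚ K N
  have hex : ∀ i, ∃ y : Kˣ, Units.map (algebraMap K N : K →* N) y = x i := by
    intro i
    have h1 : ((x i : Nˣ) : N) ∈ Set.range (algebraMap K N) := by
      rw [IsGalois.mem_range_algebraMap_iff_fixed]
      intro f
      have h2 := hx (f.restrictScalars ℚ) (fun y => f.commutes y) i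
      have h3 := congrArg (fun u : Nˣ => (u : N)) h2
      exact h3
    obtain ⟨y, hy⟩ := h1
    have hy0 : y ≠ 0 := by
      rintro rfl
      rw [map_zero] at hy
      exact (x i).ne_zero hy.symm
    refine ⟨Units.mk0 y hy0, ?_⟩
    ext
    exact hy
  choose y hy using hex
  refine ⟨D₀ * D, ⟨m, ?_, z, hind, y, hy⟩, Nat.mul_pos hD₀ hD, hm, fun i s g => ⟨_, rfl⟩, hz⟩
  intro c hc
  have hDQ : ((D₀ * D : ℕ) : ℚ) ≠ 0 := by exact_mod_cast (Nat.mul_pos hD₀ hD).ne'
  have h1 : ∑ i, c i • u i = 0 := by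
    funext j
    rw [Finset.sum_apply, Pi.zero_apply]
    apply b.repr.injective
    ext s
    rw [map_zero, Finsupp.zero_apply, map_sum, Finsupp.finsetSum_apply]
    have h2 := hc (j, s) 1
    simp only [hm, inv_one, map_one, Module.End.one_apply] at h2
    have h3 : ∑ i, c i * (((D₀ * D : ℕ) : ℚ) * b.repr (u i j) s) =
        ((D₀ * D : ℕ) : ℚ) * ∑ i, (b.repr ((c i • u i) j)) s := by
      rw [Finset.mul_sum]
      refine Finset.sum_congr rfl fun i _ => ?_
      rw [Pi.smul_apply, map_smul, Finsupp.smul_apply, smul_eq_mul]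
      ring
    rw [h3] at h2
    exact (mul_eq_zero.mp h2).resolve_left hDQ
  funext i
  exact (Fintype.linearIndependent_iff.mp hu) c h1 i

/-- **The `p`-adic part fails if there is a degenerate lattice.** -/
theorem not_padicPart_of_goodLat {W : Type} [AddCommGroup W] [Module ℚ W] [FiniteDimensional ℚ W]
    (ρ : Representation ℚ (N ≃ₐ[ℚ] N) W)
    {Λ J : Type} [AddCommGroup Λ] [Module ℚ Λ] [FiniteDimensional ℚ Λ] [Fintype J]
    (U : Λ →ₗ[ℚ] (J → W)) (hU : GoodLat ρ LinearMap.id (fixK K ρ) U)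
    (p : ℕ) [hp : Fact p.Prime] : ¬ PadicPart p K := by
  classical
  let b := Module.finBasis ℚ W
  let β := Module.finBasis ℚ Λ
  obtain ⟨D, P, hD, hm, -, hz⟩ := exists_ex (K := K) b ρ (fun i => U (β i))
    (fun i j => hU.mem _ j) (β.linearIndependent.map' U (LinearMap.ker_eq_bot.mpr hU.inj))
    (M := p ^ 3) (pow_pos hp.out.pos 3) one_pos
  have hDQ : (D : ℚ) ≠ 0 := by exact_mod_cast hD.ne'
  obtain ⟨ι⟩ : Nonempty (N →ₐ[ℚ] AlgebraicClosure ℚ_[p]) := ⟨IsAlgClosed.lift⟩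
  choose γ hγ using fun τ : Emb p K => exists_gal_sub (K := K) ι τ
  -- the elements are close to `1`
  have hnear : ∀ j g, Near (ι ((cj g (P.z j) : Nˣ) : N)) := by
    intro j g
    obtain ⟨r, hr⟩ := hz j
    have h1 : ι ((cj g (P.z j) : Nˣ) : N) - 1 = -((p : PadicAlgCl p) ^ 3 * ι (g (r : N))) := by
      rw [cj_val, hr]
      simp
    have h2 : ‖ι (g (r : N))‖ ≤ 1 := by
      have h3 : IsIntegral ℤ (ι (g (r : N))) :=
        map_isIntegral_int (ι : N →+* AlgebraicClosure ℚ_[p])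
          (map_isIntegral_int (g : N →+* N) r.2)
      have h4 := (Valuation.integer.integers
        (Valued.v : Valuation (PadicAlgCl p) NNReal)).mem_of_integral
        (h3.tower_top (A := (Valued.v : Valuation (PadicAlgCl p) NNReal).integer))
      rw [← PadicAlgCl.valuation_coe p]
      exact_mod_cast h4
    have hp0 : (0 : ℝ) < p := by exact_mod_cast hp.out.pos
    have h5 : ‖(p : PadicAlgCl p)‖ = (p : ℝ)⁻¹ := by
      have := norm_algMap p (p : ℚ_[p])
      rw [map_natCast, Padic.norm_p] at this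
      exact this
    unfold Near
    rw [h1, norm_neg, norm_mul, norm_pow, h5]
    calc ((p : ℝ)⁻¹) ^ 3 * ‖ι (g (r : N))‖ * (p : ℝ) ^ 3 = ‖ι (g (r : N))‖ := by
          field_simp
      _ ≤ 1 := h2
  -- all automorphisms are covered
  have hcov : ∀ g : N ≃ₐ[ℚ] N, ∃ τ : Emb p K, ∀ w ∈ fixK K ρ, ρ (γ τ) w = ρ g w := by
    intro g
    set τ : Emb p K := (ι.comp ((g : N ≃ₐ[ℚ] N) : N →ₐ[ℚ] N)).comp (IsScalarTower.toAlgHom ℚ K N)
      with hτ
    refine ⟨τ, fun w hw => ?_⟩
    have h1 : ∀ x : K, (g⁻¹ * γ τ) (algebraMap K N x) = algebraMap K N x := by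
      intro x
      have h2 := hγ τ x
      have h3 : τ x = ι (g (algebraMap K N x)) := rfl
      rw [h3] at h2
      have h4 := ι.injective h2
      rw [AlgEquiv.mul_apply, ← h4, ← AlgEquiv.mul_apply, inv_mul_cancel]
      rfl
    have h4 := hw _ h1
    rw [map_mul, Module.End.mul_apply] at h4
    conv_rhs => rw [← h4]
    rw [← Module.End.mul_apply, ← map_mul, mul_inv_cancel, map_one, Module.End.one_apply]
  -- the logarithm
  obtain ⟨L, hL⟩ := Pool.Agent.R350.exists_log p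
  let Φ : J → W →ₗ[ℚ] PadicAlgCl p := fun j =>
    ∑ s, ∑ g : N ≃ₐ[ℚ] N, ((b.coord s).comp (ρ g⁻¹)).smulRight
      (L (ι ((cj g (P.z (j, s)) : Nˣ) : N)))
  have hΦ : ∀ j u, Φ j u = ∑ s, ∑ g : N ≃ₐ[ℚ] N, (b.repr (ρ g⁻¹ u) s) •
      (L (ι ((cj g (P.z (j, s)) : Nˣ) : N))) := by
    intro j u
    simp only [Φ, LinearMap.sum_apply, LinearMap.smulRight_apply, LinearMap.comp_apply,
      Module.Basis.coord_apply]
  have hσΦ : ∀ (σ : PadicAlgCl p ≃ₐ[ℚ_[p]] PadicAlgCl p) (g₀ : N ≃ₐ[ℚ] N),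
      (∀ x, σ (ι x) = ι (g₀ x)) → ∀ j u, σ (Φ j u) = Φ j (ρ g₀ u) := by
    intro σ g₀ hg₀' j u
    rw [hΦ, hΦ, map_sum]
    refine Finset.sum_congr rfl fun s _ => ?_
    rw [map_sum, ← Equiv.sum_comp (Equiv.mulLeft g₀) (fun g => (b.repr (ρ g⁻¹ (ρ g₀ u)) s) •
      (L (ι ((cj g (P.z (j, s)) : Nˣ) : N))))]
    refine Finset.sum_congr rfl fun g _ => ?_
    rw [Equiv.coe_mulLeft, ← Module.End.mul_apply, ← map_mul, mul_inv_rev,
      inv_mul_cancel_right]
    have h1 : σ ((b.repr (ρ g⁻¹ u) s) • L (ι ((cj g (P.z (j, s)) : Nˣ) : N))) =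
        (b.repr (ρ g⁻¹ u) s) • σ (L (ι ((cj g (P.z (j, s)) : Nˣ) : N))) := by
      exact map_rat_smul σ _ _
    rw [h1, ← (hnear (j, s) g).log_map hL σ, hg₀']
    rfl
  obtain ⟨c, hc0, hc⟩ := hU.deg (PadicAlgCl p) Φ _ β
  simp only [LinearMap.id_apply] at hc
  obtain ⟨d, hd0, hd⟩ := exists_Zp_rel
    (fun i (g : N ≃ₐ[ℚ] N) => ∑ j, Φ j (ρ g (U (β i) j))) ⟨c, hc0, hc⟩ (by
      intro σ
      obtain ⟨g₀, hg₀⟩ := exists_gal ι (((σ.restrictScalars ℚ : PadicAlgCl p ≃ₐ[ℚ] PadicAlgCl p) :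
        PadicAlgCl p →ₐ[ℚ] PadicAlgCl p).comp ι)
      have hg₀' : ∀ x, σ (ι x) = ι (g₀ x) := hg₀
      refine ⟨fun g => g₀ * g, fun g => ⟨g₀⁻¹ * g, mul_inv_cancel_left _ _⟩, fun i g => ?_⟩
      rw [map_sum]
      refine Finset.sum_congr rfl fun j _ => ?_
      rw [hσΦ σ g₀ hg₀', map_mul, Module.End.mul_apply])
  refine P.not_PadicPart p ι γ hγ hnear hL d hd0 ?_ ?_
  · intro τ
    have h1 : ∀ i, L (τ (P.y i : K)) = (D : PadicAlgCl p) * ∑ j, Φ j (ρ (γ τ) (U (β i) j)) := by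
      intro i
      rw [P.log_y p ι γ hγ hnear hL, Fintype.sum_prod_type, Finset.mul_sum]
      refine Finset.sum_congr rfl fun j _ => ?_
      rw [hΦ, Finset.mul_sum]
      refine Finset.sum_congr rfl fun s _ => ?_
      rw [Finset.mul_sum]
      refine Finset.sum_congr rfl fun g _ => ?_
      rw [← Module.End.mul_apply, ← map_mul]
      have h2 := hm i j s ((γ τ)⁻¹ * g)
      rw [mul_inv_rev, inv_inv] at h2
      rw [Rat.smul_def, ← mul_assoc]
      congr 1
      have h3 := congrArg (fun q : ℚ => (q : PadicAlgCl p)) h2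
      push_cast at h3
      exact h3
    simp only [h1]
    have h2 := hd (γ τ)
    have h3 : ∑ i, algebraMap ℚ_[p] (PadicAlgCl p) (d i : ℤ_[p]) *
        ((D : PadicAlgCl p) * ∑ j, Φ j (ρ (γ τ) (U (β i) j))) =
        (D : PadicAlgCl p) * ∑ i, algebraMap ℚ_[p] (PadicAlgCl p) (d i : ℤ_[p]) *
          ∑ j, Φ j (ρ (γ τ) (U (β i) j)) := by
      rw [Finset.mul_sum]
      refine Finset.sum_congr rfl fun i _ => ?_
      ring
    rw [h3, h2, mul_zero]
  · intro Ψ
    -- the subspace killed by `Ψ`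
    let Y : Submodule ℚ W := fixK K ρ ⊓
      { carrier := {w | ∀ χ ∈ Ψ, ∑ τ, (χ τ : ℚ) • ρ (γ τ) w = 0}
        add_mem' := by
          intro v w hv hw χ hχ
          simp only [map_add, smul_add, Finset.sum_add_distrib, hv χ hχ, hw χ hχ, add_zero]
        zero_mem' := by
          intro χ _
          simp
        smul_mem' := by
          intro r v hv χ hχ
          have : ∑ τ, (χ τ : ℚ) • ρ (γ τ) (r • v) = r • ∑ τ, (χ τ : ℚ) • ρ (γ τ) v := by
            rw [Finset.smul_sum]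
            refine Finset.sum_congr rfl fun τ _ => ?_
            rw [map_smul, smul_comm]
          rw [this, hv χ hχ, smul_zero] }
    have hYK : Y ≤ fixK K ρ := inf_le_left
    have hYs : ∀ e : W →ₗ[ℚ] W, (∀ g y, e (ρ g y) = ρ g (e y)) → ∀ y ∈ Y, e y ∈ Y := by
      intro e he y hy
      refine ⟨fun g hg => ?_, fun χ hχ => ?_⟩
      · rw [← he, hy.1 g hg]
      · have h1 := hy.2 χ hχ
        have h2 := congrArg e h1
        rw [map_sum, map_zero] at h2
        rw [← h2]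
        refine Finset.sum_congr rfl fun τ _ => ?_
        rw [map_smul, he]
    have h1 := hU.rank Y hYK hYs
    -- restriction of functions to the embeddings
    let R : ((N ≃ₐ[ℚ] N) → ℚ) →ₗ[ℚ] (Emb p K → ℚ) := LinearMap.funLeft ℚ ℚ γ
    have hR : ∀ f τ, R f τ = f (γ τ) := fun f τ => rfl
    have hinv : ∀ f ∈ coef ρ LinearMap.id Y, ∀ g, ∃ τ : Emb p K, f g = f (γ τ) := by
      intro f hf g
      obtain ⟨τ, hτ⟩ := hcov g
      refine ⟨τ, ?_⟩
      induction hf using Submodule.span_induction with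
      | mem x hx =>
        obtain ⟨y, hy, φ, rfl⟩ := hx
        simp only [LinearMap.id_apply]
        rw [hτ y (hYK hy)]
      | zero => rfl
      | add x y _ _ hx hy => rw [Pi.add_apply, Pi.add_apply, hx, hy]
      | smul a x _ hx => rw [Pi.smul_apply, Pi.smul_apply, hx]
    have hRinj : Function.Injective (R.domRestrict (coef ρ LinearMap.id Y)) := by
      rw [← LinearMap.ker_eq_bot, LinearMap.ker_eq_bot']
      rintro ⟨f, hf⟩ h0
      apply Subtype.ext
      funext g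
      obtain ⟨τ, hτ⟩ := hinv f hf g
      have h2 := congrFun h0 τ
      show f g = 0
      rw [hτ]
      exact h2
    have h2 : Module.finrank ℚ ((coef ρ LinearMap.id Y).map R) =
        Module.finrank ℚ (coef ρ LinearMap.id Y) := by
      have h3 := LinearMap.finrank_range_of_inj hRinj
      rw [LinearMap.range_domRestrict] at h3
      exact h3
    have h3 := Ex.finrank_Psi_add_le p Ψ ((coef ρ LinearMap.id Y).map R) (by
      rintro χ hχ _ ⟨f, hf, rfl⟩
      simp only [hR]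
      induction hf using Submodule.span_induction with
      | mem x hx =>
        obtain ⟨y, hy, φ, rfl⟩ := hx
        have h4 := congrArg φ (hy.2 χ hχ)
        rw [map_sum, map_zero] at h4
        rw [← h4]
        refine Finset.sum_congr rfl fun τ _ => ?_
        rw [map_smul, smul_eq_mul]
        rfl
      | zero => simp
      | add x y _ _ hx hy =>
        simp only [Pi.add_apply, mul_add, Finset.sum_add_distrib, hx, hy, add_zero]
      | smul a x _ hx =>
        have h5 : ∀ τ, (χ τ : ℚ) * (a • x) (γ τ) = a * ((χ τ : ℚ) * x (γ τ)) := by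
          intro τ
          rw [Pi.smul_apply, smul_eq_mul]; ring
        simp only [h5, ← Finset.mul_sum, hx, mul_zero])
    -- the elements killed by `Ψ` belong to `Y`
    have h4 : Module.finrank ℚ (P.DD p γ Ψ) ≤
        Module.finrank ℚ (Submodule.comap U (Submodule.pi Set.univ fun _ => Y)) := by
      let e := β.equivFun.symm
      have he : ∀ c, e c = ∑ i, c i • β i := fun c => β.equivFun_symm_apply c
      have h5 : (P.DD p γ Ψ) ≤ (Submodule.comap U (Submodule.pi Set.univ fun _ => Y)).comap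
          (e : _ →ₗ[ℚ] Λ) := by
        intro c hc
        rw [Submodule.mem_comap, Submodule.mem_comap, Submodule.mem_pi]
        intro j _
        refine ⟨hU.mem _ j, fun χ hχ => ?_⟩
        have h6 : ∀ s g, ∑ τ, (χ τ : ℚ) * ∑ i, c i *
            ((D : ℚ) * b.repr (ρ g⁻¹ (ρ (γ τ) (U (β i) j))) s) = 0 := by
          intro s g
          have h7 := hc χ hχ (j, s) g
          simp only [hm, mul_inv_rev, inv_inv, map_mul, Module.End.mul_apply] at h7
          exact h7
        apply b.repr.injective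
        ext s
        rw [map_zero, Finsupp.zero_apply]
        have h8 := h6 s 1
        simp only [inv_one, map_one, Module.End.one_apply] at h8
        have h9 : ∑ τ, (χ τ : ℚ) * ∑ i, c i * ((D : ℚ) * b.repr (ρ (γ τ) (U (β i) j)) s) =
            (D : ℚ) * b.repr (∑ τ, (χ τ : ℚ) • ρ (γ τ) (U (e c) j)) s := by
          rw [map_sum, Finsupp.finsetSum_apply, Finset.mul_sum]
          refine Finset.sum_congr rfl fun τ _ => ?_
          rw [map_smul, Finsupp.smul_apply, smul_eq_mul, he, map_sum, Finset.sum_apply, map_sum,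
            map_sum, Finsupp.finsetSum_apply, Finset.mul_sum, Finset.mul_sum, Finset.mul_sum]
          refine Finset.sum_congr rfl fun i _ => ?_
          rw [map_smul, Pi.smul_apply, map_smul, map_smul, Finsupp.smul_apply, smul_eq_mul]
          ring
        rw [h9] at h8
        exact (mul_eq_zero.mp h8).resolve_left hDQ
      refine (Submodule.finrank_mono h5).trans ?_
      rw [Submodule.comap_equiv_eq_map_symm]
      exact (LinearEquiv.finrank_map_eq e.symm _).le
    omega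

end

end Pool.Agent.J4H74.T3
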