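import Mathlib
import Pool.Agent.H492R2.Tor.Core3

set_option autoImplicit false

/-!
# Points of a finitely generated group in the line space of its closure
-/

namespace Pool.Agent.J4H74.T3

open Pool.Agent.H492R2.Tor

/-- Rational combinations in a real subspace. -/
def ratPart {V : Type} [AddCommGroup V] [Module ℝ V] {ι : Type} [Fintype ι] (v : ι → V)
    (l : Submodule ℝ V) : Submodule ℚ (ι → ℚ) where
  carrier := {c | ∑ i, (c i : ℝ) • v i ∈ l}
  add_mem' := by
    intro a b ha hb
    show ∑ i, (((a + b) i : ℚ) : ℝ) • v i ∈ l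
    have h1 : ∑ i, (((a + b) i : ℚ) : ℝ) • v i = ∑ i, (a i : ℝ) • v i + ∑ i, (b i : ℝ) • v i := by
      rw [← Finset.sum_add_distrib]
      refine Finset.sum_congr rfl fun i _ => ?_
      rw [Pi.add_apply]
      push_cast
      rw [add_smul]
    rw [h1]
    exact l.add_mem ha hb
  zero_mem' := by
    show ∑ i, (((0 : ι → ℚ) i : ℚ) : ℝ) • v i ∈ l
    simp
  smul_mem' := by
    intro q a ha
    show ∑ i, (((q • a) i : ℚ) : ℝ) • v i ∈ l
    have h1 : ∑ i, (((q • a) i : ℚ) : ℝ) • v i = (q : ℝ) • ∑ i, (a i : ℝ) • v i := by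
      rw [Finset.smul_sum]
      refine Finset.sum_congr rfl fun i _ => ?_
      rw [Pi.smul_apply, smul_eq_mul]
      push_cast
      rw [mul_smul]
    rw [h1]
    exact l.smul_mem _ ha

theorem mem_ratPart {V : Type} [AddCommGroup V] [Module ℝ V] {ι : Type} [Fintype ι] (v : ι → V)
    (l : Submodule ℝ V) (c : ι → ℚ) : c ∈ ratPart v l ↔ ∑ i, (c i : ℝ) • v i ∈ l := Iff.rfl

/-- **The rank of the part in the line space.** -/
theorem card_add_finrank_le {V : Type} [NormedAddCommGroup V] [NormedSpace ℝ V]
    [FiniteDimensional ℝ V] (Γ : AddSubgroup V) (hΓ : IsClosed (Γ : Set V)) {ι : Type} [Fintype ι]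
    (v : ι → V) (hv : ∀ i, v i ∈ Γ) (hl : lineSpace Γ ≤ Submodule.span ℝ (Set.range v)) :
    Fintype.card ι + Module.finrank ℝ (lineSpace Γ) ≤
      Module.finrank ℚ (ratPart v (lineSpace Γ)) +
        Module.finrank ℝ (Submodule.span ℝ (Set.range v)) := by
  classical
  obtain ⟨ε, hε, hlines⟩ := small_mem_lines Γ hΓ
  obtain ⟨W, hW⟩ := Submodule.exists_isCompl (lineSpace Γ)
  let q : V →ₗ[ℝ] V := W.subtype ∘ₗ Submodule.projectionOnto W (lineSpace Γ) hW.symm
  have hqW : ∀ x, q x ∈ W := by intro x; simp [q]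
  have hq0 : ∀ x, q x = 0 ↔ x ∈ lineSpace Γ := by
    intro x
    rw [← Submodule.projectionOnto_apply_eq_zero_iff hW.symm (x := x)]
    show ((Submodule.projectionOnto W (lineSpace Γ) hW.symm x : W) : V) = 0 ↔ _
    rw [ZeroMemClass.coe_eq_zero]
  have hqq : ∀ x, q (q x) = q x := by
    intro x
    show ((Submodule.projectionOnto W (lineSpace Γ) hW.symm
      ((Submodule.projectionOnto W (lineSpace Γ) hW.symm x : W) : V) : W) : V) = _
    rw [Submodule.projectionOnto_apply_left]
    rfl
  have hqL : ∀ x, x - q x ∈ lineSpace Γ := by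
    intro x
    rw [← hq0, map_sub, hqq, sub_self]
  let d : ι → V := fun i => q (v i)
  have hdΓ : ∀ i, d i ∈ Γ := by
    intro i
    have h2 := Γ.sub_mem (hv i) (lineSpace_le (hqL (v i)))
    simpa [d] using h2
  -- the rational map
  let _ : Module ℚ V := Module.compHom V (algebraMap ℚ ℝ)
  have hsm : ∀ (a : ℚ) (x : V), a • x = (a : ℝ) • x := fun a x => rfl
  let F : (ι → ℚ) →ₗ[ℚ] V :=
    { toFun := fun c => ∑ i, c i • d i
      map_add' := fun a b => by
        simp only [Pi.add_apply, add_smul, Finset.sum_add_distrib]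
      map_smul' := fun r a => by
        simp only [Pi.smul_apply, smul_eq_mul, mul_smul, Finset.smul_sum, RingHom.id_apply] }
  have hF : ∀ c, F c = q (∑ i, (c i : ℝ) • v i) := by
    intro c
    show ∑ i, c i • d i = _
    rw [map_sum]
    refine Finset.sum_congr rfl fun i _ => ?_
    rw [map_smul, hsm]
  have hker : LinearMap.ker F = ratPart v (lineSpace Γ) := by
    ext c
    rw [LinearMap.mem_ker, hF, hq0, mem_ratPart]
  have hrn := LinearMap.finrank_range_add_finrank_ker F
  rw [hker, Module.finrank_fintype_fun_eq_card] at hrn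
  -- real rank
  let S := Submodule.span ℝ (Set.range v)
  have hrn2 := LinearMap.finrank_range_add_finrank_ker (q.domRestrict S)
  have hk2 : Module.finrank ℝ (LinearMap.ker (q.domRestrict S)) =
      Module.finrank ℝ (lineSpace Γ) := by
    have h1 : LinearMap.ker (q.domRestrict S) = (lineSpace Γ).comap S.subtype := by
      ext x
      rw [LinearMap.mem_ker, Submodule.mem_comap, LinearMap.domRestrict_apply, hq0]
      rfl
    rw [h1]
    exact (Submodule.comapSubtypeEquivOfLe hl).finrank_eq
  have hr2 : LinearMap.range (q.domRestrict S) = Submodule.span ℝ (Set.range d) := by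
    have h1 : LinearMap.range (q.domRestrict S) = S.map q := by
      rw [LinearMap.range_domRestrict]
    rw [h1, Submodule.map_span, ← Set.range_comp]
    rfl
  rw [hk2, hr2] at hrn2
  -- a basis of the range over `ℚ`
  have hrange : LinearMap.range F = Submodule.span ℚ (Set.range d) := by
    apply le_antisymm
    · rintro _ ⟨c, rfl⟩
      exact Submodule.sum_mem _ fun i _ => Submodule.smul_mem _ _ (Submodule.subset_span ⟨i, rfl⟩)
    · rw [Submodule.span_le]
      rintro _ ⟨i, rfl⟩
      refine ⟨Pi.single i 1, ?_⟩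
      show ∑ j, (Pi.single i 1 : ι → ℚ) j • d j = d i
      rw [Finset.sum_eq_single i]
      · rw [Pi.single_eq_same, one_smul]
      · intro j _ hj
        rw [Pi.single_eq_of_ne hj, zero_smul]
      · intro h; exact absurd (Finset.mem_univ _) h
  obtain ⟨t, htd, htspan, htli⟩ := exists_linearIndependent ℚ (Set.range d)
  have htfin : t.Finite := (Set.finite_range d).subset htd
  let _ : Fintype t := htfin.fintype
  have hcardt : Module.finrank ℚ (LinearMap.range F) = Fintype.card t := by
    rw [hrange, ← htspan]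
    have := finrank_span_eq_card htli
    rw [Subtype.range_coe] at this
    exact this
  have hR : LinearIndependent ℝ ((↑) : t → V) := by
    by_contra hcon
    have hZ : LinearIndependent ℤ ((↑) : t → V) := by
      have h1 := htli.restrict_scalars (R := ℤ) (K := ℚ) (by
        intro a b hab
        have h3 : (a : ℚ) = (b : ℚ) := by simpa using hab
        exact_mod_cast h3)
      exact h1
    obtain ⟨z, hz, hz0, hzn⟩ := small_combination ((↑) : t → V) hZ hcon ε hε
    have htG : ∀ x ∈ t, x ∈ Γ ∧ q x = x := by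
      intro x hx
      obtain ⟨i, rfl⟩ := htd hx
      exact ⟨hdΓ i, hqq _⟩
    let Γ' : AddSubgroup V :=
      { carrier := {x | x ∈ Γ ∧ q x = x}
        add_mem' := fun {a b} ha hb => ⟨Γ.add_mem ha.1 hb.1, by rw [map_add, ha.2, hb.2]⟩
        zero_mem' := ⟨Γ.zero_mem, map_zero _⟩
        neg_mem' := fun {a} ha => ⟨Γ.neg_mem ha.1, by rw [map_neg, ha.2]⟩ }
    have hzG : z ∈ Γ ∧ q z = z := by
      have hle : Submodule.span ℤ (Set.range ((↑) : t → V)) ≤ Γ'.toIntSubmodule := by
        rw [Submodule.span_le]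
        rintro _ ⟨y, rfl⟩
        exact htG _ y.2
      exact hle hz
    apply hz0
    rw [← hzG.2, hq0]
    exact fun r => hlines z hzG.1 hzn r
  have hle : Fintype.card t ≤ Module.finrank ℝ (Submodule.span ℝ (Set.range d)) := by
    rw [← finrank_span_eq_card hR, Subtype.range_coe]
    exact Submodule.finrank_mono (Submodule.span_mono htd)
  rw [hcardt] at hrn
  have hSe : Module.finrank ℝ S = Module.finrank ℝ (Submodule.span ℝ (Set.range v)) := rfl
  omega

end Pool.Agent.J4H74.T3
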