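import Mathlib
import Pool.Agent.H492R2.Tor.Core3

set_option autoImplicit false
set_option linter.unusedSectionVars false

/-!
# Rational algebraic subgroups of `(K ⊗ ℝ)ˣ` and real exponentials
-/

namespace Pool.Agent.J4H74.T3

open NumberField NumberField.mixedEmbedding NumberField.InfinitePlace Pool.Agent.H492R2.Tor

variable (K : Type) [Field K] [NumberField K]

/-- The infinite places, the real ones first. -/
abbrev PL : Type := {w : InfinitePlace K // IsReal w} ⊕ {w : InfinitePlace K // IsComplex w}

open scoped Classical in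
noncomputable instance instFintypePL : Fintype (PL K) := inferInstance

/-- The exponential map. -/
noncomputable def EV (z : mixedSpace K) : RealPoints K where
  val := (fun w => Real.exp (z.1 w), fun w => Complex.exp (z.2 w))
  inv := (fun w => Real.exp (-z.1 w), fun w => Complex.exp (-z.2 w))
  val_inv := by
    ext w <;> simp [← Complex.exp_add, ← Real.exp_add]
  inv_val := by
    ext w <;> simp [← Complex.exp_add, ← Real.exp_add]

theorem EV_fst (z : mixedSpace K) (w : {w : InfinitePlace K // IsReal w}) :
    ((EV K z : RealPoints K) : mixedSpace K).1 w = Real.exp (z.1 w) := rfl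

theorem EV_snd (z : mixedSpace K) (w : {w : InfinitePlace K // IsComplex w}) :
    ((EV K z : RealPoints K) : mixedSpace K).2 w = Complex.exp (z.2 w) := rfl

theorem EV_zero : EV K 0 = 1 := by
  apply Units.ext
  apply Prod.ext
  · funext w
    rw [EV_fst]
    exact Real.exp_zero
  · funext w
    rw [EV_snd]
    exact Complex.exp_zero

theorem EV_add (z z' : mixedSpace K) : EV K (z + z') = EV K z * EV K z' := by
  apply Units.ext
  apply Prod.ext
  · funext w
    exact Real.exp_add _ _
  · funext w
    exact Complex.exp_add _ _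

theorem EV_neg (z : mixedSpace K) : EV K (-z) = (EV K z)⁻¹ := by
  rw [eq_inv_iff_mul_eq_one, ← EV_add, neg_add_cancel, EV_zero]

theorem EV_continuous : Continuous (EV K) := by
  rw [Units.continuous_iff]
  constructor
  · refine Continuous.prodMk ?_ ?_
    · exact continuous_pi fun w => Real.continuous_exp.comp ((continuous_apply w).comp continuous_fst)
    · exact continuous_pi fun w =>
        Complex.continuous_exp.comp ((continuous_apply w).comp continuous_snd)
  · refine Continuous.prodMk ?_ ?_
    · exact continuous_pi fun w =>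
        Real.continuous_exp.comp ((continuous_apply w).comp continuous_fst).neg
    · exact continuous_pi fun w =>
        Complex.continuous_exp.comp ((continuous_apply w).comp continuous_snd).neg

/-- The logarithms of the absolute values. -/
noncomputable def lgP (u : RealPoints K) : PL K → ℝ :=
  Sum.elim (fun w => Real.log |(u : mixedSpace K).1 w|) (fun w => Real.log ‖(u : mixedSpace K).2 w‖)

/-- The real vectors. -/
noncomputable def emP : (PL K → ℝ) →ₗ[ℝ] mixedSpace K where
  toFun r := (fun w => r (Sum.inl w), fun w => (r (Sum.inr w) : ℂ))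
  map_add' r s := by
    apply Prod.ext
    · rfl
    · funext w
      exact Complex.ofReal_add _ _
  map_smul' a r := by
    apply Prod.ext
    · rfl
    · funext w
      show ((a * r (Sum.inr w) : ℝ) : ℂ) = a • (r (Sum.inr w) : ℂ)
      rw [Complex.ofReal_mul, Complex.real_smul]

/-- The real parts. -/
noncomputable def reP : mixedSpace K →ₗ[ℝ] (PL K → ℝ) where
  toFun z := Sum.elim z.1 (fun w => (z.2 w).re)
  map_add' z z' := by
    funext w
    rcases w with w | w
    · rfl
    · exact Complex.add_re _ _
  map_smul' a z := by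
    funext w
    rcases w with w | w
    · rfl
    · exact Complex.re_ofReal_mul _ _

theorem reP_emP (r : PL K → ℝ) : reP K (emP K r) = r := by
  funext w
  rcases w with w | w
  · rfl
  · exact Complex.ofReal_re _

theorem lgP_EV (z : mixedSpace K) : lgP K (EV K z) = reP K z := by
  funext w
  rcases w with w | w
  · show Real.log |Real.exp (z.1 w)| = z.1 w
    rw [abs_of_pos (Real.exp_pos _), Real.log_exp]
  · show Real.log ‖Complex.exp (z.2 w)‖ = (z.2 w).re
    rw [Complex.norm_exp, Real.log_exp]

variable {K}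

theorem fst_ne_zero' (u : RealPoints K) (w : {w : InfinitePlace K // IsReal w}) :
    (u : mixedSpace K).1 w ≠ 0 := by
  intro h
  have h1 : ((u * u⁻¹ : RealPoints K) : mixedSpace K).1 w = 1 := by
    rw [mul_inv_cancel]; rfl
  have h2 : ((u * u⁻¹ : RealPoints K) : mixedSpace K).1 w =
      (u : mixedSpace K).1 w * ((u⁻¹ : RealPoints K) : mixedSpace K).1 w := rfl
  rw [h2, h, zero_mul] at h1
  exact zero_ne_one h1

theorem lgP_mul (u v : RealPoints K) : lgP K (u * v) = lgP K u + lgP K v := by
  funext w
  rcases w with w | w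
  · show Real.log |(u : mixedSpace K).1 w * (v : mixedSpace K).1 w| = _
    rw [abs_mul, Real.log_mul (abs_ne_zero.mpr (fst_ne_zero' u w))
      (abs_ne_zero.mpr (fst_ne_zero' v w))]
    rfl
  · show Real.log ‖(u : mixedSpace K).2 w * (v : mixedSpace K).2 w‖ = _
    rw [norm_mul, Real.log_mul (norm_ne_zero_iff.mpr (snd_ne_zero u w))
      (norm_ne_zero_iff.mpr (snd_ne_zero v w))]
    rfl

theorem lgP_one : lgP K (1 : RealPoints K) = 0 := by
  have h := lgP_mul (1 : RealPoints K) 1
  rw [mul_one] at h
  exact left_eq_add.mp h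

theorem lgP_inv (u : RealPoints K) : lgP K u⁻¹ = - lgP K u := by
  have := lgP_mul u u⁻¹
  rw [mul_inv_cancel, lgP_one] at this
  exact (neg_eq_of_add_eq_zero_right this.symm).symm

theorem lgP_continuous : Continuous (fun u : RealPoints K => lgP K u) := by
  refine continuous_pi fun w => ?_
  rcases w with w | w
  · have h1 : Continuous (fun u : RealPoints K => (u : mixedSpace K).1 w) :=
      (continuous_apply w).comp (continuous_fst.comp Units.continuous_val)
    exact h1.abs.log (fun u => abs_ne_zero.mpr (fst_ne_zero' u w))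
  · have h1 : Continuous (fun u : RealPoints K => (u : mixedSpace K).2 w) :=
      (continuous_apply w).comp (continuous_snd.comp Units.continuous_val)
    exact h1.norm.log (fun u => norm_ne_zero_iff.mpr (snd_ne_zero u w))

/-- coordinate functions and their conjugates -/
def basicF (K : Type) [Field K] [NumberField K] : Set (RealPoints K → ℂ) :=
  {g | (∃ w : {w : InfinitePlace K // IsReal w}, g = fun u : RealPoints K =>
      (((u : mixedSpace K).1 w : ℝ) : ℂ)) ∨
    ∃ w : {w : InfinitePlace K // IsComplex w}, g = (fun u : RealPoints K => (u : mixedSpace K).2 w) ∨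
      g = (fun u : RealPoints K => (starRingEnd ℂ) ((u : mixedSpace K).2 w))}

theorem functional_mem' (φ : mixedSpace K →ₗ[ℝ] ℝ) :
    (fun u : RealPoints K => ((φ (u : mixedSpace K) : ℝ) : ℂ)) ∈
      Algebra.adjoin ℂ (basicF K) := by
  classical
  have key : ∀ x : mixedSpace K, φ x = ∑ w : {w : InfinitePlace K // IsReal w},
        x.1 w * φ (Pi.single w 1, 0) + ∑ w : {w : InfinitePlace K // IsComplex w},
      ((x.2 w).re * φ (0, Pi.single w 1) + (x.2 w).im * φ (0, Pi.single w Complex.I)) := by
    intro x
    have hx : x = ∑ w : {w : InfinitePlace K // IsReal w},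
        x.1 w • ((Pi.single w 1, 0) : mixedSpace K) +
        ∑ w : {w : InfinitePlace K // IsComplex w},
        ((x.2 w).re • ((0, Pi.single w 1) : mixedSpace K) +
        (x.2 w).im • ((0, Pi.single w Complex.I) : mixedSpace K)) := by
      apply Prod.ext
      · funext w
        rw [Prod.fst_add, Prod.fst_sum, Prod.fst_sum]
        simp only [Prod.fst_add, Prod.smul_fst, Finset.sum_apply, Pi.add_apply, Pi.smul_apply,
          Pi.single_apply, smul_zero, add_zero, Finset.sum_const_zero, Pi.zero_apply, smul_eq_mul,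
          mul_ite, mul_one, mul_zero, Finset.sum_ite_eq, Finset.mem_univ, if_true]
      · funext w
        rw [Prod.snd_add, Prod.snd_sum, Prod.snd_sum]
        simp only [Prod.snd_add, Prod.smul_snd, Finset.sum_apply, Pi.add_apply, Pi.smul_apply,
          Pi.single_apply, smul_zero, Finset.sum_const_zero, Pi.zero_apply, zero_add]
        rw [Finset.sum_eq_single w]
        · simp only [if_true]
          rw [Complex.real_smul, Complex.real_smul, mul_one, Complex.re_add_im]
        · intro b _ hb
          simp [Ne.symm hb]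
        · intro h; exact absurd (Finset.mem_univ w) h
    conv_lhs => rw [hx]
    rw [map_add, map_sum, map_sum]
    congr 1
    · refine Finset.sum_congr rfl fun w _ => ?_
      rw [map_smul, smul_eq_mul]
    · refine Finset.sum_congr rfl fun w _ => ?_
      rw [map_add, map_smul, map_smul, smul_eq_mul, smul_eq_mul]
  have key2 : (fun u : RealPoints K => ((φ (u : mixedSpace K) : ℝ) : ℂ)) =
      ∑ w : {w : InfinitePlace K // IsReal w},
        (algebraMap ℂ (RealPoints K → ℂ) (φ (Pi.single w 1, 0) : ℂ)) *
          (fun u : RealPoints K => (((u : mixedSpace K).1 w : ℝ) : ℂ)) +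
      ∑ w : {w : InfinitePlace K // IsComplex w}, (
        (algebraMap ℂ (RealPoints K → ℂ) ((φ (0, Pi.single w 1) : ℂ) / 2 +
            (φ (0, Pi.single w Complex.I) : ℂ) / (2 * Complex.I))) *
          (fun u : RealPoints K => (u : mixedSpace K).2 w) +
        (algebraMap ℂ (RealPoints K → ℂ) ((φ (0, Pi.single w 1) : ℂ) / 2 -
            (φ (0, Pi.single w Complex.I) : ℂ) / (2 * Complex.I))) *
          (fun u : RealPoints K => (starRingEnd ℂ) ((u : mixedSpace K).2 w))) := by
    funext u
    rw [key, Pi.add_apply, Finset.sum_apply, Finset.sum_apply, Complex.ofReal_add,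
      Complex.ofReal_sum, Complex.ofReal_sum]
    congr 1
    · apply Finset.sum_congr rfl
      intro w _
      rw [Complex.ofReal_mul]
      simp only [Pi.mul_apply, Pi.algebraMap_apply, Algebra.algebraMap_self, RingHom.id_apply]
      ring
    · apply Finset.sum_congr rfl
      intro w _
      rw [Complex.ofReal_add, Complex.ofReal_mul, Complex.ofReal_mul]
      simp only [Pi.add_apply, Pi.mul_apply, Pi.algebraMap_apply, Algebra.algebraMap_self,
        RingHom.id_apply]
      have h1 : (((u : mixedSpace K).2 w).re : ℂ) = ((u : mixedSpace K).2 w +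
          (starRingEnd ℂ) ((u : mixedSpace K).2 w)) / 2 := Complex.re_eq_add_conj _
      have h2 : (((u : mixedSpace K).2 w).im : ℂ) = ((u : mixedSpace K).2 w -
          (starRingEnd ℂ) ((u : mixedSpace K).2 w)) / (2 * Complex.I) := Complex.im_eq_sub_conj _
      rw [h1, h2]
      ring
  rw [key2]
  refine Subalgebra.add_mem _ ?_ ?_
  · refine Subalgebra.sum_mem _ fun w _ => ?_
    refine Subalgebra.mul_mem _ (Subalgebra.algebraMap_mem _ _) ?_
    exact Algebra.subset_adjoin (Or.inl ⟨w, rfl⟩)
  · refine Subalgebra.sum_mem _ fun w _ => ?_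
    refine Subalgebra.add_mem _ ?_ ?_
    · refine Subalgebra.mul_mem _ (Subalgebra.algebraMap_mem _ _) ?_
      exact Algebra.subset_adjoin (Or.inr ⟨w, Or.inl rfl⟩)
    · refine Subalgebra.mul_mem _ (Subalgebra.algebraMap_mem _ _) ?_
      exact Algebra.subset_adjoin (Or.inr ⟨w, Or.inr rfl⟩)

/-- Polynomial functions are combinations of products of basic functions. -/
theorem poly_mem' (f : MvPolynomial (Module.Free.ChooseBasisIndex ℤ (𝓞 K)) ℚ) :
    (fun u : RealPoints K => ((MvPolynomial.aeval (coord K u) f : ℝ) : ℂ)) ∈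
      Algebra.adjoin ℂ (basicF K) := by
  induction f using MvPolynomial.induction_on with
  | C a =>
    have : (fun u : RealPoints K =>
        ((MvPolynomial.aeval (coord K u) (MvPolynomial.C a : MvPolynomial _ ℚ) : ℝ) : ℂ)) =
        algebraMap ℂ (RealPoints K → ℂ) (a : ℂ) := by
      funext u
      simp
    rw [this]
    exact Subalgebra.algebraMap_mem _ _
  | add p q hp hq =>
    have : (fun u : RealPoints K => ((MvPolynomial.aeval (coord K u) (p + q) : ℝ) : ℂ)) =
        (fun u : RealPoints K => ((MvPolynomial.aeval (coord K u) p : ℝ) : ℂ)) +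
        (fun u : RealPoints K => ((MvPolynomial.aeval (coord K u) q : ℝ) : ℂ)) := by
      funext u
      simp
    rw [this]
    exact Subalgebra.add_mem _ hp hq
  | mul_X p i hp =>
    have : (fun u : RealPoints K =>
        ((MvPolynomial.aeval (coord K u) (p * MvPolynomial.X i) : ℝ) : ℂ)) =
        (fun u : RealPoints K => ((MvPolynomial.aeval (coord K u) p : ℝ) : ℂ)) *
        (fun u : RealPoints K => (((latticeBasis K).coord i (u : mixedSpace K) : ℝ) : ℂ)) := by
      funext u
      simp [coord]
    rw [this]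
    exact Subalgebra.mul_mem _ hp (functional_mem' _)

/-- The properties of products of basic functions that are used. -/
def GoodF (g : RealPoints K → ℂ) : Prop :=
  (∃ χ : RealPoints K →* ℂ, ∀ u, χ u = g u) ∧ ∃ n : PL K → ℤ,
    (∀ r : PL K → ℝ, g (EV K (emP K r)) = ((Real.exp (∑ w, r w * (n w : ℝ)) : ℝ) : ℂ)) ∧
    ∀ u : RealPoints K, ‖g u‖ = Real.exp (∑ w, lgP K u w * (n w : ℝ))

theorem goodF_one : GoodF (1 : RealPoints K → ℂ) := by
  refine ⟨⟨1, fun u => rfl⟩, 0, ?_, ?_⟩
  · intro v; simp
  · intro u; simp

theorem goodF_mul (g g' : RealPoints K → ℂ) (h : GoodF g) (h' : GoodF g') : GoodF (g * g') := by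
  obtain ⟨⟨χ, hχ⟩, n, h1, h2⟩ := h
  obtain ⟨⟨χ', hχ'⟩, n', h1', h2'⟩ := h'
  refine ⟨⟨χ * χ', fun u => ?_⟩, n + n', ?_, ?_⟩
  · rw [MonoidHom.mul_apply, hχ, hχ', Pi.mul_apply]
  · intro v
    rw [Pi.mul_apply, h1, h1', ← Complex.ofReal_mul, ← Real.exp_add, ← Finset.sum_add_distrib]
    congr 2
    apply Finset.sum_congr rfl
    intro i _
    rw [Pi.add_apply]
    push_cast
    ring
  · intro u
    rw [Pi.mul_apply, norm_mul, h2 u, h2' u, ← Real.exp_add, ← Finset.sum_add_distrib]
    congr 1
    apply Finset.sum_congr rfl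
    intro i _
    rw [Pi.add_apply]
    push_cast
    ring

theorem goodF_basic (g : RealPoints K → ℂ) (hg : g ∈ basicF K) : GoodF g := by
  classical
  have hsum : ∀ (r : PL K → ℝ) (w : PL K), ∑ w', r w' * ((Pi.single w 1 : PL K → ℤ) w' : ℝ) = r w := by
    intro r w
    rw [Finset.sum_eq_single w]
    · rw [Pi.single_eq_same]; simp
    · intro b _ hb
      rw [Pi.single_eq_of_ne hb]; simp
    · intro h; exact absurd (Finset.mem_univ w) h
  rcases hg with ⟨w, rfl⟩ | ⟨w, rfl | rfl⟩
  · refine ⟨⟨⟨⟨fun u : RealPoints K => (((u : mixedSpace K).1 w : ℝ) : ℂ), ?_⟩, ?_⟩,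
      fun u => rfl⟩, Pi.single (Sum.inl w) 1, ?_, ?_⟩
    · show (((1 : mixedSpace K).1 w : ℝ) : ℂ) = 1
      exact Complex.ofReal_one
    · intro a b
      exact Complex.ofReal_mul _ _
    · intro r
      rw [hsum]
      rfl
    · intro u
      rw [hsum]
      show ‖(((u : mixedSpace K).1 w : ℝ) : ℂ)‖ = Real.exp (Real.log |(u : mixedSpace K).1 w|)
      rw [Real.exp_log (abs_pos.mpr (fst_ne_zero' u w)), Complex.norm_real, Real.norm_eq_abs]
  · refine ⟨⟨⟨⟨fun u : RealPoints K => (u : mixedSpace K).2 w, rfl⟩, fun a b => rfl⟩,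
      fun u => rfl⟩, Pi.single (Sum.inr w) 1, ?_, ?_⟩
    · intro r
      rw [hsum]
      show Complex.exp ((r (Sum.inr w) : ℝ) : ℂ) = _
      rw [Complex.ofReal_exp]
    · intro u
      rw [hsum]
      show _ = Real.exp (Real.log ‖(u : mixedSpace K).2 w‖)
      rw [Real.exp_log (norm_pos_iff.mpr (snd_ne_zero u w))]
  · refine ⟨⟨⟨⟨fun u : RealPoints K => (starRingEnd ℂ) ((u : mixedSpace K).2 w), ?_⟩, ?_⟩,
      fun u => rfl⟩, Pi.single (Sum.inr w) 1, ?_, ?_⟩
    · show (starRingEnd ℂ) (1 : ℂ) = 1
      exact map_one _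
    · intro a b
      show (starRingEnd ℂ) ((a : mixedSpace K).2 w * (b : mixedSpace K).2 w) = _
      exact map_mul _ _ _
    · intro r
      rw [hsum]
      show (starRingEnd ℂ) (Complex.exp ((r (Sum.inr w) : ℝ) : ℂ)) = _
      rw [← Complex.ofReal_exp, Complex.conj_ofReal]
    · intro u
      rw [hsum]
      show ‖(starRingEnd ℂ) ((u : mixedSpace K).2 w)‖ = Real.exp (Real.log ‖(u : mixedSpace K).2 w‖)
      rw [Complex.norm_conj, Real.exp_log (norm_pos_iff.mpr (snd_ne_zero u w))]

theorem goodF_closure (g : RealPoints K → ℂ) (hg : g ∈ Submonoid.closure (basicF K)) :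
    GoodF g := by
  induction hg using Submonoid.closure_induction with
  | mem x hx => exact goodF_basic x hx
  | one => exact goodF_one
  | mul x y _ _ hx hy => exact goodF_mul x y hx hy

/-- **The rational hull of the logarithm of a point of a rational algebraic subgroup.** -/
theorem mem_of_hull (B : Subgroup (RealPoints K)) (hB : IsRationalAlgebraic K B)
    (b : RealPoints K) (hb : b ∈ B) (r : PL K → ℝ)
    (hr : ∀ n : PL K → ℤ, ∑ w, lgP K b w * (n w : ℝ) = 0 → ∑ w, r w * (n w : ℝ) = 0) :
    EV K (emP K r) ∈ B := by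
  classical
  obtain ⟨S, hS⟩ := hB
  rw [hS]
  intro f hf
  have hmem := poly_mem' (K := K) f
  rw [← Subalgebra.mem_toSubmodule, Algebra.adjoin_eq_span] at hmem
  rw [Finsupp.mem_span_iff_linearCombination] at hmem
  obtain ⟨c, hc⟩ := hmem
  -- characters
  have hgood : ∀ g : Submonoid.closure (basicF K), GoodF (g : RealPoints K → ℂ) :=
    fun g => goodF_closure _ g.2
  choose χ hχ using fun g => (hgood g).1
  choose N hN1 hN2 using fun g => (hgood g).2
  have hval : ∀ u : RealPoints K, ((MvPolynomial.aeval (coord K u) f : ℝ) : ℂ) =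
      ∑ g ∈ c.support, c g * χ g u := by
    intro u
    have h1 := congrFun hc u
    rw [← h1, Finsupp.linearCombination_apply, Finsupp.sum, Finset.sum_apply]
    apply Finset.sum_congr rfl
    intro g _
    rw [Pi.smul_apply, smul_eq_mul, hχ g u]
  have hzero := artin_extend B c.support c χ (fun b' hb' => by
    rw [← hval, (hS b').mp hb' f hf]; simp)
    (EV K (emP K r)) (by
    intro g _ g' _ hgg
    have h1 := hgg b hb
    have h2 : Real.exp (∑ w, lgP K b w * (N g w : ℝ)) = Real.exp (∑ w, lgP K b w * (N g' w : ℝ)) := by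
      rw [← hN2 g b, ← hN2 g' b, ← hχ g b, ← hχ g' b, h1]
    have h3 := Real.exp_injective h2
    have hsub : ∀ x : PL K → ℝ, ∑ w, x w * (((N g - N g') w : ℤ) : ℝ) =
        ∑ w, x w * (N g w : ℝ) - ∑ w, x w * (N g' w : ℝ) := by
      intro x
      rw [← Finset.sum_sub_distrib]
      apply Finset.sum_congr rfl
      intro i _
      rw [Pi.sub_apply]; push_cast; ring
    have h5 := hr (N g - N g') (by rw [hsub, h3, sub_self])
    rw [hsub, sub_eq_zero] at h5
    rw [hχ, hχ, hN1, hN1, h5])
  rw [← hval] at hzero
  exact_mod_cast hzero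

end Pool.Agent.J4H74.T3
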