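import Mathlib
import Pool.Agent.J4H74.T3.R1
import Pool.Agent.J4H74.T3.R2

set_option autoImplicit false
set_option linter.unusedSectionVars false

/-!
# The Lie algebra of the closure of a finitely generated group
-/

namespace Pool.Agent.J4H74.T3

open NumberField NumberField.mixedEmbedding NumberField.InfinitePlace Pool.Agent.H492R2.Tor
open scoped Classical

variable {K : Type} [Field K] [NumberField K]

theorem EV_nsmul (m : ℕ) (z : mixedSpace K) : EV K ((m : ℝ) • z) = EV K z ^ m := by
  induction m with
  | zero => rw [pow_zero, Nat.cast_zero, zero_smul, EV_zero]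
  | succ m ih => rw [pow_succ, Nat.cast_succ, add_smul, one_smul, EV_add, ih]

/-- The closed group of logarithms of points of the closure. -/
noncomputable def GamV (L : Subgroup Kˣ) : AddSubgroup (mixedSpace K) where
  carrier := {z | EV K z ∈ closureIn K L}
  add_mem' := by
    intro a b ha hb
    show EV K (a + b) ∈ closureIn K L
    rw [EV_add]
    exact Subgroup.mul_mem _ ha hb
  zero_mem' := by
    show EV K 0 ∈ closureIn K L
    rw [EV_zero]
    exact Subgroup.one_mem _
  neg_mem' := by
    intro a ha
    show EV K (-a) ∈ closureIn K L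
    rw [EV_neg]
    exact Subgroup.inv_mem _ ha

theorem mem_GamV (L : Subgroup Kˣ) (z : mixedSpace K) : z ∈ GamV L ↔ EV K z ∈ closureIn K L :=
  Iff.rfl

theorem GamV_closed (L : Subgroup Kˣ) : IsClosed (GamV L : Set (mixedSpace K)) := by
  have h : IsClosed ((closureIn K L : Subgroup (RealPoints K)) : Set (RealPoints K)) :=
    Subgroup.isClosed_topologicalClosure _
  exact h.preimage (EV_continuous K)

/-- The lines are in the identity component. -/
theorem mem_identityComponent (L : Subgroup Kˣ) {z : mixedSpace K} (hz : z ∈ lineSpace (GamV L)) :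
    EV K z ∈ identityComponent K L := by
  have hmem : ∀ r : ℝ, EV K (r • z) ∈ closureIn K L := fun r => hz r
  let c : ℝ → closureIn K L := fun r => ⟨EV K (r • z), hmem r⟩
  have hc : Continuous c := by
    apply Continuous.subtype_mk
    exact (EV_continuous K).comp (continuous_id.smul continuous_const)
  have hconn : IsPreconnected (Set.range c) := isPreconnected_range hc
  have h1 : (1 : closureIn K L) ∈ Set.range c := by
    refine ⟨0, ?_⟩
    apply Subtype.ext
    show EV K ((0:ℝ) • z) = 1
    rw [zero_smul, EV_zero]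
  have h2 : c 1 ∈ connectedComponent (1 : closureIn K L) :=
    hconn.subset_connectedComponent h1 ⟨1, rfl⟩
  refine ⟨c 1, h2, ?_⟩
  show EV K ((1:ℝ) • z) = EV K z
  rw [one_smul]

/-- **Under the expected answer the rational hull of the real part of a vector of the Lie algebra
is in the Lie algebra.** -/
theorem hull_mem (hK : ExpectedAnswerReal K) (L : Subgroup Kˣ) (hL : L.FG) {z : mixedSpace K}
    (hz : z ∈ lineSpace (GamV L)) (r : PL K → ℝ)
    (hr : ∀ n : PL K → ℤ, ∑ w, reP K z w * (n w : ℝ) = 0 → ∑ w, r w * (n w : ℝ) = 0) :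
    emP K r ∈ lineSpace (GamV L) := by
  obtain ⟨B, hB, hle, hidx⟩ := hK L hL
  have hb : EV K z ∈ B := hle (mem_identityComponent L hz)
  set M := ((identityComponent K L).relIndex B).factorial with hM
  have hM0 : (M : ℝ) ≠ 0 := by exact_mod_cast Nat.factorial_ne_zero _
  -- the power
  have hpow : ∀ s : PL K → ℝ,
      (∀ n : PL K → ℤ, ∑ w, reP K z w * (n w : ℝ) = 0 → ∑ w, s w * (n w : ℝ) = 0) →
      EV K ((M : ℝ) • emP K s) ∈ identityComponent K L := by
    intro s hs
    have hU := mem_of_hull B hB (EV K z) hb s (by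
      intro n hn
      apply hs
      rw [lgP_EV] at hn
      exact hn)
    obtain ⟨m, hm, hmle, hpow⟩ := Subgroup.exists_pow_mem_of_relIndex_ne_zero hidx hU
    obtain ⟨k, hk⟩ := Nat.dvd_factorial hm hmle
    rw [EV_nsmul, hM, hk, pow_mul]
    exact Subgroup.pow_mem _ hpow.1 k
  intro t
  have h1 := hpow ((t / M) • r) (by
    intro n hn
    have h2 := hr n hn
    simp only [Pi.smul_apply, smul_eq_mul, mul_assoc, ← Finset.mul_sum, h2, mul_zero])
  rw [map_smul, smul_smul, mul_div_cancel₀ _ hM0] at h1
  obtain ⟨c, _, hc⟩ := h1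
  rw [mem_GamV, ← hc]
  exact c.2

end Pool.Agent.J4H74.T3
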