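import Mathlib
import Pool.Agent.J4H74.T3.R3
import Pool.Agent.J4H74.T3.Lat
import Pool.Agent.J4H74.T3.Build

set_option autoImplicit false
set_option linter.unusedSectionVars false

/-!
# Logarithms at the infinite places
-/

namespace Pool.Agent.J4H74.T3

open NumberField NumberField.mixedEmbedding NumberField.InfinitePlace Pool.Agent.H492R2.Tor
open scoped Classical

/-- The embedding at a place. -/
noncomputable def embP {K : Type} [Field K] (w : PL K) : K →+* ℂ :=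
  Sum.elim (fun w => w.1.embedding) (fun w => w.1.embedding) w

theorem lgP_inclusion {K : Type} [Field K] [NumberField K] (x : Kˣ) (w : PL K) :
    lgP K (inclusion K x) w = Real.log ‖embP w (x : K)‖ := by
  rcases w with w | w
  · show Real.log |(mixedEmbedding K (x : K)).1 w| = Real.log ‖w.1.embedding (x : K)‖
    rw [mixedEmbedding_apply_isReal, ← embedding_of_isReal_apply w.2, Complex.norm_real,
      Real.norm_eq_abs]
  · rfl

/-- Every embedding belongs to a place. -/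
theorem exists_place {K : Type} [Field K] [NumberField K] (φ : K →+* ℂ) :
    ∃ w : PL K, (∀ x, φ x = embP w x) ∨ (∀ x, φ x = (starRingEnd ℂ) (embP w x)) := by
  have hw : ∃ w : PL K, embP w = (InfinitePlace.mk φ).embedding := by
    rcases (InfinitePlace.mk φ).isReal_or_isComplex with h | h
    · exact ⟨Sum.inl ⟨_, h⟩, rfl⟩
    · exact ⟨Sum.inr ⟨_, h⟩, rfl⟩
  obtain ⟨w, hw⟩ := hw
  refine ⟨w, ?_⟩
  rcases InfinitePlace.embedding_mk_eq φ with h | h
  · left
    intro x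
    rw [hw, h]
  · right
    intro x
    rw [hw, h, ComplexEmbedding.conjugate_coe_eq, Complex.conj_conj]

namespace Ex

variable {K N : Type} [Field K] [NumberField K] [Field N] [NumberField N] [Algebra K N]
  {I J : Type} [Fintype I] [Fintype J] (P : Ex K N I J) (ι : N →ₐ[ℚ] ℂ)
  (γ : PL K → (N ≃ₐ[ℚ] N)) (hγ : ∀ w (x : K), embP w x = ι (γ w (algebraMap K N x)))

include hγ in
theorem emb_y (w : PL K) (i : I) : embP w (P.y i : K) =
    ∏ j, ∏ g, (ι ((cj g (P.z j) : Nˣ) : N)) ^ P.m i j ((γ w)⁻¹ * g) := by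
  have h2 : embP w (P.y i : K) = ι ((cj (γ w) (∏ j, ∏ g, cj g (P.z j) ^ P.m i j g) : Nˣ) : N) := by
    rw [hγ, ← P.hy]
    rfl
  rw [h2]
  simp only [map_prod, map_zpow, ← cj_mul, Units.coe_prod, Units.val_zpow_eq_zpow_val, map_zpow₀]
  refine Finset.prod_congr rfl fun j _ => ?_
  rw [← Equiv.prod_comp (Equiv.mulLeft (γ w))
    (fun g => (ι ((cj g (P.z j) : Nˣ) : N)) ^ P.m i j ((γ w)⁻¹ * g))]
  refine Finset.prod_congr rfl fun g _ => ?_
  rw [Equiv.coe_mulLeft, inv_mul_cancel_left]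

theorem ne_zero_z (g : N ≃ₐ[ℚ] N) (j : J) : ι ((cj g (P.z j) : Nˣ) : N) ≠ 0 := by
  rw [Ne, map_eq_zero]
  exact (cj g (P.z j)).ne_zero

include hγ in
theorem log_emb_y (w : PL K) (i : I) : Real.log ‖embP w (P.y i : K)‖ =
    ∑ j, ∑ g, (P.m i j ((γ w)⁻¹ * g) : ℝ) * Real.log ‖ι ((cj g (P.z j) : Nˣ) : N)‖ := by
  rw [P.emb_y ι γ hγ, _root_.norm_prod, Real.log_prod (fun j _ => norm_ne_zero_iff.mpr
    (Finset.prod_ne_zero_iff.mpr fun g _ => zpow_ne_zero _ (P.ne_zero_z ι g j)))]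
  refine Finset.sum_congr rfl fun j _ => ?_
  rw [_root_.norm_prod, Real.log_prod (fun g _ => norm_ne_zero_iff.mpr (zpow_ne_zero _ (P.ne_zero_z ι g j)))]
  refine Finset.sum_congr rfl fun g _ => ?_
  rw [norm_zpow, Real.log_zpow]

variable (cc : N ≃ₐ[ℚ] N) (hcc : ∀ x, ι (cc x) = (starRingEnd ℂ) (ι x))

include hcc in
theorem indep_log (e : J → (N ≃ₐ[ℚ] N) → ℤ)
    (h : ∑ j, ∑ g, (e j g : ℝ) * Real.log ‖ι ((cj g (P.z j) : Nˣ) : N)‖ = 0) :
    ∀ j g, e j g + e j (cc * g) = 0 := by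
  have h1 : ∏ j, ∏ g, ‖ι ((cj g (P.z j) : Nˣ) : N)‖ ^ e j g = 1 := by
    have hpos : ∀ j g, 0 < ‖ι ((cj g (P.z j) : Nˣ) : N)‖ ^ e j g := fun j g =>
      zpow_pos (norm_pos_iff.mpr (P.ne_zero_z ι g j)) _
    have hpos' : ∀ j, 0 < ∏ g, ‖ι ((cj g (P.z j) : Nˣ) : N)‖ ^ e j g := fun j =>
      Finset.prod_pos fun g _ => hpos j g
    apply Real.eq_one_of_pos_of_log_eq_zero (Finset.prod_pos fun j _ => hpos' j)
    rw [Real.log_prod (fun j _ => (hpos' j).ne'), ← h]
    refine Finset.sum_congr rfl fun j _ => ?_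
    rw [Real.log_prod (fun g _ => (hpos j g).ne')]
    refine Finset.sum_congr rfl fun g _ => ?_
    rw [Real.log_zpow]
  have h2 : ∏ j, ∏ g, (cj g (P.z j) * cj (cc * g) (P.z j)) ^ e j g = 1 := by
    have hinj : Function.Injective (Units.map ((ι : N →+* ℂ) : N →* ℂ)) :=
      Units.map_injective ι.injective
    apply hinj
    rw [map_one, map_prod]
    apply Units.ext
    rw [Units.coe_prod, Units.val_one]
    have h3 : ∀ j, ((Units.map ((ι : N →+* ℂ) : N →* ℂ) (∏ g, (cj g (P.z j) *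
        cj (cc * g) (P.z j)) ^ e j g) : ℂˣ) : ℂ) =
        ((∏ g, ‖ι ((cj g (P.z j) : Nˣ) : N)‖ ^ e j g : ℝ) : ℂ) ^ 2 := by
      intro j
      rw [map_prod, Units.coe_prod, Complex.ofReal_prod, ← Finset.prod_pow]
      refine Finset.prod_congr rfl fun g _ => ?_
      rw [map_zpow, Units.val_zpow_eq_zpow_val, map_mul, Units.val_mul, Complex.ofReal_zpow,
        ← zpow_natCast, ← zpow_mul, mul_comm (e j g), zpow_mul, zpow_natCast, ← Complex.mul_conj']
      congr 2
      show ι ((cj (cc * g) (P.z j) : Nˣ) : N) = _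
      rw [← hcc]
      rfl
    rw [Finset.prod_congr rfl fun j _ => h3 j, Finset.prod_pow, ← Complex.ofReal_prod, h1]
    simp
  have h3 := P.hz (fun j g => e j g + e j (cc⁻¹ * g)) (by
    rw [← h2]
    refine Finset.prod_congr rfl fun j _ => ?_
    simp only [zpow_add, mul_zpow, Finset.prod_mul_distrib]
    congr 1
    rw [← Equiv.prod_comp (Equiv.mulLeft cc) (fun g => cj g (P.z j) ^ e j (cc⁻¹ * g))]
    refine Finset.prod_congr rfl fun g _ => ?_
    rw [Equiv.coe_mulLeft, inv_mul_cancel_left])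
  intro j g
  have h4 := congrFun (congrFun h3 j) (cc * g)
  simp only [inv_mul_cancel_left, Pi.zero_apply] at h4
  rw [add_comm]
  exact h4

include hcc in
theorem indep_log_rat (e : J → (N ≃ₐ[ℚ] N) → ℚ)
    (h : ∑ j, ∑ g, (e j g : ℝ) * Real.log ‖ι ((cj g (P.z j) : Nˣ) : N)‖ = 0) :
    ∀ j g, e j g + e j (cc * g) = 0 := by
  obtain ⟨D, hD, hk⟩ := exists_den (fun t : J × (N ≃ₐ[ℚ] N) => e t.1 t.2)
  choose k hk using hk
  have hDQ : (D : ℚ) ≠ 0 := by exact_mod_cast hD.ne'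
  have hk' : ∀ j g, (k (j, g) : ℝ) = (D : ℝ) * (e j g : ℝ) := by
    intro j g
    have := congrArg (fun q : ℚ => (q : ℝ)) (hk (j, g))
    push_cast at this
    exact this
  have h1 := P.indep_log ι cc hcc (fun j g => k (j, g)) (by
    simp only [hk', mul_assoc]
    simp only [← Finset.mul_sum, h, mul_zero])
  intro j g
  have h2 := congrArg (fun n : ℤ => (n : ℚ)) (h1 j g)
  push_cast at h2
  rw [hk, hk, ← mul_add] at h2
  exact (mul_eq_zero.mp h2).resolve_left hDQ

end Ex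

end Pool.Agent.J4H74.T3
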