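import Mathlib
import Pool.Agent.J4H74.T3.R4
import Pool.Agent.J4H74.T3.Good
import Pool.Agent.J4H74.T3.PLat

set_option autoImplicit false
set_option linter.unusedSectionVars false

/-!
# The real part fails if there is a degenerate lattice
-/

namespace Pool.Agent.J4H74.T3

open NumberField NumberField.mixedEmbedding NumberField.InfinitePlace Pool.Agent.H492R2.Tor
open scoped Classical

/-- Rational vectors which are independent over `ℚ` are independent over `ℝ`. -/
theorem real_indep {m κ : Type} [Fintype m] (c : m → κ → ℚ) (hc : LinearIndependent ℚ c)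
    (t : m → ℝ) (h : ∀ k, ∑ j, t j * (c j k : ℝ) = 0) : t = 0 := by
  funext j₀
  rw [Pi.zero_apply, ← Module.forall_dual_apply_eq_zero_iff ℚ (t j₀)]
  intro f
  have h1 : ∑ j, f (t j) • c j = 0 := by
    funext k
    rw [Finset.sum_apply, Pi.zero_apply]
    have h2 := congrArg f (h k)
    rw [map_zero, map_sum] at h2
    rw [← h2]
    refine Finset.sum_congr rfl fun j _ => ?_
    rw [Pi.smul_apply, smul_eq_mul, mul_comm (t j), ← Rat.smul_def, map_smul, smul_eq_mul, mul_comm]
  exact (Fintype.linearIndependent_iff.mp hc) _ h1 j₀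

theorem finrank_ratPart_le {V : Type} [AddCommGroup V] [Module ℝ V] [FiniteDimensional ℝ V]
    {κ : Type} [Fintype κ] (e : κ → V) (he : LinearIndependent ℝ e) (l : Submodule ℝ V) :
    Module.finrank ℚ (ratPart e l) ≤ Module.finrank ℝ l := by
  let c := Module.finBasis ℚ (ratPart e l)
  have hli : LinearIndependent ℚ (fun j => (c j : κ → ℚ)) :=
    c.linearIndependent.map' (ratPart e l).subtype (Submodule.ker_subtype _)
  let x : Fin (Module.finrank ℚ (ratPart e l)) → l := fun j =>
    ⟨∑ k, (((c j : κ → ℚ) k : ℚ) : ℝ) • e k, (c j).2⟩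
  have hx : LinearIndependent ℝ x := by
    rw [Fintype.linearIndependent_iff]
    intro t ht
    have h1 := congrArg Subtype.val ht
    rw [AddSubmonoidClass.coe_finsetSum, ZeroMemClass.coe_zero] at h1
    have h2 : ∑ k, (∑ j, t j * (((c j : κ → ℚ) k : ℚ) : ℝ)) • e k = 0 := by
      rw [← h1]
      simp only [Finset.sum_smul]
      rw [Finset.sum_comm]
      refine Finset.sum_congr rfl fun j _ => ?_
      show _ = t j • ∑ k, (((c j : κ → ℚ) k : ℚ) : ℝ) • e k
      rw [Finset.smul_sum]
      refine Finset.sum_congr rfl fun k _ => ?_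
      rw [mul_smul]
    have h3 := (Fintype.linearIndependent_iff.mp he) _ h2
    have h4 := real_indep (fun j => (c j : κ → ℚ)) hli t h3
    intro j
    exact congrFun h4 j
  have := hx.fintype_card_le_finrank
  rwa [Fintype.card_fin] at this

section

variable {K : Type} [Field K] [NumberField K]

/-- The periods. -/
noncomputable def per (w : {w : InfinitePlace K // IsComplex w}) : mixedSpace K :=
  (0, Pi.single w (2 * Real.pi * Complex.I))

theorem EV_per (w : {w : InfinitePlace K // IsComplex w}) : EV K (per w) = 1 := by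
  apply Units.ext
  apply Prod.ext
  · funext w'
    exact Real.exp_zero
  · funext w'
    show Complex.exp ((Pi.single w (2 * Real.pi * Complex.I) :
      {w : InfinitePlace K // IsComplex w} → ℂ) w') = 1
    rw [Pi.single_apply]
    split_ifs
    · exact Complex.exp_two_pi_mul_I
    · exact Complex.exp_zero

theorem eq_sum_per {z : mixedSpace K} (hz : reP K z = 0) :
    z = ∑ w, ((z.2 w).im / (2 * Real.pi)) • per (K := K) w := by
  have hpi : (2 * Real.pi : ℝ) ≠ 0 := by positivity
  apply Prod.ext
  · funext w
    have h1 := congrFun hz (Sum.inl w)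
    rw [Prod.fst_sum, Finset.sum_apply]
    have h2 : ∀ w', (((z.2 w').im / (2 * Real.pi)) • per (K := K) w').1 w = 0 := fun w' => by
      show _ * (0 : ℝ) = 0
      rw [mul_zero]
    rw [Finset.sum_congr rfl fun w' _ => h2 w', Finset.sum_const_zero]
    exact h1
  · funext w
    have h1 : (z.2 w).re = 0 := congrFun hz (Sum.inr w)
    rw [Prod.snd_sum, Finset.sum_apply, Finset.sum_eq_single w]
    · show z.2 w = ((z.2 w).im / (2 * Real.pi)) • (Pi.single w (2 * Real.pi * Complex.I) :
        {w : InfinitePlace K // IsComplex w} → ℂ) w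
      rw [Pi.single_eq_same, Complex.real_smul]
      have h2 : z.2 w = ((z.2 w).im : ℂ) * Complex.I := by
        apply Complex.ext <;> simp [h1]
      have h3 : (Real.pi : ℂ) ≠ 0 := by exact_mod_cast Real.pi_ne_zero
      conv_lhs => rw [h2]
      push_cast
      field_simp
    · intro b _ hb
      show ((z.2 b).im / (2 * Real.pi)) • (Pi.single b (2 * Real.pi * Complex.I) :
        {w : InfinitePlace K // IsComplex w} → ℂ) w = 0
      rw [Pi.single_eq_of_ne (Ne.symm hb), smul_zero]
    · intro h; exact absurd (Finset.mem_univ w) h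

theorem reP_per (w : {w : InfinitePlace K // IsComplex w}) : reP K (per w) = 0 := by
  funext w'
  rcases w' with w' | w'
  · rfl
  · show ((Pi.single w (2 * Real.pi * Complex.I) :
      {w : InfinitePlace K // IsComplex w} → ℂ) w').re = 0
    rw [Pi.single_apply]
    split_ifs
    · simp
    · simp

theorem per_indep : LinearIndependent ℝ (per (K := K)) := by
  rw [Fintype.linearIndependent_iff]
  intro t ht w
  have h1 := congrFun (congrArg Prod.snd ht) w
  rw [Prod.snd_sum, Finset.sum_apply, Finset.sum_eq_single w] at h1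
  · have h2 : t w • (Pi.single w (2 * Real.pi * Complex.I) :
        {w : InfinitePlace K // IsComplex w} → ℂ) w = 0 := h1
    rw [Pi.single_eq_same, Complex.real_smul] at h2
    rcases mul_eq_zero.mp h2 with h | h
    · exact_mod_cast h
    · exact absurd h Complex.two_pi_I_ne_zero
  · intro b _ hb
    show t b • (Pi.single b (2 * Real.pi * Complex.I) :
        {w : InfinitePlace K // IsComplex w} → ℂ) w = 0
    rw [Pi.single_eq_of_ne (Ne.symm hb), smul_zero]
  · intro h; exact absurd (Finset.mem_univ w) h

/-- The logarithm of the square of a number. -/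
noncomputable def zz (x : Kˣ) : mixedSpace K :=
  (fun w => Real.log ((embedding_of_isReal w.2 (x : K)) ^ 2),
    fun w => Complex.log (w.1.embedding ((x : K) ^ 2)))

theorem EV_zz (x : Kˣ) : EV K (zz x) = inclusion K (x ^ 2) := by
  apply Units.ext
  apply Prod.ext
  · funext w
    have h0 : embedding_of_isReal w.2 (x : K) ≠ 0 := by
      rw [Ne, map_eq_zero]
      exact x.ne_zero
    show Real.exp (Real.log ((embedding_of_isReal w.2 (x : K)) ^ 2)) =
      (mixedEmbedding K ((x : K) ^ 2)).1 w
    rw [Real.exp_log (by positivity), mixedEmbedding_apply_isReal, map_pow]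
  · funext w
    show Complex.exp (Complex.log (w.1.embedding ((x : K) ^ 2))) = w.1.embedding ((x : K) ^ 2)
    apply Complex.exp_log
    rw [Ne, map_eq_zero]
    exact pow_ne_zero _ x.ne_zero

theorem reP_zz (x : Kˣ) (w : PL K) : reP K (zz x) w = 2 * Real.log ‖embP w (x : K)‖ := by
  rw [← lgP_EV, EV_zz, lgP_inclusion, Units.val_pow_eq_pow_val, map_pow, norm_pow, Real.log_pow]
  norm_num

/-- **The count.** If the logarithms of the `y_i` are linearly dependent over `ℝ`, and the expected
answer holds, there is a real subspace `U` which contains the rational hulls of its elements,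
and which contains the logarithms of a group of rank greater than `dim U`. -/
theorem exists_hull_space (hK : ExpectedAnswerReal K) {I : Type} [Fintype I] (y : I → Kˣ)
    (d : I → ℝ) (hd0 : d ≠ 0) (hd : ∀ w, ∑ i, d i * Real.log ‖embP w (y i : K)‖ = 0) :
    ∃ U : Submodule ℝ (PL K → ℝ),
      (∀ u ∈ U, ∀ r : PL K → ℝ, (∀ n : PL K → ℤ, ∑ w, u w * (n w : ℝ) = 0 →
        ∑ w, r w * (n w : ℝ) = 0) → r ∈ U) ∧
      Module.finrank ℝ U + 1 ≤ Module.finrank ℚ
        (ratPart (fun i => fun w : PL K => 2 * Real.log ‖embP w (y i : K)‖) U) := by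
  set L : Subgroup Kˣ := Subgroup.closure (Set.range fun i => y i ^ 2) with hLdef
  have hFG : L.FG := ⟨Finset.univ.image fun i => y i ^ 2, by
    rw [hLdef, Finset.coe_image, Finset.coe_univ, Set.image_univ]⟩
  set l := lineSpace (GamV L) with hl
  let U : Submodule ℝ (PL K → ℝ) := l.map (reP K)
  let lg : I → (PL K → ℝ) := fun i w => 2 * Real.log ‖embP w (y i : K)‖
  have hzl : ∀ i, reP K (zz (y i)) = lg i := fun i => by
    funext w
    exact reP_zz (y i) w
  let v : I ⊕ {w : InfinitePlace K // IsComplex w} → mixedSpace K :=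
    Sum.elim (fun i => zz (y i)) per
  have hv : ∀ i, v i ∈ GamV L := by
    intro i
    rcases i with i | w
    · show EV K (zz (y i)) ∈ closureIn K L
      rw [EV_zz]
      apply Subgroup.le_topologicalClosure
      exact Subgroup.mem_map_of_mem _ (Subgroup.subset_closure ⟨i, rfl⟩)
    · show EV K (per w) ∈ closureIn K L
      rw [EV_per]
      exact Subgroup.one_mem _
  have hper : ∀ z : mixedSpace K, reP K z = 0 → z ∈ Submodule.span ℝ (Set.range v) := by
    intro z hz
    rw [eq_sum_per hz]
    exact Submodule.sum_mem _ fun w _ => Submodule.smul_mem _ _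
      (Submodule.subset_span ⟨Sum.inr w, rfl⟩)
  -- the closure
  have hcl : ∀ u ∈ closureIn K L, lgP K u ∈ Submodule.span ℝ (Set.range lg) := by
    let H : Subgroup (RealPoints K) :=
      { carrier := {u | lgP K u ∈ Submodule.span ℝ (Set.range lg)}
        mul_mem' := by
          intro a b ha hb
          show lgP K (a * b) ∈ Submodule.span ℝ (Set.range lg)
          rw [lgP_mul]
          exact Submodule.add_mem _ ha hb
        one_mem' := by
          show lgP K 1 ∈ Submodule.span ℝ (Set.range lg)
          rw [lgP_one]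
          exact Submodule.zero_mem _
        inv_mem' := by
          intro a ha
          show lgP K a⁻¹ ∈ Submodule.span ℝ (Set.range lg)
          rw [lgP_inv]
          exact Submodule.neg_mem _ ha }
    have hHc : IsClosed (H : Set (RealPoints K)) := by
      have h : IsClosed ((Submodule.span ℝ (Set.range lg) : Submodule ℝ (PL K → ℝ)) :
          Set (PL K → ℝ)) := Submodule.closed_of_finiteDimensional _
      exact h.preimage lgP_continuous
    have hle : closureIn K L ≤ H := by
      apply Subgroup.topologicalClosure_minimal _ _ hHc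
      rw [hLdef, MonoidHom.map_closure, Subgroup.closure_le]
      rintro _ ⟨_, ⟨i, rfl⟩, rfl⟩
      show lgP K (inclusion K (y i ^ 2)) ∈ Submodule.span ℝ (Set.range lg)
      rw [← EV_zz, lgP_EV, hzl]
      exact Submodule.subset_span ⟨i, rfl⟩
    exact fun u hu => hle hu
  have hlv : l ≤ Submodule.span ℝ (Set.range v) := by
    intro z hz
    have h1 : reP K z ∈ Submodule.span ℝ (Set.range lg) := by
      rw [← lgP_EV]
      exact hcl _ (lineSpace_le hz)
    obtain ⟨a, ha⟩ := (Submodule.mem_span_range_iff_exists_fun ℝ).mp h1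
    have h2 : reP K (z - ∑ i, a i • zz (y i)) = 0 := by
      rw [map_sub, map_sum, ← ha, sub_eq_zero]
      refine Finset.sum_congr rfl fun i _ => ?_
      rw [map_smul, hzl]
    have h3 := hper _ h2
    have h4 : z = (z - ∑ i, a i • zz (y i)) + ∑ i, a i • zz (y i) := by abel
    rw [h4]
    refine Submodule.add_mem _ h3 (Submodule.sum_mem _ fun i _ => Submodule.smul_mem _ _ ?_)
    exact Submodule.subset_span ⟨Sum.inl i, rfl⟩
  -- dependence
  have hdep : ¬ LinearIndependent ℝ v := by
    intro hLI
    rw [Fintype.linearIndependent_iff] at hLI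
    have h1 : reP K (∑ i, d i • zz (y i)) = 0 := by
      rw [map_sum]
      funext w
      rw [Finset.sum_apply, Pi.zero_apply]
      have h2 : ∀ i, reP K (d i • zz (y i)) w = 2 * (d i * Real.log ‖embP w (y i : K)‖) := by
        intro i
        rw [map_smul, hzl]
        show d i * (2 * Real.log ‖embP w (y i : K)‖) = _
        ring
      rw [Finset.sum_congr rfl fun i _ => h2 i, ← Finset.mul_sum, hd, mul_zero]
    have h2 := eq_sum_per h1
    set q := ∑ i, d i • zz (y i) with hq
    have h3 := hLI (Sum.elim d (fun w => -((q.2 w).im / (2 * Real.pi)))) (by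
      rw [Fintype.sum_sum_type]
      simp only [Sum.elim_inl, Sum.elim_inr, v, neg_smul, Finset.sum_neg_distrib]
      rw [← h2, ← hq]
      exact add_neg_cancel _)
    apply hd0
    funext i
    exact h3 (Sum.inl i)
  have hlt : Module.finrank ℝ (Submodule.span ℝ (Set.range v)) <
      Fintype.card (I ⊕ {w : InfinitePlace K // IsComplex w}) := by
    refine lt_of_le_of_ne (finrank_range_le_card v) fun h => hdep ?_
    exact linearIndependent_iff_card_eq_finrank_span.mpr h.symm
  have hcount := card_add_finrank_le (GamV L) (GamV_closed L) v hv hlv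
  rw [← hl] at hcount
  -- projection
  let Ψ := ratPart v l
  let pr : Ψ →ₗ[ℚ] (I → ℚ) := (LinearMap.funLeft ℚ ℚ (Sum.inl : I → I ⊕ _)).domRestrict Ψ
  have hprn := LinearMap.finrank_range_add_finrank_ker pr
  have hrange : LinearMap.range pr ≤ ratPart lg U := by
    rintro _ ⟨c, rfl⟩
    refine ⟨∑ i, ((c : I ⊕ {w : InfinitePlace K // IsComplex w} → ℚ) i : ℝ) • v i, c.2, ?_⟩
    rw [Fintype.sum_sum_type, map_add, map_sum, map_sum]
    have h1 : ∀ w, reP K ((((c : I ⊕ {w : InfinitePlace K // IsComplex w} → ℚ) (Sum.inr w) : ℚ) : ℝ) •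
        v (Sum.inr w)) = 0 := by
      intro w
      rw [map_smul]
      show _ • reP K (per w) = 0
      rw [reP_per, smul_zero]
    rw [Finset.sum_congr rfl fun w _ => h1 w, Finset.sum_const_zero, add_zero]
    refine Finset.sum_congr rfl fun i _ => ?_
    rw [map_smul]
    show _ • reP K (zz (y i)) = _
    rw [hzl]
    rfl
  have hker : Module.finrank ℚ (LinearMap.ker pr) ≤
      Module.finrank ℝ (LinearMap.ker ((reP K).domRestrict l)) := by
    have h1 := finrank_ratPart_le (per (K := K)) per_indep (l ⊓ LinearMap.ker (reP K))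
    have h2 : Module.finrank ℝ (l ⊓ LinearMap.ker (reP K) : Submodule ℝ (mixedSpace K)) =
        Module.finrank ℝ (LinearMap.ker ((reP K).domRestrict l)) := by
      have h3 : LinearMap.ker ((reP K).domRestrict l) = (LinearMap.ker (reP K)).comap l.subtype := by
        ext x
        rfl
      have h4 : (LinearMap.ker (reP K)).comap l.subtype =
          (l ⊓ LinearMap.ker (reP K)).comap l.subtype := by
        rw [Submodule.comap_inf, Submodule.comap_subtype_self, top_inf_eq]
      rw [h3, h4]
      exact (Submodule.comapSubtypeEquivOfLe inf_le_left).finrank_eq.symm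
    rw [h2] at h1
    refine le_trans ?_ h1
    let T : LinearMap.ker pr →ₗ[ℚ] ratPart (per (K := K)) (l ⊓ LinearMap.ker (reP K)) :=
      { toFun := fun c => ⟨fun w => ((c : Ψ) : I ⊕ {w : InfinitePlace K // IsComplex w} → ℚ)
            (Sum.inr w), by
          have hc1 := (c : Ψ).2
          rw [mem_ratPart, Fintype.sum_sum_type] at hc1
          have hc2 : ∀ i, (((c : Ψ) : I ⊕ {w : InfinitePlace K // IsComplex w} → ℚ)
              (Sum.inl i)) = 0 := fun i => congrFun c.2 i
          simp only [hc2, Rat.cast_zero, zero_smul, Finset.sum_const_zero, zero_add] at hc1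
          refine ⟨hc1, ?_⟩
          rw [SetLike.mem_coe, LinearMap.mem_ker, map_sum]
          refine Finset.sum_eq_zero fun w _ => ?_
          rw [map_smul, reP_per, smul_zero]⟩
        map_add' := fun c c' => rfl
        map_smul' := fun q c => rfl }
    have hT : Function.Injective T := by
      intro c c' h
      apply Subtype.ext
      apply Subtype.ext
      funext i
      rcases i with i | w
      · have e1 : (((c : Ψ) : I ⊕ {w : InfinitePlace K // IsComplex w} → ℚ) (Sum.inl i)) = 0 :=
          congrFun c.2 i
        have e2 : (((c' : Ψ) : I ⊕ {w : InfinitePlace K // IsComplex w} → ℚ) (Sum.inl i)) = 0 :=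
          congrFun c'.2 i
        rw [e1, e2]
      · exact congrFun (congrArg Subtype.val h) w
    exact LinearMap.finrank_le_finrank_of_injective hT
  have hrn := LinearMap.finrank_range_add_finrank_ker ((reP K).domRestrict l)
  have hr2 : LinearMap.range ((reP K).domRestrict l) = U := by
    rw [LinearMap.range_domRestrict]
  rw [hr2] at hrn
  refine ⟨U, ?_, ?_⟩
  · rintro _ ⟨z, hz, rfl⟩ r hr
    have h1 := hull_mem hK L hFG hz r hr
    exact ⟨emP K r, h1, reP_emP K r⟩
  · have h5 := Submodule.finrank_mono hrange
    have h6 : Module.finrank ℚ Ψ = Module.finrank ℚ (ratPart v l) := rfl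
    show Module.finrank ℝ U + 1 ≤ Module.finrank ℚ (ratPart lg U)
    omega

end

end Pool.Agent.J4H74.T3
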