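import Mathlib
import Pool.Agent.J4H74.T3.R5

set_option autoImplicit false
set_option linter.unusedSectionVars false

/-!
# The real part fails if there is a degenerate lattice
-/

namespace Pool.Agent.J4H74.T3

open NumberField NumberField.mixedEmbedding NumberField.InfinitePlace Pool.Agent.H492R2.Tor
open scoped Classical

variable {K N : Type} [Field K] [NumberField K] [Field N] [NumberField N] [Algebra K N]
  [IsGalois ℚ N]

/-- **The real part fails if there is a degenerate lattice.** -/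
theorem not_real_of_goodLat {W W' : Type} [AddCommGroup W] [Module ℚ W] [FiniteDimensional ℚ W]
    [AddCommGroup W'] [Module ℚ W'] (ρ : Representation ℚ (N ≃ₐ[ℚ] N) W)
    (π : W →ₗ[ℚ] W') (hπ : Function.Surjective π) (ι : N →ₐ[ℚ] ℂ) (cc : N ≃ₐ[ℚ] N)
    (hcc : ∀ x, ι (cc x) = (starRingEnd ℂ) (ι x))
    (hker : ∀ x, π x = 0 ↔ ∃ y, x = y - ρ cc y)
    {Λ J : Type} [AddCommGroup Λ] [Module ℚ Λ] [FiniteDimensional ℚ Λ] [Fintype J]
    (U : Λ →ₗ[ℚ] (J → W)) (hU : GoodLat ρ π (fixK K ρ) U) : ¬ ExpectedAnswerReal K := by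
  intro hK
  let b := Module.finBasis ℚ W
  let β := Module.finBasis ℚ Λ
  obtain ⟨D, P, hD, hm, -, -⟩ := exists_ex (K := K) b ρ (fun i => U (β i))
    (fun i j => hU.mem _ j) (β.linearIndependent.map' U (LinearMap.ker_eq_bot.mpr hU.inj))
    (M := 1) one_pos one_pos
  have hDQ : (D : ℚ) ≠ 0 := by exact_mod_cast hD.ne'
  -- the places
  have hγ' : ∀ w : PL K, ∃ g : N ≃ₐ[ℚ] N, ∀ x : K, embP w x = ι (g (algebraMap K N x)) := fun w =>
    exists_gal_sub (K := K) ι (embP w).toRatAlgHom
  choose γ hγ using hγ'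
  have hιinj : ∀ x y : N, ι x = ι y → x = y := fun x y h => ι.injective h
  -- complex conjugation
  have hcc2 : cc * cc = 1 := by
    ext x
    apply hιinj
    rw [AlgEquiv.mul_apply, hcc, hcc, Complex.conj_conj, AlgEquiv.one_apply]
  have hccinv : cc⁻¹ = cc := by
    rw [inv_eq_iff_mul_eq_one, hcc2]
  have hπc : ∀ x, π (ρ cc x) = π x := by
    intro x
    have h1 : π (x - ρ cc x) = 0 := (hker _).mpr ⟨x, rfl⟩
    rw [map_sub, sub_eq_zero] at h1
    exact h1.symm
  -- all automorphisms are covered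
  have hcov : ∀ g : N ≃ₐ[ℚ] N, ∃ w : PL K, ∀ x ∈ fixK K ρ, π (ρ g x) = π (ρ (γ w) x) := by
    intro g
    have hfix : ∀ g₁ g₂ : N ≃ₐ[ℚ] N, (∀ x : K, g₁ (algebraMap K N x) = g₂ (algebraMap K N x)) →
        ∀ x ∈ fixK K ρ, ρ g₁ x = ρ g₂ x := by
      intro g₁ g₂ h x hx
      have h1 := hx (g₂⁻¹ * g₁) (fun y => by
        rw [AlgEquiv.mul_apply, h, ← AlgEquiv.mul_apply, inv_mul_cancel]
        rfl)
      conv_rhs => rw [← h1]
      rw [← Module.End.mul_apply, ← map_mul, mul_inv_cancel_left]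
    obtain ⟨w, hw⟩ := exists_place (((ι : N →+* ℂ).comp (g : N →+* N)).comp (algebraMap K N))
    refine ⟨w, fun x hx => ?_⟩
    rcases hw with hw | hw
    · rw [hfix g (γ w) (fun y => by
        apply hιinj
        rw [← hγ, ← hw]
        rfl) x hx]
    · rw [hfix g (cc * γ w) (fun y => by
        apply hιinj
        rw [AlgEquiv.mul_apply, hcc, ← hγ, ← hw]
        rfl) x hx, map_mul, Module.End.mul_apply, hπc]
  -- the functionals
  let lam : (J × Fin (Module.finrank ℚ W)) → (N ≃ₐ[ℚ] N) → ℝ := fun j g =>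
    Real.log ‖ι ((cj g (P.z j) : Nˣ) : N)‖
  have hlamc : ∀ j g, lam j (cc * g) = lam j g := by
    intro j g
    show Real.log ‖ι ((cj (cc * g) (P.z j) : Nˣ) : N)‖ = _
    have h1 : ι ((cj (cc * g) (P.z j) : Nˣ) : N) = (starRingEnd ℂ) (ι ((cj g (P.z j) : Nˣ) : N)) :=
      hcc _
    rw [h1, Complex.norm_conj]
  let Φ : J → W →ₗ[ℚ] ℂ := fun j =>
    ∑ s, ∑ g : N ≃ₐ[ℚ] N, ((b.coord s).comp (ρ g⁻¹)).smulRight ((lam (j, s) g : ℝ) : ℂ)
  have hΦ : ∀ j u, Φ j u = ∑ s, ∑ g : N ≃ₐ[ℚ] N, (b.repr (ρ g⁻¹ u) s) •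
      ((lam (j, s) g : ℝ) : ℂ) := by
    intro j u
    simp only [Φ, LinearMap.sum_apply, LinearMap.smulRight_apply, LinearMap.comp_apply,
      Module.Basis.coord_apply]
  have hΦc : ∀ j u, Φ j (ρ cc u) = Φ j u := by
    intro j u
    rw [hΦ, hΦ]
    refine Finset.sum_congr rfl fun s _ => ?_
    rw [← Equiv.sum_comp (Equiv.mulLeft cc) (fun g => (b.repr (ρ g⁻¹ (ρ cc u)) s) •
      ((lam (j, s) g : ℝ) : ℂ))]
    refine Finset.sum_congr rfl fun g _ => ?_
    rw [Equiv.coe_mulLeft, hlamc, ← Module.End.mul_apply, ← map_mul, mul_inv_rev,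
      inv_mul_cancel_right]
  obtain ⟨σ, hσ⟩ := LinearMap.exists_rightInverse_of_surjective π (LinearMap.range_eq_top.mpr hπ)
  have hσ' : ∀ x, π (σ x) = x := fun x => by
    have := congrArg (fun h => h x) hσ
    exact this
  let Φ' : J → W' →ₗ[ℚ] ℂ := fun j => Φ j ∘ₗ σ
  have hΦ' : ∀ j u, Φ' j (π u) = Φ j u := by
    intro j u
    have h1 : π (σ (π u) - u) = 0 := by rw [map_sub, hσ', sub_self]
    obtain ⟨y, hy⟩ := (hker _).mp h1
    show Φ j (σ (π u)) = Φ j u
    rw [← sub_eq_zero, ← map_sub, hy, map_sub, hΦc, sub_self]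
  -- the logarithms of the generators
  have hlog : ∀ w i, ((Real.log ‖embP w (P.y i : K)‖ : ℝ) : ℂ) =
      (D : ℂ) * ∑ j, Φ j (ρ (γ w) (U (β i) j)) := by
    intro w i
    rw [P.log_emb_y ι γ hγ, Fintype.sum_prod_type, Finset.mul_sum, Complex.ofReal_sum]
    refine Finset.sum_congr rfl fun j _ => ?_
    rw [hΦ, Finset.mul_sum, Complex.ofReal_sum]
    refine Finset.sum_congr rfl fun s _ => ?_
    rw [Finset.mul_sum, Complex.ofReal_sum]
    refine Finset.sum_congr rfl fun g _ => ?_
    rw [← Module.End.mul_apply, ← map_mul]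
    have h2 := hm i j s ((γ w)⁻¹ * g)
    rw [mul_inv_rev, inv_inv] at h2
    rw [Rat.smul_def, ← mul_assoc, Complex.ofReal_mul]
    congr 1
    have h3 := congrArg (fun q : ℚ => (q : ℂ)) h2
    push_cast at h3
    rw [Complex.ofReal_intCast]
    exact h3
  -- a real relation
  obtain ⟨c, hc0, hc⟩ := hU.deg ℂ Φ' _ β
  simp only [hΦ'] at hc
  have hcC : ∀ w, ∑ i, c i * ((Real.log ‖embP w (P.y i : K)‖ : ℝ) : ℂ) = 0 := by
    intro w
    simp only [hlog]
    have h1 := hc (γ w)
    have h2 : ∑ i, c i * ((D : ℂ) * ∑ j, Φ j (ρ (γ w) (U (β i) j))) =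
        (D : ℂ) * ∑ i, c i * ∑ j, Φ j (ρ (γ w) (U (β i) j)) := by
      rw [Finset.mul_sum]
      refine Finset.sum_congr rfl fun i _ => ?_
      ring
    rw [h2, h1, mul_zero]
  obtain ⟨d, hd0, hd⟩ : ∃ d : Fin (Module.finrank ℚ Λ) → ℝ, d ≠ 0 ∧
      ∀ w, ∑ i, d i * Real.log ‖embP w (P.y i : K)‖ = 0 := by
    by_cases hre : (fun i => (c i).re) = 0
    · refine ⟨fun i => (c i).im, ?_, fun w => ?_⟩
      · intro him
        apply hc0
        funext i
        exact Complex.ext (congrFun hre i) (congrFun him i)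
      · have h1 := congrArg Complex.im (hcC w)
        rw [Complex.im_sum] at h1
        simpa [Complex.im_mul_ofReal] using h1
    · refine ⟨fun i => (c i).re, hre, fun w => ?_⟩
      have h1 := congrArg Complex.re (hcC w)
      rw [Complex.re_sum] at h1
      simpa [Complex.re_mul_ofReal] using h1
  obtain ⟨Uu, hhull, hrank⟩ := exists_hull_space hK P.y d hd0 hd
  -- the upper bound
  let lg : Fin (Module.finrank ℚ Λ) → (PL K → ℝ) := fun i w => 2 * Real.log ‖embP w (P.y i : K)‖
  let UQ : Submodule ℚ (PL K → ℚ) := ratPart (fun w => (Pi.single w 1 : PL K → ℝ)) Uu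
  have hUQ : ∀ r : PL K → ℚ, r ∈ UQ ↔ (fun w => (r w : ℝ)) ∈ Uu := by
    intro r
    show ∑ w, (r w : ℝ) • (Pi.single w 1 : PL K → ℝ) ∈ Uu ↔ _
    have h1 : ∑ w, (r w : ℝ) • (Pi.single w 1 : PL K → ℝ) = fun w => (r w : ℝ) := by
      funext w'
      rw [Finset.sum_apply, Finset.sum_eq_single w']
      · simp
      · intro w _ hw
        rw [Pi.smul_apply, Pi.single_eq_of_ne (Ne.symm hw), smul_zero]
      · intro h; exact absurd (Finset.mem_univ _) h
    rw [h1]
  let fn : (W' →ₗ[ℚ] ℚ) → W →ₗ[ℚ] (PL K → ℚ) := fun φ =>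
    LinearMap.pi fun w => φ ∘ₗ π ∘ₗ ρ (γ w)
  let Y : Submodule ℚ W := fixK K ρ ⊓ ⨅ φ : W' →ₗ[ℚ] ℚ, UQ.comap (fn φ)
  have hY : ∀ y, y ∈ Y ↔ y ∈ fixK K ρ ∧ ∀ φ : W' →ₗ[ℚ] ℚ, (fun w => φ (π (ρ (γ w) y))) ∈ UQ := by
    intro y
    rw [Submodule.mem_inf, Submodule.mem_iInf]
    rfl
  have hYK : Y ≤ fixK K ρ := inf_le_left
  have hYs : ∀ e : W →ₗ[ℚ] W, (∀ g y, e (ρ g y) = ρ g (e y)) → ∀ y ∈ Y, e y ∈ Y := by
    intro e he y hy
    rw [hY] at hy ⊢
    refine ⟨fun g hg => by rw [← he, hy.1 g hg], fun φ => ?_⟩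
    let φ' : W' →ₗ[ℚ] ℚ := φ ∘ₗ π ∘ₗ e ∘ₗ σ
    have h1 : ∀ x, φ' (π x) = φ (π (e x)) := by
      intro x
      have h2 : π (σ (π x) - x) = 0 := by rw [map_sub, hσ', sub_self]
      obtain ⟨v, hv⟩ := (hker _).mp h2
      show φ (π (e (σ (π x)))) = φ (π (e x))
      rw [← sub_eq_zero, ← map_sub, ← map_sub, ← map_sub, hv, map_sub, map_sub, he, hπc, sub_self,
        map_zero]
    have h3 := hy.2 φ'
    simp only [h1, he] at h3
    exact h3
  have hrk := hU.rank Y hYK hYs
  -- the space of functions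
  have hcoef : Module.finrank ℚ (coef ρ π Y) ≤ Module.finrank ℚ UQ := by
    have hmap : ∀ f ∈ coef ρ π Y, (fun w => f (γ w)) ∈ UQ := by
      intro f hf
      induction hf using Submodule.span_induction with
      | mem f hf =>
        obtain ⟨y, hy, φ, rfl⟩ := hf
        exact ((hY y).mp hy).2 φ
      | zero => exact UQ.zero_mem
      | add f f' _ _ h h' => exact UQ.add_mem h h'
      | smul q f _ h => exact UQ.smul_mem q h
    have hdet : ∀ g, ∃ w : PL K, ∀ f ∈ coef ρ π Y, f g = f (γ w) := by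
      intro g
      obtain ⟨w, hw⟩ := hcov g
      refine ⟨w, fun f hf => ?_⟩
      induction hf using Submodule.span_induction with
      | mem f hf =>
        obtain ⟨y, hy, φ, rfl⟩ := hf
        show φ (π (ρ g y)) = φ (π (ρ (γ w) y))
        rw [hw y (hYK hy)]
      | zero => rfl
      | add f f' _ _ h h' => rw [Pi.add_apply, Pi.add_apply, h, h']
      | smul q f _ h => rw [Pi.smul_apply, Pi.smul_apply, h]
    let T : coef ρ π Y →ₗ[ℚ] UQ :=
      { toFun := fun f => ⟨fun w => (f : (N ≃ₐ[ℚ] N) → ℚ) (γ w), hmap f f.2⟩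
        map_add' := fun f f' => rfl
        map_smul' := fun q f => rfl }
    have hT : Function.Injective T := by
      intro f f' h
      apply Subtype.ext
      funext g
      obtain ⟨w, hw⟩ := hdet g
      rw [hw f f.2, hw f' f'.2]
      exact congrFun (congrArg Subtype.val h) w
    exact LinearMap.finrank_le_finrank_of_injective hT
  have hUQle : Module.finrank ℚ UQ ≤ Module.finrank ℝ Uu := by
    apply finrank_ratPart_le
    have := (Pi.basisFun ℝ (PL K)).linearIndependent
    have h2 : (⇑(Pi.basisFun ℝ (PL K))) = fun w => (Pi.single w 1 : PL K → ℝ) := by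
      funext w
      exact Pi.basisFun_apply ℝ (PL K) w
    rwa [h2] at this
  -- the lattice
  have hΨ : Module.finrank ℚ (ratPart lg Uu) ≤
      Module.finrank ℚ (Submodule.comap U (Submodule.pi Set.univ fun _ => Y)) := by
    have hmem : ∀ a ∈ ratPart lg Uu, ∀ j, U (∑ i, a i • β i) j ∈ Y := by
      intro a ha j
      rw [hY]
      refine ⟨hU.mem _ j, fun φ => ?_⟩
      rw [hUQ]
      refine hhull _ ha _ ?_
      intro n hn
      -- the exponents
      let X : W := ∑ w, (n w : ℚ) • ρ (γ w) (U (∑ i, a i • β i) j)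
      have hX : ∀ j' : J, ∀ s (g : N ≃ₐ[ℚ] N),
          ∑ w, (n w : ℚ) * ∑ i, a i * (P.m i (j', s) ((γ w)⁻¹ * g) : ℚ) =
          D * b.repr (ρ g⁻¹ (∑ w, (n w : ℚ) • ρ (γ w) (U (∑ i, a i • β i) j'))) s := by
        intro j' s g
        rw [map_sum (ρ g⁻¹), map_sum b.repr, Finsupp.finsetSum_apply, Finset.mul_sum]
        refine Finset.sum_congr rfl fun w _ => ?_
        rw [map_smul (ρ g⁻¹), map_smul b.repr, Finsupp.smul_apply, smul_eq_mul]
        have e1 : U (∑ i, a i • β i) j' = ∑ i, a i • U (β i) j' := by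
          rw [map_sum, Finset.sum_apply]
          refine Finset.sum_congr rfl fun i _ => ?_
          rw [map_smul, Pi.smul_apply]
        rw [e1, map_sum (ρ (γ w)), map_sum (ρ g⁻¹), map_sum b.repr, Finsupp.finsetSum_apply,
          Finset.mul_sum, Finset.mul_sum, Finset.mul_sum]
        refine Finset.sum_congr rfl fun i _ => ?_
        rw [hm, map_smul (ρ (γ w)), map_smul (ρ g⁻¹), map_smul b.repr, Finsupp.smul_apply,
          smul_eq_mul, mul_inv_rev, inv_inv, map_mul, Module.End.mul_apply]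
        ring
      have hind := P.indep_log_rat ι cc hcc
        (fun js g => ∑ w, (n w : ℚ) * ∑ i, a i * (P.m i js ((γ w)⁻¹ * g) : ℚ)) (by
          have h1 : ∑ w, (∑ i, (a i : ℝ) • lg i) w * (n w : ℝ) = 0 := hn
          have h2 : ∀ w, (∑ i, (a i : ℝ) • lg i) w * (n w : ℝ) =
              2 * ∑ js, ∑ g, ((n w : ℝ) * ∑ i, (a i : ℝ) * (P.m i js ((γ w)⁻¹ * g) : ℝ)) *
                lam js g := by
            intro w
            rw [Finset.sum_apply, Finset.sum_mul]
            have h3 : ∀ i, ((a i : ℝ) • lg i) w * (n w : ℝ) = 2 * ∑ js, ∑ g,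
                (n w : ℝ) * ((a i : ℝ) * (P.m i js ((γ w)⁻¹ * g) : ℝ)) * lam js g := by
              intro i
              show (a i : ℝ) * (2 * Real.log ‖embP w (P.y i : K)‖) * (n w : ℝ) = _
              rw [P.log_emb_y ι γ hγ]
              have h4 : ∀ x : ℝ, (a i : ℝ) * (2 * x) * (n w : ℝ) =
                  2 * (((n w : ℝ) * (a i : ℝ)) * x) := fun x => by ring
              rw [h4, Finset.mul_sum]
              congr 1
              refine Finset.sum_congr rfl fun js _ => ?_
              rw [Finset.mul_sum]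
              refine Finset.sum_congr rfl fun g _ => ?_
              show _ * (_ * lam js g) = _
              ring
            rw [Finset.sum_congr rfl fun i _ => h3 i, ← Finset.mul_sum, Finset.sum_comm]
            congr 1
            refine Finset.sum_congr rfl fun js _ => ?_
            rw [Finset.sum_comm]
            refine Finset.sum_congr rfl fun g _ => ?_
            rw [Finset.mul_sum, Finset.sum_mul]
          rw [Finset.sum_congr rfl fun w _ => h2 w, ← Finset.mul_sum] at h1
          have h5 := (mul_eq_zero.mp h1).resolve_left two_ne_zero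
          rw [← h5]
          symm
          rw [Finset.sum_comm]
          refine Finset.sum_congr rfl fun js _ => ?_
          rw [Finset.sum_comm]
          refine Finset.sum_congr rfl fun g _ => ?_
          rw [← Finset.sum_mul]
          push_cast
          rfl)
      have hXc : X + ρ cc X = 0 := by
        apply b.repr.injective
        ext s
        have h6 := hind (j, s) 1
        rw [hX, hX, mul_one, hccinv, inv_one, map_one, Module.End.one_apply, ← mul_add] at h6
        rw [map_zero, Finsupp.zero_apply, map_add, Finsupp.add_apply]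
        exact (mul_eq_zero.mp h6).resolve_left hDQ
      have hπX : π X = 0 := by
        have h7 := congrArg π hXc
        rw [map_add, hπc, map_zero] at h7
        have h8 : (2 : ℚ) • π X = 0 := by rw [two_smul]; exact h7
        exact (smul_eq_zero.mp h8).resolve_left two_ne_zero
      have h9 : ∑ w, (n w : ℚ) * φ (π (ρ (γ w) (U (∑ i, a i • β i) j))) = 0 := by
        have h10 := congrArg φ hπX
        rw [map_zero, map_sum π, map_sum φ] at h10
        rw [← h10]
        refine Finset.sum_congr rfl fun w _ => ?_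
        rw [map_smul, map_smul, smul_eq_mul]
      have h11 := congrArg (fun q : ℚ => (q : ℝ)) h9
      push_cast at h11
      rw [← h11]
      refine Finset.sum_congr rfl fun w _ => ?_
      ring
    let T : ratPart lg Uu →ₗ[ℚ] Submodule.comap U (Submodule.pi Set.univ fun _ => Y) :=
      { toFun := fun a => ⟨∑ i, (a : Fin (Module.finrank ℚ Λ) → ℚ) i • β i, by
          rw [Submodule.mem_comap, Submodule.mem_pi]
          exact fun j _ => hmem a a.2 j⟩
        map_add' := fun a a' => by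
          apply Subtype.ext
          show ∑ i, ((a : Fin (Module.finrank ℚ Λ) → ℚ) i + (a' : Fin (Module.finrank ℚ Λ) → ℚ) i) •
            β i = ∑ i, (a : Fin (Module.finrank ℚ Λ) → ℚ) i • β i +
              ∑ i, (a' : Fin (Module.finrank ℚ Λ) → ℚ) i • β i
          simp only [add_smul, Finset.sum_add_distrib]
        map_smul' := fun q a => by
          apply Subtype.ext
          show ∑ i, (q * (a : Fin (Module.finrank ℚ Λ) → ℚ) i) • β i =
            q • ∑ i, (a : Fin (Module.finrank ℚ Λ) → ℚ) i • β i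
          simp only [mul_smul, Finset.smul_sum] }
    have hT : Function.Injective T := by
      intro a a' h
      apply Subtype.ext
      have h1 : ∑ i, (a : Fin (Module.finrank ℚ Λ) → ℚ) i • β i =
          ∑ i, (a' : Fin (Module.finrank ℚ Λ) → ℚ) i • β i := congrArg Subtype.val h
      funext i
      have h2 := congrArg (fun x => β.repr x i) h1
      simpa only [Module.Basis.repr_sum_self] using h2
    exact LinearMap.finrank_le_finrank_of_injective hT
  have hfin := hrank.trans (hΨ.trans (hrk.trans (hcoef.trans hUQle)))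
  omega

end Pool.Agent.J4H74.T3
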