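import Mathlib
import Pool.Agent.J4H74.T3.Good

set_option autoImplicit false

/-!
# Degenerate lattices in representations with an action of a number field
-/

namespace Pool.Agent.J4H74.T3

section coords

variable (E F : Type) [Field E] [NumberField E] [Field F] [CharZero F] [IsAlgClosed F]

instance nonempty_emb : Nonempty (E →ₐ[ℚ] F) := ⟨IsAlgClosed.lift⟩

/-- The embeddings of `E` in `F` are a basis of the space of `ℚ`-linear maps from `E` to `F`. -/
noncomputable def charBasis : Module.Basis (E →ₐ[ℚ] F) F (E →ₗ[ℚ] F) :=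
  basisOfLinearIndependentOfCardEqFinrank (linearIndependent_toLinearMap ℚ E F) (by
    rw [Module.finrank_linearMap_self, AlgHom.card])

theorem charBasis_apply (σ : E →ₐ[ℚ] F) : charBasis E F σ = σ.toLinearMap := by
  unfold charBasis
  rw [coe_basisOfLinearIndependentOfCardEqFinrank]

variable {E F}

theorem charBasis_repr_mul (f : E →ₗ[ℚ] F) (a : E) (σ : E →ₐ[ℚ] F) :
    (charBasis E F).repr (f ∘ₗ LinearMap.mulLeft ℚ a) σ = σ a * (charBasis E F).repr f σ := by
  classical
  have h1 : f = ∑ τ, (charBasis E F).repr f τ • τ.toLinearMap := by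
    conv_lhs => rw [← (charBasis E F).sum_repr f]
    simp only [charBasis_apply]
  have h2 : f ∘ₗ LinearMap.mulLeft ℚ a =
      ∑ τ, (τ a * (charBasis E F).repr f τ) • charBasis E F τ := by
    ext x
    simp only [LinearMap.comp_apply, LinearMap.mulLeft_apply, charBasis_apply,
      LinearMap.sum_apply, LinearMap.smul_apply, AlgHom.toLinearMap_apply, smul_eq_mul]
    conv_lhs => rw [h1]
    simp only [LinearMap.sum_apply, LinearMap.smul_apply, AlgHom.toLinearMap_apply, map_mul,
      smul_eq_mul]
    refine Finset.sum_congr rfl fun τ _ => ?_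
    ring
  rw [h2, Module.Basis.repr_sum_self]

variable {W' : Type} [AddCommGroup W'] [Module ℚ W'] [Module E W'] [IsScalarTower ℚ E W']
  {r : ℕ} (bW : Module.Basis (Fin r) E W')

/-- The coordinates of a `ℚ`-linear map `W' → F`. -/
noncomputable def co (k : Fin r) (σ : E →ₐ[ℚ] F) : (W' →ₗ[ℚ] F) →ₗ[F] F where
  toFun Φ := (charBasis E F).repr
    (Φ ∘ₗ (LinearMap.toSpanSingleton E W' (bW k)).restrictScalars ℚ) σ
  map_add' Φ Ψ := by
    rw [LinearMap.add_comp, map_add, Finsupp.add_apply]
  map_smul' c Φ := by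
    rw [LinearMap.smul_comp, map_smul, Finsupp.smul_apply, RingHom.id_apply]

/-- Multiplication by `a`. -/
def mulE (W' : Type) [AddCommGroup W'] [Module ℚ W'] [Module E W'] [IsScalarTower ℚ E W']
    (a : E) : W' →ₗ[ℚ] W' :=
  (LinearMap.lsmul E W' a).restrictScalars ℚ

theorem mulE_apply (a : E) (x : W') : mulE W' a x = a • x := rfl

theorem co_mul (k : Fin r) (σ : E →ₐ[ℚ] F) (Φ : W' →ₗ[ℚ] F) (a : E) :
    co bW k σ (Φ ∘ₗ mulE W' a) = σ a * co bW k σ Φ := by
  unfold co
  simp only [LinearMap.coe_mk, AddHom.coe_mk]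
  rw [← charBasis_repr_mul]
  congr 2
  ext x
  simp only [LinearMap.comp_apply, mulE_apply, LinearMap.mulLeft_apply]
  show Φ (a • (x • bW k)) = Φ ((a * x) • bW k)
  rw [mul_smul]

open Classical in
/-- A linear map with prescribed coordinates. -/
theorem exists_co (k₀ : Fin r) (σ₀ : E →ₐ[ℚ] F) : ∃ Θ : W' →ₗ[ℚ] F,
    ∀ k σ, co bW k σ Θ = if k = k₀ ∧ σ = σ₀ then 1 else 0 := by
  classical
  refine ⟨σ₀.toLinearMap ∘ₗ (bW.coord k₀).restrictScalars ℚ, fun k σ => ?_⟩
  unfold co
  simp only [LinearMap.coe_mk, AddHom.coe_mk]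
  by_cases hk : k = k₀
  · subst hk
    have h1 : (σ₀.toLinearMap ∘ₗ (bW.coord k).restrictScalars ℚ) ∘ₗ
        (LinearMap.toSpanSingleton E W' (bW k)).restrictScalars ℚ = charBasis E F σ₀ := by
      rw [charBasis_apply]
      ext x
      simp
    rw [h1, Module.Basis.repr_self]
    by_cases hσ : σ = σ₀
    · subst hσ; simp
    · rw [Finsupp.single_eq_of_ne hσ]; simp [hσ]
  · have h1 : (σ₀.toLinearMap ∘ₗ (bW.coord k₀).restrictScalars ℚ) ∘ₗ
        (LinearMap.toSpanSingleton E W' (bW k)).restrictScalars ℚ = 0 := by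
      ext x
      simp [hk]
    rw [h1]; simp [hk]

end coords

/-- As many vectors as the dimension, in the kernel of a nonzero functional, are dependent. -/
theorem exists_rel_of_functional {F V ι : Type} [Field F] [AddCommGroup V] [Module F V]
    [FiniteDimensional F V] [Fintype ι] (ξ : V →ₗ[F] F) (hξ : ξ ≠ 0) (T : ι → V)
    (hT : ∀ i, ξ (T i) = 0) (hcard : Module.finrank F V ≤ Fintype.card ι) :
    ∃ c : ι → F, c ≠ 0 ∧ ∑ i, c i • T i = 0 := by
  have hlt : Module.finrank F (LinearMap.ker ξ) < Fintype.card ι := by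
    refine lt_of_lt_of_le (Submodule.finrank_lt ?_) hcard
    rw [Ne, LinearMap.ker_eq_top]
    exact hξ
  have hnli : ¬ LinearIndependent F (fun i => (⟨T i, hT i⟩ : LinearMap.ker ξ)) := by
    intro h
    exact absurd h.fintype_card_le_finrank (not_le.mpr hlt)
  rw [Fintype.not_linearIndependent_iff] at hnli
  obtain ⟨c, hcs, i₀, hi₀⟩ := hnli
  refine ⟨c, fun h => hi₀ (congrFun h i₀), ?_⟩
  have h4 := congrArg Subtype.val hcs
  rw [AddSubmonoidClass.coe_finsetSum] at h4
  exact h4

section main

variable {G : Type} [Group G] {W W' E : Type} [AddCommGroup W] [Module ℚ W] [AddCommGroup W']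
  [Module ℚ W'] [Field E] [NumberField E] [Module E W] [Module E W'] [IsScalarTower ℚ E W]
  [IsScalarTower ℚ E W']

/-- Linear combinations. -/
def comb {m : ℕ} (w : Fin m → W) : (Fin m → E) →ₗ[ℚ] W :=
  (Fintype.linearCombination E w).restrictScalars ℚ

theorem comb_apply {m : ℕ} (w : Fin m → W) (a : Fin m → E) : comb w a = ∑ i, a i • w i :=
  Fintype.linearCombination_apply E w a

/-- The lattice attached to `Λ₀` and `t` free columns. -/
def UU {m s t : ℕ} {Λ₀ : Type} [AddCommGroup Λ₀] [Module ℚ Λ₀]
    (θ : Λ₀ →ₗ[ℚ] (Fin s → Fin m → E)) (w : Fin m → W) :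
    (Λ₀ × (Fin t → Fin m → E)) →ₗ[ℚ] (Fin s ⊕ Fin t → W) where
  toFun x := Sum.elim (fun j => comb w (θ x.1 j)) (fun k => comb w (x.2 k))
  map_add' x y := by
    funext j
    rcases j with j | j
    · simp [Pi.add_apply]
    · simp [Pi.add_apply]
  map_smul' c x := by
    funext j
    rcases j with j | j
    · simp [Pi.smul_apply]
    · simp [Pi.smul_apply]

variable {ρ : Representation ℚ G W} {π : W →ₗ[ℚ] W'} {S : Submodule ℚ W} {m s : ℕ}
  {w : Fin m → W} {Λ₀ : Type} [AddCommGroup Λ₀] [Module ℚ Λ₀] [FiniteDimensional ℚ Λ₀]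
  {θ : Λ₀ →ₗ[ℚ] (Fin s → Fin m → E)}

/-- The vectors `(ρ g w_i)_i` span, so a functional vanishing on them is zero. -/
theorem eq_zero_of_span (hspan : Submodule.span ℚ {v : Fin m → W | ∃ g, v = fun i => ρ g (w i)} = ⊤)
    {V : Type} [AddCommGroup V] [Module ℚ V] (f : (Fin m → W) →ₗ[ℚ] V)
    (hf : ∀ g, f (fun i => ρ g (w i)) = 0) : f = 0 := by
  apply LinearMap.ext_on hspan
  rintro _ ⟨g, rfl⟩
  rw [hf, LinearMap.zero_apply]

/-- The main lower bound for the space of functions. -/
theorem le_finrank_coef [FiniteDimensional ℚ W'] [Finite G]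
    (hE : ∀ g (a : E) (x : W), ρ g (a • x) = a • ρ g x)
    (hπE : ∀ (a : E) x, π (a • x) = a • π x) (hπ : Function.Surjective π)
    (hspan : Submodule.span ℚ {v : Fin m → W | ∃ g, v = fun i => ρ g (w i)} = ⊤)
    (Y : Submodule ℚ W) (C : Submodule E (Fin m → E)) (hC : ∀ c ∈ C, comb w c ∈ Y) :
    Module.finrank ℚ W' * Module.finrank E C ≤ Module.finrank ℚ (coef ρ π Y) := by
  classical
  let c := Module.finBasis E C
  -- dual vectors
  have hd : ∀ β, ∃ d : Fin m → E, ∀ β', ∑ i, (c β' : Fin m → E) i * d i = if β' = β then 1 else 0 := by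
    intro β
    obtain ⟨f, hf⟩ := LinearMap.exists_extend (c.coord β)
    refine ⟨fun i => f (Pi.single i 1), fun β' => ?_⟩
    have h1 : f (c β' : Fin m → E) = ∑ i, (c β' : Fin m → E) i * f (Pi.single i 1) := by
      conv_lhs => rw [← Finset.univ_sum_single (c β' : Fin m → E)]
      rw [map_sum]
      refine Finset.sum_congr rfl fun i _ => ?_
      have : (Pi.single i ((c β' : Fin m → E) i) : Fin m → E) =
          (c β' : Fin m → E) i • Pi.single i 1 := by
        rw [← Pi.single_smul, smul_eq_mul, mul_one]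
      rw [this, map_smul, smul_eq_mul]
    rw [← h1]
    have h2 := congrArg (fun h => h (c β')) hf
    simp only [LinearMap.comp_apply, Submodule.subtype_apply, Module.Basis.coord_apply,
      Module.Basis.repr_self] at h2
    rw [h2, Finsupp.single_apply]
  choose d hd using hd
  let T : (Fin (Module.finrank E C) → (W' →ₗ[ℚ] ℚ)) →ₗ[ℚ] (G → ℚ) :=
    { toFun := fun φ g => ∑ β, φ β (π (ρ g (comb w (c β : Fin m → E))))
      map_add' := fun φ ψ => by
        funext g
        simp only [Pi.add_apply, LinearMap.add_apply, Finset.sum_add_distrib]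
      map_smul' := fun q φ => by
        funext g
        simp only [Pi.smul_apply, LinearMap.smul_apply, smul_eq_mul, Finset.mul_sum,
          RingHom.id_apply] }
  have hT : ∀ φ, T φ ∈ coef ρ π Y := by
    intro φ
    have h1 : T φ = ∑ β, fun g => φ β (π (ρ g (comb w (c β : Fin m → E)))) := by
      funext g
      rw [Finset.sum_apply]
      rfl
    rw [h1]
    refine Submodule.sum_mem _ fun β _ => Submodule.subset_span ?_
    exact ⟨_, hC _ (c β).2, φ β, rfl⟩
  have hinj : Function.Injective (T.codRestrict (coef ρ π Y) hT) := by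
    rw [← LinearMap.ker_eq_bot, LinearMap.ker_eq_bot']
    intro φ hφ
    have h0 : ∀ g, ∑ β, φ β (π (ρ g (comb w (c β : Fin m → E)))) = 0 := fun g =>
      congrFun (congrArg Subtype.val hφ) g
    let f : (Fin m → W) →ₗ[ℚ] ℚ := ∑ β, φ β ∘ₗ π ∘ₗ
      (∑ i, (mulE W ((c β : Fin m → E) i)) ∘ₗ LinearMap.proj i)
    have hf : ∀ v, f v = ∑ β, φ β (π (∑ i, (c β : Fin m → E) i • v i)) := by
      intro v
      simp only [f, LinearMap.sum_apply, LinearMap.comp_apply, LinearMap.proj_apply, mulE_apply]
    have hf0 : f = 0 := by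
      apply eq_zero_of_span hspan
      intro g
      rw [hf, ← h0 g]
      refine Finset.sum_congr rfl fun β _ => ?_
      have h2 : ρ g (comb w (c β : Fin m → E)) = ∑ i, (c β : Fin m → E) i • ρ g (w i) := by
        rw [comb_apply, map_sum]
        simp only [hE]
      rw [h2]
    funext β
    ext x'
    obtain ⟨x, rfl⟩ := hπ x'
    have h1 := hf (fun i => d β i • x)
    rw [hf0, LinearMap.zero_apply] at h1
    simp only [smul_smul, ← Finset.sum_smul, hd, hπE, ite_smul, one_smul, zero_smul] at h1
    rw [Finset.sum_eq_single β] at h1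
    · rw [if_pos rfl] at h1
      exact h1.symm
    · intro β' _ hβ
      rw [if_neg hβ, map_zero, map_zero]
    · intro h; exact absurd (Finset.mem_univ _) h
  have := LinearMap.finrank_le_finrank_of_injective hinj
  rw [Module.finrank_pi_fintype, Finset.sum_const, Finset.card_univ, Fintype.card_fin,
    smul_eq_mul, Module.finrank_linearMap_self, mul_comm] at this
  exact this

/-- **Degenerate lattices from degenerate lattices of matrices over `E`.** -/
theorem goodLat_of_field [FiniteDimensional ℚ W] [FiniteDimensional ℚ W'] [Nontrivial W']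
    [Finite G]
    (hE : ∀ g (a : E) (x : W), ρ g (a • x) = a • ρ g x)
    (hπE : ∀ (a : E) x, π (a • x) = a • π x) (hπ : Function.Surjective π)
    (hspan : Submodule.span ℚ {v : Fin m → W | ∃ g, v = fun i => ρ g (w i)} = ⊤)
    (hS : ∀ (c : Fin m → E), comb w c ∈ S)
    (ha : Module.finrank ℚ Λ₀ = m * Module.finrank ℚ E)
    (hb : ∀ C : Submodule E (Fin m → E), Module.finrank ℚ
      (Submodule.comap θ (Submodule.pi Set.univ fun _ => C.restrictScalars ℚ)) ≤
        Module.finrank ℚ E * Module.finrank E C)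
    (hc : ∀ (F : Type) [Field F] [CharZero F] [IsAlgClosed F]
      (φ : Fin s → (E →ₐ[ℚ] F) → F), ∃ α : Fin m → (E →ₐ[ℚ] F) → F, α ≠ 0 ∧
        ∀ l, ∑ σ : E →ₐ[ℚ] F, ∑ i, ∑ j, α i σ * σ (θ l j i) * φ j σ = 0)
    {t : ℕ} (ht : Module.finrank E W' = t + 1) :
    GoodLat ρ π S (UU (t := t) θ w) := by
  classical
  have hEQ : Module.finrank ℚ W' = Module.finrank ℚ E * (t + 1) := by
    rw [← ht, Module.finrank_mul_finrank]
  have hWnt : Nontrivial W := hπ.nontrivial
  -- `w` is `E`-independent
  have hwind : ∀ c : Fin m → E, comb w c = 0 → c = 0 := by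
    intro c hc0
    let f : (Fin m → W) →ₗ[ℚ] W := ∑ i, (mulE W (c i)) ∘ₗ LinearMap.proj i
    have hf : ∀ v, f v = ∑ i, c i • v i := by
      intro v
      simp only [f, LinearMap.sum_apply, LinearMap.comp_apply, LinearMap.proj_apply, mulE_apply]
    have hf0 : f = 0 := by
      apply eq_zero_of_span hspan
      intro g
      have h1 := congrArg (ρ g) hc0
      rw [comb_apply, map_sum, map_zero] at h1
      rw [hf, ← h1]
      simp only [hE]
    obtain ⟨x, hx⟩ := exists_ne (0 : W)
    funext i
    have h1 := hf (Pi.single i x)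
    rw [hf0, LinearMap.zero_apply, Finset.sum_eq_single i] at h1
    · rw [Pi.single_eq_same] at h1
      exact (smul_eq_zero.mp h1.symm).resolve_right hx
    · intro j _ hj
      rw [Pi.single_eq_of_ne hj, smul_zero]
    · intro h; exact absurd (Finset.mem_univ _) h
  refine ⟨?_, ?_, ?_, ?_⟩
  · -- injectivity
    rw [← LinearMap.ker_eq_bot, LinearMap.ker_eq_bot']
    rintro ⟨l, a⟩ h
    have h1 : ∀ j, θ l j = 0 := fun j => hwind _ (congrFun h (Sum.inl j))
    have h2 : ∀ k, a k = 0 := fun k => hwind _ (congrFun h (Sum.inr k))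
    have h3 := hb ⊥
    rw [finrank_bot, mul_zero, Nat.le_zero, Submodule.finrank_eq_zero] at h3
    have h4 : l ∈ Submodule.comap θ
        (Submodule.pi Set.univ fun _ => (⊥ : Submodule E (Fin m → E)).restrictScalars ℚ) := by
      rw [Submodule.mem_comap, Submodule.mem_pi]
      intro j _
      exact h1 j
    rw [h3, Submodule.mem_bot] at h4
    rw [Prod.mk_eq_zero]
    exact ⟨h4, funext h2⟩
  · rintro ⟨l, a⟩ j
    rcases j with j | k
    · exact hS _
    · exact hS _
  · -- the rank condition
    intro Y hY hYs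
    let C : Submodule E (Fin m → E) :=
      { carrier := {c | comb w c ∈ Y}
        add_mem' := fun {a b} ha hb => by
          show comb w (a + b) ∈ Y
          rw [map_add]
          exact Y.add_mem ha hb
        zero_mem' := by
          show comb w 0 ∈ Y
          rw [map_zero]
          exact Y.zero_mem
        smul_mem' := fun a c hc => by
          show comb w (a • c) ∈ Y
          have h1 : comb w (a • c) = mulE W a (comb w c) := by
            rw [comb_apply, comb_apply, mulE_apply, Finset.smul_sum]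
            simp only [Pi.smul_apply, smul_smul, smul_eq_mul]
          rw [h1]
          exact hYs _ (fun g y => (hE g a y).symm) _ hc }
    have h1 := le_finrank_coef hE hπE hπ hspan Y C (fun c hc => hc)
    refine le_trans ?_ h1
    have hmemC : ∀ c : Fin m → E, comb w c ∈ Y → c ∈ C.restrictScalars ℚ := fun c hc => hc
    let Ξ : ↥(Submodule.comap (UU (t := t) θ w) (Submodule.pi Set.univ fun _ => Y)) →ₗ[ℚ]
        (↥(Submodule.comap θ (Submodule.pi Set.univ fun _ => C.restrictScalars ℚ)) ×
          (Fin t → C.restrictScalars ℚ)) :=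
      { toFun := fun x => (⟨x.1.1, by
            rw [Submodule.mem_comap, Submodule.mem_pi]
            exact fun j _ => x.2 (Sum.inl j) (Set.mem_univ _)⟩,
          fun k => ⟨x.1.2 k, x.2 (Sum.inr k) (Set.mem_univ _)⟩)
        map_add' := fun x y => rfl
        map_smul' := fun q x => rfl }
    have hΞ : Function.Injective Ξ := by
      intro x y h
      apply Subtype.ext
      have h2 := congrArg Prod.fst h
      have h3 := congrArg Prod.snd h
      refine Prod.ext (congrArg Subtype.val h2) ?_
      funext k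
      exact congrArg Subtype.val (congrFun h3 k)
    have h3 := LinearMap.finrank_le_finrank_of_injective hΞ
    rw [Module.finrank_prod, Module.finrank_pi_fintype, Finset.sum_const, Finset.card_univ,
      Fintype.card_fin, smul_eq_mul] at h3
    refine h3.trans ?_
    have h4 : Module.finrank ℚ (C.restrictScalars ℚ) = Module.finrank ℚ E * Module.finrank E C := by
      rw [Module.finrank_mul_finrank]
      rfl
    rw [h4, hEQ]
    have h5 := hb C
    nlinarith
  · intro F _ _ _ Φ ι _ b
    have hfdE : Module.Finite E W' := Module.finite_of_finrank_pos (by rw [ht]; omega)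
    let bW : Module.Basis (Fin (t + 1)) E W' := Module.finBasisOfFinrankEq E W' ht
    have hu : ∀ σ : E →ₐ[ℚ] F, ∃ u : Fin (t + 1) → F, u ≠ 0 ∧
        ∀ k : Fin t, ∑ l, u l * co bW l σ (Φ (Sum.inr k)) = 0 := by
      intro σ
      let f : (Fin (t + 1) → F) →ₗ[F] (Fin t → F) :=
        { toFun := fun u k => ∑ l, u l * co bW l σ (Φ (Sum.inr k))
          map_add' := fun u v => by
            funext k
            simp only [Pi.add_apply, add_mul, Finset.sum_add_distrib]
          map_smul' := fun q u => by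
            funext k
            simp only [Pi.smul_apply, smul_eq_mul, mul_assoc, Finset.mul_sum, RingHom.id_apply] }
      have hker : LinearMap.ker f ≠ ⊥ := by
        apply LinearMap.ker_ne_bot_of_finrank_lt
        simp
      obtain ⟨u, hu, hu0⟩ := Submodule.exists_mem_ne_zero_of_ne_bot hker
      exact ⟨u, hu0, fun k => congrFun hu k⟩
    choose u hu0 hu using hu
    obtain ⟨α, hα0, hα⟩ := hc F (fun j σ => ∑ k, u σ k * co bW k σ (Φ (Sum.inl j)))
    let ξ : (Fin m → (W' →ₗ[ℚ] F)) →ₗ[F] F :=
      ∑ i, ∑ σ, ∑ k, (α i σ * u σ k) • (co bW k σ ∘ₗ LinearMap.proj i)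
    have hξ : ∀ Θ, ξ Θ = ∑ i, ∑ σ, ∑ k, (α i σ * u σ k) * co bW k σ (Θ i) := by
      intro Θ
      simp only [ξ, LinearMap.sum_apply, LinearMap.smul_apply, LinearMap.comp_apply,
        LinearMap.proj_apply, smul_eq_mul]
    have hξ0 : ξ ≠ 0 := by
      obtain ⟨i₀, hi₀⟩ : ∃ i, α i ≠ 0 := by
        by_contra hcon
        push Not at hcon
        exact hα0 (funext hcon)
      obtain ⟨σ₀, hσ₀⟩ : ∃ σ, α i₀ σ ≠ 0 := by
        by_contra hcon
        push Not at hcon
        exact hi₀ (funext hcon)
      obtain ⟨k₀, hk₀⟩ : ∃ k, u σ₀ k ≠ 0 := by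
        by_contra hcon
        push Not at hcon
        exact hu0 σ₀ (funext hcon)
      obtain ⟨Θ, hΘ⟩ := exists_co (F := F) bW k₀ σ₀
      intro h0
      have h1 := hξ (Pi.single i₀ Θ)
      rw [h0, LinearMap.zero_apply, Finset.sum_eq_single i₀, Finset.sum_eq_single σ₀,
        Finset.sum_eq_single k₀] at h1
      · rw [Pi.single_eq_same, hΘ, if_pos ⟨rfl, rfl⟩, mul_one] at h1
        exact mul_ne_zero hσ₀ hk₀ h1.symm
      · intro k _ hk
        rw [Pi.single_eq_same, hΘ, if_neg (fun h => hk h.1), mul_zero]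
      · intro h; exact absurd (Finset.mem_univ _) h
      · intro σ _ hσ
        refine Finset.sum_eq_zero fun k _ => ?_
        rw [Pi.single_eq_same, hΘ, if_neg (fun h => hσ h.2), mul_zero]
      · intro h; exact absurd (Finset.mem_univ _) h
      · intro i _ hi
        refine Finset.sum_eq_zero fun σ _ => Finset.sum_eq_zero fun k _ => ?_
        rw [Pi.single_eq_of_ne hi, map_zero, mul_zero]
      · intro h; exact absurd (Finset.mem_univ _) h
    -- coefficients
    let cf : (Λ₀ × (Fin t → Fin m → E)) → Fin s ⊕ Fin t → Fin m → E := fun x =>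
      Sum.elim (θ x.1) x.2
    have hcf : ∀ x j, UU (t := t) θ w x j = comb w (cf x j) := by
      intro x j
      rcases j with j | j <;> rfl
    let T : (Λ₀ × (Fin t → Fin m → E)) → (Fin m → (W' →ₗ[ℚ] F)) := fun x i =>
      ∑ j, (Φ j) ∘ₗ mulE W' (cf x j i)
    have hT : ∀ x, T x ∈ LinearMap.ker ξ := by
      intro x
      rw [LinearMap.mem_ker, hξ]
      have h1 : ∀ i σ k, co bW k σ (T x i) = ∑ j, σ (cf x j i) * co bW k σ (Φ j) := by
        intro i σ k
        simp only [T]
        rw [map_sum]
        simp only [co_mul]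
      simp only [h1]
      rw [Finset.sum_comm, ← hα x.1]
      refine Finset.sum_congr rfl fun σ _ => Finset.sum_congr rfl fun i _ => ?_
      have h2 : ∑ k, α i σ * u σ k * ∑ j, σ (cf x j i) * co bW k σ (Φ j) =
          ∑ j, α i σ * σ (cf x j i) * ∑ k, u σ k * co bW k σ (Φ j) := by
        simp only [Finset.mul_sum]
        rw [Finset.sum_comm]
        refine Finset.sum_congr rfl fun j _ => Finset.sum_congr rfl fun k _ => ?_
        ring
      rw [h2, Fintype.sum_sum_type]
      simp only [hu, mul_zero, Finset.sum_const_zero, add_zero]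
      rfl
    -- dimension count
    have hfdF : Module.Finite F (W' →ₗ[ℚ] F) := inferInstance
    have hcard : Module.finrank F (Fin m → (W' →ₗ[ℚ] F)) ≤ Fintype.card ι := by
      rw [Module.finrank_pi_fintype, Finset.sum_const, Finset.card_univ, Fintype.card_fin,
        smul_eq_mul, Module.finrank_linearMap_self, ← Module.finrank_eq_card_basis b,
        Module.finrank_prod, ha, Module.finrank_pi_fintype, Finset.sum_const, Finset.card_univ,
        Fintype.card_fin, smul_eq_mul, Module.finrank_pi_fintype, Finset.sum_const,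
        Finset.card_univ, Fintype.card_fin, smul_eq_mul, hEQ]
      apply le_of_eq
      ring
    obtain ⟨c, hc0, hcs'⟩ := exists_rel_of_functional ξ hξ0 (fun i => T (b i))
      (fun i => hT (b i)) hcard
    have hcs : ∀ i', ∑ i, c i • T (b i) i' = 0 := by
      intro i'
      have h4 := congrFun hcs' i'
      rw [Finset.sum_apply] at h4
      exact h4
    refine ⟨c, hc0, fun g => ?_⟩
    have h1 : ∀ x, ∑ j, Φ j (π (ρ g (UU (t := t) θ w x j))) = ∑ i, T x i (π (ρ g (w i))) := by
      intro x
      have h2 : ∀ j, Φ j (π (ρ g (UU (t := t) θ w x j))) =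
          ∑ i, ((Φ j) ∘ₗ mulE W' (cf x j i)) (π (ρ g (w i))) := by
        intro j
        have h3 : π (ρ g (comb w (cf x j))) = ∑ i, (cf x j i) • π (ρ g (w i)) := by
          rw [comb_apply, map_sum, map_sum]
          simp only [hE, hπE]
        rw [hcf, h3, map_sum (Φ j)]
        refine Finset.sum_congr rfl fun i _ => ?_
        rw [LinearMap.comp_apply, mulE_apply]
      simp only [h2]
      rw [Finset.sum_comm]
      refine Finset.sum_congr rfl fun i _ => ?_
      simp only [T, LinearMap.sum_apply]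
    simp only [h1]
    have h5 : ∑ i, c i * ∑ i', T (b i) i' (π (ρ g (w i'))) =
        ∑ i', (∑ i, c i • T (b i) i') (π (ρ g (w i'))) := by
      simp only [Finset.mul_sum, LinearMap.sum_apply, LinearMap.smul_apply, smul_eq_mul]
      rw [Finset.sum_comm]
    rw [h5]
    simp only [hcs, LinearMap.zero_apply, Finset.sum_const_zero]

end main

end Pool.Agent.J4H74.T3
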