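import Mathlib
import Pool.Agent.J4H74.T3.Comb
import Pool.Agent.J4H74.T3.EType

set_option autoImplicit false

/-!
# Degenerate spaces of matrices over a number field
-/

namespace Pool.Agent.J4H74.T3

/-! ### Skew-symmetric `3 × 3` matrices over `ℚ` -/

/-- The skew-symmetric matrices. -/
def thA : (Fin 3 → ℚ) →ₗ[ℚ] (Fin 3 → Fin 3 → ℚ) where
  toFun v j i := skew v i j
  map_add' v w := by
    funext j i
    exact skew_add v w i j
  map_smul' c v := by
    funext j i
    exact (skew_map (AddMonoidHom.mulLeft c) v i j).symm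

theorem thA_rank (C : Submodule ℚ (Fin 3 → ℚ)) : Module.finrank ℚ
    (Submodule.comap thA (Submodule.pi Set.univ fun _ => C.restrictScalars ℚ)) ≤
      Module.finrank ℚ ℚ * Module.finrank ℚ C := by
  rw [Module.finrank_self, one_mul]
  by_cases hC : C = ⊤
  · have h1 : Module.finrank ℚ C = 3 := by rw [hC, finrank_top]; simp
    rw [h1]
    refine (Submodule.finrank_le _).trans ?_
    simp
  · obtain ⟨f, hf0, hf⟩ := Submodule.exists_le_ker_of_lt_top C (lt_top_iff_ne_top.mpr hC)
    have hex : ∃ j₀ : Fin 3, f (Pi.single j₀ 1) ≠ 0 := by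
      by_contra hcon
      push Not at hcon
      apply hf0
      apply LinearMap.pi_ext'
      intro i
      apply LinearMap.ext_ring
      simpa using hcon i
    obtain ⟨j₀, hj₀⟩ := hex
    let D := Submodule.comap thA (Submodule.pi Set.univ fun _ => C.restrictScalars ℚ)
    have hD : ∀ v ∈ D, ∀ j, thA v j ∈ C := fun v hv j =>
      (Submodule.mem_pi.mp (Submodule.mem_comap.mp hv)) j (Set.mem_univ _)
    let j₁ : Fin 3 := j₀ + 1
    let Φ : D →ₗ[ℚ] C :=
      ((LinearMap.proj j₁ ∘ₗ thA).domRestrict D).codRestrict C (fun v => hD v v.2 j₁)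
    have hΦ : Function.Injective Φ := by
      rw [← LinearMap.ker_eq_bot, LinearMap.ker_eq_bot']
      intro c hc
      have hc1 : ∀ i, skew (c : Fin 3 → ℚ) i j₁ = 0 := fun i =>
        congrFun (congrArg Subtype.val hc) i
      have hfv : ∀ v : Fin 3 → ℚ, f v = v 0 * f (Pi.single 0 1) + v 1 * f (Pi.single 1 1) +
          v 2 * f (Pi.single 2 1) := by
        intro v
        have h1 : v = v 0 • Pi.single 0 (1 : ℚ) + v 1 • Pi.single 1 (1 : ℚ) +
            v 2 • Pi.single 2 (1 : ℚ) := by
          funext i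
          fin_cases i <;> simp
        conv_lhs => rw [h1]
        simp only [map_add, map_smul, smul_eq_mul]
      have hker : ∀ j, f (fun i => skew (c : Fin 3 → ℚ) i j) = 0 := fun j => hf (hD c c.2 j)
      have a0 := hker 0
      have a1 := hker 1
      have a2 := hker 2
      rw [hfv] at a0 a1 a2
      simp only [skew, Matrix.cons_val_zero, Matrix.cons_val_one, Matrix.cons_val] at a0 a1 a2
      have b0 := hc1 0
      have b1 := hc1 1
      have b2 := hc1 2
      apply Subtype.ext
      funext m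
      show (c : Fin 3 → ℚ) m = 0
      fin_cases j₀
      · simp only [j₁, skew] at b0 b1 b2
        simp at b0 b1 b2
        fin_cases m
        · exact b2
        · simp only [b2, b0] at a0 a1 a2
          simp at a0 a1 a2
          have := a2.resolve_right (by simpa using hj₀)
          simpa using this
        · exact b0
      · simp only [j₁, skew] at b0 b1 b2
        simp at b0 b1 b2
        fin_cases m
        · exact b1
        · exact b0
        · simp only [b1, b0] at a0 a1 a2
          simp at a0 a1 a2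
          have := a0.resolve_right (by simpa using hj₀)
          simpa using this
      · simp only [j₁, skew] at b0 b1 b2
        simp at b0 b1 b2
        fin_cases m
        · simp only [b1, b2] at a0 a1 a2
          simp at a0 a1 a2
          have := a1.resolve_right (by simpa using hj₀)
          simpa using this
        · exact b2
        · exact b1
    exact LinearMap.finrank_le_finrank_of_injective hΦ

theorem thA_deg (F : Type) [Field F] [CharZero F] [IsAlgClosed F]
    (φ : Fin 3 → (ℚ →ₐ[ℚ] F) → F) : ∃ α : Fin 3 → (ℚ →ₐ[ℚ] F) → F, α ≠ 0 ∧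
      ∀ l, ∑ σ : ℚ →ₐ[ℚ] F, ∑ i, ∑ j, α i σ * σ (thA l j i) * φ j σ = 0 := by
  by_cases h0 : φ = 0
  · refine ⟨fun _ _ => 1, ?_, ?_⟩
    · intro h
      have := congrFun (congrFun h 0) (Algebra.ofId ℚ F)
      exact one_ne_zero this
    · intro l
      simp [h0]
  · refine ⟨φ, h0, fun l => ?_⟩
    refine Finset.sum_eq_zero fun σ _ => ?_
    simp only [Fin.sum_univ_three]
    simp [thA, skew]
    ring

/-! ### Hermitian `2 × 2` matrices -/

section herm

variable {E : Type} [Field E] [NumberField E] (τ : E ≃ₐ[ℚ] E) (η : E)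

/-- The Hermitian matrices `(p + τ p, q; τ q, (p - τ p) / η)`. -/
def thH : (E × E) →ₗ[ℚ] (Fin 2 → Fin 2 → E) where
  toFun x := ![![x.1 + τ x.1, τ x.2], ![x.2, (x.1 - τ x.1) * η]]
  map_add' x y := by
    funext j i
    fin_cases j <;> fin_cases i <;> simp <;> ring
  map_smul' c x := by
    have h1 : ∀ y : E, τ (c • y) = c • τ y := fun y => map_rat_smul τ c y
    funext j i
    fin_cases j <;> fin_cases i
    · simp [h1]
    · simp [h1]
    · simp
    · show (c • x.1 - τ (c • x.1)) * η = c • ((x.1 - τ x.1) * η)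
      rw [h1, ← smul_sub, smul_mul_assoc]

variable {τ η}

omit [NumberField E] in
/-- A criterion for a proper subspace of `E²`. -/
theorem exists_fun {C : Submodule E (Fin 2 → E)} (hC : C ≠ ⊤) : ∃ f₁ f₂ : E,
    (f₁ ≠ 0 ∨ f₂ ≠ 0) ∧ ∀ c ∈ C, f₁ * c 0 + f₂ * c 1 = 0 := by
  obtain ⟨f, hf0, hf⟩ := Submodule.exists_le_ker_of_lt_top C (lt_top_iff_ne_top.mpr hC)
  refine ⟨f (Pi.single 0 1), f (Pi.single 1 1), ?_, ?_⟩
  · by_contra hcon
    push Not at hcon
    apply hf0
    apply LinearMap.pi_ext'
    intro i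
    apply LinearMap.ext_ring
    fin_cases i
    · simpa using hcon.1
    · simpa using hcon.2
  · intro c hc
    have h1 := hf hc
    rw [LinearMap.mem_ker] at h1
    have h2 : c = c 0 • Pi.single 0 (1 : E) + c 1 • Pi.single 1 (1 : E) := by
      funext i
      fin_cases i <;> simp
    rw [h2, map_add, map_smul, map_smul, smul_eq_mul, smul_eq_mul] at h1
    linear_combination h1

theorem thH_rank (hη0 : η ≠ 0)
    (C : Submodule E (Fin 2 → E)) : Module.finrank ℚ
    (Submodule.comap (thH τ η) (Submodule.pi Set.univ fun _ => C.restrictScalars ℚ)) ≤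
      Module.finrank ℚ E * Module.finrank E C := by
  have hQC : Module.finrank ℚ (C.restrictScalars ℚ) = Module.finrank ℚ E * Module.finrank E C := by
    rw [Module.finrank_mul_finrank]
    rfl
  by_cases hC : C = ⊤
  · have h1 : Module.finrank E C = 2 := by rw [hC, finrank_top]; simp
    rw [h1]
    refine (Submodule.finrank_le _).trans ?_
    rw [Module.finrank_prod]
    omega
  · obtain ⟨f₁, f₂, hf, hfC⟩ := exists_fun hC
    rw [← hQC]
    have h2 : (2 : E) ≠ 0 := two_ne_zero
    let D := Submodule.comap (thH τ η) (Submodule.pi Set.univ fun _ => C.restrictScalars ℚ)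
    have hD : ∀ v ∈ D, ∀ j, thH τ η v j ∈ C.restrictScalars ℚ := fun v hv j =>
      (Submodule.mem_pi.mp (Submodule.mem_comap.mp hv)) j (Set.mem_univ _)
    have hp0 : ∀ p : E, p + τ p = 0 → (p - τ p) * η = 0 → p = 0 := by
      intro p h3 h4
      have h5 := (mul_eq_zero.mp h4).resolve_right hη0
      have h6 : 2 * p = 0 := by linear_combination h3 + h5
      exact (mul_eq_zero.mp h6).resolve_left h2
    by_cases h1 : f₁ = 0
    · have hf2 : f₂ ≠ 0 := hf.resolve_left (fun h => h h1)
      let Φ : D →ₗ[ℚ] C.restrictScalars ℚ :=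
        ((LinearMap.proj 0 ∘ₗ thH τ η).domRestrict D).codRestrict (C.restrictScalars ℚ)
          (fun v => hD v v.2 0)
      have hΦ : Function.Injective Φ := by
        rw [← LinearMap.ker_eq_bot, LinearMap.ker_eq_bot']
        rintro ⟨⟨p, q⟩, hx⟩ hc
        have hc0 : ∀ i, thH τ η (p, q) 0 i = 0 := fun i => congrFun (congrArg Subtype.val hc) i
        have e1 := hc0 0
        have e2 := hc0 1
        have e3 := hfC _ (hD _ hx 1)
        simp only [thH, LinearMap.coe_mk, AddHom.coe_mk, Matrix.cons_val_zero, Matrix.cons_val_one,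
          h1, zero_mul, zero_add] at e1 e2 e3
        have hq : q = 0 := (map_eq_zero τ).mp e2
        have e4 := (mul_eq_zero.mp e3).resolve_left hf2
        have hp := hp0 p e1 e4
        apply Subtype.ext
        rw [Submodule.coe_zero, Prod.mk_eq_zero]
        exact ⟨hp, hq⟩
      exact LinearMap.finrank_le_finrank_of_injective hΦ
    · let Φ : D →ₗ[ℚ] C.restrictScalars ℚ :=
        ((LinearMap.proj 1 ∘ₗ thH τ η).domRestrict D).codRestrict (C.restrictScalars ℚ)
          (fun v => hD v v.2 1)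
      have hΦ : Function.Injective Φ := by
        rw [← LinearMap.ker_eq_bot, LinearMap.ker_eq_bot']
        rintro ⟨⟨p, q⟩, hx⟩ hc
        have hc0 : ∀ i, thH τ η (p, q) 1 i = 0 := fun i => congrFun (congrArg Subtype.val hc) i
        have e1 := hc0 0
        have e2 := hc0 1
        have e3 := hfC _ (hD _ hx 0)
        simp only [thH, LinearMap.coe_mk, AddHom.coe_mk, Matrix.cons_val_zero,
          Matrix.cons_val_one] at e1 e2 e3
        rw [e1, map_zero, mul_zero, add_zero] at e3
        have e4 := (mul_eq_zero.mp e3).resolve_left h1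
        have hp := hp0 p e4 e2
        apply Subtype.ext
        rw [Submodule.coe_zero, Prod.mk_eq_zero]
        exact ⟨hp, e1⟩
      exact LinearMap.finrank_le_finrank_of_injective hΦ

theorem thH_deg (hτ : ∀ x, τ (τ x) = x) (hη : τ η = -η) (hη0 : η ≠ 0)
    (F : Type) [Field F] [CharZero F] [IsAlgClosed F]
    (φ : Fin 2 → (E →ₐ[ℚ] F) → F) : ∃ α : Fin 2 → (E →ₐ[ℚ] F) → F, α ≠ 0 ∧
      ∀ l, ∑ σ : E →ₐ[ℚ] F, ∑ i, ∑ j, α i σ * σ (thH τ η l j i) * φ j σ = 0 := by
  classical
  obtain ⟨σ₀⟩ : Nonempty (E →ₐ[ℚ] F) := inferInstance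
  set σ₁ : E →ₐ[ℚ] F := σ₀.comp (τ : E →ₐ[ℚ] E) with hσ₁
  have hs1 : ∀ x, σ₁ x = σ₀ (τ x) := fun x => rfl
  have hne : σ₁ ≠ σ₀ := by
    intro h
    have h1 : σ₀ (τ η) = σ₀ η := by rw [← hs1, h]
    have h2 := σ₀.injective h1
    rw [hη] at h2
    have h3 : 2 * η = 0 := by linear_combination -h2
    exact hη0 ((mul_eq_zero.mp h3).resolve_left two_ne_zero)
  have hher : ∀ l i j, τ (thH τ η l j i) = thH τ η l i j := by
    intro l i j
    fin_cases i <;> fin_cases j
    · simp [thH, hτ, add_comm]
    · simp [thH]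
    · simp [thH, hτ]
    · simp only [thH, LinearMap.coe_mk, AddHom.coe_mk]
      simp [hτ, hη]
      ring
  have hsum : ∀ α : Fin 2 → (E →ₐ[ℚ] F) → F, (∀ i σ, σ ≠ σ₀ → σ ≠ σ₁ → α i σ = 0) → ∀ l,
      ∑ σ : E →ₐ[ℚ] F, ∑ i, ∑ j, α i σ * σ (thH τ η l j i) * φ j σ =
        (∑ i, ∑ j, α i σ₀ * σ₀ (thH τ η l j i) * φ j σ₀) +
        ∑ i, ∑ j, α i σ₁ * σ₀ (thH τ η l i j) * φ j σ₁ := by
    intro α hα l
    rw [← Finset.sum_subset (Finset.subset_univ {σ₀, σ₁}) (by
      intro σ _ hσ
      rw [Finset.mem_insert, Finset.mem_singleton, not_or] at hσ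
      refine Finset.sum_eq_zero fun i _ => Finset.sum_eq_zero fun j _ => ?_
      rw [hα i σ hσ.1 hσ.2, zero_mul, zero_mul]), Finset.sum_pair hne.symm]
    simp only [hs1, hher]
  by_cases h0 : ∀ j, φ j σ₀ = 0 ∧ φ j σ₁ = 0
  · refine ⟨fun i σ => if σ = σ₀ then 1 else 0, ?_, fun l => ?_⟩
    · intro h
      have := congrFun (congrFun h 0) σ₀
      simp at this
    · rw [hsum _ (fun i σ h _ => by rw [if_neg h])]
      simp [(h0 _).1, (h0 _).2]
  · refine ⟨fun i σ => if σ = σ₀ then φ i σ₁ else if σ = σ₁ then -φ i σ₀ else 0, ?_, fun l => ?_⟩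
    · intro h
      apply h0
      intro j
      have h1 := congrFun (congrFun h j) σ₀
      have h2 := congrFun (congrFun h j) σ₁
      simp only [if_true, Pi.zero_apply, if_neg hne, neg_eq_zero] at h1 h2
      exact ⟨h2, h1⟩
    · rw [hsum _ (fun i σ h h' => by rw [if_neg h, if_neg h'])]
      simp only [if_true, if_neg hne]
      rw [Finset.sum_comm (s := Finset.univ) (t := Finset.univ)
        (f := fun i j => -φ i σ₀ * σ₀ (thH τ η l i j) * φ j σ₁), ← Finset.sum_add_distrib]
      refine Finset.sum_eq_zero fun i _ => ?_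
      rw [← Finset.sum_add_distrib]
      refine Finset.sum_eq_zero fun j _ => ?_
      ring

end herm

end Pool.Agent.J4H74.T3
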