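import Mathlib
import Pool.Agent.J4H74.T3.Types

set_option autoImplicit false

/-!
# Degenerate spaces of matrices over a number field with an automorphism
-/

namespace Pool.Agent.J4H74.T3

/-- If the matrices `M(x)` are singular for infinitely many `x`, then so is `M(0)`. -/
theorem exists_ker_of_infinite {F n : Type} [Field F] [Fintype n] [DecidableEq n]
    (M : Matrix n n (Polynomial F)) (X : Set F) (hX : X.Infinite)
    (h : ∀ x ∈ X, ∃ v : n → F, v ≠ 0 ∧ (M.map (Polynomial.eval x)).mulVec v = 0) :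
    ∃ v : n → F, v ≠ 0 ∧ (M.map (Polynomial.eval 0)).mulVec v = 0 := by
  have h1 : ∀ x, (M.map (Polynomial.eval x)).det = Polynomial.eval x M.det := by
    intro x
    have := (Polynomial.evalRingHom x).map_det M
    rw [Polynomial.coe_evalRingHom] at this
    rw [this]
    rfl
  have h2 : M.det = 0 := by
    apply Polynomial.eq_zero_of_infinite_isRoot
    refine hX.mono fun x hx => ?_
    show Polynomial.eval x M.det = 0
    rw [← h1, ← Matrix.exists_mulVec_eq_zero_iff]
    exact h x hx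
  rw [Matrix.exists_mulVec_eq_zero_iff, h1, h2, Polynomial.eval_zero]

section

variable {E : Type} [Field E] [NumberField E] (τ : E ≃ₐ[ℚ] E)

/-- The matrices `(τ p, p), (τ τ q, q)`. -/
def thK : (E × E) →ₗ[ℚ] (Fin 2 → Fin 2 → E) where
  toFun x := ![![τ x.1, x.1], ![τ (τ x.2), x.2]]
  map_add' x y := by
    funext j i
    fin_cases j <;> fin_cases i <;> simp
  map_smul' c x := by
    have h1 : ∀ y : E, τ (c • y) = c • τ y := fun y => map_rat_smul τ c y
    funext j i
    fin_cases j <;> fin_cases i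
    · simp [h1]
    · simp
    · simp [h1]
    · simp

variable {τ}

theorem thK_rank {e₀ : E} (he₀ : τ (τ e₀) ≠ e₀)
    (C : Submodule E (Fin 2 → E)) : Module.finrank ℚ
    (Submodule.comap (thK τ) (Submodule.pi Set.univ fun _ => C.restrictScalars ℚ)) ≤
      Module.finrank ℚ E * Module.finrank E C := by
  by_cases hC : C = ⊤
  · have h1 : Module.finrank E C = 2 := by rw [hC, finrank_top]; simp
    rw [h1]
    refine (Submodule.finrank_le _).trans ?_
    rw [Module.finrank_prod]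
    omega
  · obtain ⟨f₁, f₂, hf, hfC⟩ := exists_fun hC
    let D := Submodule.comap (thK τ) (Submodule.pi Set.univ fun _ => C.restrictScalars ℚ)
    have hD : ∀ v ∈ D, ∀ j, thK τ v j ∈ C := fun v hv j =>
      (Submodule.mem_pi.mp (Submodule.mem_comap.mp hv)) j (Set.mem_univ _)
    have hD0 : ∀ p q, (p, q) ∈ D → f₁ * τ p + f₂ * p = 0 := fun p q h => hfC _ (hD _ h 0)
    have hD1 : ∀ p q, (p, q) ∈ D → f₁ * τ (τ q) + f₂ * q = 0 := fun p q h => hfC _ (hD _ h 1)
    have hz : D = ⊥ → Module.finrank ℚ D ≤ Module.finrank ℚ E * Module.finrank E C := by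
      intro h
      rw [h, finrank_bot]
      exact Nat.zero_le _
    by_cases h1 : f₁ = 0
    · apply hz
      have hf2 : f₂ ≠ 0 := hf.resolve_left (fun h => h h1)
      rw [Submodule.eq_bot_iff]
      rintro ⟨p, q⟩ h
      have e1 := hD0 p q h
      have e2 := hD1 p q h
      rw [h1, zero_mul, zero_add] at e1 e2
      rw [Prod.mk_eq_zero]
      exact ⟨(mul_eq_zero.mp e1).resolve_left hf2, (mul_eq_zero.mp e2).resolve_left hf2⟩
    by_cases h2 : f₂ = 0
    · apply hz
      rw [Submodule.eq_bot_iff]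
      rintro ⟨p, q⟩ h
      have e1 := hD0 p q h
      have e2 := hD1 p q h
      rw [h2, zero_mul, add_zero] at e1 e2
      rw [Prod.mk_eq_zero]
      exact ⟨(map_eq_zero τ).mp ((mul_eq_zero.mp e1).resolve_left h1),
        (map_eq_zero τ).mp ((map_eq_zero τ).mp ((mul_eq_zero.mp e2).resolve_left h1))⟩
    by_cases hb : C = ⊥
    · apply hz
      rw [Submodule.eq_bot_iff]
      rintro ⟨p, q⟩ h
      have e1 := hD _ h 0
      have e2 := hD _ h 1
      rw [hb, Submodule.mem_bot] at e1 e2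
      rw [Prod.mk_eq_zero]
      exact ⟨congrFun e1 1, congrFun e2 1⟩
    -- the main case
    set μ := -f₂ / f₁ with hμ
    have hμf : f₁ * μ = -f₂ := by rw [hμ]; field_simp
    have hμ0 : μ ≠ 0 := by
      rw [hμ]
      exact div_ne_zero (neg_ne_zero.mpr h2) h1
    obtain ⟨e, he, he0⟩ : ∃ e, τ (τ e) ≠ τ μ * e ∧ e ≠ 0 := by
      by_cases h3 : τ μ = 1
      · refine ⟨e₀, ?_, ?_⟩
        · rw [h3, one_mul]; exact he₀
        · intro h4
          apply he₀
          rw [h4, map_zero, map_zero]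
      · refine ⟨1, ?_, one_ne_zero⟩
        rw [map_one, map_one, mul_one]
        exact fun h => h3 h.symm
    have hC1 : 1 ≤ Module.finrank E C := by
      rw [Nat.one_le_iff_ne_zero, Ne, Submodule.finrank_eq_zero]
      exact hb
    let Φ : D →ₗ[ℚ] E :=
      { toFun := fun x => x.1.1 + x.1.2 * e
        map_add' := fun x y => by
          show (x.1.1 + y.1.1) + (x.1.2 + y.1.2) * e = _
          ring
        map_smul' := fun c x => by
          show c • x.1.1 + (c • x.1.2) * e = c • (x.1.1 + x.1.2 * e)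
          rw [smul_add, smul_mul_assoc] }
    have hΦ : Function.Injective Φ := by
      rw [← LinearMap.ker_eq_bot, LinearMap.ker_eq_bot']
      rintro ⟨⟨p, q⟩, hx⟩ hc
      have hc' : p + q * e = 0 := hc
      have e1 := hD0 p q hx
      have e2 := hD1 p q hx
      have hp : p = -(q * e) := by linear_combination hc'
      have e3 : τ (τ q) = μ * q := by
        apply mul_left_cancel₀ h1
        linear_combination e2 - q * hμf
      have e4 : τ p = μ * p := by
        apply mul_left_cancel₀ h1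
        linear_combination e1 - p * hμf
      have e5 : τ q * τ e = μ * q * e := by
        rw [hp, map_neg, map_mul] at e4
        linear_combination -e4
      have e6 : τ (τ q) * τ (τ e) = τ μ * τ q * τ e := by
        have := congrArg τ e5
        simpa using this
      have e7 : μ * q * (τ (τ e) - τ μ * e) = 0 := by
        rw [e3] at e6
        linear_combination e6 + τ μ * e5
      have hq : q = 0 := by
        rcases mul_eq_zero.mp e7 with h | h
        · exact (mul_eq_zero.mp h).resolve_left hμ0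
        · exact absurd (sub_eq_zero.mp h) he
      apply Subtype.ext
      rw [Submodule.coe_zero, Prod.mk_eq_zero]
      refine ⟨?_, hq⟩
      rw [hp, hq, zero_mul, neg_zero]
    refine (LinearMap.finrank_le_finrank_of_injective hΦ).trans ?_
    exact Nat.le_mul_of_pos_right _ hC1

/-- Precomposition with an automorphism. -/
def pre (τ : E ≃ₐ[ℚ] E) (F : Type) [Field F] [CharZero F] : (E →ₐ[ℚ] F) ≃ (E →ₐ[ℚ] F) where
  toFun σ := σ.comp (τ : E →ₐ[ℚ] E)
  invFun σ := σ.comp (τ.symm : E →ₐ[ℚ] E)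
  left_inv σ := by
    ext x
    simp
  right_inv σ := by
    ext x
    simp

theorem pre_apply (F : Type) [Field F] [CharZero F] (σ : E →ₐ[ℚ] F) (x : E) :
    pre τ F σ x = σ (τ x) := rfl

theorem thK_deg (F : Type) [Field F] [CharZero F] [IsAlgClosed F]
    (φ : Fin 2 → (E →ₐ[ℚ] F) → F) : ∃ α : Fin 2 → (E →ₐ[ℚ] F) → F, α ≠ 0 ∧
      ∀ l, ∑ σ : E →ₐ[ℚ] F, ∑ i, ∑ j, α i σ * σ (thK τ l j i) * φ j σ = 0 := by
  classical
  set e := pre τ F with he
  -- the system of linear equations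
  let M : Matrix (Fin 2 × (E →ₐ[ℚ] F)) (Fin 2 × (E →ₐ[ℚ] F)) (Polynomial F) := Matrix.of fun r c =>
    if c.1 = 0 then (if c.2 = r.2 then Polynomial.C (φ r.1 r.2) + Polynomial.X else 0)
    else if r.1 = 0 then
      (if c.2 = e r.2 then Polynomial.C (φ 0 (e r.2)) + Polynomial.X else 0)
    else (if c.2 = e (e r.2) then Polynomial.C (φ 1 (e (e r.2))) + Polynomial.X else 0)
  have hM : ∀ (x : F) (v : Fin 2 × (E →ₐ[ℚ] F) → F) (σ : E →ₐ[ℚ] F),
      (M.map (Polynomial.eval x)).mulVec v (0, σ) =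
        (φ 0 σ + x) * v (0, σ) + (φ 0 (e σ) + x) * v (1, e σ) ∧
      (M.map (Polynomial.eval x)).mulVec v (1, σ) =
        (φ 1 σ + x) * v (0, σ) + (φ 1 (e (e σ)) + x) * v (1, e (e σ)) := by
    intro x v σ
    constructor
    · rw [Matrix.mulVec_eq_sum, Finset.sum_apply, Fintype.sum_prod_type, Fin.sum_univ_two]
      simp [M, apply_ite (Polynomial.eval x), mul_comm]
      ring
    · rw [Matrix.mulVec_eq_sum, Finset.sum_apply, Fintype.sum_prod_type, Fin.sum_univ_two]
      simp [M, apply_ite (Polynomial.eval x), mul_comm]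
      ring
  have hbad : (Set.range fun y : Fin 2 × (E →ₐ[ℚ] F) => -φ y.1 y.2).Finite := Set.finite_range _
  obtain ⟨v, hv0, hv⟩ := exists_ker_of_infinite M
    (Set.range fun y : Fin 2 × (E →ₐ[ℚ] F) => -φ y.1 y.2)ᶜ hbad.infinite_compl (by
      intro x hx
      have hne : ∀ j σ, φ j σ + x ≠ 0 := by
        intro j σ h
        apply hx
        exact ⟨(j, σ), by linear_combination -h⟩
      refine ⟨fun y => if y.1 = 0 then (φ 0 (e y.2) + x) / ((φ 1 y.2 + x) * (φ 1 (e y.2) + x))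
        else -(φ 0 (e.symm y.2) + x) / ((φ 1 (e.symm y.2) + x) * (φ 1 y.2 + x)), ?_, ?_⟩
      · intro h
        obtain ⟨σ₀⟩ : Nonempty (E →ₐ[ℚ] F) := inferInstance
        have h1 := congrFun h (0, σ₀)
        simp only [if_true, Pi.zero_apply] at h1
        exact div_ne_zero (hne _ _) (mul_ne_zero (hne _ _) (hne _ _)) h1
      · funext y
        obtain ⟨j, σ⟩ := y
        have hj : j = 0 ∨ j = 1 := by fin_cases j <;> simp
        have a1 := hne 1 σ
        have a2 := hne 1 (e σ)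
        have a3 := hne 1 (e (e σ))
        rcases hj with rfl | rfl
        · rw [(hM x _ σ).1]
          simp only [if_true, one_ne_zero, if_false, Equiv.symm_apply_apply, Pi.zero_apply]
          field_simp
          ring
        · rw [(hM x _ σ).2]
          simp only [if_true, one_ne_zero, if_false, Equiv.symm_apply_apply, Pi.zero_apply]
          field_simp
          ring)
  refine ⟨fun i σ => v (i, σ), ?_, ?_⟩
  · intro h
    apply hv0
    funext y
    exact congrFun (congrFun h y.1) y.2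
  · rintro ⟨p, q⟩
    have h0 : ∀ σ, φ 0 σ * v (0, σ) + φ 0 (e σ) * v (1, e σ) = 0 := by
      intro σ
      have h1 := (hM 0 v σ).1
      rw [hv] at h1
      simpa using h1.symm
    have h1 : ∀ σ, φ 1 σ * v (0, σ) + φ 1 (e (e σ)) * v (1, e (e σ)) = 0 := by
      intro σ
      have h1 := (hM 0 v σ).2
      rw [hv] at h1
      simpa using h1.symm
    have hs : ∀ σ : E →ₐ[ℚ] F,
        ∑ i, ∑ j, v (i, σ) * σ (thK τ (p, q) j i) * φ j σ =
          (v (0, σ) * σ (τ p) * φ 0 σ + v (0, σ) * σ (τ (τ q)) * φ 1 σ) +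
          (v (1, σ) * σ p * φ 0 σ + v (1, σ) * σ q * φ 1 σ) := by
      intro σ
      simp only [Fin.sum_univ_two]
      rfl
    rw [Finset.sum_congr rfl fun σ _ => hs σ, Finset.sum_add_distrib, Finset.sum_add_distrib,
      Finset.sum_add_distrib]
    have h2 : ∑ σ : E →ₐ[ℚ] F, v (1, σ) * σ p * φ 0 σ =
        ∑ σ : E →ₐ[ℚ] F, v (1, e σ) * σ (τ p) * φ 0 (e σ) := by
      rw [← Equiv.sum_comp e]
      rfl
    have h3 : ∑ σ : E →ₐ[ℚ] F, v (1, σ) * σ q * φ 1 σ =
        ∑ σ : E →ₐ[ℚ] F, v (1, e (e σ)) * σ (τ (τ q)) * φ 1 (e (e σ)) := by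
      rw [← Equiv.sum_comp e, ← Equiv.sum_comp e]
      rfl
    rw [h2, h3]
    have h4 : (∑ σ : E →ₐ[ℚ] F, v (0, σ) * σ (τ p) * φ 0 σ +
        ∑ σ : E →ₐ[ℚ] F, v (0, σ) * σ (τ (τ q)) * φ 1 σ) +
        (∑ σ : E →ₐ[ℚ] F, v (1, e σ) * σ (τ p) * φ 0 (e σ) +
          ∑ σ : E →ₐ[ℚ] F, v (1, e (e σ)) * σ (τ (τ q)) * φ 1 (e (e σ))) =
        (∑ σ : E →ₐ[ℚ] F, v (0, σ) * σ (τ p) * φ 0 σ +
          ∑ σ : E →ₐ[ℚ] F, v (1, e σ) * σ (τ p) * φ 0 (e σ)) +
        (∑ σ : E →ₐ[ℚ] F, v (0, σ) * σ (τ (τ q)) * φ 1 σ +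
          ∑ σ : E →ₐ[ℚ] F, v (1, e (e σ)) * σ (τ (τ q)) * φ 1 (e (e σ))) := by ring
    rw [h4, ← Finset.sum_add_distrib, ← Finset.sum_add_distrib]
    have h5 : ∑ σ : E →ₐ[ℚ] F, (v (0, σ) * σ (τ p) * φ 0 σ + v (1, e σ) * σ (τ p) * φ 0 (e σ)) = 0 :=
      Finset.sum_eq_zero fun σ _ => by linear_combination σ (τ p) * h0 σ
    have h6 : ∑ σ : E →ₐ[ℚ] F, (v (0, σ) * σ (τ (τ q)) * φ 1 σ +
        v (1, e (e σ)) * σ (τ (τ q)) * φ 1 (e (e σ))) = 0 :=
      Finset.sum_eq_zero fun σ _ => by linear_combination σ (τ (τ q)) * h1 σ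
    rw [h5, h6, add_zero]

/-- Over a number field with a nontrivial automorphism there is a degenerate space of `2 × 2`
matrices. -/
theorem exists_typeB {e₀ : E} (he₀ : τ e₀ ≠ e₀) : ∃ θ : (E × E) →ₗ[ℚ] (Fin 2 → Fin 2 → E),
    (∀ C : Submodule E (Fin 2 → E), Module.finrank ℚ
      (Submodule.comap θ (Submodule.pi Set.univ fun _ => C.restrictScalars ℚ)) ≤
        Module.finrank ℚ E * Module.finrank E C) ∧
    (∀ (F : Type) [Field F] [CharZero F] [IsAlgClosed F]
      (φ : Fin 2 → (E →ₐ[ℚ] F) → F), ∃ α : Fin 2 → (E →ₐ[ℚ] F) → F, α ≠ 0 ∧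
        ∀ l, ∑ σ : E →ₐ[ℚ] F, ∑ i, ∑ j, α i σ * σ (θ l j i) * φ j σ = 0) := by
  by_cases h : ∀ x, τ (τ x) = x
  · have h1 : τ (e₀ - τ e₀) = -(e₀ - τ e₀) := by
      rw [map_sub, h]; ring
    have h2 : e₀ - τ e₀ ≠ 0 := fun h3 => he₀ (sub_eq_zero.mp h3).symm
    exact ⟨thH τ (e₀ - τ e₀), thH_rank h2, fun F _ _ _ φ => thH_deg h h1 h2 F φ⟩
  · push Not at h
    obtain ⟨x, hx⟩ := h
    exact ⟨thK τ, thK_rank hx, fun F _ _ _ φ => thK_deg F φ⟩

end

end Pool.Agent.J4H74.T3
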