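import Mathlib
import Pool.Agent.J4H74.T3.EType

set_option autoImplicit false

/-!
# Degenerate lattices in a direct sum of two squares
-/

namespace Pool.Agent.J4H74.T3

/-- Evaluation of a linear map at a vector of the extended space. -/
theorem exists_eval {F V : Type} [Field F] [CharZero F] [AddCommGroup V] [Module ℚ V] {t : ℕ}
    (ht : Module.finrank ℚ V = t + 1) (Φ : Fin t → (V →ₗ[ℚ] F)) :
    ∃ f : (V →ₗ[ℚ] F) →ₗ[F] F, f ≠ 0 ∧ ∀ k, f (Φ k) = 0 := by
  have hfd : Module.Finite ℚ V := Module.finite_of_finrank_pos (by rw [ht]; omega)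
  have h1 : Module.finrank F (V →ₗ[ℚ] F) = t + 1 := by
    rw [Module.finrank_linearMap_self, ht]
  have hfdF : Module.Finite F (V →ₗ[ℚ] F) := inferInstance
  have h2 : Submodule.span F (Set.range Φ) < ⊤ := by
    apply lt_top_iff_ne_top.mpr
    intro h
    have h4 := (finrank_range_le_card (R := F) Φ)
    rw [Set.finrank, h, finrank_top, h1, Fintype.card_fin] at h4
    omega
  obtain ⟨f, hf0, hf⟩ := Submodule.exists_le_ker_of_lt_top _ h2
  exact ⟨f, hf0, fun k => hf (Submodule.subset_span ⟨k, rfl⟩)⟩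

section

variable {G : Type} [Group G] {W₁ W₂ W₁' W₂' : Type} [AddCommGroup W₁] [Module ℚ W₁]
  [AddCommGroup W₂] [Module ℚ W₂] [AddCommGroup W₁'] [Module ℚ W₁'] [AddCommGroup W₂']
  [Module ℚ W₂']

/-- Rational combinations. -/
def cb {W : Type} [AddCommGroup W] [Module ℚ W] (w : Fin 2 → W) : (Fin 2 → ℚ) →ₗ[ℚ] W :=
  Fintype.linearCombination ℚ w

theorem cb_apply {W : Type} [AddCommGroup W] [Module ℚ W] (w : Fin 2 → W) (a : Fin 2 → ℚ) :
    cb w a = ∑ i, a i • w i :=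
  Fintype.linearCombination_apply ℚ w a

/-- The lattice for a direct sum of two squares. -/
def UC (w1 : Fin 2 → W₁) (w2 : Fin 2 → W₂) (t₁ t₂ : ℕ) :
    ((Fin 2 → Fin 2 → ℚ) × (Fin t₁ → Fin 2 → ℚ) × (Fin t₂ → Fin 2 → ℚ)) →ₗ[ℚ]
      (((Fin 2 ⊕ Fin t₁) ⊕ (Fin 2 ⊕ Fin t₂)) → W₁ × W₂) where
  toFun x := Sum.elim
    (Sum.elim (fun j => (cb w1 (fun i => x.1 i j), 0)) (fun k => (cb w1 (x.2.1 k), 0)))
    (Sum.elim (fun j => (0, cb w2 (fun i => x.1 j i))) (fun k => (0, cb w2 (x.2.2 k))))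
  map_add' x y := by
    funext j
    rcases j with (j | j) | (j | j)
    · exact Prod.ext (map_add (cb w1) (fun i => x.1 i j) (fun i => y.1 i j)) (add_zero _).symm
    · exact Prod.ext (map_add (cb w1) (x.2.1 j) (y.2.1 j)) (add_zero _).symm
    · exact Prod.ext (add_zero _).symm (map_add (cb w2) (fun i => x.1 j i) (fun i => y.1 j i))
    · exact Prod.ext (add_zero _).symm (map_add (cb w2) (x.2.2 j) (y.2.2 j))
  map_smul' c x := by
    funext j
    rcases j with (j | j) | (j | j)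
    · exact Prod.ext (map_smul (cb w1) c (fun i => x.1 i j)) (smul_zero _).symm
    · exact Prod.ext (map_smul (cb w1) c (x.2.1 j)) (smul_zero _).symm
    · exact Prod.ext (smul_zero _).symm (map_smul (cb w2) c (fun i => x.1 j i))
    · exact Prod.ext (smul_zero _).symm (map_smul (cb w2) c (x.2.2 j))

variable {ρ₁ : Representation ℚ G W₁} {ρ₂ : Representation ℚ G W₂} {π₁ : W₁ →ₗ[ℚ] W₁'}
  {π₂ : W₂ →ₗ[ℚ] W₂'} {S : Submodule ℚ (W₁ × W₂)} {w1 : Fin 2 → W₁} {w2 : Fin 2 → W₂}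
  {ρ : Representation ℚ G (W₁ × W₂)} {π : (W₁ × W₂) →ₗ[ℚ] (W₁' × W₂')}

theorem eq_zero_of_span2 (hspan : Submodule.span ℚ {v : (Fin 2 → W₁) × (Fin 2 → W₂) |
      ∃ g, v = (fun i => ρ₁ g (w1 i), fun i => ρ₂ g (w2 i))} = ⊤)
    (f₁ : (Fin 2 → W₁) →ₗ[ℚ] ℚ) (f₂ : (Fin 2 → W₂) →ₗ[ℚ] ℚ)
    (hf : ∀ g, f₁ (fun i => ρ₁ g (w1 i)) + f₂ (fun i => ρ₂ g (w2 i)) = 0) : f₁ = 0 ∧ f₂ = 0 := by
  have h1 : f₁.coprod f₂ = 0 := by
    apply LinearMap.ext_on hspan
    rintro _ ⟨g, rfl⟩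
    rw [LinearMap.coprod_apply, LinearMap.zero_apply]
    exact hf g
  constructor
  · ext1 x
    apply LinearMap.ext
    intro y
    have := congrArg (fun h => h (Pi.single x y, 0)) h1
    simpa using this
  · ext1 x
    apply LinearMap.ext
    intro y
    have := congrArg (fun h => h (0, Pi.single x y)) h1
    simpa using this

/-- Dual vectors. -/
theorem exists_dualvec {C : Submodule ℚ (Fin 2 → ℚ)} {ι : Type} [Fintype ι] [DecidableEq ι]
    (c : Module.Basis ι ℚ C) : ∃ d : ι → Fin 2 → ℚ, ∀ β β',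
      ∑ i, (c β' : Fin 2 → ℚ) i * d β i = if β' = β then 1 else 0 := by
  have hd : ∀ β, ∃ d : Fin 2 → ℚ, ∀ β', ∑ i, (c β' : Fin 2 → ℚ) i * d i = if β' = β then 1 else 0 := by
    intro β
    obtain ⟨f, hf⟩ := LinearMap.exists_extend (c.coord β)
    refine ⟨fun i => f (Pi.single i 1), fun β' => ?_⟩
    have h1 : f (c β' : Fin 2 → ℚ) = ∑ i, (c β' : Fin 2 → ℚ) i * f (Pi.single i 1) := by
      conv_lhs => rw [← Finset.univ_sum_single (c β' : Fin 2 → ℚ)]
      rw [map_sum]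
      refine Finset.sum_congr rfl fun i _ => ?_
      have : (Pi.single i ((c β' : Fin 2 → ℚ) i) : Fin 2 → ℚ) =
          (c β' : Fin 2 → ℚ) i • Pi.single i 1 := by
        rw [← Pi.single_smul, smul_eq_mul, mul_one]
      rw [this, map_smul, smul_eq_mul]
    rw [← h1]
    have h2 := congrArg (fun h => h (c β')) hf
    simp only [LinearMap.comp_apply, Submodule.subtype_apply, Module.Basis.coord_apply,
      Module.Basis.repr_self] at h2
    rw [h2, Finsupp.single_apply]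
  choose d hd using hd
  exact ⟨d, hd⟩

/-- A functional of a special form vanishes only if its components do. -/
theorem phi_eq_zero {W W' ι : Type} [AddCommGroup W] [Module ℚ W] [AddCommGroup W'] [Module ℚ W']
    [Fintype ι] [DecidableEq ι] {π : W →ₗ[ℚ] W'} (hπ : Function.Surjective π)
    {C : Submodule ℚ (Fin 2 → ℚ)} (c : Module.Basis ι ℚ C) (φ : ι → (W' →ₗ[ℚ] ℚ))
    (f : (Fin 2 → W) →ₗ[ℚ] ℚ)
    (hf : ∀ v, f v = ∑ β, φ β (π (∑ i, (c β : Fin 2 → ℚ) i • v i))) (hf0 : f = 0) : φ = 0 := by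
  obtain ⟨d, hd⟩ := exists_dualvec c
  funext β
  ext x'
  obtain ⟨x, rfl⟩ := hπ x'
  have h1 := hf (fun i => d β i • x)
  rw [hf0, LinearMap.zero_apply] at h1
  simp only [smul_smul, ← Finset.sum_smul, hd, ite_smul, one_smul, zero_smul] at h1
  rw [Finset.sum_eq_single β] at h1
  · rw [if_pos rfl] at h1
    exact h1.symm
  · intro β' _ hβ
    rw [if_neg hβ, map_zero, map_zero]
  · intro h; exact absurd (Finset.mem_univ _) h

theorem le_finrank_coef2 [Finite G] [FiniteDimensional ℚ W₁'] [FiniteDimensional ℚ W₂']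
    (hρ : ∀ g x, ρ g x = (ρ₁ g x.1, ρ₂ g x.2)) (hπ : ∀ x, π x = (π₁ x.1, π₂ x.2))
    (hπ₁ : Function.Surjective π₁) (hπ₂ : Function.Surjective π₂)
    (hspan : Submodule.span ℚ {v : (Fin 2 → W₁) × (Fin 2 → W₂) |
      ∃ g, v = (fun i => ρ₁ g (w1 i), fun i => ρ₂ g (w2 i))} = ⊤)
    (Y : Submodule ℚ (W₁ × W₂)) (C₁ C₂ : Submodule ℚ (Fin 2 → ℚ))
    (hC₁ : ∀ c ∈ C₁, ((cb w1 c, 0) : W₁ × W₂) ∈ Y) (hC₂ : ∀ c ∈ C₂, ((0, cb w2 c) : W₁ × W₂) ∈ Y) :
    Module.finrank ℚ C₁ * Module.finrank ℚ W₁' + Module.finrank ℚ C₂ * Module.finrank ℚ W₂' ≤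
      Module.finrank ℚ (coef ρ π Y) := by
  classical
  let c := Module.finBasis ℚ C₁
  let e := Module.finBasis ℚ C₂
  let T : ((Fin (Module.finrank ℚ C₁) → (W₁' →ₗ[ℚ] ℚ)) ×
      (Fin (Module.finrank ℚ C₂) → (W₂' →ₗ[ℚ] ℚ))) →ₗ[ℚ] (G → ℚ) :=
    { toFun := fun φ g => ∑ β, φ.1 β (π₁ (ρ₁ g (cb w1 (c β : Fin 2 → ℚ)))) +
        ∑ β, φ.2 β (π₂ (ρ₂ g (cb w2 (e β : Fin 2 → ℚ))))
      map_add' := fun φ ψ => by
        funext g
        simp only [Prod.fst_add, Prod.snd_add, Pi.add_apply, LinearMap.add_apply,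
          Finset.sum_add_distrib]
        ring
      map_smul' := fun q φ => by
        funext g
        simp only [Prod.smul_fst, Prod.smul_snd, Pi.smul_apply, LinearMap.smul_apply, smul_eq_mul,
          Finset.mul_sum, RingHom.id_apply, mul_add] }
  have hT : ∀ φ, T φ ∈ coef ρ π Y := by
    intro φ
    have h1 : T φ = (∑ β, fun g => φ.1 β (π₁ (ρ₁ g (cb w1 (c β : Fin 2 → ℚ))))) +
        ∑ β, fun g => φ.2 β (π₂ (ρ₂ g (cb w2 (e β : Fin 2 → ℚ)))) := by
      funext g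
      rw [Pi.add_apply, Finset.sum_apply, Finset.sum_apply]
      rfl
    rw [h1]
    refine Submodule.add_mem _ (Submodule.sum_mem _ fun β _ => Submodule.subset_span ?_)
      (Submodule.sum_mem _ fun β _ => Submodule.subset_span ?_)
    · refine ⟨_, hC₁ _ (c β).2, (φ.1 β) ∘ₗ LinearMap.fst ℚ W₁' W₂', ?_⟩
      funext g
      rw [hρ, hπ]
      rfl
    · refine ⟨_, hC₂ _ (e β).2, (φ.2 β) ∘ₗ LinearMap.snd ℚ W₁' W₂', ?_⟩
      funext g
      rw [hρ, hπ]
      rfl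
  have hinj : Function.Injective (T.codRestrict (coef ρ π Y) hT) := by
    rw [← LinearMap.ker_eq_bot, LinearMap.ker_eq_bot']
    intro φ hφ
    have h0 : ∀ g, ∑ β, φ.1 β (π₁ (ρ₁ g (cb w1 (c β : Fin 2 → ℚ)))) +
        ∑ β, φ.2 β (π₂ (ρ₂ g (cb w2 (e β : Fin 2 → ℚ)))) = 0 := fun g =>
      congrFun (congrArg Subtype.val hφ) g
    let f₁ : (Fin 2 → W₁) →ₗ[ℚ] ℚ := ∑ β, φ.1 β ∘ₗ π₁ ∘ₗ
      (∑ i, ((c β : Fin 2 → ℚ) i) • LinearMap.proj i)
    let f₂ : (Fin 2 → W₂) →ₗ[ℚ] ℚ := ∑ β, φ.2 β ∘ₗ π₂ ∘ₗ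
      (∑ i, ((e β : Fin 2 → ℚ) i) • LinearMap.proj i)
    have hf₁ : ∀ v, f₁ v = ∑ β, φ.1 β (π₁ (∑ i, (c β : Fin 2 → ℚ) i • v i)) := by
      intro v
      simp only [f₁, LinearMap.sum_apply, LinearMap.comp_apply, LinearMap.proj_apply,
        LinearMap.smul_apply]
    have hf₂ : ∀ v, f₂ v = ∑ β, φ.2 β (π₂ (∑ i, (e β : Fin 2 → ℚ) i • v i)) := by
      intro v
      simp only [f₂, LinearMap.sum_apply, LinearMap.comp_apply, LinearMap.proj_apply,
        LinearMap.smul_apply]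
    obtain ⟨hz₁, hz₂⟩ := eq_zero_of_span2 hspan f₁ f₂ (fun g => by
      rw [hf₁, hf₂, ← h0 g]
      simp only [cb_apply, map_sum, map_smul])
    exact Prod.ext (phi_eq_zero hπ₁ c φ.1 f₁ hf₁ hz₁) (phi_eq_zero hπ₂ e φ.2 f₂ hf₂ hz₂)
  have := LinearMap.finrank_le_finrank_of_injective hinj
  rw [Module.finrank_prod, Module.finrank_pi_fintype, Finset.sum_const, Finset.card_univ,
    Fintype.card_fin, smul_eq_mul, Module.finrank_linearMap_self, Module.finrank_pi_fintype,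
    Finset.sum_const, Finset.card_univ, Fintype.card_fin, smul_eq_mul,
    Module.finrank_linearMap_self] at this
  exact this

theorem cb_injective {W₁ : Type} [AddCommGroup W₁] [Module ℚ W₁] [Nontrivial W₁]
    {ρ₁ : Representation ℚ G W₁} {w1 : Fin 2 → W₁}
    (h : ∀ f : (Fin 2 → W₁) →ₗ[ℚ] W₁, (∀ g, f (fun i => ρ₁ g (w1 i)) = 0) → f = 0)
    (c : Fin 2 → ℚ) (hc0 : cb w1 c = 0) : c = 0 := by
  let f : (Fin 2 → W₁) →ₗ[ℚ] W₁ := ∑ i, (c i) • LinearMap.proj i
  have hf : ∀ v, f v = ∑ i, c i • v i := by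
    intro v
    simp only [f, LinearMap.sum_apply, LinearMap.smul_apply, LinearMap.proj_apply]
  have hf0 : f = 0 := by
    apply h
    intro g
    have h1 := congrArg (ρ₁ g) hc0
    rw [cb_apply, map_sum, map_zero] at h1
    rw [hf, ← h1]
    simp only [map_smul]
  obtain ⟨x, hx⟩ := exists_ne (0 : W₁)
  funext i
  have h1 := hf (Pi.single i x)
  rw [hf0, LinearMap.zero_apply, Finset.sum_eq_single i] at h1
  · rw [Pi.single_eq_same] at h1
    exact (smul_eq_zero.mp h1.symm).resolve_right hx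
  · intro j _ hj
    rw [Pi.single_eq_of_ne hj, smul_zero]
  · intro h; exact absurd (Finset.mem_univ _) h

/-- **Degenerate lattices in a direct sum of two squares.** -/
theorem goodLat_of_pair [Finite G] [FiniteDimensional ℚ W₁] [FiniteDimensional ℚ W₂]
    (hρ : ∀ g x, ρ g x = (ρ₁ g x.1, ρ₂ g x.2)) (hπ : ∀ x, π x = (π₁ x.1, π₂ x.2))
    (hπ₁ : Function.Surjective π₁) (hπ₂ : Function.Surjective π₂)
    (hspan : Submodule.span ℚ {v : (Fin 2 → W₁) × (Fin 2 → W₂) |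
      ∃ g, v = (fun i => ρ₁ g (w1 i), fun i => ρ₂ g (w2 i))} = ⊤)
    (hS₁ : ∀ c : Fin 2 → ℚ, ((cb w1 c, 0) : W₁ × W₂) ∈ S)
    (hS₂ : ∀ c : Fin 2 → ℚ, ((0, cb w2 c) : W₁ × W₂) ∈ S)
    {t₁ t₂ : ℕ} (ht₁ : Module.finrank ℚ W₁' = t₁ + 1) (ht₂ : Module.finrank ℚ W₂' = t₂ + 1) :
    GoodLat ρ π S (UC w1 w2 t₁ t₂) := by
  classical
  have hfd₁ : Module.Finite ℚ W₁' := Module.finite_of_finrank_pos (by rw [ht₁]; omega)
  have hfd₂ : Module.Finite ℚ W₂' := Module.finite_of_finrank_pos (by rw [ht₂]; omega)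
  have hnt₁' : Nontrivial W₁' := Module.nontrivial_of_finrank_pos (R := ℚ) (by rw [ht₁]; omega)
  have hnt₂' : Nontrivial W₂' := Module.nontrivial_of_finrank_pos (R := ℚ) (by rw [ht₂]; omega)
  have hnt₁ : Nontrivial W₁ := hπ₁.nontrivial
  have hnt₂ : Nontrivial W₂ := hπ₂.nontrivial
  have hi₁ : ∀ c : Fin 2 → ℚ, cb w1 c = 0 → c = 0 := by
    apply cb_injective (ρ₁ := ρ₁)
    intro f hf
    have h1 : f ∘ₗ LinearMap.fst ℚ (Fin 2 → W₁) (Fin 2 → W₂) = 0 := by
      apply LinearMap.ext_on hspan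
      rintro _ ⟨g, rfl⟩
      exact hf g
    apply LinearMap.ext
    intro v
    exact congrArg (fun h => h (v, 0)) h1
  have hi₂ : ∀ c : Fin 2 → ℚ, cb w2 c = 0 → c = 0 := by
    apply cb_injective (ρ₁ := ρ₂)
    intro f hf
    have h1 : f ∘ₗ LinearMap.snd ℚ (Fin 2 → W₁) (Fin 2 → W₂) = 0 := by
      apply LinearMap.ext_on hspan
      rintro _ ⟨g, rfl⟩
      exact hf g
    apply LinearMap.ext
    intro v
    exact congrArg (fun h => h (0, v)) h1
  refine ⟨?_, ?_, ?_, ?_⟩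
  · rw [← LinearMap.ker_eq_bot, LinearMap.ker_eq_bot']
    rintro ⟨s, a, b⟩ h
    have h1 : ∀ j, (fun i => s i j) = 0 := fun j =>
      hi₁ _ (congrArg Prod.fst (congrFun h (Sum.inl (Sum.inl j))))
    have h2 : ∀ k, a k = 0 := fun k => hi₁ _ (congrArg Prod.fst (congrFun h (Sum.inl (Sum.inr k))))
    have h3 : ∀ k, b k = 0 := fun k => hi₂ _ (congrArg Prod.snd (congrFun h (Sum.inr (Sum.inr k))))
    rw [Prod.mk_eq_zero, Prod.mk_eq_zero]
    exact ⟨by funext i j; exact congrFun (h1 j) i, funext h2, funext h3⟩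
  · rintro ⟨s, a, b⟩ j
    rcases j with (j | j) | (j | j)
    · exact hS₁ _
    · exact hS₁ _
    · exact hS₂ _
    · exact hS₂ _
  · intro Y hY hYs
    let C₁ : Submodule ℚ (Fin 2 → ℚ) := Y.comap ((LinearMap.inl ℚ W₁ W₂) ∘ₗ cb w1)
    let C₂ : Submodule ℚ (Fin 2 → ℚ) := Y.comap ((LinearMap.inr ℚ W₁ W₂) ∘ₗ cb w2)
    have h1 := le_finrank_coef2 (w1 := w1) (w2 := w2) hρ hπ hπ₁ hπ₂ hspan Y C₁ C₂
      (fun c hc => hc) (fun c hc => hc)
    refine le_trans ?_ h1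
    let D := Submodule.comap (UC w1 w2 t₁ t₂) (Submodule.pi Set.univ fun _ => Y)
    have hD : ∀ x ∈ D, ∀ j, UC w1 w2 t₁ t₂ x j ∈ Y := fun x hx j =>
      (Submodule.mem_pi.mp (Submodule.mem_comap.mp hx)) j (Set.mem_univ _)
    have b₁ : Module.finrank ℚ C₁ ≤ 2 := by
      refine (Submodule.finrank_le _).trans ?_
      simp
    have b₂ : Module.finrank ℚ C₂ ≤ 2 := by
      refine (Submodule.finrank_le _).trans ?_
      simp
    rw [ht₁, ht₂]
    -- two injections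
    let Ξ₁ : D →ₗ[ℚ] ((Fin 2 → C₁) × (Fin t₁ → C₁) × (Fin t₂ → C₂)) :=
      { toFun := fun x => (fun j => ⟨fun i => x.1.1 i j, hD x.1 x.2 (Sum.inl (Sum.inl j))⟩,
          fun k => ⟨x.1.2.1 k, hD x.1 x.2 (Sum.inl (Sum.inr k))⟩,
          fun k => ⟨x.1.2.2 k, hD x.1 x.2 (Sum.inr (Sum.inr k))⟩)
        map_add' := fun x y => rfl
        map_smul' := fun q x => rfl }
    have hΞ₁ : Function.Injective Ξ₁ := by
      intro x y h
      apply Subtype.ext
      have h2 := congrArg Prod.fst h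
      have h3 := congrArg Prod.fst (congrArg Prod.snd h)
      have h4 := congrArg Prod.snd (congrArg Prod.snd h)
      refine Prod.ext ?_ (Prod.ext ?_ ?_)
      · funext i j
        exact congrFun (congrArg Subtype.val (congrFun h2 j)) i
      · funext k
        exact congrArg Subtype.val (congrFun h3 k)
      · funext k
        exact congrArg Subtype.val (congrFun h4 k)
    let Ξ₂ : D →ₗ[ℚ] ((Fin 2 → C₂) × (Fin t₁ → C₁) × (Fin t₂ → C₂)) :=
      { toFun := fun x => (fun j => ⟨fun i => x.1.1 j i, hD x.1 x.2 (Sum.inr (Sum.inl j))⟩,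
          fun k => ⟨x.1.2.1 k, hD x.1 x.2 (Sum.inl (Sum.inr k))⟩,
          fun k => ⟨x.1.2.2 k, hD x.1 x.2 (Sum.inr (Sum.inr k))⟩)
        map_add' := fun x y => rfl
        map_smul' := fun q x => rfl }
    have hΞ₂ : Function.Injective Ξ₂ := by
      intro x y h
      apply Subtype.ext
      have h2 := congrArg Prod.fst h
      have h3 := congrArg Prod.fst (congrArg Prod.snd h)
      have h4 := congrArg Prod.snd (congrArg Prod.snd h)
      refine Prod.ext ?_ (Prod.ext ?_ ?_)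
      · funext i j
        exact congrFun (congrArg Subtype.val (congrFun h2 i)) j
      · funext k
        exact congrArg Subtype.val (congrFun h3 k)
      · funext k
        exact congrArg Subtype.val (congrFun h4 k)
    have h3 := LinearMap.finrank_le_finrank_of_injective hΞ₁
    have h4 := LinearMap.finrank_le_finrank_of_injective hΞ₂
    simp only [Module.finrank_prod, Module.finrank_pi_fintype, Finset.sum_const, Finset.card_univ,
      Fintype.card_fin, smul_eq_mul] at h3 h4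
    show Module.finrank ℚ D ≤ _
    rcases le_total (Module.finrank ℚ C₁) (Module.finrank ℚ C₂) with h | h
    · refine h3.trans ?_
      nlinarith
    · refine h4.trans ?_
      nlinarith
  · intro F _ _ _ Φ ι _ b
    let Φ₁ : (Fin 2 ⊕ Fin t₁) ⊕ (Fin 2 ⊕ Fin t₂) → (W₁' →ₗ[ℚ] F) := fun j =>
      (Φ j) ∘ₗ LinearMap.inl ℚ W₁' W₂'
    let Φ₂ : (Fin 2 ⊕ Fin t₁) ⊕ (Fin 2 ⊕ Fin t₂) → (W₂' →ₗ[ℚ] F) := fun j =>
      (Φ j) ∘ₗ LinearMap.inr ℚ W₁' W₂'
    obtain ⟨u, hu0, hu⟩ := exists_eval ht₁ (fun k => Φ₁ (Sum.inl (Sum.inr k)))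
    obtain ⟨v, hv0, hv⟩ := exists_eval ht₂ (fun k => Φ₂ (Sum.inr (Sum.inr k)))
    let A : Fin 2 → F := fun j => u (Φ₁ (Sum.inl (Sum.inl j)))
    let B : Fin 2 → F := fun j => v (Φ₂ (Sum.inr (Sum.inl j)))
    obtain ⟨α, β, hαβ0, hαβ⟩ : ∃ α β : Fin 2 → F, (α ≠ 0 ∨ β ≠ 0) ∧
        ∀ i j, α i * A j + β j * B i = 0 := by
      by_cases hB : B = 0
      · by_cases hA : A = 0
        · refine ⟨fun _ => 1, 0, Or.inl ?_, ?_⟩
          · intro h
            exact one_ne_zero (congrFun h 0)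
          · intro i j
            rw [hA, hB]
            simp
        · refine ⟨0, -A, Or.inr (neg_ne_zero.mpr hA), fun i j => ?_⟩
          rw [hB]
          simp
      · refine ⟨B, -A, Or.inl hB, fun i j => ?_⟩
        rw [Pi.neg_apply]
        ring
    let ξ : ((Fin 2 → (W₁' →ₗ[ℚ] F)) × (Fin 2 → (W₂' →ₗ[ℚ] F))) →ₗ[F] F :=
      (∑ i, α i • (u ∘ₗ LinearMap.proj i)).coprod (∑ i, β i • (v ∘ₗ LinearMap.proj i))
    have hξ : ∀ Θ, ξ Θ = ∑ i, α i * u (Θ.1 i) + ∑ i, β i * v (Θ.2 i) := by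
      intro Θ
      simp only [ξ, LinearMap.coprod_apply, LinearMap.sum_apply, LinearMap.smul_apply,
        LinearMap.comp_apply, LinearMap.proj_apply, smul_eq_mul]
    have hξ0 : ξ ≠ 0 := by
      intro h0
      rcases hαβ0 with h | h
      · obtain ⟨i₀, hi₀⟩ : ∃ i, α i ≠ 0 := by
          by_contra hcon
          push Not at hcon
          exact h (funext hcon)
        obtain ⟨Θ, hΘ⟩ : ∃ Θ, u Θ ≠ 0 := by
          by_contra hcon
          push Not at hcon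
          exact hu0 (LinearMap.ext hcon)
        have h1 := hξ (Pi.single i₀ Θ, 0)
        rw [h0, LinearMap.zero_apply, Finset.sum_eq_single i₀] at h1
        · simp only [Pi.single_eq_same, Pi.zero_apply, map_zero, mul_zero, Finset.sum_const_zero,
            add_zero] at h1
          exact mul_ne_zero hi₀ hΘ h1.symm
        · intro i _ hi
          simp only [Pi.single_eq_of_ne hi, map_zero, mul_zero]
        · intro h; exact absurd (Finset.mem_univ _) h
      · obtain ⟨i₀, hi₀⟩ : ∃ i, β i ≠ 0 := by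
          by_contra hcon
          push Not at hcon
          exact h (funext hcon)
        obtain ⟨Θ, hΘ⟩ : ∃ Θ, v Θ ≠ 0 := by
          by_contra hcon
          push Not at hcon
          exact hv0 (LinearMap.ext hcon)
        have h1 := hξ (0, Pi.single i₀ Θ)
        rw [h0, LinearMap.zero_apply, Finset.sum_eq_single (f := fun i =>
          β i * v ((Pi.single i₀ Θ : Fin 2 → (W₂' →ₗ[ℚ] F)) i)) i₀] at h1
        · simp only [Pi.single_eq_same, Pi.zero_apply, map_zero, mul_zero, Finset.sum_const_zero,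
            zero_add] at h1
          exact mul_ne_zero hi₀ hΘ h1.symm
        · intro i _ hi
          simp only [Pi.single_eq_of_ne hi, map_zero, mul_zero]
        · intro h; exact absurd (Finset.mem_univ _) h
    -- the vectors
    let T : ((Fin 2 → Fin 2 → ℚ) × (Fin t₁ → Fin 2 → ℚ) × (Fin t₂ → Fin 2 → ℚ)) →
        ((Fin 2 → (W₁' →ₗ[ℚ] F)) × (Fin 2 → (W₂' →ₗ[ℚ] F))) := fun x =>
      (fun i => ∑ j, ((x.1 i j : ℚ) : F) • Φ₁ (Sum.inl (Sum.inl j)) +
          ∑ k, ((x.2.1 k i : ℚ) : F) • Φ₁ (Sum.inl (Sum.inr k)),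
        fun i => ∑ j, ((x.1 j i : ℚ) : F) • Φ₂ (Sum.inr (Sum.inl j)) +
          ∑ k, ((x.2.2 k i : ℚ) : F) • Φ₂ (Sum.inr (Sum.inr k)))
    have hT : ∀ x, ξ (T x) = 0 := by
      intro x
      rw [hξ]
      simp only [T, map_add, map_sum, map_smul, smul_eq_mul, hu, hv, mul_zero,
        Finset.sum_const_zero, add_zero]
      have h00 := hαβ 0 0
      have h01 := hαβ 0 1
      have h10 := hαβ 1 0
      have h11 := hαβ 1 1
      simp only [Fin.sum_univ_two]
      simp only [A, B] at h00 h01 h10 h11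
      linear_combination ((x.1 0 0 : ℚ) : F) * h00 + ((x.1 0 1 : ℚ) : F) * h01 +
        ((x.1 1 0 : ℚ) : F) * h10 + ((x.1 1 1 : ℚ) : F) * h11
    have hcard : Module.finrank F ((Fin 2 → (W₁' →ₗ[ℚ] F)) × (Fin 2 → (W₂' →ₗ[ℚ] F))) ≤
        Fintype.card ι := by
      rw [← Module.finrank_eq_card_basis b]
      simp only [Module.finrank_prod, Module.finrank_pi_fintype, Finset.sum_const,
        Finset.card_univ, Fintype.card_fin, smul_eq_mul, Module.finrank_linearMap_self, ht₁, ht₂,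
        Module.finrank_self]
      apply le_of_eq
      ring
    obtain ⟨c, hc0, hcs⟩ := exists_rel_of_functional ξ hξ0 (fun i => T (b i))
      (fun i => hT (b i)) hcard
    refine ⟨c, hc0, fun g => ?_⟩
    have h1 : ∀ x, ∑ j, Φ j (π (ρ g (UC w1 w2 t₁ t₂ x j))) =
        ∑ i, (T x).1 i (π₁ (ρ₁ g (w1 i))) + ∑ i, (T x).2 i (π₂ (ρ₂ g (w2 i))) := by
      intro x
      have hA : ∀ j (a : Fin 2 → ℚ), Φ j (π (ρ g ((cb w1 a, 0) : W₁ × W₂))) =
          ∑ i, ((a i : ℚ) : F) * Φ₁ j (π₁ (ρ₁ g (w1 i))) := by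
        intro j a
        have e1 : Φ j (π (ρ g ((cb w1 a, 0) : W₁ × W₂))) = Φ₁ j (π₁ (ρ₁ g (cb w1 a))) := by
          rw [hρ, hπ]
          simp only [map_zero]
          rfl
        rw [e1, cb_apply, map_sum, map_sum, map_sum]
        refine Finset.sum_congr rfl fun i _ => ?_
        rw [map_smul, map_smul, map_smul, Rat.smul_def]
      have hB : ∀ j (a : Fin 2 → ℚ), Φ j (π (ρ g ((0, cb w2 a) : W₁ × W₂))) =
          ∑ i, ((a i : ℚ) : F) * Φ₂ j (π₂ (ρ₂ g (w2 i))) := by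
        intro j a
        have e1 : Φ j (π (ρ g ((0, cb w2 a) : W₁ × W₂))) = Φ₂ j (π₂ (ρ₂ g (cb w2 a))) := by
          rw [hρ, hπ]
          simp only [map_zero]
          rfl
        rw [e1, cb_apply, map_sum, map_sum, map_sum]
        refine Finset.sum_congr rfl fun i _ => ?_
        rw [map_smul, map_smul, map_smul, Rat.smul_def]
      rw [Fintype.sum_sum_type, Fintype.sum_sum_type, Fintype.sum_sum_type]
      have e1 : ∀ j, Φ (Sum.inl (Sum.inl j)) (π (ρ g (UC w1 w2 t₁ t₂ x (Sum.inl (Sum.inl j))))) =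
          ∑ i, ((x.1 i j : ℚ) : F) * Φ₁ (Sum.inl (Sum.inl j)) (π₁ (ρ₁ g (w1 i))) := fun j => hA _ _
      have e2 : ∀ j, Φ (Sum.inl (Sum.inr j)) (π (ρ g (UC w1 w2 t₁ t₂ x (Sum.inl (Sum.inr j))))) =
          ∑ i, ((x.2.1 j i : ℚ) : F) * Φ₁ (Sum.inl (Sum.inr j)) (π₁ (ρ₁ g (w1 i))) := fun j =>
        hA _ _
      have e3 : ∀ j, Φ (Sum.inr (Sum.inl j)) (π (ρ g (UC w1 w2 t₁ t₂ x (Sum.inr (Sum.inl j))))) =
          ∑ i, ((x.1 j i : ℚ) : F) * Φ₂ (Sum.inr (Sum.inl j)) (π₂ (ρ₂ g (w2 i))) := fun j => hB _ _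
      have e4 : ∀ j, Φ (Sum.inr (Sum.inr j)) (π (ρ g (UC w1 w2 t₁ t₂ x (Sum.inr (Sum.inr j))))) =
          ∑ i, ((x.2.2 j i : ℚ) : F) * Φ₂ (Sum.inr (Sum.inr j)) (π₂ (ρ₂ g (w2 i))) := fun j =>
        hB _ _
      simp only [e1, e2, e3, e4, T, LinearMap.add_apply, LinearMap.sum_apply,
        LinearMap.smul_apply, smul_eq_mul]
      rw [Finset.sum_add_distrib, Finset.sum_add_distrib]
      congr 1
      · congr 1
        · exact Finset.sum_comm
        · exact Finset.sum_comm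
      · congr 1
        · exact Finset.sum_comm
        · exact Finset.sum_comm
    simp only [h1, mul_add, Finset.mul_sum]
    rw [Finset.sum_add_distrib, Finset.sum_comm]
    have hc1 : ∀ i', ∑ i, c i • (T (b i)).1 i' = 0 := by
      intro i'
      have h4 := congrFun (congrArg Prod.fst hcs) i'
      rw [Prod.fst_sum, Finset.sum_apply] at h4
      exact h4
    have hc2 : ∀ i', ∑ i, c i • (T (b i)).2 i' = 0 := by
      intro i'
      have h4 := congrFun (congrArg Prod.snd hcs) i'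
      rw [Prod.snd_sum, Finset.sum_apply] at h4
      exact h4
    have e1 : ∑ i', ∑ i, c i * (T (b i)).1 i' (π₁ (ρ₁ g (w1 i'))) = 0 := by
      refine Finset.sum_eq_zero fun i' _ => ?_
      have h5 := congrArg (fun h => h (π₁ (ρ₁ g (w1 i')))) (hc1 i')
      simpa only [LinearMap.sum_apply, LinearMap.smul_apply, smul_eq_mul,
        LinearMap.zero_apply] using h5
    have e2 : ∑ i', ∑ i, c i * (T (b i)).2 i' (π₂ (ρ₂ g (w2 i'))) = 0 := by
      refine Finset.sum_eq_zero fun i' _ => ?_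
      have h5 := congrArg (fun h => h (π₂ (ρ₂ g (w2 i')))) (hc2 i')
      simpa only [LinearMap.sum_apply, LinearMap.smul_apply, smul_eq_mul,
        LinearMap.zero_apply] using h5
    rw [e1, Finset.sum_comm, e2, add_zero]

end

end Pool.Agent.J4H74.T3
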