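import Mathlib
import Pool.Agent.J4H74.T3.PLat
import Pool.Agent.J4H74.T3.TypeB
import Pool.Agent.J4H74.T3.TypeC
import Pool.Agent.J4H74.T3.Endo3
import Pool.Agent.J4H74.T3.R6

set_option autoImplicit false

/-!
# The main theorems at a finite level
-/

namespace Pool.Agent.J4H74.T3

open NumberField Pool.Agent.H440R3 Pool.Agent.H492R2.Tor

section

variable {K N : Type} [Field K] [NumberField K] [Field N] [NumberField N] [Algebra K N]
  [IsGalois ℚ N]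

/-! ### The `p`-adic part -/

theorem padic_cube_fin {W : Type} [AddCommGroup W] [Module ℚ W] [Nontrivial W]
    [FiniteDimensional ℚ W] (ρ' : Representation ℚ (N ≃ₐ[ℚ] N) W) (w : Fin 3 → W)
    (hspan : Submodule.span ℚ {v : Fin 3 → W | ∃ g, v = fun i => ρ' g (w i)} = ⊤)
    (hfix : ∀ i, w i ∈ fixK K ρ') (p : ℕ) [Fact p.Prime] : ¬ PadicPart p K := by
  obtain ⟨t, ht⟩ : ∃ t, Module.finrank ℚ W = t + 1 :=
    ⟨Module.finrank ℚ W - 1, by have := Module.finrank_pos (R := ℚ) (M := W); omega⟩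
  have hgood : GoodLat ρ' LinearMap.id (fixK K ρ') (UU (t := t) thA w) := by
    refine goodLat_of_field (E := ℚ) (fun g a x => by rw [map_smul]) (fun a x => rfl)
      Function.surjective_id hspan ?_ ?_ thA_rank thA_deg ht
    · intro c
      rw [comb_apply]
      exact Submodule.sum_mem _ fun i _ => Submodule.smul_mem _ _ (hfix i)
    · simp
  exact not_padicPart_of_goodLat ρ' _ hgood p

theorem padic_square_fin {W : Type} [AddCommGroup W] [Module ℚ W] [Nontrivial W]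
    [FiniteDimensional ℚ W] (ρ' : Representation ℚ (N ≃ₐ[ℚ] N) W) (hρ : HasField ρ')
    (w : Fin 2 → W)
    (hspan : Submodule.span ℚ {v : Fin 2 → W | ∃ g, v = fun i => ρ' g (w i)} = ⊤)
    (hfix : ∀ i, w i ∈ fixK K ρ') (p : ℕ) [Fact p.Prime] : ¬ PadicPart p K := by
  obtain ⟨E, _, _, φ, ς, e₀, hφ, he₀⟩ := hρ
  let _ : Module E W := Module.compHom W φ
  have hsm : ∀ (a : E) (x : W), a • x = φ a x := fun a x => rfl
  have _ : IsScalarTower ℚ E W := ⟨fun q a x => by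
    rw [hsm, hsm, map_rat_smul φ q a, LinearMap.smul_apply]⟩
  have hE' : ∀ g (a : E) (x : W), ρ' g (a • x) = a • ρ' g x := by
    intro g a x
    rw [hsm, hsm, hφ]
  have hfinE : Module.Finite E W := Module.Finite.of_restrictScalars_finite ℚ E W
  obtain ⟨t, ht⟩ : ∃ t, Module.finrank E W = t + 1 :=
    ⟨Module.finrank E W - 1, by have := Module.finrank_pos (R := E) (M := W); omega⟩
  obtain ⟨θ, hθ1, hθ2⟩ := exists_typeB he₀
  have hgood : GoodLat ρ' LinearMap.id (fixK K ρ') (UU (t := t) θ w) := by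
    refine goodLat_of_field (E := E) hE' (fun a x => rfl)
      Function.surjective_id hspan ?_ ?_ hθ1 hθ2 ht
    · intro c
      rw [comb_apply]
      refine Submodule.sum_mem _ fun i _ => ?_
      intro g hg
      rw [hE', hfix i g hg]
    · rw [Module.finrank_prod, two_mul]
  exact not_padicPart_of_goodLat ρ' _ hgood p

theorem padic_pair_fin {W₁ W₂ : Type} [AddCommGroup W₁] [Module ℚ W₁] [Nontrivial W₁]
    [FiniteDimensional ℚ W₁] [AddCommGroup W₂] [Module ℚ W₂] [Nontrivial W₂]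
    [FiniteDimensional ℚ W₂] (ρ₁' : Representation ℚ (N ≃ₐ[ℚ] N) W₁)
    (ρ₂' : Representation ℚ (N ≃ₐ[ℚ] N) W₂) (w1 : Fin 2 → W₁) (w2 : Fin 2 → W₂)
    (hspan : Submodule.span ℚ {v : (Fin 2 → W₁) × (Fin 2 → W₂) |
        ∃ g, v = (fun i => ρ₁' g (w1 i), fun i => ρ₂' g (w2 i))} = ⊤)
    (hfix₁ : ∀ i, w1 i ∈ fixK K ρ₁') (hfix₂ : ∀ i, w2 i ∈ fixK K ρ₂')
    (p : ℕ) [Fact p.Prime] : ¬ PadicPart p K := by
  obtain ⟨t₁, ht₁⟩ : ∃ t, Module.finrank ℚ W₁ = t + 1 :=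
    ⟨Module.finrank ℚ W₁ - 1, by have := Module.finrank_pos (R := ℚ) (M := W₁); omega⟩
  obtain ⟨t₂, ht₂⟩ : ∃ t, Module.finrank ℚ W₂ = t + 1 :=
    ⟨Module.finrank ℚ W₂ - 1, by have := Module.finrank_pos (R := ℚ) (M := W₂); omega⟩
  let ρ' : Representation ℚ (N ≃ₐ[ℚ] N) (W₁ × W₂) := ρ₁'.prod ρ₂'
  have hρ' : ∀ g x, ρ' g x = (ρ₁' g x.1, ρ₂' g x.2) := fun g x => rfl
  have hgood : GoodLat ρ' LinearMap.id (fixK K ρ') (UC w1 w2 t₁ t₂) := by
    refine goodLat_of_pair (ρ₁ := ρ₁') (ρ₂ := ρ₂') (π₁ := LinearMap.id) (π₂ := LinearMap.id)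
      hρ' (fun x => rfl) Function.surjective_id Function.surjective_id hspan ?_ ?_ ht₁ ht₂
    · intro c g hg
      rw [hρ']
      simp only [map_zero, cb_apply, map_sum, map_smul, hfix₁ _ g hg]
    · intro c g hg
      rw [hρ']
      simp only [map_zero, cb_apply, map_sum, map_smul, hfix₂ _ g hg]
  exact not_padicPart_of_goodLat ρ' _ hgood p

/-! ### The real part -/

/-- The coinvariants of complex conjugation are not zero. -/
theorem range_ne_top {E W : Type} [Field E] [CharZero E] [AddCommGroup W] [Module E W]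
    (T : W →ₗ[E] W) (hT : ∀ x, T (T x) = x) (hne : ∃ x, T x ≠ -x) :
    LinearMap.range (LinearMap.id - T) ≠ ⊤ := by
  intro h
  obtain ⟨x, hx⟩ := hne
  apply hx
  have h1 : x ∈ LinearMap.range (LinearMap.id - T) := by rw [h]; trivial
  obtain ⟨y, rfl⟩ := h1
  rw [LinearMap.sub_apply, LinearMap.id_apply, map_sub, hT]
  abel

omit [IsGalois ℚ N] in
theorem conj_sq (ι : N →ₐ[ℚ] ℂ) (cc : N ≃ₐ[ℚ] N) (hcc : ∀ x, ι (cc x) = (starRingEnd ℂ) (ι x)) :
    cc * cc = 1 := by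
  ext x
  apply ι.injective
  show ι (cc (cc x)) = ι x
  rw [hcc, hcc, Complex.conj_conj]

theorem real_cube_fin {W : Type} [AddCommGroup W] [Module ℚ W]
    [FiniteDimensional ℚ W] (ρ' : Representation ℚ (N ≃ₐ[ℚ] N) W)
    (ι : N →ₐ[ℚ] ℂ) (cc : N ≃ₐ[ℚ] N) (hcc : ∀ x, ι (cc x) = (starRingEnd ℂ) (ι x))
    (hodd : ∃ x, ρ' cc x ≠ -x) (w : Fin 3 → W)
    (hspan : Submodule.span ℚ {v : Fin 3 → W | ∃ g, v = fun i => ρ' g (w i)} = ⊤)
    (hfix : ∀ i, w i ∈ fixK K ρ') : ¬ ExpectedAnswerReal K := by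
  have hT : ∀ x, ρ' cc (ρ' cc x) = x := by
    intro x
    rw [← Module.End.mul_apply, ← map_mul, conj_sq ι cc hcc, map_one, Module.End.one_apply]
  let V : Submodule ℚ W := LinearMap.range (LinearMap.id - ρ' cc)
  have hV : V ≠ ⊤ := range_ne_top (ρ' cc) hT hodd
  have hnt : Nontrivial (W ⧸ V) := Submodule.Quotient.nontrivial_iff.mpr hV
  obtain ⟨t, ht⟩ : ∃ t, Module.finrank ℚ (W ⧸ V) = t + 1 :=
    ⟨Module.finrank ℚ (W ⧸ V) - 1, by
      have := Module.finrank_pos (R := ℚ) (M := W ⧸ V); omega⟩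
  have hgood : GoodLat ρ' V.mkQ (fixK K ρ') (UU (t := t) thA w) := by
    refine goodLat_of_field (E := ℚ) (fun g a x => by rw [map_smul]) (fun a x => by rw [map_smul])
      (Submodule.mkQ_surjective V) hspan ?_ ?_ thA_rank thA_deg ht
    · intro c
      rw [comb_apply]
      exact Submodule.sum_mem _ fun i _ => Submodule.smul_mem _ _ (hfix i)
    · simp
  refine not_real_of_goodLat ρ' V.mkQ (Submodule.mkQ_surjective V) ι cc hcc ?_ _ hgood
  intro x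
  rw [Submodule.mkQ_apply, Submodule.Quotient.mk_eq_zero, LinearMap.mem_range]
  refine exists_congr fun y => ?_
  rw [LinearMap.sub_apply, LinearMap.id_apply]
  exact eq_comm

theorem real_square_fin {W : Type} [AddCommGroup W] [Module ℚ W]
    [FiniteDimensional ℚ W] (ρ' : Representation ℚ (N ≃ₐ[ℚ] N) W) (hρ : HasField ρ')
    (ι : N →ₐ[ℚ] ℂ) (cc : N ≃ₐ[ℚ] N) (hcc : ∀ x, ι (cc x) = (starRingEnd ℂ) (ι x))
    (hodd : ∃ x, ρ' cc x ≠ -x) (w : Fin 2 → W)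
    (hspan : Submodule.span ℚ {v : Fin 2 → W | ∃ g, v = fun i => ρ' g (w i)} = ⊤)
    (hfix : ∀ i, w i ∈ fixK K ρ') : ¬ ExpectedAnswerReal K := by
  have hT : ∀ x, ρ' cc (ρ' cc x) = x := by
    intro x
    rw [← Module.End.mul_apply, ← map_mul, conj_sq ι cc hcc, map_one, Module.End.one_apply]
  obtain ⟨E, _, _, φ, ς, e₀, hφ, he₀⟩ := hρ
  let _ : Module E W := Module.compHom W φ
  have hsm : ∀ (a : E) (x : W), a • x = φ a x := fun a x => rfl
  have _ : IsScalarTower ℚ E W := ⟨fun q a x => by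
    rw [hsm, hsm, map_rat_smul φ q a, LinearMap.smul_apply]⟩
  have hE' : ∀ g (a : E) (x : W), ρ' g (a • x) = a • ρ' g x := by
    intro g a x
    rw [hsm, hsm, hφ]
  have hfinE : Module.Finite E W := Module.Finite.of_restrictScalars_finite ℚ E W
  let TE : W →ₗ[E] W :=
    { toFun := ρ' cc
      map_add' := map_add _
      map_smul' := fun a x => by
        rw [RingHom.id_apply, hE'] }
  let V : Submodule E W := LinearMap.range (LinearMap.id - TE)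
  have hV : V ≠ ⊤ := range_ne_top TE hT hodd
  have hnt : Nontrivial (W ⧸ V) := Submodule.Quotient.nontrivial_iff.mpr hV
  obtain ⟨t, ht⟩ : ∃ t, Module.finrank E (W ⧸ V) = t + 1 :=
    ⟨Module.finrank E (W ⧸ V) - 1, by
      have := Module.finrank_pos (R := E) (M := W ⧸ V); omega⟩
  obtain ⟨θ, hθ1, hθ2⟩ := exists_typeB he₀
  let π : W →ₗ[ℚ] (W ⧸ V) := V.mkQ.restrictScalars ℚ
  have hπs : Function.Surjective π := Submodule.mkQ_surjective V
  have hfinQ : FiniteDimensional ℚ (W ⧸ V) := Module.Finite.of_surjective π hπs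
  have hgood : GoodLat ρ' π (fixK K ρ') (UU (t := t) θ w) := by
    refine goodLat_of_field (E := E) hE' (fun a x => by exact map_smul V.mkQ a x)
      hπs hspan ?_ ?_ hθ1 hθ2 ht
    · intro c
      rw [comb_apply]
      refine Submodule.sum_mem _ fun i _ => ?_
      intro g hg
      rw [hE', hfix i g hg]
    · rw [Module.finrank_prod, two_mul]
  refine not_real_of_goodLat ρ' π hπs ι cc hcc ?_ _ hgood
  intro x
  show V.mkQ x = 0 ↔ _
  rw [Submodule.mkQ_apply, Submodule.Quotient.mk_eq_zero, LinearMap.mem_range]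
  refine exists_congr fun y => ?_
  rw [LinearMap.sub_apply, LinearMap.id_apply]
  exact eq_comm

theorem real_pair_fin {W₁ W₂ : Type} [AddCommGroup W₁] [Module ℚ W₁]
    [FiniteDimensional ℚ W₁] [AddCommGroup W₂] [Module ℚ W₂]
    [FiniteDimensional ℚ W₂] (ρ₁' : Representation ℚ (N ≃ₐ[ℚ] N) W₁)
    (ρ₂' : Representation ℚ (N ≃ₐ[ℚ] N) W₂)
    (ι : N →ₐ[ℚ] ℂ) (cc : N ≃ₐ[ℚ] N) (hcc : ∀ x, ι (cc x) = (starRingEnd ℂ) (ι x))
    (hodd₁ : ∃ x, ρ₁' cc x ≠ -x) (hodd₂ : ∃ x, ρ₂' cc x ≠ -x) (w1 : Fin 2 → W₁) (w2 : Fin 2 → W₂)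
    (hspan : Submodule.span ℚ {v : (Fin 2 → W₁) × (Fin 2 → W₂) |
        ∃ g, v = (fun i => ρ₁' g (w1 i), fun i => ρ₂' g (w2 i))} = ⊤)
    (hfix₁ : ∀ i, w1 i ∈ fixK K ρ₁') (hfix₂ : ∀ i, w2 i ∈ fixK K ρ₂') :
    ¬ ExpectedAnswerReal K := by
  have hT₁ : ∀ x, ρ₁' cc (ρ₁' cc x) = x := by
    intro x
    rw [← Module.End.mul_apply, ← map_mul, conj_sq ι cc hcc, map_one, Module.End.one_apply]
  have hT₂ : ∀ x, ρ₂' cc (ρ₂' cc x) = x := by
    intro x
    rw [← Module.End.mul_apply, ← map_mul, conj_sq ι cc hcc, map_one, Module.End.one_apply]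
  let V₁ : Submodule ℚ W₁ := LinearMap.range (LinearMap.id - ρ₁' cc)
  let V₂ : Submodule ℚ W₂ := LinearMap.range (LinearMap.id - ρ₂' cc)
  have hV₁ : V₁ ≠ ⊤ := range_ne_top (ρ₁' cc) hT₁ hodd₁
  have hV₂ : V₂ ≠ ⊤ := range_ne_top (ρ₂' cc) hT₂ hodd₂
  have hnt₁ : Nontrivial (W₁ ⧸ V₁) := Submodule.Quotient.nontrivial_iff.mpr hV₁
  have hnt₂ : Nontrivial (W₂ ⧸ V₂) := Submodule.Quotient.nontrivial_iff.mpr hV₂
  obtain ⟨t₁, ht₁⟩ : ∃ t, Module.finrank ℚ (W₁ ⧸ V₁) = t + 1 :=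
    ⟨Module.finrank ℚ (W₁ ⧸ V₁) - 1, by
      have := Module.finrank_pos (R := ℚ) (M := W₁ ⧸ V₁); omega⟩
  obtain ⟨t₂, ht₂⟩ : ∃ t, Module.finrank ℚ (W₂ ⧸ V₂) = t + 1 :=
    ⟨Module.finrank ℚ (W₂ ⧸ V₂) - 1, by
      have := Module.finrank_pos (R := ℚ) (M := W₂ ⧸ V₂); omega⟩
  let ρ' : Representation ℚ (N ≃ₐ[ℚ] N) (W₁ × W₂) := ρ₁'.prod ρ₂'
  have hρ' : ∀ g x, ρ' g x = (ρ₁' g x.1, ρ₂' g x.2) := fun g x => rfl
  let π : (W₁ × W₂) →ₗ[ℚ] ((W₁ ⧸ V₁) × (W₂ ⧸ V₂)) := V₁.mkQ.prodMap V₂.mkQ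
  have hπ : ∀ x, π x = (V₁.mkQ x.1, V₂.mkQ x.2) := fun x => rfl
  have hgood : GoodLat ρ' π (fixK K ρ') (UC w1 w2 t₁ t₂) := by
    refine goodLat_of_pair (ρ₁ := ρ₁') (ρ₂ := ρ₂') (π₁ := V₁.mkQ) (π₂ := V₂.mkQ)
      hρ' hπ (Submodule.mkQ_surjective V₁) (Submodule.mkQ_surjective V₂) hspan ?_ ?_ ht₁ ht₂
    · intro c g hg
      rw [hρ']
      simp only [map_zero, cb_apply, map_sum, map_smul, hfix₁ _ g hg]
    · intro c g hg
      rw [hρ']
      simp only [map_zero, cb_apply, map_sum, map_smul, hfix₂ _ g hg]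
  refine not_real_of_goodLat ρ' π ((Submodule.mkQ_surjective V₁).prodMap
    (Submodule.mkQ_surjective V₂)) ι cc hcc ?_ _ hgood
  have hk₁ : ∀ x, V₁.mkQ x = 0 ↔ ∃ y, x = y - ρ₁' cc y := by
    intro x
    rw [Submodule.mkQ_apply, Submodule.Quotient.mk_eq_zero, LinearMap.mem_range]
    refine exists_congr fun y => ?_
    rw [LinearMap.sub_apply, LinearMap.id_apply]
    exact eq_comm
  have hk₂ : ∀ x, V₂.mkQ x = 0 ↔ ∃ y, x = y - ρ₂' cc y := by
    intro x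
    rw [Submodule.mkQ_apply, Submodule.Quotient.mk_eq_zero, LinearMap.mem_range]
    refine exists_congr fun y => ?_
    rw [LinearMap.sub_apply, LinearMap.id_apply]
    exact eq_comm
  intro x
  rw [hπ, Prod.mk_eq_zero, hk₁, hk₂]
  constructor
  · rintro ⟨⟨y, hy⟩, ⟨z, hz⟩⟩
    refine ⟨(y, z), ?_⟩
    rw [hρ']
    exact Prod.ext hy hz
  · rintro ⟨⟨y, z⟩, hyz⟩
    rw [hρ'] at hyz
    exact ⟨⟨y, congrArg Prod.fst hyz⟩, ⟨z, congrArg Prod.snd hyz⟩⟩

end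

end Pool.Agent.J4H74.T3
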