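import Mathlib
import Pool.Agent.J4H74.T3.Endo3

set_option autoImplicit false

/-!
# Quotients of the permutation module of a number field
-/

namespace Pool.Agent.J4H74.T3

open NumberField

/-- An algebraic closure of `ℚ`. -/
abbrev Qb : Type := AlgebraicClosure ℚ

/-- The absolute Galois group of `ℚ`. -/
abbrev Gam : Type := Qb ≃ₐ[ℚ] Qb

theorem isAlgebraic_Qb : Algebra.IsAlgebraic ℚ Qb := by
  have h := AlgebraicClosure.isAlgebraic ℚ
  convert h
  · rfl
  · exact Subsingleton.elim _ _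

instance instIsAlgClosureQb : IsAlgClosure ℚ Qb := ⟨inferInstance, isAlgebraic_Qb⟩

instance instNormalQb : Normal ℚ Qb := IsAlgClosure.normal ℚ Qb

/-- The embeddings of `K` in the algebraic closure of `ℚ`. -/
abbrev EmbQ (K : Type) [Field K] [NumberField K] : Type := K →ₐ[ℚ] Qb

/-- The action of the absolute Galois group on the embeddings. -/
noncomputable def act {K : Type} [Field K] [NumberField K] (g : Gam) (τ : EmbQ K) : EmbQ K :=
  (g : Qb →ₐ[ℚ] Qb).comp τ

theorem act_apply {K : Type} [Field K] [NumberField K] (g : Gam) (τ : EmbQ K) (x : K) :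
    act g τ x = g (τ x) := rfl

/-- Reduction to a finite Galois extension, for a given embedding. -/
theorem exists_level_at {K : Type} [Field K] [NumberField K] (τ₀ : EmbQ K) :
    ∃ (N : Type) (_ : Field N) (_ : NumberField N) (_ : IsGalois ℚ N) (_ : Algebra K N)
      (r : Gam →* (N ≃ₐ[ℚ] N)) (inc : N →ₐ[ℚ] Qb), Function.Surjective r ∧
      (∀ g x, inc (r g x) = g (inc x)) ∧
      (∀ g, r g = 1 → ∀ τ : EmbQ K, act g τ = τ) ∧
      (∀ g, (∀ x : K, r g (algebraMap K N x) = algebraMap K N x) → act g τ₀ = τ₀) ∧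
      (∀ τ : EmbQ K, ∃ g : Gam, act g τ₀ = τ) := by
  let N := IntermediateField.normalClosure ℚ K Qb
  have hnf : NumberField N := ⟨⟩
  have hnormal : Normal ℚ N := by
    have h := normalClosure.normal ℚ K Qb
    convert h
    exact Subsingleton.elim _ _
  have hres : ∀ (g : Gam) (y : N), ((AlgEquiv.restrictNormalHom N g y : N) : Qb) = g y :=
    fun g y => AlgEquiv.restrictNormal_commutes g N y
  have hgal : IsGalois ℚ N := ⟨⟩
  have hmem : ∀ (τ : EmbQ K) (x : K), τ x ∈ N := fun τ x =>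
    AlgHom.fieldRange_le_normalClosure τ ⟨x, rfl⟩
  let j₀ : K →ₐ[ℚ] N :=
    { toFun := fun x => ⟨τ₀ x, hmem τ₀ x⟩
      map_one' := by ext; simp
      map_mul' := fun x y => by ext; simp
      map_zero' := by ext; simp
      map_add' := fun x y => by ext; simp
      commutes' := fun x => by ext; simp }
  refine ⟨N, inferInstance, hnf, hgal, j₀.toRingHom.toAlgebra, AlgEquiv.restrictNormalHom N,
    (algebraMap N Qb).toRatAlgHom, AlgEquiv.restrictNormalHom_surjective Qb, hres, ?_, ?_, ?_⟩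
  · intro g hg τ
    ext x
    have h1 := hres g ⟨τ x, hmem τ x⟩
    rw [hg] at h1
    exact h1.symm
  · intro g hg
    ext x
    have h1 := hres g ⟨τ₀ x, hmem τ₀ x⟩
    have h2 := congrArg (Subtype.val) (hg x)
    exact h1.symm.trans h2
  · intro τ
    let A : Algebra K Qb := τ₀.toRingHom.toAlgebra
    have htow : IsScalarTower ℚ K Qb := IsScalarTower.of_algebraMap_eq fun x => (τ₀.commutes x).symm
    let φ : Qb →ₐ[ℚ] Qb := AlgHom.liftNormal τ Qb
    refine ⟨AlgEquiv.ofBijective φ (AlgHom.normal_bijective ℚ Qb Qb φ), ?_⟩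
    ext x
    exact AlgHom.liftNormal_commutes τ Qb x

/-- Reduction to a finite Galois extension. -/
theorem exists_level (K : Type) [Field K] [NumberField K] :
    ∃ (N : Type) (_ : Field N) (_ : NumberField N) (_ : IsGalois ℚ N) (_ : Algebra K N)
      (r : Gam →* (N ≃ₐ[ℚ] N)) (τ₀ : EmbQ K) (inc : N →ₐ[ℚ] Qb), Function.Surjective r ∧
      (∀ g x, inc (r g x) = g (inc x)) ∧
      (∀ g, r g = 1 → ∀ τ : EmbQ K, act g τ = τ) ∧
      (∀ g, (∀ x : K, r g (algebraMap K N x) = algebraMap K N x) → act g τ₀ = τ₀) ∧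
      (∀ τ : EmbQ K, ∃ g : Gam, act g τ₀ = τ) := by
  obtain ⟨τ₀⟩ : Nonempty (EmbQ K) := ⟨IsAlgClosed.lift⟩
  obtain ⟨N, i1, i2, i3, i4, r, inc, h⟩ := exists_level_at τ₀
  exact ⟨N, i1, i2, i3, i4, r, τ₀, inc, h⟩

/-- A representation which is trivial on the kernel of a surjection factors. -/
theorem exists_factor {G H W : Type} [Group G] [Group H] [AddCommGroup W] [Module ℚ W]
    (r : G →* H) (hr : Function.Surjective r) (ρ : Representation ℚ G W)
    (h : ∀ g, r g = 1 → ρ g = 1) : ∃ ρ' : Representation ℚ H W, ∀ g, ρ' (r g) = ρ g := by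
  choose s hs using hr
  have h1 : ∀ a b : G, r a = r b → ρ a = ρ b := by
    intro a b hab
    have h2 : r (a * b⁻¹) = 1 := by rw [map_mul, map_inv, hab, mul_inv_cancel]
    have h3 := h _ h2
    have h4 : a = a * b⁻¹ * b := by rw [inv_mul_cancel_right]
    rw [h4, map_mul, h3, one_mul]
  refine ⟨⟨⟨fun x => ρ (s x), ?_⟩, ?_⟩, fun g => ?_⟩
  · show ρ (s 1) = 1
    exact h _ (hs 1)
  · intro x y
    show ρ (s (x * y)) = ρ (s x) * ρ (s y)
    rw [← map_mul]
    apply h1
    rw [hs, map_mul, hs, hs]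
  · show ρ (s (r g)) = ρ g
    exact h1 _ _ (hs _)


end Pool.Agent.J4H74.T3
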