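import Mathlib
import Pool.Agent.J4H74.T3.Level
import Pool.Agent.J4H74.T3.Fin

set_option autoImplicit false

/-!
# Quotients of the permutation module of a number field
-/

namespace Pool.Agent.J4H74.T3

open NumberField Pool.Agent.H440R3 Pool.Agent.H492R2.Tor

section

variable {K : Type} [Field K] [NumberField K]

/-- Reduction to a finite level, for a power of a representation. -/
theorem exists_level_pow {W : Type} [AddCommGroup W] [Module ℚ W] (ρ : Representation ℚ Gam W)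
    {m : ℕ} (i₀ : Fin m) (f : EmbQ K → Fin m → W)
    (hf : ∀ (g : Gam) (τ : EmbQ K) (i : Fin m), f (act g τ) i = ρ g (f τ i))
    (hs : Submodule.span ℚ (Set.range f) = ⊤) :
    FiniteDimensional ℚ W ∧
    ∃ (N : Type) (_ : Field N) (_ : NumberField N) (_ : IsGalois ℚ N) (_ : Algebra K N)
      (r : Gam →* (N ≃ₐ[ℚ] N)) (inc : N →ₐ[ℚ] Qb) (ρ' : Representation ℚ (N ≃ₐ[ℚ] N) W)
      (w : Fin m → W), Function.Surjective r ∧ (∀ g x, inc (r g x) = g (inc x)) ∧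
      (∀ g, ρ' (r g) = ρ g) ∧
      Submodule.span ℚ {v : Fin m → W | ∃ g, v = fun i => ρ' g (w i)} = ⊤ ∧
      ∀ i, w i ∈ fixK K ρ' := by
  obtain ⟨N, _, _, _, _, r, τ₀, inc, hr, hinc, hr1, hr2, hr3⟩ := exists_level K
  have hfinV : Module.Finite ℚ (Fin m → W) := ⟨by
    rw [← hs]
    exact Submodule.fg_span (Set.finite_range f)⟩
  have hfin : FiniteDimensional ℚ W := Module.Finite.of_surjective (LinearMap.proj i₀ :
    (Fin m → W) →ₗ[ℚ] W) (LinearMap.proj_surjective _)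
  have htriv : ∀ g, r g = 1 → ρ g = 1 := by
    intro g hg
    have h1 : ∀ v : Fin m → W, ρ g (v i₀) = v i₀ := by
      intro v
      have h2 : (ρ g ∘ₗ LinearMap.proj i₀ : (Fin m → W) →ₗ[ℚ] W) = LinearMap.proj i₀ := by
        apply LinearMap.ext_on hs
        rintro _ ⟨τ, rfl⟩
        rw [LinearMap.comp_apply, LinearMap.proj_apply, ← hf, hr1 g hg]
      exact congrArg (fun h => h v) h2
    apply LinearMap.ext
    intro x
    exact h1 (fun _ => x)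
  obtain ⟨ρ', hρ'⟩ := exists_factor r hr ρ htriv
  refine ⟨hfin, N, inferInstance, inferInstance, inferInstance, inferInstance, r, inc, ρ', f τ₀,
    hr, hinc, hρ', ?_, ?_⟩
  · rw [eq_top_iff, ← hs, Submodule.span_le]
    rintro _ ⟨τ, rfl⟩
    obtain ⟨g, rfl⟩ := hr3 τ
    apply Submodule.subset_span
    refine ⟨r g, ?_⟩
    funext i
    rw [hf, hρ']
  · intro i g' hg'
    obtain ⟨g, rfl⟩ := hr g'
    rw [hρ', ← hf, hr2 g hg']

/-- Reduction to a finite level, for a sum of two squares. -/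
theorem exists_level_pair {W₁ W₂ : Type} [AddCommGroup W₁] [Module ℚ W₁]
    [AddCommGroup W₂] [Module ℚ W₂]
    (ρ₁ : Representation ℚ Gam W₁) (ρ₂ : Representation ℚ Gam W₂)
    (f : EmbQ K → (Fin 2 → W₁) × (Fin 2 → W₂))
    (hf₁ : ∀ (g : Gam) (τ : EmbQ K) (i : Fin 2), (f (act g τ)).1 i = ρ₁ g ((f τ).1 i))
    (hf₂ : ∀ (g : Gam) (τ : EmbQ K) (i : Fin 2), (f (act g τ)).2 i = ρ₂ g ((f τ).2 i))
    (hs : Submodule.span ℚ (Set.range f) = ⊤) :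
    FiniteDimensional ℚ W₁ ∧ FiniteDimensional ℚ W₂ ∧
    ∃ (N : Type) (_ : Field N) (_ : NumberField N) (_ : IsGalois ℚ N) (_ : Algebra K N)
      (r : Gam →* (N ≃ₐ[ℚ] N)) (inc : N →ₐ[ℚ] Qb) (ρ₁' : Representation ℚ (N ≃ₐ[ℚ] N) W₁)
      (ρ₂' : Representation ℚ (N ≃ₐ[ℚ] N) W₂)
      (w1 : Fin 2 → W₁) (w2 : Fin 2 → W₂), Function.Surjective r ∧
      (∀ g x, inc (r g x) = g (inc x)) ∧
      (∀ g, ρ₁' (r g) = ρ₁ g) ∧ (∀ g, ρ₂' (r g) = ρ₂ g) ∧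
      Submodule.span ℚ {v : (Fin 2 → W₁) × (Fin 2 → W₂) |
        ∃ g, v = (fun i => ρ₁' g (w1 i), fun i => ρ₂' g (w2 i))} = ⊤ ∧
      (∀ i g', (∀ x : K, g' (algebraMap K N x) = algebraMap K N x) → ρ₁' g' (w1 i) = w1 i) ∧
      (∀ i g', (∀ x : K, g' (algebraMap K N x) = algebraMap K N x) → ρ₂' g' (w2 i) = w2 i) := by
  obtain ⟨N, _, _, _, _, r, τ₀, inc, hr, hinc, hr1, hr2, hr3⟩ := exists_level K
  have hfinV : Module.Finite ℚ ((Fin 2 → W₁) × (Fin 2 → W₂)) := ⟨by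
    rw [← hs]
    exact Submodule.fg_span (Set.finite_range f)⟩
  have hfin₁ : FiniteDimensional ℚ W₁ := Module.Finite.of_surjective
    ((LinearMap.proj (0 : Fin 2) : (Fin 2 → W₁) →ₗ[ℚ] W₁) ∘ₗ
      LinearMap.fst ℚ (Fin 2 → W₁) (Fin 2 → W₂)) (fun x => ⟨(fun _ => x, 0), rfl⟩)
  have hfin₂ : FiniteDimensional ℚ W₂ := Module.Finite.of_surjective
    ((LinearMap.proj (0 : Fin 2) : (Fin 2 → W₂) →ₗ[ℚ] W₂) ∘ₗ
      LinearMap.snd ℚ (Fin 2 → W₁) (Fin 2 → W₂)) (fun x => ⟨(0, fun _ => x), rfl⟩)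
  have htriv₁ : ∀ g, r g = 1 → ρ₁ g = 1 := by
    intro g hg
    have h1 : ∀ v : (Fin 2 → W₁) × (Fin 2 → W₂), ρ₁ g (v.1 0) = v.1 0 := by
      intro v
      have h2 : (ρ₁ g ∘ₗ LinearMap.proj (0 : Fin 2) ∘ₗ
          LinearMap.fst ℚ (Fin 2 → W₁) (Fin 2 → W₂)) =
          LinearMap.proj (0 : Fin 2) ∘ₗ LinearMap.fst ℚ (Fin 2 → W₁) (Fin 2 → W₂) := by
        apply LinearMap.ext_on hs
        rintro _ ⟨τ, rfl⟩
        simp only [LinearMap.comp_apply, LinearMap.proj_apply, LinearMap.fst_apply]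
        rw [← hf₁, hr1 g hg]
      exact congrArg (fun h => h v) h2
    apply LinearMap.ext
    intro x
    exact h1 (fun _ => x, 0)
  have htriv₂ : ∀ g, r g = 1 → ρ₂ g = 1 := by
    intro g hg
    have h1 : ∀ v : (Fin 2 → W₁) × (Fin 2 → W₂), ρ₂ g (v.2 0) = v.2 0 := by
      intro v
      have h2 : (ρ₂ g ∘ₗ LinearMap.proj (0 : Fin 2) ∘ₗ
          LinearMap.snd ℚ (Fin 2 → W₁) (Fin 2 → W₂)) =
          LinearMap.proj (0 : Fin 2) ∘ₗ LinearMap.snd ℚ (Fin 2 → W₁) (Fin 2 → W₂) := by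
        apply LinearMap.ext_on hs
        rintro _ ⟨τ, rfl⟩
        simp only [LinearMap.comp_apply, LinearMap.proj_apply, LinearMap.snd_apply]
        rw [← hf₂, hr1 g hg]
      exact congrArg (fun h => h v) h2
    apply LinearMap.ext
    intro x
    exact h1 (0, fun _ => x)
  obtain ⟨ρ₁', hρ₁'⟩ := exists_factor r hr ρ₁ htriv₁
  obtain ⟨ρ₂', hρ₂'⟩ := exists_factor r hr ρ₂ htriv₂
  refine ⟨hfin₁, hfin₂, N, inferInstance, inferInstance, inferInstance, inferInstance, r, inc,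
    ρ₁', ρ₂', (f τ₀).1, (f τ₀).2, hr, hinc, hρ₁', hρ₂', ?_, ?_, ?_⟩
  · rw [eq_top_iff, ← hs, Submodule.span_le]
    rintro _ ⟨τ, rfl⟩
    obtain ⟨g, rfl⟩ := hr3 τ
    apply Submodule.subset_span
    refine ⟨r g, Prod.ext ?_ ?_⟩
    · funext i
      show (f (act g τ₀)).1 i = ρ₁' (r g) ((f τ₀).1 i)
      rw [hf₁, hρ₁']
    · funext i
      show (f (act g τ₀)).2 i = ρ₂' (r g) ((f τ₀).2 i)
      rw [hf₂, hρ₂']
  · intro i g' hg'
    obtain ⟨g, rfl⟩ := hr g'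
    rw [hρ₁', ← hf₁, hr2 g hg']
  · intro i g' hg'
    obtain ⟨g, rfl⟩ := hr g'
    rw [hρ₂', ← hf₂, hr2 g hg']

/-! ### The `p`-adic part -/

/-- **The cube of a representation.** -/
theorem padic_cube {W : Type} [AddCommGroup W] [Module ℚ W] [Nontrivial W]
    (ρ : Representation ℚ Gam W) (f : EmbQ K → Fin 3 → W)
    (hf : ∀ (g : Gam) (τ : EmbQ K) (i : Fin 3), f (act g τ) i = ρ g (f τ i))
    (hs : Submodule.span ℚ (Set.range f) = ⊤) (p : ℕ) [Fact p.Prime] : ¬ PadicPart p K := by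
  obtain ⟨hfin, N, _, _, _, _, r, inc, ρ', w, hr, hinc, hρ', hspan, hfix⟩ :=
    exists_level_pow ρ 0 f hf hs
  exact padic_cube_fin ρ' w hspan hfix p

theorem hasField_level {N : Type} [Field N] [NumberField N] {r : Gam →* (N ≃ₐ[ℚ] N)}
    (hr : Function.Surjective r) {W : Type} [AddCommGroup W] [Module ℚ W]
    {ρ : Representation ℚ Gam W} {ρ' : Representation ℚ (N ≃ₐ[ℚ] N) W}
    (hρ' : ∀ g, ρ' (r g) = ρ g) (h : HasField ρ) : HasField ρ' := by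
  obtain ⟨E, i1, i2, φ, ς, e₀, hφ, he₀⟩ := h
  refine ⟨E, i1, i2, φ, ς, e₀, fun e g y => ?_, he₀⟩
  obtain ⟨g, rfl⟩ := hr g
  rw [hρ']
  exact hφ e _ y

/-- **The square of a representation with an action of a number field.** -/
theorem padic_square {W : Type} [AddCommGroup W] [Module ℚ W] [Nontrivial W]
    (ρ : Representation ℚ Gam W) (hρ : HasField ρ) (f : EmbQ K → Fin 2 → W)
    (hf : ∀ (g : Gam) (τ : EmbQ K) (i : Fin 2), f (act g τ) i = ρ g (f τ i))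
    (hs : Submodule.span ℚ (Set.range f) = ⊤) (p : ℕ) [Fact p.Prime] : ¬ PadicPart p K := by
  obtain ⟨hfin, N, _, _, _, _, r, inc, ρ', w, hr, hinc, hρ', hspan, hfix⟩ :=
    exists_level_pow ρ 0 f hf hs
  exact padic_square_fin ρ' (hasField_level hr hρ' hρ) w hspan hfix p

/-- **Two squares.** -/
theorem padic_pair {W₁ W₂ : Type} [AddCommGroup W₁] [Module ℚ W₁] [Nontrivial W₁]
    [AddCommGroup W₂] [Module ℚ W₂] [Nontrivial W₂]
    (ρ₁ : Representation ℚ Gam W₁) (ρ₂ : Representation ℚ Gam W₂)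
    (f : EmbQ K → (Fin 2 → W₁) × (Fin 2 → W₂))
    (hf₁ : ∀ (g : Gam) (τ : EmbQ K) (i : Fin 2), (f (act g τ)).1 i = ρ₁ g ((f τ).1 i))
    (hf₂ : ∀ (g : Gam) (τ : EmbQ K) (i : Fin 2), (f (act g τ)).2 i = ρ₂ g ((f τ).2 i))
    (hs : Submodule.span ℚ (Set.range f) = ⊤) (p : ℕ) [Fact p.Prime] : ¬ PadicPart p K := by
  obtain ⟨hfin₁, hfin₂, N, _, _, _, _, r, inc, ρ₁', ρ₂', w1, w2, hr, hinc, hρ₁', hρ₂', hspan,
    hfix₁, hfix₂⟩ := exists_level_pair ρ₁ ρ₂ f hf₁ hf₂ hs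
  exact padic_pair_fin ρ₁' ρ₂' w1 w2 hspan (fun i g hg => hfix₁ i g hg)
    (fun i g hg => hfix₂ i g hg) p

/-! ### The real part -/

theorem conj_level {N : Type} [Field N] [NumberField N] (r : Gam →* (N ≃ₐ[ℚ] N))
    (inc : N →ₐ[ℚ] Qb) (hinc : ∀ g x, inc (r g x) = g (inc x)) (j : Qb →+* ℂ) (c : Gam)
    (hc : ∀ x, j (c x) = (starRingEnd ℂ) (j x)) :
    ∀ x : N, (j.toRatAlgHom.comp inc) (r c x) =
      (starRingEnd ℂ) ((j.toRatAlgHom.comp inc) x) := by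
  intro x
  show j (inc (r c x)) = _
  rw [hinc, hc]
  rfl

theorem real_cube {W : Type} [AddCommGroup W] [Module ℚ W]
    (ρ : Representation ℚ Gam W) (j : Qb →+* ℂ) (c : Gam)
    (hc : ∀ x, j (c x) = (starRingEnd ℂ) (j x)) (hodd : ∃ x, ρ c x ≠ -x) (f : EmbQ K → Fin 3 → W)
    (hf : ∀ (g : Gam) (τ : EmbQ K) (i : Fin 3), f (act g τ) i = ρ g (f τ i))
    (hs : Submodule.span ℚ (Set.range f) = ⊤) : ¬ ExpectedAnswerReal K := by
  obtain ⟨hfin, N, _, _, _, _, r, inc, ρ', w, hr, hinc, hρ', hspan, hfix⟩ :=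
    exists_level_pow ρ 0 f hf hs
  rw [← hρ'] at hodd
  exact real_cube_fin ρ' _ (r c) (conj_level r inc hinc j c hc) hodd w hspan hfix

theorem real_square {W : Type} [AddCommGroup W] [Module ℚ W]
    (ρ : Representation ℚ Gam W) (hρ : HasField ρ) (j : Qb →+* ℂ) (c : Gam)
    (hc : ∀ x, j (c x) = (starRingEnd ℂ) (j x)) (hodd : ∃ x, ρ c x ≠ -x) (f : EmbQ K → Fin 2 → W)
    (hf : ∀ (g : Gam) (τ : EmbQ K) (i : Fin 2), f (act g τ) i = ρ g (f τ i))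
    (hs : Submodule.span ℚ (Set.range f) = ⊤) : ¬ ExpectedAnswerReal K := by
  obtain ⟨hfin, N, _, _, _, _, r, inc, ρ', w, hr, hinc, hρ', hspan, hfix⟩ :=
    exists_level_pow ρ 0 f hf hs
  rw [← hρ'] at hodd
  exact real_square_fin ρ' (hasField_level hr hρ' hρ) _ (r c) (conj_level r inc hinc j c hc) hodd
    w hspan hfix

theorem real_pair {W₁ W₂ : Type} [AddCommGroup W₁] [Module ℚ W₁]
    [AddCommGroup W₂] [Module ℚ W₂]
    (ρ₁ : Representation ℚ Gam W₁) (ρ₂ : Representation ℚ Gam W₂) (j : Qb →+* ℂ) (c : Gam)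
    (hc : ∀ x, j (c x) = (starRingEnd ℂ) (j x)) (hodd₁ : ∃ x, ρ₁ c x ≠ -x)
    (hodd₂ : ∃ x, ρ₂ c x ≠ -x)
    (f : EmbQ K → (Fin 2 → W₁) × (Fin 2 → W₂))
    (hf₁ : ∀ (g : Gam) (τ : EmbQ K) (i : Fin 2), (f (act g τ)).1 i = ρ₁ g ((f τ).1 i))
    (hf₂ : ∀ (g : Gam) (τ : EmbQ K) (i : Fin 2), (f (act g τ)).2 i = ρ₂ g ((f τ).2 i))
    (hs : Submodule.span ℚ (Set.range f) = ⊤) : ¬ ExpectedAnswerReal K := by
  obtain ⟨hfin₁, hfin₂, N, _, _, _, _, r, inc, ρ₁', ρ₂', w1, w2, hr, hinc, hρ₁', hρ₂', hspan,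
    hfix₁, hfix₂⟩ := exists_level_pair ρ₁ ρ₂ f hf₁ hf₂ hs
  rw [← hρ₁'] at hodd₁
  rw [← hρ₂'] at hodd₂
  exact real_pair_fin ρ₁' ρ₂' _ (r c) (conj_level r inc hinc j c hc) hodd₁ hodd₂ w1 w2 hspan
    (fun i g hg => hfix₁ i g hg) (fun i g hg => hfix₂ i g hg)

/-- The field in the commutant of an irreducible representation. -/
theorem hasField_of_irr {W : Type} [AddCommGroup W] [Module ℚ W] [Nontrivial W]
    (ρ : Representation ℚ Gam W) (hirr : Irr ρ) {a : Module.End ℚ W} (ha : Cm ρ a)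
    (hns : ∀ q : ℚ, a ≠ algebraMap ℚ (Module.End ℚ W) q) {m : ℕ} (i₀ : Fin m)
    (f : EmbQ K → Fin m → W)
    (hf : ∀ (g : Gam) (τ : EmbQ K) (i : Fin m), f (act g τ) i = ρ g (f τ i))
    (hs : Submodule.span ℚ (Set.range f) = ⊤) : HasField ρ := by
  obtain ⟨hfin, N, _, _, _, _, r, inc, ρ', w, hr, hinc, hρ', hspan, hfix⟩ :=
    exists_level_pow ρ i₀ f hf hs
  have hirr' : Irr ρ' := by
    intro Y hY
    apply hirr Y
    intro g y hy
    rw [← hρ']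
    exact hY _ y hy
  have ha' : Cm ρ' a := by
    intro g y
    obtain ⟨g, rfl⟩ := hr g
    rw [hρ', ha]
  obtain ⟨E, i1, i2, φ, ς, e₀, hφ, he₀⟩ := hasField_of_commutant hirr' ha' hns
  refine ⟨E, i1, i2, φ, ς, e₀, fun e g y => ?_, he₀⟩
  rw [← hρ']
  exact hφ e _ y

end

end Pool.Agent.J4H74.T3
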