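import Mathlib

set_option autoImplicit false

/-!
# Rational relations between Galois-equivariant linear maps
-/

namespace Pool.Agent.J4H74.T3

variable {p : ℕ} [hp : Fact p.Prime]

/-- More than `dim W` Galois-equivariant maps from `W` to `ℚ̄_p` satisfy a linear relation with
coefficients in `ℚ_p`. -/
theorem exists_rational_relation {W : Type} [AddCommGroup W] [Module ℚ W] [FiniteDimensional ℚ W]
    {J : Type} [Fintype J] (Φ : J → W →ₗ[ℚ] PadicAlgCl p)
    (hcard : Module.finrank ℚ W < Fintype.card J)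
    (hσ : ∀ σ : PadicAlgCl p ≃ₐ[ℚ_[p]] PadicAlgCl p, ∃ T : W →ₗ[ℚ] W, Function.Surjective T ∧
      ∀ j u, σ (Φ j u) = Φ j (T u)) :
    ∃ c : J → ℚ_[p], c ≠ 0 ∧ ∀ u, ∑ j, algebraMap ℚ_[p] (PadicAlgCl p) (c j) * Φ j u = 0 := by
  classical
  let b := Module.finBasis ℚ W
  -- some relation
  let f : (J → PadicAlgCl p) →ₗ[PadicAlgCl p] (Fin (Module.finrank ℚ W) → PadicAlgCl p) :=
    { toFun := fun c i => ∑ j, c j * Φ j (b i)
      map_add' := fun c c' => by
        funext i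
        simp only [Pi.add_apply, add_mul, Finset.sum_add_distrib]
      map_smul' := fun a c => by
        funext i
        simp only [Pi.smul_apply, smul_eq_mul, mul_assoc, Finset.mul_sum, RingHom.id_apply] }
  have hker : LinearMap.ker f ≠ ⊥ := by
    apply LinearMap.ker_ne_bot_of_finrank_lt
    simpa using hcard
  obtain ⟨c₀, hc₀, hc₀0⟩ := Submodule.exists_mem_ne_zero_of_ne_bot hker
  have hrel : ∀ c   : J → PadicAlgCl p, (∀ i, ∑ j, c j * Φ j (b i) = 0) → ∀ u, ∑ j, c j * Φ j u = 0 := by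
    intro c hc u
    have h1 : ∀ j, Φ j u = ∑ i, (b.repr u i) • Φ j (b i) := by
      intro j
      conv_lhs => rw [← b.sum_repr u]
      rw [map_sum]
      simp only [map_smul]
    simp only [h1, Finset.mul_sum]
    rw [Finset.sum_comm]
    refine Finset.sum_eq_zero fun i _ => ?_
    simp only [mul_smul_comm, ← Finset.smul_sum, hc i, smul_zero]
  have hex : ∃ n : ℕ, ∃ c   : J → PadicAlgCl p, c ≠ 0 ∧ (∀ u, ∑ j, c j * Φ j u = 0) ∧
      (Finset.univ.filter fun j => c j ≠ 0).card = n :=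
    ⟨_, c₀, hc₀0, hrel c₀ (fun i => congrFun hc₀ i), rfl⟩
  obtain ⟨c, hc0, hc, hcn⟩ := Nat.find_spec hex
  have hmin : ∀ c'   : J → PadicAlgCl p, (∀ u, ∑ j, c' j * Φ j u = 0) →
      (Finset.univ.filter fun j => c' j ≠ 0).card < Nat.find hex → c' = 0 := by
    intro c' h1 h2
    by_contra h3
    exact Nat.find_min hex h2 ⟨c', h3, h1, rfl⟩
  obtain ⟨j₀, hj₀⟩ : ∃ j, c j ≠ 0 := by
    by_contra hcon
    push Not at hcon
    exact hc0 (funext hcon)
  -- normalise
  let d   : J → PadicAlgCl p := fun j => c j / c j₀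
  have hd : ∀ u, ∑ j, d j * Φ j u = 0 := by
    intro u
    have : ∑ j, d j * Φ j u = (∑ j, c j * Φ j u) / c j₀ := by
      rw [Finset.sum_div]
      refine Finset.sum_congr rfl fun j _ => ?_
      simp only [d]; ring
    rw [this, hc, zero_div]
  have hdj₀ : d j₀ = 1 := div_self hj₀
  have hfix : ∀ σ : PadicAlgCl p ≃ₐ[ℚ_[p]] PadicAlgCl p, ∀ j, σ (d j) = d j := by
    intro σ
    obtain ⟨T, hT, hTΦ⟩ := hσ σ
    have h1 : (fun j => σ (d j) - d j) = 0 := by
      apply hmin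
      · intro u
        obtain ⟨v, rfl⟩ := hT u
        simp only [sub_mul, Finset.sum_sub_distrib]
        rw [hd, sub_zero]
        have h2 := congrArg σ (hd v)
        rw [map_sum, map_zero] at h2
        rw [← h2]
        refine Finset.sum_congr rfl fun j _ => ?_
        rw [map_mul, hTΦ]
      · rw [← hcn]
        apply Finset.card_lt_card
        rw [Finset.ssubset_iff_of_subset]
        · refine ⟨j₀, by simpa using hj₀, ?_⟩
          simp [hdj₀]
        · intro j hj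
          rw [Finset.mem_filter] at hj ⊢
          refine ⟨Finset.mem_univ _, fun h => hj.2 ?_⟩
          simp only [d, h, zero_div, map_zero, sub_zero]
    intro j
    exact sub_eq_zero.mp (congrFun h1 j)
  have hrat : ∀ j, ∃ x : ℚ_[p], algebraMap ℚ_[p] (PadicAlgCl p) x = d j := by
    intro j
    have h := (InfiniteGalois.mem_range_algebraMap_iff_fixed (k := ℚ_[p]) (K := PadicAlgCl p) (d j)).mpr
      (fun σ => hfix σ j)
    exact h
  choose x hx using hrat
  refine ⟨x, ?_, fun u => ?_⟩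
  · intro h
    have h1 := hx j₀
    rw [h, Pi.zero_apply, map_zero, hdj₀] at h1
    exact zero_ne_one h1
  · simp only [hx]
    exact hd u

/-- Two independent relations with coefficients in `ℤ_p`. -/
theorem exists_two_relations {W : Type} [AddCommGroup W] [Module ℚ W] [FiniteDimensional ℚ W]
    {J : Type} [Fintype J] [DecidableEq J] (Φ : J → W →ₗ[ℚ] PadicAlgCl p)
    (hcard : Module.finrank ℚ W + 2 ≤ Fintype.card J)
    (hσ : ∀ σ : PadicAlgCl p ≃ₐ[ℚ_[p]] PadicAlgCl p, ∃ T : W →ₗ[ℚ] W, Function.Surjective T ∧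
      ∀ j u, σ (Φ j u) = Φ j (T u)) :
    ∃ k h : J → ℤ_[p],
      (∀ u, ∑ j, algebraMap ℚ_[p] (PadicAlgCl p) (k j) * Φ j u = 0) ∧
      (∀ u, ∑ j, algebraMap ℚ_[p] (PadicAlgCl p) (h j) * Φ j u = 0) ∧
      ∀ a b : ℤ_[p], a • k + b • h = 0 → a = 0 ∧ b = 0 := by
  classical
  -- clearing denominators
  have clear : ∀ {I : Type} [Fintype I] (c : I → ℚ_[p]), ∃ (N : ℕ) (d : I → ℤ_[p]),
      ∀ i, ((d i : ℤ_[p]) : ℚ_[p]) = (p : ℚ_[p]) ^ N * c i := by
    intro I _ c
    have h1 : ∀ i, ∃ N : ℕ, ‖(p : ℚ_[p]) ^ N * c i‖ ≤ 1 := by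
      intro i
      have hp1 : (1 : ℝ) < p := by exact_mod_cast hp.out.one_lt
      obtain ⟨N, hN⟩ := pow_unbounded_of_one_lt ‖c i‖ hp1
      refine ⟨N, ?_⟩
      rw [norm_mul, norm_pow, Padic.norm_p, inv_pow]
      rw [inv_mul_le_iff₀ (by positivity), mul_one]
      exact hN.le
    choose N hN using h1
    have h2 : ∀ i, ‖(p : ℚ_[p]) ^ (∑ j, N j) * c i‖ ≤ 1 := by
      intro i
      have h3 : (p : ℚ_[p]) ^ (∑ j, N j) * c i =
          (p : ℚ_[p]) ^ ((∑ j, N j) - N i) * ((p : ℚ_[p]) ^ (N i) * c i) := by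
        rw [← mul_assoc, ← pow_add, Nat.sub_add_cancel]
        exact Finset.single_le_sum (f := N) (fun _ _ => Nat.zero_le _) (Finset.mem_univ i)
      rw [h3, norm_mul, norm_pow]
      have h4 : ‖(p : ℚ_[p])‖ ≤ 1 := by
        rw [Padic.norm_p]
        exact inv_le_one_of_one_le₀ (by exact_mod_cast hp.out.one_lt.le)
      exact mul_le_one₀ (pow_le_one₀ (norm_nonneg _) h4) (norm_nonneg _) (hN i)
    exact ⟨∑ j, N j, fun i => ⟨_, h2 i⟩, fun i => rfl⟩
  have hp0 : (p : ℚ_[p]) ≠ 0 := Nat.cast_ne_zero.mpr hp.out.ne_zero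
  obtain ⟨c, hc0, hc⟩ := exists_rational_relation Φ (by omega) hσ
  obtain ⟨j₀, hj₀⟩ : ∃ j, c j ≠ 0 := by
    by_contra hcon
    push Not at hcon
    exact hc0 (funext hcon)
  obtain ⟨c', hc'0, hc'⟩ := exists_rational_relation (J := {j : J // j ≠ j₀}) (fun j => Φ j)
    (by rw [Fintype.card_subtype_compl, Fintype.card_subtype_eq]; omega)
    (fun σ => by
      obtain ⟨T, hT, h⟩ := hσ σ
      exact ⟨T, hT, fun j u => h j u⟩)
  obtain ⟨N, d, hd⟩ := clear c
  obtain ⟨N', d', hd'⟩ := clear c'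
  refine ⟨d, fun j => if h : j ≠ j₀ then d' ⟨j, h⟩ else 0, ?_, ?_, ?_⟩
  · intro u
    simp only [hd, map_mul, mul_assoc, ← Finset.mul_sum, hc u, mul_zero]
  · intro u
    have h1 : ∑ j, algebraMap ℚ_[p] (PadicAlgCl p)
        ((if h : j ≠ j₀ then d' ⟨j, h⟩ else 0 : ℤ_[p]) : ℚ_[p]) * Φ j u =
        ∑ j : {j : J // j ≠ j₀}, algebraMap ℚ_[p] (PadicAlgCl p) (d' j : ℚ_[p]) * Φ j u := by
      rw [Fintype.sum_eq_add_sum_subtype_ne _ j₀]
      have h2 : algebraMap ℚ_[p] (PadicAlgCl p)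
          ((if h : j₀ ≠ j₀ then d' ⟨j₀, h⟩ else 0 : ℤ_[p]) : ℚ_[p]) * Φ j₀ u = 0 := by
        rw [dif_neg (fun h => h rfl), PadicInt.coe_zero, map_zero, zero_mul]
      rw [h2, zero_add]
      refine Finset.sum_congr rfl fun j _ => ?_
      rw [dif_pos j.2]
    rw [h1]
    simp only [hd', map_mul, mul_assoc, ← Finset.mul_sum, hc' u, mul_zero]
  · intro a b hab
    have ha : a = 0 := by
      have h1 := congrFun hab j₀
      simp only [Pi.add_apply, Pi.smul_apply, smul_eq_mul, Pi.zero_apply, ne_eq, not_true_eq_false,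
        dite_false, mul_zero, add_zero] at h1
      refine (mul_eq_zero.mp h1).resolve_right fun h2 => ?_
      have h3 := hd j₀
      rw [h2, PadicInt.coe_zero] at h3
      exact (mul_ne_zero (pow_ne_zero _ hp0) hj₀) h3.symm
    refine ⟨ha, ?_⟩
    obtain ⟨j₁, hj₁⟩ : ∃ j, c' j ≠ 0 := by
      by_contra hcon
      push Not at hcon
      exact hc'0 (funext hcon)
    have h1 := congrFun hab j₁
    rw [ha] at h1
    simp only [Pi.add_apply, Pi.smul_apply, smul_eq_mul, Pi.zero_apply, zero_mul, zero_add,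
      dif_pos j₁.2] at h1
    refine (mul_eq_zero.mp h1).resolve_right fun h2 => ?_
    have h3 := hd' j₁
    rw [h2, PadicInt.coe_zero] at h3
    exact (mul_ne_zero (pow_ne_zero _ hp0) hj₁) h3.symm

end Pool.Agent.J4H74.T3
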