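import Mathlib
import Pool.Agent.J4H74.T3.Endo

set_option autoImplicit false

/-!
# Orbits which span a power of an irreducible representation
-/

namespace Pool.Agent.J4H74.T3

section

variable {G : Type} [Group G] [Fintype G] {V : Type} [AddCommGroup V] [Module ℚ V]
  (σ : Representation ℚ G V)

/-- A criterion for an orbit to span. -/
theorem span_orbit (v : V) (h : ∀ P : Module.End ℚ V, Cm σ P → P v = 0 → P = 0) :
    Submodule.span ℚ (Set.range fun g => σ g v) = ⊤ := by
  classical
  set S := Submodule.span ℚ (Set.range fun g => σ g v) with hS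
  have hvS : v ∈ S := by
    apply Submodule.subset_span
    exact ⟨1, by simp⟩
  have hst : ∀ g, ∀ x ∈ S, σ g x ∈ S := by
    intro g x hx
    induction hx using Submodule.span_induction with
    | mem x hx =>
      obtain ⟨g', rfl⟩ := hx
      apply Submodule.subset_span
      exact ⟨g * g', by simp⟩
    | zero => rw [map_zero]; exact S.zero_mem
    | add x y _ _ hx hy => rw [map_add]; exact S.add_mem hx hy
    | smul q x _ hx => rw [map_smul]; exact S.smul_mem _ hx
  obtain ⟨C, hC⟩ := Submodule.exists_isCompl S
  let Q : V →ₗ[ℚ] V := S.subtype ∘ₗ Submodule.projectionOnto S C hC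
  have hQ1 : ∀ x ∈ S, Q x = x := by
    intro x hx
    show ((Submodule.projectionOnto S C hC x : S) : V) = x
    have := Submodule.projectionOnto_apply_left hC ⟨x, hx⟩
    rw [this]
  have hQ2 : ∀ x, Q x ∈ S := fun x => (Submodule.projectionOnto S C hC x).2
  let R : V →ₗ[ℚ] V := ∑ g, σ g ∘ₗ Q ∘ₗ σ g⁻¹
  have hR : ∀ x, R x = ∑ g, σ g (Q (σ g⁻¹ x)) := by
    intro x
    rw [LinearMap.sum_apply]
    rfl
  have hRc : ∀ h x, R (σ h x) = σ h (R x) := by
    intro h x
    rw [hR, hR, map_sum, ← Equiv.sum_comp (Equiv.mulLeft h)]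
    refine Finset.sum_congr rfl fun g _ => ?_
    rw [Equiv.coe_mulLeft, mul_inv_rev, map_mul, map_mul, Module.End.mul_apply,
      Module.End.mul_apply, ← Module.End.mul_apply (σ h⁻¹), ← map_mul, inv_mul_cancel, map_one,
      Module.End.one_apply]
  have hRS : ∀ x ∈ S, R x = (Fintype.card G : ℚ) • x := by
    intro x hx
    rw [hR]
    have h1 : ∀ g, σ g (Q (σ g⁻¹ x)) = x := by
      intro g
      rw [hQ1 _ (hst _ _ hx), ← Module.End.mul_apply, ← map_mul, mul_inv_cancel, map_one,
        Module.End.one_apply]
    rw [Finset.sum_congr rfl fun g _ => h1 g, Finset.sum_const, Finset.card_univ,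
      ← Nat.cast_smul_eq_nsmul ℚ]
  have hP := h ((Fintype.card G : ℚ) • LinearMap.id - R) (by
    intro g y
    rw [LinearMap.sub_apply, LinearMap.sub_apply, LinearMap.smul_apply, LinearMap.smul_apply,
      LinearMap.id_apply, LinearMap.id_apply, hRc, map_sub, map_smul]) (by
    rw [LinearMap.sub_apply, LinearMap.smul_apply, LinearMap.id_apply, hRS v hvS, sub_self])
  rw [eq_top_iff]
  intro x _
  have h2 := congrArg (fun f => f x) hP
  rw [LinearMap.sub_apply, LinearMap.smul_apply, LinearMap.id_apply, LinearMap.zero_apply,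
    sub_eq_zero] at h2
  have h3 : R x ∈ S := by
    rw [hR]
    exact Submodule.sum_mem _ fun g _ => hst _ _ (hQ2 _)
  rw [← h2] at h3
  have h4 : (Fintype.card G : ℚ) ≠ 0 := by exact_mod_cast Fintype.card_ne_zero
  have h5 := S.smul_mem ((Fintype.card G : ℚ)⁻¹) h3
  rwa [smul_smul, inv_mul_cancel₀ h4, one_smul] at h5

end

section

variable {G : Type} [Group G] {W : Type} [AddCommGroup W] [Module ℚ W]

/-- The commutant of a representation. -/
def commutant (ρ : Representation ℚ G W) : Submodule ℚ (Module.End ℚ W) where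
  carrier := {e | Cm ρ e}
  add_mem' := fun ha hb => ha.add hb
  zero_mem' := fun g y => by rw [LinearMap.zero_apply, LinearMap.zero_apply, map_zero]
  smul_mem' := fun q e he g y => by
    rw [LinearMap.smul_apply, LinearMap.smul_apply, he, map_smul]

/-- Vectors which are independent over the commutant. -/
def CInd (ρ : Representation ℚ G W) {k : ℕ} (w : Fin k → W) : Prop :=
  ∀ e : Fin k → Module.End ℚ W, (∀ i, Cm ρ (e i)) → ∑ i, e i (w i) = 0 → e = 0

variable {ρ : Representation ℚ G W} [FiniteDimensional ℚ W] [Nontrivial W]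

theorem one_mem_commutant : (1 : Module.End ℚ W) ∈ commutant ρ := fun g y => rfl

theorem commutant_pos : 0 < Module.finrank ℚ (commutant ρ) := by
  have : Nontrivial (commutant ρ) := by
    refine ⟨⟨⟨1, one_mem_commutant⟩, 0, fun h => ?_⟩⟩
    exact one_ne_zero (congrArg Subtype.val h)
  exact Module.finrank_pos

/-- Inverses in the commutant. -/
theorem exists_inv (hirr : Irr ρ) {e : Module.End ℚ W} (he : Cm ρ e) (h0 : e ≠ 0) :
    ∃ f : Module.End ℚ W, Cm ρ f ∧ ∀ x, f (e x) = x := by
  have hinj := he.injective hirr h0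
  let D : W ≃ₗ[ℚ] W := LinearEquiv.ofInjectiveEndo e hinj
  have hD : ∀ u, D u = e u := fun u => rfl
  refine ⟨D.symm, ?_, fun x => ?_⟩
  · intro g y
    apply D.injective
    show D (D.symm (ρ g y)) = D (ρ g (D.symm y))
    rw [LinearEquiv.apply_symm_apply, hD, he, ← hD, LinearEquiv.apply_symm_apply]
  · show D.symm (D x) = x
    rw [LinearEquiv.symm_apply_apply]

theorem exists_cind (hirr : Irr ρ) : ∀ k : ℕ, (k = 0 ∨
    (k - 1) * Module.finrank ℚ (commutant ρ) < Module.finrank ℚ W) → ∃ w : Fin k → W, CInd ρ w := by
  intro k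
  induction k with
  | zero =>
    intro _
    exact ⟨Fin.elim0, fun e _ _ => funext fun i => i.elim0⟩
  | succ k ih =>
    intro hk
    have hk' : k * Module.finrank ℚ (commutant ρ) < Module.finrank ℚ W := by
      rcases hk with hk | hk
      · omega
      · simpa using hk
    obtain ⟨w, hw⟩ := ih (by
      by_cases h0 : k = 0
      · exact Or.inl h0
      · right
        refine lt_of_le_of_lt ?_ hk'
        exact Nat.mul_le_mul_right _ (Nat.sub_le _ _))
    let T : (Fin k → commutant ρ) →ₗ[ℚ] W :=
      { toFun := fun e => ∑ i, (e i : Module.End ℚ W) (w i)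
        map_add' := fun e e' => by
          simp only [Pi.add_apply, Submodule.coe_add, LinearMap.add_apply, Finset.sum_add_distrib]
        map_smul' := fun q e => by
          simp only [Pi.smul_apply, Submodule.coe_smul, LinearMap.smul_apply, Finset.smul_sum,
            RingHom.id_apply] }
    have hlt : Module.finrank ℚ (LinearMap.range T) < Module.finrank ℚ W := by
      refine lt_of_le_of_lt (LinearMap.finrank_range_le T) ?_
      rw [Module.finrank_pi_fintype, Finset.sum_const, Finset.card_univ, Fintype.card_fin,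
        smul_eq_mul]
      exact hk'
    obtain ⟨x, hx⟩ : ∃ x, x ∉ LinearMap.range T := by
      by_contra hcon
      push Not at hcon
      have h1 : LinearMap.range T = ⊤ := eq_top_iff.mpr fun x _ => hcon x
      rw [h1, finrank_top] at hlt
      exact lt_irrefl _ hlt
    refine ⟨Fin.snoc w x, fun e he hsum => ?_⟩
    rw [Fin.sum_univ_castSucc] at hsum
    simp only [Fin.snoc_castSucc, Fin.snoc_last] at hsum
    by_cases h0 : e (Fin.last k) = 0
    · rw [h0, LinearMap.zero_apply, add_zero] at hsum
      have h1 := hw (fun i => e i.castSucc) (fun i => he _) hsum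
      funext i
      refine Fin.lastCases ?_ (fun i => ?_) i
      · exact h0
      · exact congrFun h1 i
    · exfalso
      apply hx
      obtain ⟨f, hf, hfe⟩ := exists_inv hirr (he (Fin.last k)) h0
      refine ⟨fun i => ⟨-(f * e i.castSucc), fun g y => ?_⟩, ?_⟩
      · rw [LinearMap.neg_apply, LinearMap.neg_apply, map_neg, (hf.mul (he _)) g y]
      · show ∑ i, (-(f * e i.castSucc)) (w i) = x
        simp only [LinearMap.neg_apply, Module.End.mul_apply, Finset.sum_neg_distrib]
        rw [← map_sum, ← map_neg]
        have h2 : -∑ i : Fin k, e i.castSucc (w i) = e (Fin.last k) x := by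
          rw [neg_eq_iff_add_eq_zero]
          exact hsum
        rw [h2, hfe]

/-- If the commutant has smaller dimension than the representation, it has at most half of it. -/
theorem two_mul_le (hirr : Irr ρ) (h : Module.finrank ℚ (commutant ρ) < Module.finrank ℚ W) :
    2 * Module.finrank ℚ (commutant ρ) ≤ Module.finrank ℚ W := by
  obtain ⟨w, hw⟩ := exists_cind hirr 2 (Or.inr (by simpa using h))
  let T : (Fin 2 → commutant ρ) →ₗ[ℚ] W :=
    { toFun := fun e => ∑ i, (e i : Module.End ℚ W) (w i)
      map_add' := fun e e' => by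
        simp only [Pi.add_apply, Submodule.coe_add, LinearMap.add_apply, Finset.sum_add_distrib]
      map_smul' := fun q e => by
        simp only [Pi.smul_apply, Submodule.coe_smul, LinearMap.smul_apply, Finset.smul_sum,
          RingHom.id_apply] }
  have hT : Function.Injective T := by
    rw [← LinearMap.ker_eq_bot, LinearMap.ker_eq_bot']
    intro e he
    have h1 := hw (fun i => (e i : Module.End ℚ W)) (fun i => (e i).2) he
    funext i
    exact Subtype.ext (congrFun h1 i)
  have := LinearMap.finrank_le_finrank_of_injective hT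
  rwa [Module.finrank_pi_fintype, Finset.sum_const, Finset.card_univ, Fintype.card_fin,
    smul_eq_mul] at this

theorem le_of_irr (hirr : Irr ρ) :
    Module.finrank ℚ (commutant ρ) ≤ Module.finrank ℚ W := by
  obtain ⟨x, hx⟩ := exists_ne (0 : W)
  let T : commutant ρ →ₗ[ℚ] W :=
    { toFun := fun e => (e : Module.End ℚ W) x
      map_add' := fun e e' => rfl
      map_smul' := fun q e => rfl }
  have hT : Function.Injective T := by
    rw [← LinearMap.ker_eq_bot, LinearMap.ker_eq_bot']
    intro e he
    by_contra h0
    have h1 : (e : Module.End ℚ W) ≠ 0 := fun h => h0 (Subtype.ext h)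
    obtain ⟨f, hf, hfe⟩ := exists_inv hirr e.2 h1
    apply hx
    rw [← hfe x]
    have : (e : Module.End ℚ W) x = 0 := he
    rw [this, map_zero]
  exact LinearMap.finrank_le_finrank_of_injective hT

end

end Pool.Agent.J4H74.T3
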