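import Mathlib
import Pool.Agent.J4H74.T3.Span

set_option autoImplicit false
set_option linter.unusedSectionVars false

/-!
# Orbits which span a power of an irreducible representation
-/

namespace Pool.Agent.J4H74.T3

section

variable {G : Type} [Group G] {W W₁ W₂ : Type} [AddCommGroup W] [Module ℚ W]
  [AddCommGroup W₁] [Module ℚ W₁] [AddCommGroup W₂] [Module ℚ W₂]

/-- The `m`-th power of a representation. -/
def powRep (ρ : Representation ℚ G W) (m : ℕ) : Representation ℚ G (Fin m → W) where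
  toFun g := LinearMap.pi fun i => (ρ g) ∘ₗ LinearMap.proj i
  map_one' := by
    apply LinearMap.ext
    intro v
    funext i
    show ρ 1 (v i) = v i
    rw [map_one, Module.End.one_apply]
  map_mul' := by
    intro g h
    apply LinearMap.ext
    intro v
    funext i
    show ρ (g * h) (v i) = ρ g (ρ h (v i))
    rw [map_mul, Module.End.mul_apply]

theorem powRep_apply (ρ : Representation ℚ G W) (m : ℕ) (g : G) (v : Fin m → W) (i : Fin m) :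
    powRep ρ m g v i = ρ g (v i) := rfl

/-- Isomorphic representations. -/
def IsoRep (ρ₁ : Representation ℚ G W₁) (ρ₂ : Representation ℚ G W₂) : Prop :=
  ∃ e : W₁ ≃ₗ[ℚ] W₂, ∀ g x, e (ρ₁ g x) = ρ₂ g (e x)

theorem schur {ρ₁ : Representation ℚ G W₁} {ρ₂ : Representation ℚ G W₂} (h₁ : Irr ρ₁)
    (h₂ : Irr ρ₂) (hn : ¬ IsoRep ρ₁ ρ₂) (T : W₁ →ₗ[ℚ] W₂) (hT : ∀ g x, T (ρ₁ g x) = ρ₂ g (T x)) :
    T = 0 := by
  rcases h₁ (LinearMap.ker T) (fun g y hy => by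
    rw [LinearMap.mem_ker] at hy ⊢
    rw [hT, hy, map_zero]) with h | h
  · rcases h₂ (LinearMap.range T) (by
      rintro g _ ⟨y, rfl⟩
      exact ⟨ρ₁ g y, hT g y⟩) with h' | h'
    · exact LinearMap.range_eq_bot.mp h'
    · exfalso
      apply hn
      exact ⟨LinearEquiv.ofBijective T ⟨LinearMap.ker_eq_bot.mp h, LinearMap.range_eq_top.mp h'⟩,
        hT⟩
  · exact LinearMap.ker_eq_top.mp h

theorem schur' {ρ₁ : Representation ℚ G W₁} {ρ₂ : Representation ℚ G W₂} (h₁ : Irr ρ₁)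
    (h₂ : Irr ρ₂) (hn : ¬ IsoRep ρ₁ ρ₂) (T : W₂ →ₗ[ℚ] W₁) (hT : ∀ g x, T (ρ₂ g x) = ρ₁ g (T x)) :
    T = 0 := by
  apply schur h₂ h₁ _ T hT
  rintro ⟨e, he⟩
  apply hn
  refine ⟨e.symm, fun g x => ?_⟩
  apply e.injective
  rw [LinearEquiv.apply_symm_apply, he, LinearEquiv.apply_symm_apply]

/-- The matrix of a linear map between powers. -/
theorem map_eq_sum {m n : ℕ} (P : (Fin m → W₁) →ₗ[ℚ] (Fin n → W₂)) (v : Fin m → W₁) (i : Fin n) :
    P v i = ∑ j, (LinearMap.proj i ∘ₗ P ∘ₗ LinearMap.single ℚ (fun _ => W₁) j) (v j) := by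
  conv_lhs => rw [← Finset.univ_sum_single v]
  rw [map_sum, Finset.sum_apply]
  rfl

theorem block_comm {m n : ℕ} {ρ₁ : Representation ℚ G W₁} {ρ₂ : Representation ℚ G W₂}
    (P : (Fin m → W₁) →ₗ[ℚ] (Fin n → W₂))
    (hP : ∀ g v, P (powRep ρ₁ m g v) = powRep ρ₂ n g (P v)) (i : Fin n) (j : Fin m) (g : G)
    (x : W₁) : (LinearMap.proj i ∘ₗ P ∘ₗ LinearMap.single ℚ (fun _ => W₁) j) (ρ₁ g x) =
      ρ₂ g ((LinearMap.proj i ∘ₗ P ∘ₗ LinearMap.single ℚ (fun _ => W₁) j) x) := by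
  have h1 : (Pi.single j (ρ₁ g x) : Fin m → W₁) = powRep ρ₁ m g (Pi.single j x) := by
    funext k
    rw [powRep_apply]
    by_cases hk : k = j
    · subst hk; rw [Pi.single_eq_same, Pi.single_eq_same]
    · rw [Pi.single_eq_of_ne hk, Pi.single_eq_of_ne hk, map_zero]
  show P (Pi.single j (ρ₁ g x)) i = ρ₂ g (P (Pi.single j x) i)
  rw [h1, hP, powRep_apply]

theorem eq_zero_of_blocks {m n : ℕ} (P : (Fin m → W₁) →ₗ[ℚ] (Fin n → W₂))
    (h : ∀ i j, LinearMap.proj i ∘ₗ P ∘ₗ LinearMap.single ℚ (fun _ => W₁) j = 0) : P = 0 := by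
  apply LinearMap.ext
  intro v
  funext i
  rw [map_eq_sum]
  simp only [h, LinearMap.zero_apply, Finset.sum_const_zero, Pi.zero_apply]

theorem eq_zero_of_cind {ρ : Representation ℚ G W} {m n : ℕ} {w : Fin m → W} (hw : CInd ρ w)
    (P : (Fin m → W) →ₗ[ℚ] (Fin n → W)) (hP : ∀ g v, P (powRep ρ m g v) = powRep ρ n g (P v))
    (h0 : P w = 0) : P = 0 := by
  apply eq_zero_of_blocks
  intro i j
  have h1 := hw (fun j => LinearMap.proj i ∘ₗ P ∘ₗ LinearMap.single ℚ (fun _ => W) j)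
    (fun j g x => block_comm P hP i j g x) (by
      rw [← map_eq_sum, h0, Pi.zero_apply])
  exact congrFun h1 j

variable [Fintype G]

theorem span_pow {ρ : Representation ℚ G W} {m : ℕ} {w : Fin m → W} (hw : CInd ρ w) :
    Submodule.span ℚ {v : Fin m → W | ∃ g, v = fun i => ρ g (w i)} = ⊤ := by
  have h1 := span_orbit (powRep ρ m) w (fun P hP h0 => eq_zero_of_cind hw P hP h0)
  rw [← h1]
  congr 1
  ext v
  constructor
  · rintro ⟨g, rfl⟩
    exact ⟨g, rfl⟩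
  · rintro ⟨g, rfl⟩
    exact ⟨g, rfl⟩

theorem span_pair {ρ₁ : Representation ℚ G W₁} {ρ₂ : Representation ℚ G W₂} (h₁ : Irr ρ₁)
    (h₂ : Irr ρ₂) (hn : ¬ IsoRep ρ₁ ρ₂) {w1 : Fin 2 → W₁} {w2 : Fin 2 → W₂} (hw1 : CInd ρ₁ w1)
    (hw2 : CInd ρ₂ w2) :
    Submodule.span ℚ {v : (Fin 2 → W₁) × (Fin 2 → W₂) |
      ∃ g, v = (fun i => ρ₁ g (w1 i), fun i => ρ₂ g (w2 i))} = ⊤ := by
  have h1 := span_orbit ((powRep ρ₁ 2).prod (powRep ρ₂ 2)) (w1, w2) (by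
    intro P hP h0
    let A : (Fin 2 → W₁) →ₗ[ℚ] (Fin 2 → W₁) := LinearMap.fst ℚ _ _ ∘ₗ P ∘ₗ LinearMap.inl ℚ _ _
    let B : (Fin 2 → W₂) →ₗ[ℚ] (Fin 2 → W₁) := LinearMap.fst ℚ _ _ ∘ₗ P ∘ₗ LinearMap.inr ℚ _ _
    let C : (Fin 2 → W₁) →ₗ[ℚ] (Fin 2 → W₂) := LinearMap.snd ℚ _ _ ∘ₗ P ∘ₗ LinearMap.inl ℚ _ _
    let D : (Fin 2 → W₂) →ₗ[ℚ] (Fin 2 → W₂) := LinearMap.snd ℚ _ _ ∘ₗ P ∘ₗ LinearMap.inr ℚ _ _
    have hPx : ∀ x y, P (x, y) = (A x + B y, C x + D y) := by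
      intro x y
      have h2 : ((x, y) : (Fin 2 → W₁) × (Fin 2 → W₂)) = (x, 0) + (0, y) := by
        rw [Prod.mk_add_mk, add_zero, zero_add]
      rw [h2, map_add]
      rfl
    have e1 : ∀ g (x : Fin 2 → W₁), P (powRep ρ₁ 2 g x, 0) =
        ((powRep ρ₁ 2).prod (powRep ρ₂ 2)) g (P (x, 0)) := by
      intro g x
      rw [← hP]
      congr 1
      exact Prod.ext rfl (map_zero (powRep ρ₂ 2 g)).symm
    have e2 : ∀ g (y : Fin 2 → W₂), P (0, powRep ρ₂ 2 g y) =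
        ((powRep ρ₁ 2).prod (powRep ρ₂ 2)) g (P (0, y)) := by
      intro g y
      rw [← hP]
      congr 1
      exact Prod.ext (map_zero (powRep ρ₁ 2 g)).symm rfl
    have hA : ∀ g v, A (powRep ρ₁ 2 g v) = powRep ρ₁ 2 g (A v) := fun g v =>
      congrArg Prod.fst (e1 g v)
    have hB : ∀ g v, B (powRep ρ₂ 2 g v) = powRep ρ₁ 2 g (B v) := fun g v =>
      congrArg Prod.fst (e2 g v)
    have hC : ∀ g v, C (powRep ρ₁ 2 g v) = powRep ρ₂ 2 g (C v) := fun g v =>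
      congrArg Prod.snd (e1 g v)
    have hD : ∀ g v, D (powRep ρ₂ 2 g v) = powRep ρ₂ 2 g (D v) := fun g v =>
      congrArg Prod.snd (e2 g v)
    have hB0 : B = 0 := eq_zero_of_blocks B fun i j =>
      schur' h₁ h₂ hn _ (fun g x => block_comm B hB i j g x)
    have hC0 : C = 0 := eq_zero_of_blocks C fun i j =>
      schur h₁ h₂ hn _ (fun g x => block_comm C hC i j g x)
    rw [hPx, hB0, hC0, LinearMap.zero_apply, LinearMap.zero_apply, add_zero, zero_add,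
      Prod.mk_eq_zero] at h0
    have hA0 := eq_zero_of_cind hw1 A hA h0.1
    have hD0 := eq_zero_of_cind hw2 D hD h0.2
    apply LinearMap.ext
    rintro ⟨x, y⟩
    rw [hPx, hA0, hB0, hC0, hD0]
    simp)
  rw [← h1]
  congr 1
  ext v
  constructor
  · rintro ⟨g, rfl⟩
    exact ⟨g, rfl⟩
  · rintro ⟨g, rfl⟩
    exact ⟨g, rfl⟩

end

end Pool.Agent.J4H74.T3
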