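import Mathlib
import Pool.Agent.J4H74.T3.Canon
import Pool.Agent.J4H74.T3.Span2

set_option autoImplicit false

/-!
# Three roots of a polynomial with a doubly transitive Galois group
-/

namespace Pool.Agent.J4H74.T3

open NumberField Polynomial Pool.Agent.H440R3 Pool.Agent.H492R2.Tor

/-- The key computation. -/
theorem doubly_key {X : Type} [Fintype X] [DecidableEq X] (H : Subgroup (Equiv.Perm X))
    (hdt : ∀ a b a' b' : X, a ≠ b → a' ≠ b' → ∃ h ∈ H, h a = a' ∧ h b = b')
    (h4 : 4 ≤ Fintype.card X) (x : Fin 3 → X) (hx : Function.Injective x)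
    (φ : Fin 3 → X → ℚ) (h0 : ∀ i, ∑ b, φ i b = 0) (hrel : ∀ h ∈ H, ∑ i, φ i (h (x i)) = 0) :
    φ = 0 := by
  classical
  funext i₀ a
  show φ i₀ a = 0
  let S : Finset (Equiv.Perm X) := Finset.univ.filter fun h => h ∈ H ∧ h a = a
  have hS : ∀ h, h ∈ S ↔ h ∈ H ∧ h a = a := fun h => by simp [S]
  let ψ : Fin 3 → X → ℚ := fun i b => ∑ h ∈ S, φ i (h b)
  have hψa : ∀ i, ψ i a = S.card * φ i a := by
    intro i
    show ∑ h ∈ S, φ i (h a) = _
    rw [Finset.sum_congr rfl fun h hh => by rw [((hS h).mp hh).2], Finset.sum_const, nsmul_eq_mul]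
  have hψc : ∀ i b b', b ≠ a → b' ≠ a → ψ i b = ψ i b' := by
    intro i b b' hb hb'
    obtain ⟨h₀, hh₀, h1, h2⟩ := hdt a b' a b (Ne.symm hb') (Ne.symm hb)
    show ∑ h ∈ S, φ i (h b) = ∑ h ∈ S, φ i (h b')
    refine Finset.sum_bij' (fun h _ => h * h₀) (fun h _ => h * h₀⁻¹) ?_ ?_ ?_ ?_ ?_
    · intro h hh
      rw [hS] at hh ⊢
      exact ⟨H.mul_mem hh.1 hh₀, by rw [Equiv.Perm.mul_apply, h1, hh.2]⟩
    · intro h hh
      rw [hS] at hh ⊢
      refine ⟨H.mul_mem hh.1 (H.inv_mem hh₀), ?_⟩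
      rw [Equiv.Perm.mul_apply]
      have : h₀⁻¹ a = a := by rw [Equiv.Perm.inv_eq_iff_eq, h1]
      rw [this, hh.2]
    · intro h _
      rw [mul_inv_cancel_right]
    · intro h _
      rw [inv_mul_cancel_right]
    · intro h _
      rw [Equiv.Perm.mul_apply, h2]
  have hψs : ∀ i, ∑ b, ψ i b = 0 := by
    intro i
    show ∑ b, ∑ h ∈ S, φ i (h b) = 0
    rw [Finset.sum_comm]
    refine Finset.sum_eq_zero fun h _ => ?_
    rw [Equiv.sum_comp h (φ i), h0]
  have hψr : ∀ g ∈ H, ∑ i, ψ i (g (x i)) = 0 := by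
    intro g hg
    show ∑ i, ∑ h ∈ S, φ i (h (g (x i))) = 0
    rw [Finset.sum_comm]
    refine Finset.sum_eq_zero fun h hh => ?_
    exact hrel (h * g) (H.mul_mem ((hS h).mp hh).1 hg)
  obtain ⟨b₁, hb₁⟩ : ∃ b, b ≠ a := by
    by_contra hcon
    push Not at hcon
    have : Fintype.card X ≤ 1 := Fintype.card_le_one_iff.mpr fun u v => by rw [hcon u, hcon v]
    omega
  have hψk : ∀ i b, b ≠ a → ψ i b = ψ i b₁ := fun i b hb => hψc i b b₁ hb hb₁
  have hsum : ∀ i, ψ i a + (Fintype.card X - 1 : ℚ) * ψ i b₁ = 0 := by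
    intro i
    have h1 := hψs i
    rw [← Finset.add_sum_erase _ _ (Finset.mem_univ a)] at h1
    rw [Finset.sum_congr rfl fun b hb => hψk i b (Finset.ne_of_mem_erase hb), Finset.sum_const,
      Finset.card_erase_of_mem (Finset.mem_univ a), Finset.card_univ, nsmul_eq_mul] at h1
    rw [← h1]
    push_cast [Nat.cast_sub (by omega : 1 ≤ Fintype.card X)]
    ring
  -- transitivity
  have htr : ∀ b, ∃ g ∈ H, g b = a := by
    intro b
    obtain ⟨b', hb'⟩ : ∃ b', b ≠ b' := by
      by_contra hcon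
      push Not at hcon
      have : Fintype.card X ≤ 1 := Fintype.card_le_one_iff.mpr fun u v => by
        rw [← hcon u, ← hcon v]
      omega
    obtain ⟨g, hg, h1, -⟩ := hdt b b' a b₁ hb' (Ne.symm hb₁)
    exact ⟨g, hg, h1⟩
  -- all `x i` are moved away from `a`
  have hk : ∑ i, ψ i b₁ = 0 := by
    obtain ⟨b₀, hb₀⟩ : ∃ b₀, ∀ i, x i ≠ b₀ := by
      by_contra hcon
      push Not at hcon
      have h1 : Function.Surjective x := hcon
      have := Fintype.card_le_of_surjective x h1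
      rw [Fintype.card_fin] at this
      omega
    obtain ⟨g, hg, h1⟩ := htr b₀
    rw [← hψr g hg]
    refine Finset.sum_congr rfl fun i _ => ?_
    rw [hψk i (g (x i)) (fun h => hb₀ i (g.injective (h.trans h1.symm)))]
  have hk' : ψ i₀ a = ψ i₀ b₁ := by
    obtain ⟨g, hg, h1⟩ := htr (x i₀)
    have h2 := hψr g hg
    rw [← Finset.add_sum_erase _ _ (Finset.mem_univ i₀), h1] at h2
    rw [← Finset.add_sum_erase _ _ (Finset.mem_univ i₀)] at hk
    have h3 : ∑ i ∈ Finset.univ.erase i₀, ψ i (g (x i)) = ∑ i ∈ Finset.univ.erase i₀, ψ i b₁ := by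
      refine Finset.sum_congr rfl fun i hi => ?_
      apply hψk
      intro h
      apply Finset.ne_of_mem_erase hi
      apply hx
      apply g.injective
      rw [h, h1]
    rw [h3] at h2
    linarith
  have h5 := hsum i₀
  rw [hk'] at h5
  have h6 : (Fintype.card X : ℚ) * ψ i₀ b₁ = 0 := by linear_combination h5
  have h7 : (Fintype.card X : ℚ) ≠ 0 := by
    have : 0 < Fintype.card X := by omega
    exact_mod_cast this.ne'
  have h8 := (mul_eq_zero.mp h6).resolve_left h7
  rw [h8, hψa] at hk'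
  have h9 : (S.card : ℚ) ≠ 0 := by
    have : 0 < S.card := Finset.card_pos.mpr ⟨1, (hS 1).mpr ⟨H.one_mem, rfl⟩⟩
    exact_mod_cast this.ne'
  exact (mul_eq_zero.mp hk').resolve_left h9

section

variable (f : ℚ[X])

/-- The roots. -/
abbrev Rt : Type := {x : Qb // aeval x f = 0}

theorem aeval_gal (g : Gam) {x : Qb} (hx : aeval x f = 0) : aeval (g x) f = 0 := by
  have h := Polynomial.aeval_algHom_apply (g : Qb →ₐ[ℚ] Qb) x f
  rw [hx, map_zero] at h
  exact h

/-- The permutation of the roots. -/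
noncomputable def prm : Gam →* Equiv.Perm (Rt f) where
  toFun g :=
    { toFun := fun x => ⟨g x.1, aeval_gal f g x.2⟩
      invFun := fun x => ⟨g⁻¹ x.1, aeval_gal f g⁻¹ x.2⟩
      left_inv := fun x => Subtype.ext (by
        show g⁻¹ (g x.1) = x.1
        rw [← AlgEquiv.mul_apply, inv_mul_cancel, AlgEquiv.one_apply])
      right_inv := fun x => Subtype.ext (by
        show g (g⁻¹ x.1) = x.1
        rw [← AlgEquiv.mul_apply, mul_inv_cancel, AlgEquiv.one_apply]) }
  map_one' := rfl
  map_mul' _ _ := rfl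

theorem prm_apply (g : Gam) (x : Rt f) : ((prm f g x : Rt f) : Qb) = g x.1 := rfl

/-- The constant functions. -/
def cst : Submodule ℚ (Rt f → ℚ) := Submodule.span ℚ {fun _ => 1}

theorem mem_cst {v : Rt f → ℚ} (h : v ∈ cst f) (a b : Rt f) : v a = v b := by
  unfold cst at h
  obtain ⟨q, rfl⟩ := Submodule.mem_span_singleton.mp h
  rfl

/-- The permutation module modulo constants. -/
abbrev Wd : Type := (Rt f → ℚ) ⧸ cst f

/-- The action on functions. -/
noncomputable def preD : Representation ℚ Gam (Rt f → ℚ) where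
  toFun g := LinearMap.funLeft ℚ ℚ (⇑(prm f g)⁻¹)
  map_one' := by
    apply LinearMap.ext
    intro v
    funext x
    simp [LinearMap.funLeft]
  map_mul' := by
    intro g h
    apply LinearMap.ext
    intro v
    funext x
    simp [LinearMap.funLeft]

theorem preD_apply (g : Gam) (v : Rt f → ℚ) (x : Rt f) : preD f g v x = v ((prm f g)⁻¹ x) := rfl

theorem cst_le (g : Gam) : cst f ≤ (cst f).comap (preD f g) := by
  unfold cst
  rw [Submodule.span_le]
  rintro _ rfl
  exact Submodule.subset_span rfl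

/-- The action. -/
noncomputable def rhoD : Representation ℚ Gam (Wd f) where
  toFun g := (cst f).mapQ (cst f) (preD f g) (cst_le f g)
  map_one' := by
    apply Submodule.linearMap_qext
    apply LinearMap.ext
    intro v
    show (cst f).mkQ (preD f 1 v) = (cst f).mkQ v
    rw [map_one]
    rfl
  map_mul' := by
    intro g h
    apply Submodule.linearMap_qext
    apply LinearMap.ext
    intro v
    show (cst f).mkQ (preD f (g * h) v) = (cst f).mkQ (preD f g (preD f h v))
    rw [map_mul]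
    rfl

theorem rhoD_mk (g : Gam) (v : Rt f → ℚ) : rhoD f g ((cst f).mkQ v) = (cst f).mkQ (preD f g v) :=
  rfl

open Classical in
/-- The class of a root. -/
noncomputable def ed (x : Rt f) : Wd f := (cst f).mkQ (Pi.single x 1)

theorem rhoD_ed (g : Gam) (x : Rt f) : rhoD f g (ed f x) = ed f (prm f g x) := by
  classical
  unfold ed
  rw [rhoD_mk]
  congr 1
  funext y
  rw [preD_apply, Pi.single_apply, Pi.single_apply]
  congr 1
  rw [Equiv.Perm.inv_eq_iff_eq]

instance finite_Rt [hf : Fact (Irreducible f)] : Finite (Rt f) := by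
  have h0 : f ≠ 0 := hf.out.ne_zero
  have : (f.rootSet Qb).Finite := Polynomial.rootSet_finite f Qb
  exact Set.Finite.subset this (fun x hx => by
    rw [Polynomial.mem_rootSet]
    exact ⟨h0, hx⟩) |>.to_subtype

theorem card_Rt (hf : Irreducible f) : Nat.card (Rt f) = f.natDegree := by
  have h1 := Polynomial.card_rootSet_eq_natDegree (K := Qb) (p := f)
    (hf.separable) (IsAlgClosed.splits _)
  rw [← h1, ← Nat.card_eq_fintype_card]
  refine Nat.card_congr (Equiv.subtypeEquivRight fun x => ?_)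
  rw [Polynomial.mem_rootSet]
  exact ⟨fun h => ⟨hf.ne_zero, h⟩, fun h => h.2⟩

/-- Every element of the power is a combination of classes of roots. -/
theorem funct_zero [Fintype (Rt f)] {m : ℕ} (Ξ : (Fin m → Wd f) →ₗ[ℚ] ℚ)
    (h : ∀ (i : Fin m) (b : Rt f), Ξ (Pi.single i (ed f b)) = 0) : Ξ = 0 := by
  classical
  apply LinearMap.pi_ext
  intro i v
  rw [LinearMap.zero_apply]
  obtain ⟨u, rfl⟩ := (cst f).mkQ_surjective v
  have h1 : u = ∑ b, u b • (Pi.single b (1 : ℚ) : Rt f → ℚ) := by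
    funext y
    rw [Finset.sum_apply]
    simp [Pi.single_apply]
  have h2 : Ξ ∘ₗ LinearMap.single ℚ (fun _ : Fin m => Wd f) i ∘ₗ (cst f).mkQ = 0 := by
    apply LinearMap.pi_ext
    intro b q
    have h3 : (Pi.single b q : Rt f → ℚ) = q • Pi.single b 1 := by
      rw [← Pi.single_smul, smul_eq_mul, mul_one]
    rw [h3, map_smul]
    have h4 := h i b
    have h5 : (Ξ ∘ₗ LinearMap.single ℚ (fun _ : Fin m => Wd f) i ∘ₗ (cst f).mkQ)
        (Pi.single b 1) = Ξ (Pi.single i (ed f b)) := by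
      unfold ed
      show Ξ (Pi.single i ((cst f).mkQ (Pi.single b 1))) = _
      congr 3
    rw [h5, h4, smul_zero]
    rfl
  exact congrArg (fun g => g u) h2

theorem sum_ed [Fintype (Rt f)] : ∑ b, ed f b = 0 := by
  classical
  unfold ed
  rw [← map_sum, Submodule.mkQ_apply, Submodule.Quotient.mk_eq_zero]
  apply Submodule.subset_span
  rw [Set.mem_singleton_iff]
  funext y
  rw [Finset.sum_apply]
  simp [Pi.single_apply]

variable {f}

/-- The embeddings of a field containing roots. -/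
noncomputable def fD {K : Type} [Field K] [NumberField K] {m : ℕ} (x : Fin m → K)
    (hx : ∀ i, aeval (x i) f = 0) (τ : EmbQ K) (i : Fin m) : Wd f :=
  ed f ⟨τ (x i), by rw [Polynomial.aeval_algHom_apply, hx, map_zero]⟩

theorem fD_act {K : Type} [Field K] [NumberField K] {m : ℕ} (x : Fin m → K)
    (hx : ∀ i, aeval (x i) f = 0) (g : Gam) (τ : EmbQ K) (i : Fin m) :
    fD x hx (act g τ) i = rhoD f g (fD x hx τ i) := by
  unfold fD
  rw [rhoD_ed]
  rfl

theorem exists_emb (K : Type) [Field K] [NumberField K] : Nonempty (EmbQ K) :=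
  ⟨IsAlgClosed.lift⟩

theorem fD_span (hf : Irreducible f) (h4 : 4 ≤ f.natDegree)
    (hdt : ∀ a b a' b' : Qb, aeval a f = 0 → aeval b f = 0 → aeval a' f = 0 → aeval b' f = 0 →
      a ≠ b → a' ≠ b' → ∃ g : Gam, g a = a' ∧ g b = b')
    {K : Type} [Field K] [NumberField K] (x : Fin 3 → K) (hinj : Function.Injective x)
    (hx : ∀ i, aeval (x i) f = 0) :
    Submodule.span ℚ (Set.range (fD x hx)) = ⊤ := by
  classical
  have : Fact (Irreducible f) := ⟨hf⟩
  have : Fintype (Rt f) := Fintype.ofFinite _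
  obtain ⟨τ₀⟩ := exists_emb K
  by_contra hcon
  obtain ⟨Ξ, hΞ, hle⟩ := Submodule.exists_le_ker_of_lt_top _ (lt_top_iff_ne_top.mpr hcon)
  apply hΞ
  have key := doubly_key (X := Rt f) (prm f).range
    (by
      intro a b a' b' hab hab'
      obtain ⟨g, h1, h2⟩ := hdt a.1 b.1 a'.1 b'.1 a.2 b.2 a'.2 b'.2
        (fun h => hab (Subtype.ext h)) (fun h => hab' (Subtype.ext h))
      exact ⟨prm f g, ⟨g, rfl⟩, Subtype.ext h1, Subtype.ext h2⟩)
    (by rw [← Nat.card_eq_fintype_card, card_Rt f hf]; exact h4)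
    (fun i => ⟨τ₀ (x i), by rw [Polynomial.aeval_algHom_apply, hx, map_zero]⟩)
    (by
      intro i k hik
      apply hinj
      exact τ₀.toRingHom.injective (congrArg Subtype.val hik))
    (fun i b => Ξ (Pi.single i (ed f b)))
    (by
      intro i
      have h1 : ∑ b, Ξ (Pi.single i (ed f b)) =
          (Ξ ∘ₗ LinearMap.single ℚ (fun _ : Fin 3 => Wd f) i) (∑ b, ed f b) := by
        rw [map_sum]
        rfl
      rw [h1, sum_ed, map_zero])
    (by
      rintro _ ⟨g, rfl⟩
      rw [← map_sum]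
      have h1 : (∑ i, (Pi.single i (ed f (prm f g
          ⟨τ₀ (x i), by rw [Polynomial.aeval_algHom_apply, hx, map_zero]⟩)) : Fin 3 → Wd f)) =
          fD x hx (act g τ₀) := by
        have h2 := Finset.univ_sum_single (fD x hx (act g τ₀))
        rw [← h2]
        rfl
      rw [h1]
      exact LinearMap.mem_ker.mp (hle (Submodule.subset_span ⟨_, rfl⟩)))
  exact funct_zero f Ξ fun i b => congrFun (congrFun key i) b

theorem exists_root_Rt (hf : Irreducible f) : Nonempty (Rt f) := by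
  obtain ⟨x, hx⟩ := IsAlgClosed.exists_aeval_eq_zero Qb f hf.degree_pos.ne'
  exact ⟨⟨x, hx⟩⟩

theorem ed_add_ne (hf : Irreducible f) (h4 : 4 ≤ f.natDegree) (a b : Rt f) :
    ed f a + ed f b ≠ 0 := by
  classical
  have : Fact (Irreducible f) := ⟨hf⟩
  have : Fintype (Rt f) := Fintype.ofFinite _
  intro h
  unfold ed at h
  rw [← map_add, Submodule.mkQ_apply, Submodule.Quotient.mk_eq_zero] at h
  obtain ⟨y, hy⟩ : ∃ y : Rt f, y ∉ ({a, b} : Finset (Rt f)) := by
    by_contra hcon
    push Not at hcon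
    have h1 : (Finset.univ : Finset (Rt f)) ⊆ {a, b} := fun y _ => hcon y
    have h2 := Finset.card_le_card h1
    have h3 : ({a, b} : Finset (Rt f)).card ≤ 2 := Finset.card_le_two
    rw [Finset.card_univ, ← Nat.card_eq_fintype_card, card_Rt f hf] at h2
    omega
  rw [Finset.mem_insert, Finset.mem_singleton, not_or] at hy
  have h5 := mem_cst f h a y
  simp only [Pi.add_apply, Pi.single_apply, if_neg hy.1, if_neg hy.2] at h5
  by_cases hab : a = b
  · simp [hab] at h5
  · simp [hab] at h5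

theorem nontrivial_Wd (hf : Irreducible f) (h4 : 4 ≤ f.natDegree) : Nontrivial (Wd f) := by
  obtain ⟨a⟩ := exists_root_Rt hf
  refine ⟨⟨ed f a, 0, fun h => ?_⟩⟩
  apply ed_add_ne hf h4 a a
  rw [h, add_zero]

theorem odd_Wd (hf : Irreducible f) (h4 : 4 ≤ f.natDegree) (g : Gam) :
    ∃ x, rhoD f g x ≠ -x := by
  obtain ⟨a⟩ := exists_root_Rt hf
  refine ⟨ed f a, fun h => ?_⟩
  apply ed_add_ne hf h4 (prm f g a) a
  rw [← rhoD_ed, h, neg_add_cancel]

/-- Complex conjugation on the algebraic closure of `ℚ`. -/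
theorem exists_conj : ∃ (j : Qb →+* ℂ) (c : Gam), ∀ x, j (c x) = (starRingEnd ℂ) (j x) := by
  have hn : Normal ℚ Qb := instNormalQb
  let j : Qb →ₐ[ℚ] ℂ := IsAlgClosed.lift
  let : Algebra Qb ℂ := j.toRingHom.toAlgebra
  have : IsScalarTower ℚ Qb ℂ := IsScalarTower.of_algebraMap_eq fun x => (j.commutes x).symm
  let τ : Qb →ₐ[ℚ] ℂ := ((starRingEnd ℂ).comp j.toRingHom).toRatAlgHom
  refine ⟨j.toRingHom, Normal.algHomEquivAut ℚ ℂ Qb τ, fun x => ?_⟩
  have h := (Normal.algHomEquivAut ℚ ℂ Qb).symm_apply_apply τ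
  rw [Normal.algHomEquivAut_symm_apply] at h
  have h2 := congrArg (fun φ => φ x) h
  exact h2

/-- **Three roots of a polynomial with a doubly transitive Galois group.** -/
theorem padic_doubly (hf : Irreducible f) (h4 : 4 ≤ f.natDegree)
    (hdt : ∀ a b a' b' : Qb, aeval a f = 0 → aeval b f = 0 → aeval a' f = 0 → aeval b' f = 0 →
      a ≠ b → a' ≠ b' → ∃ g : Gam, g a = a' ∧ g b = b')
    {K : Type} [Field K] [NumberField K] (x : Fin 3 → K) (hinj : Function.Injective x)
    (hx : ∀ i, aeval (x i) f = 0) (p : ℕ) [Fact p.Prime] : ¬ PadicPart p K := by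
  have := nontrivial_Wd hf h4
  exact padic_cube (rhoD f) (fD x hx) (fD_act x hx) (fD_span hf h4 hdt x hinj hx) p

theorem real_doubly (hf : Irreducible f) (h4 : 4 ≤ f.natDegree)
    (hdt : ∀ a b a' b' : Qb, aeval a f = 0 → aeval b f = 0 → aeval a' f = 0 → aeval b' f = 0 →
      a ≠ b → a' ≠ b' → ∃ g : Gam, g a = a' ∧ g b = b')
    {K : Type} [Field K] [NumberField K] (x : Fin 3 → K) (hinj : Function.Injective x)
    (hx : ∀ i, aeval (x i) f = 0) : ¬ ExpectedAnswerReal K := by
  obtain ⟨j, c, hc⟩ := exists_conj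
  exact real_cube (rhoD f) j c hc (odd_Wd hf h4 c) (fD x hx) (fD_act x hx)
    (fD_span hf h4 hdt x hinj hx)

end

end Pool.Agent.J4H74.T3
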