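import Mathlib
import Pool.Agent.J4H74.T3.Canon
import Pool.Agent.J4H74.T3.Span2

set_option autoImplicit false

/-!
# Galois number fields
-/

namespace Pool.Agent.J4H74.T3

open NumberField Pool.Agent.H440R3 Pool.Agent.H492R2.Tor

/-- Irreducible representations of finite groups have finite dimension. -/
theorem finite_of_irr {G : Type} [Group G] [Finite G] {W : Type} [AddCommGroup W] [Module ℚ W]
    [Nontrivial W] {ρ : Representation ℚ G W} (hirr : Irr ρ) : FiniteDimensional ℚ W := by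
  obtain ⟨x, hx⟩ := exists_ne (0 : W)
  rcases hirr (Submodule.span ℚ (Set.range fun g => ρ g x)) (by
    intro g y hy
    induction hy using Submodule.span_induction with
    | mem y hy =>
      obtain ⟨g', rfl⟩ := hy
      apply Submodule.subset_span
      exact ⟨g * g', by simp⟩
    | zero => rw [map_zero]; exact Submodule.zero_mem _
    | add x y _ _ hx hy => rw [map_add]; exact Submodule.add_mem _ hx hy
    | smul q x _ hx => rw [map_smul]; exact Submodule.smul_mem _ _ hx) with h | h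
  · exfalso
    apply hx
    have h1 : x ∈ Submodule.span ℚ (Set.range fun g => ρ g x) :=
      Submodule.subset_span ⟨1, by simp⟩
    rw [h] at h1
    exact (Submodule.mem_bot ℚ).mp h1
  · refine ⟨?_⟩
    rw [← h]
    exact Submodule.fg_span (Set.finite_range _)

theorem exists_nonscalar {G : Type} [Group G] {W : Type} [AddCommGroup W] [Module ℚ W]
    {ρ : Representation ℚ G W} (h : 1 < Module.finrank ℚ (commutant ρ)) :
    ∃ a : Module.End ℚ W, Cm ρ a ∧ ∀ q : ℚ, a ≠ algebraMap ℚ (Module.End ℚ W) q := by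
  by_contra hcon
  push Not at hcon
  have h1 : commutant ρ ≤ Submodule.span ℚ {(1 : Module.End ℚ W)} := by
    intro a ha
    obtain ⟨q, rfl⟩ := hcon a ha
    rw [Submodule.mem_span_singleton]
    exact ⟨q, (Algebra.algebraMap_eq_smul_one q).symm⟩
  have h2 := Submodule.finrank_mono h1
  have h3 := finrank_span_le_card (R := ℚ) ({(1 : Module.End ℚ W)} : Set (Module.End ℚ W))
  rw [Set.toFinset_singleton, Finset.card_singleton] at h3
  omega

variable {K : Type} [Field K] [NumberField K] [IsGalois ℚ K]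

omit [IsGalois ℚ K] in
theorem mem_fixK_self {W : Type} [AddCommGroup W] [Module ℚ W]
    (ρ : Representation ℚ (K ≃ₐ[ℚ] K) W) (w : W) : w ∈ fixK K ρ := by
  intro g hg
  have h1 : g = 1 := by
    ext x
    exact hg x
  rw [h1, map_one, Module.End.one_apply]

omit [IsGalois ℚ K] in
theorem exists_vectors {W : Type} [AddCommGroup W] [Module ℚ W] [Nontrivial W]
    {ρ : Representation ℚ (K ≃ₐ[ℚ] K) W} (hirr : Irr ρ) (k : ℕ)
    (hk : k * Module.finrank ℚ (commutant ρ) < Module.finrank ℚ W) :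
    ∃ w : Fin (k + 1) → W,
      Submodule.span ℚ {v : Fin (k + 1) → W | ∃ g, v = fun i => ρ g (w i)} = ⊤ := by
  have := finite_of_irr hirr
  obtain ⟨w, hw⟩ := exists_cind hirr (k + 1) (Or.inr (by simpa using hk))
  exact ⟨w, span_pow hw⟩

theorem padic_galois {p : ℕ} [Fact p.Prime] (h : PadicPart p K) {W : Type} [AddCommGroup W]
    [Module ℚ W] [Nontrivial W] {ρ : Representation ℚ (K ≃ₐ[ℚ] K) W} (hirr : Irr ρ) :
    Module.finrank ℚ W = Module.finrank ℚ (commutant ρ) ∨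
      Module.finrank ℚ W = 2 ∧ Module.finrank ℚ (commutant ρ) = 1 := by
  have hfd := finite_of_irr hirr
  by_contra hcon
  push Not at hcon
  obtain ⟨hne, hcon⟩ := hcon
  have h1 := le_of_irr hirr
  have h2 := two_mul_le hirr (lt_of_le_of_ne h1 (Ne.symm hne))
  have hpos := commutant_pos (ρ := ρ)
  by_cases hc : Module.finrank ℚ (commutant ρ) = 1
  · have h3 : 2 * Module.finrank ℚ (commutant ρ) < Module.finrank ℚ W := by
      have := fun h : Module.finrank ℚ W = 2 => hcon h hc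
      omega
    obtain ⟨w, hw⟩ := exists_vectors hirr 2 h3
    exact padic_cube_fin ρ w hw (fun i => mem_fixK_self ρ _) p h
  · obtain ⟨a, ha, hns⟩ := exists_nonscalar (ρ := ρ) (by omega)
    obtain ⟨w, hw⟩ := exists_vectors hirr 1 (by omega)
    exact padic_square_fin ρ (hasField_of_commutant hirr ha hns) w hw
      (fun i => mem_fixK_self ρ _) p h

theorem padic_galois_pair {p : ℕ} [Fact p.Prime] (h : PadicPart p K) {W₁ W₂ : Type}
    [AddCommGroup W₁] [Module ℚ W₁] [Nontrivial W₁] [AddCommGroup W₂] [Module ℚ W₂]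
    [Nontrivial W₂] {ρ₁ : Representation ℚ (K ≃ₐ[ℚ] K) W₁}
    {ρ₂ : Representation ℚ (K ≃ₐ[ℚ] K) W₂} (h₁ : Irr ρ₁) (h₂ : Irr ρ₂) (hn : ¬ IsoRep ρ₁ ρ₂) :
    Module.finrank ℚ W₁ = Module.finrank ℚ (commutant ρ₁) ∨
      Module.finrank ℚ W₂ = Module.finrank ℚ (commutant ρ₂) := by
  have hfd₁ := finite_of_irr h₁
  have hfd₂ := finite_of_irr h₂
  by_contra hcon
  push Not at hcon
  obtain ⟨w1, hw1⟩ := exists_cind h₁ 2 (Or.inr (by
    have := lt_of_le_of_ne (le_of_irr h₁) (Ne.symm hcon.1); omega))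
  obtain ⟨w2, hw2⟩ := exists_cind h₂ 2 (Or.inr (by
    have := lt_of_le_of_ne (le_of_irr h₂) (Ne.symm hcon.2); omega))
  exact padic_pair_fin ρ₁ ρ₂ w1 w2 (span_pair h₁ h₂ hn hw1 hw2) (fun i => mem_fixK_self ρ₁ _)
    (fun i => mem_fixK_self ρ₂ _) p h

theorem real_galois (h : ExpectedAnswerReal K) (ι : K →ₐ[ℚ] ℂ) (c : K ≃ₐ[ℚ] K)
    (hc : ∀ x, ι (c x) = (starRingEnd ℂ) (ι x)) {W : Type} [AddCommGroup W]
    [Module ℚ W] [Nontrivial W] {ρ : Representation ℚ (K ≃ₐ[ℚ] K) W} (hirr : Irr ρ)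
    (hodd : ∃ x, ρ c x ≠ -x) :
    Module.finrank ℚ W = Module.finrank ℚ (commutant ρ) ∨
      Module.finrank ℚ W = 2 ∧ Module.finrank ℚ (commutant ρ) = 1 := by
  have hfd := finite_of_irr hirr
  by_contra hcon
  push Not at hcon
  obtain ⟨hne, hcon⟩ := hcon
  have h1 := le_of_irr hirr
  have h2 := two_mul_le hirr (lt_of_le_of_ne h1 (Ne.symm hne))
  have hpos := commutant_pos (ρ := ρ)
  by_cases hc' : Module.finrank ℚ (commutant ρ) = 1
  · have h3 : 2 * Module.finrank ℚ (commutant ρ) < Module.finrank ℚ W := by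
      have := fun h : Module.finrank ℚ W = 2 => hcon h hc'
      omega
    obtain ⟨w, hw⟩ := exists_vectors hirr 2 h3
    exact real_cube_fin ρ ι c hc hodd w hw (fun i => mem_fixK_self ρ _) h
  · obtain ⟨a, ha, hns⟩ := exists_nonscalar (ρ := ρ) (by omega)
    obtain ⟨w, hw⟩ := exists_vectors hirr 1 (by omega)
    exact real_square_fin ρ (hasField_of_commutant hirr ha hns) ι c hc hodd w hw
      (fun i => mem_fixK_self ρ _) h

theorem real_galois_pair (h : ExpectedAnswerReal K) (ι : K →ₐ[ℚ] ℂ) (c : K ≃ₐ[ℚ] K)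
    (hc : ∀ x, ι (c x) = (starRingEnd ℂ) (ι x)) {W₁ W₂ : Type}
    [AddCommGroup W₁] [Module ℚ W₁] [Nontrivial W₁] [AddCommGroup W₂] [Module ℚ W₂]
    [Nontrivial W₂] {ρ₁ : Representation ℚ (K ≃ₐ[ℚ] K) W₁}
    {ρ₂ : Representation ℚ (K ≃ₐ[ℚ] K) W₂} (h₁ : Irr ρ₁) (h₂ : Irr ρ₂) (hn : ¬ IsoRep ρ₁ ρ₂)
    (hodd₁ : ∃ x, ρ₁ c x ≠ -x) (hodd₂ : ∃ x, ρ₂ c x ≠ -x) :
    Module.finrank ℚ W₁ = Module.finrank ℚ (commutant ρ₁) ∨
      Module.finrank ℚ W₂ = Module.finrank ℚ (commutant ρ₂) := by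
  have hfd₁ := finite_of_irr h₁
  have hfd₂ := finite_of_irr h₂
  by_contra hcon
  push Not at hcon
  obtain ⟨w1, hw1⟩ := exists_cind h₁ 2 (Or.inr (by
    have := lt_of_le_of_ne (le_of_irr h₁) (Ne.symm hcon.1); omega))
  obtain ⟨w2, hw2⟩ := exists_cind h₂ 2 (Or.inr (by
    have := lt_of_le_of_ne (le_of_irr h₂) (Ne.symm hcon.2); omega))
  exact real_pair_fin ρ₁ ρ₂ ι c hc hodd₁ hodd₂ w1 w2 (span_pair h₁ h₂ hn hw1 hw2)
    (fun i => mem_fixK_self ρ₁ _) (fun i => mem_fixK_self ρ₂ _) h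

end Pool.Agent.J4H74.T3
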