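import Mathlib
import Pool.Agent.J4H74.T3.Gal

set_option autoImplicit false

/-!
# Multiplicities in the permutation module of a number field
-/

namespace Pool.Agent.J4H74.T3

open NumberField Pool.Agent.H440R3 Pool.Agent.H492R2.Tor

section

variable {G : Type} [Group G] {W : Type} [AddCommGroup W] [Module ℚ W]
  {ρ : Representation ℚ G W} [FiniteDimensional ℚ W] [Nontrivial W]

theorem exists_cind_in (hirr : Irr ρ) (Y : Submodule ℚ W) : ∀ k : ℕ, (k = 0 ∨
    (k - 1) * Module.finrank ℚ (commutant ρ) < Module.finrank ℚ Y) →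
    ∃ w : Fin k → W, (∀ i, w i ∈ Y) ∧ CInd ρ w := by
  intro k
  induction k with
  | zero =>
    intro _
    exact ⟨Fin.elim0, fun i => i.elim0, fun e _ _ => funext fun i => i.elim0⟩
  | succ k ih =>
    intro hk
    have hk' : k * Module.finrank ℚ (commutant ρ) < Module.finrank ℚ Y := by
      rcases hk with hk | hk
      · omega
      · simpa using hk
    obtain ⟨w, hwY, hw⟩ := ih (by
      by_cases h0 : k = 0
      · exact Or.inl h0
      · right
        refine lt_of_le_of_lt ?_ hk'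
        exact Nat.mul_le_mul_right _ (Nat.sub_le _ _))
    let T : (Fin k → commutant ρ) →ₗ[ℚ] W :=
      { toFun := fun e => ∑ i, (e i : Module.End ℚ W) (w i)
        map_add' := fun e e' => by
          simp only [Pi.add_apply, Submodule.coe_add, LinearMap.add_apply, Finset.sum_add_distrib]
        map_smul' := fun q e => by
          simp only [Pi.smul_apply, Submodule.coe_smul, LinearMap.smul_apply, Finset.smul_sum,
            RingHom.id_apply] }
    have hlt : Module.finrank ℚ (LinearMap.range T) < Module.finrank ℚ Y := by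
      refine lt_of_le_of_lt (LinearMap.finrank_range_le T) ?_
      rw [Module.finrank_pi_fintype, Finset.sum_const, Finset.card_univ, Fintype.card_fin,
        smul_eq_mul]
      exact hk'
    obtain ⟨x, hxY, hx⟩ : ∃ x ∈ Y, x ∉ LinearMap.range T := by
      by_contra hcon
      push Not at hcon
      have h1 : Y ≤ LinearMap.range T := fun x hx => hcon x hx
      exact absurd (Submodule.finrank_mono h1) (not_le.mpr hlt)
    refine ⟨Fin.snoc w x, ?_, fun e he hsum => ?_⟩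
    · intro i
      refine Fin.lastCases ?_ (fun i => ?_) i
      · rw [Fin.snoc_last]; exact hxY
      · rw [Fin.snoc_castSucc]; exact hwY i
    rw [Fin.sum_univ_castSucc] at hsum
    simp only [Fin.snoc_castSucc, Fin.snoc_last] at hsum
    by_cases h0 : e (Fin.last k) = 0
    · rw [h0, LinearMap.zero_apply, add_zero] at hsum
      have h1 := hw (fun i => e i.castSucc) (fun i => he _) hsum
      funext i
      refine Fin.lastCases ?_ (fun i => ?_) i
      · exact h0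
      · exact congrFun h1 i
    · exfalso
      apply hx
      obtain ⟨f, hf, hfe⟩ := exists_inv hirr (he (Fin.last k)) h0
      refine ⟨fun i => ⟨-(f * e i.castSucc), fun g y => ?_⟩, ?_⟩
      · rw [LinearMap.neg_apply, LinearMap.neg_apply, map_neg, (hf.mul (he _)) g y]
      · show ∑ i, (-(f * e i.castSucc)) (w i) = x
        simp only [LinearMap.neg_apply, Module.End.mul_apply, Finset.sum_neg_distrib]
        rw [← map_sum, ← map_neg]
        have h2 : -∑ i : Fin k, e i.castSucc (w i) = e (Fin.last k) x := by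
          rw [neg_eq_iff_add_eq_zero]
          exact hsum
        rw [h2, hfe]

/-- If the commutant has smaller dimension than a stable subspace, it has at most half of it. -/
theorem two_mul_le_in (hirr : Irr ρ) (Y : Submodule ℚ W)
    (hY : ∀ e, Cm ρ e → ∀ y ∈ Y, e y ∈ Y)
    (h : Module.finrank ℚ (commutant ρ) < Module.finrank ℚ Y) :
    2 * Module.finrank ℚ (commutant ρ) ≤ Module.finrank ℚ Y := by
  obtain ⟨w, hwY, hw⟩ := exists_cind_in hirr Y 2 (Or.inr (by simpa using h))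
  let T : (Fin 2 → commutant ρ) →ₗ[ℚ] W :=
    { toFun := fun e => ∑ i, (e i : Module.End ℚ W) (w i)
      map_add' := fun e e' => by
        simp only [Pi.add_apply, Submodule.coe_add, LinearMap.add_apply, Finset.sum_add_distrib]
      map_smul' := fun q e => by
        simp only [Pi.smul_apply, Submodule.coe_smul, LinearMap.smul_apply, Finset.smul_sum,
          RingHom.id_apply] }
  have hT : Function.Injective T := by
    rw [← LinearMap.ker_eq_bot, LinearMap.ker_eq_bot']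
    intro e he
    have h1 := hw (fun i => (e i : Module.End ℚ W)) (fun i => (e i).2) he
    funext i
    exact Subtype.ext (congrFun h1 i)
  have hle : LinearMap.range T ≤ Y := by
    rintro _ ⟨e, rfl⟩
    have h2 : T e = ∑ i, (e i : Module.End ℚ W) (w i) := rfl
    rw [h2]
    exact Submodule.sum_mem _ fun i _ => hY _ (e i).2 _ (hwY i)
  have h1 := Submodule.finrank_mono hle
  rw [LinearMap.finrank_range_of_inj hT, Module.finrank_pi_fintype, Finset.sum_const,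
    Finset.card_univ, Fintype.card_fin, smul_eq_mul] at h1
  exact h1

end

section fin

variable {K N : Type} [Field K] [NumberField K] [Field N] [NumberField N] [Algebra K N]
  [IsGalois ℚ N]

omit [NumberField K] [IsGalois ℚ N] in
theorem fixK_stable {W : Type} [AddCommGroup W] [Module ℚ W]
    (ρ : Representation ℚ (N ≃ₐ[ℚ] N) W) :
    ∀ e, Cm ρ e → ∀ y ∈ fixK K ρ, e y ∈ fixK K ρ := by
  intro e he y hy g hg
  rw [← he, hy g hg]

theorem padic_mult_fin {p : ℕ} [Fact p.Prime] (h : PadicPart p K) {W : Type} [AddCommGroup W]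
    [Module ℚ W] [Nontrivial W] {ρ : Representation ℚ (N ≃ₐ[ℚ] N) W} (hirr : Irr ρ) :
    Module.finrank ℚ (fixK K ρ) ≤ Module.finrank ℚ (commutant ρ) ∨
      Module.finrank ℚ (fixK K ρ) = 2 ∧ Module.finrank ℚ (commutant ρ) = 1 := by
  have hfd := finite_of_irr hirr
  by_contra hcon
  push Not at hcon
  obtain ⟨hne, hcon⟩ := hcon
  have h2 := two_mul_le_in hirr (fixK K ρ) (fixK_stable ρ) hne
  have hpos := commutant_pos (ρ := ρ)
  by_cases hc : Module.finrank ℚ (commutant ρ) = 1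
  · obtain ⟨w, hwY, hw⟩ := exists_cind_in hirr (fixK K ρ) 3 (Or.inr (by
      have := fun h : Module.finrank ℚ (fixK K ρ) = 2 => hcon h hc
      omega))
    exact padic_cube_fin ρ w (span_pow hw) hwY p h
  · obtain ⟨a, ha, hns⟩ := exists_nonscalar (ρ := ρ) (by omega)
    obtain ⟨w, hwY, hw⟩ := exists_cind_in hirr (fixK K ρ) 2 (Or.inr (by omega))
    exact padic_square_fin ρ (hasField_of_commutant hirr ha hns) w (span_pow hw) hwY p h

theorem padic_mult_pair_fin {p : ℕ} [Fact p.Prime] (h : PadicPart p K) {W₁ W₂ : Type}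
    [AddCommGroup W₁] [Module ℚ W₁] [Nontrivial W₁] [AddCommGroup W₂] [Module ℚ W₂]
    [Nontrivial W₂] {ρ₁ : Representation ℚ (N ≃ₐ[ℚ] N) W₁}
    {ρ₂ : Representation ℚ (N ≃ₐ[ℚ] N) W₂} (h₁ : Irr ρ₁) (h₂ : Irr ρ₂) (hn : ¬ IsoRep ρ₁ ρ₂) :
    Module.finrank ℚ (fixK K ρ₁) ≤ Module.finrank ℚ (commutant ρ₁) ∨
      Module.finrank ℚ (fixK K ρ₂) ≤ Module.finrank ℚ (commutant ρ₂) := by
  have hfd₁ := finite_of_irr h₁
  have hfd₂ := finite_of_irr h₂
  by_contra hcon
  push Not at hcon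
  obtain ⟨w1, hwY1, hw1⟩ := exists_cind_in h₁ (fixK K ρ₁) 2 (Or.inr (by omega))
  obtain ⟨w2, hwY2, hw2⟩ := exists_cind_in h₂ (fixK K ρ₂) 2 (Or.inr (by omega))
  exact padic_pair_fin ρ₁ ρ₂ w1 w2 (span_pair h₁ h₂ hn hw1 hw2) hwY1 hwY2 p h

theorem real_mult_fin (h : ExpectedAnswerReal K) (ι : N →ₐ[ℚ] ℂ) (c : N ≃ₐ[ℚ] N)
    (hc : ∀ x, ι (c x) = (starRingEnd ℂ) (ι x)) {W : Type} [AddCommGroup W]
    [Module ℚ W] [Nontrivial W] {ρ : Representation ℚ (N ≃ₐ[ℚ] N) W} (hirr : Irr ρ)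
    (hodd : ∃ x, ρ c x ≠ -x) :
    Module.finrank ℚ (fixK K ρ) ≤ Module.finrank ℚ (commutant ρ) ∨
      Module.finrank ℚ (fixK K ρ) = 2 ∧ Module.finrank ℚ (commutant ρ) = 1 := by
  have hfd := finite_of_irr hirr
  by_contra hcon
  push Not at hcon
  obtain ⟨hne, hcon⟩ := hcon
  have h2 := two_mul_le_in hirr (fixK K ρ) (fixK_stable ρ) hne
  have hpos := commutant_pos (ρ := ρ)
  by_cases hc' : Module.finrank ℚ (commutant ρ) = 1
  · obtain ⟨w, hwY, hw⟩ := exists_cind_in hirr (fixK K ρ) 3 (Or.inr (by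
      have := fun h : Module.finrank ℚ (fixK K ρ) = 2 => hcon h hc'
      omega))
    exact real_cube_fin ρ ι c hc hodd w (span_pow hw) hwY h
  · obtain ⟨a, ha, hns⟩ := exists_nonscalar (ρ := ρ) (by omega)
    obtain ⟨w, hwY, hw⟩ := exists_cind_in hirr (fixK K ρ) 2 (Or.inr (by omega))
    exact real_square_fin ρ (hasField_of_commutant hirr ha hns) ι c hc hodd w (span_pow hw) hwY h

theorem real_mult_pair_fin (h : ExpectedAnswerReal K) (ι : N →ₐ[ℚ] ℂ) (c : N ≃ₐ[ℚ] N)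
    (hc : ∀ x, ι (c x) = (starRingEnd ℂ) (ι x)) {W₁ W₂ : Type}
    [AddCommGroup W₁] [Module ℚ W₁] [Nontrivial W₁] [AddCommGroup W₂] [Module ℚ W₂]
    [Nontrivial W₂] {ρ₁ : Representation ℚ (N ≃ₐ[ℚ] N) W₁}
    {ρ₂ : Representation ℚ (N ≃ₐ[ℚ] N) W₂} (h₁ : Irr ρ₁) (h₂ : Irr ρ₂) (hn : ¬ IsoRep ρ₁ ρ₂)
    (hodd₁ : ∃ x, ρ₁ c x ≠ -x) (hodd₂ : ∃ x, ρ₂ c x ≠ -x) :
    Module.finrank ℚ (fixK K ρ₁) ≤ Module.finrank ℚ (commutant ρ₁) ∨
      Module.finrank ℚ (fixK K ρ₂) ≤ Module.finrank ℚ (commutant ρ₂) := by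
  have hfd₁ := finite_of_irr h₁
  have hfd₂ := finite_of_irr h₂
  by_contra hcon
  push Not at hcon
  obtain ⟨w1, hwY1, hw1⟩ := exists_cind_in h₁ (fixK K ρ₁) 2 (Or.inr (by omega))
  obtain ⟨w2, hwY2, hw2⟩ := exists_cind_in h₂ (fixK K ρ₂) 2 (Or.inr (by omega))
  exact real_pair_fin ρ₁ ρ₂ ι c hc hodd₁ hodd₂ w1 w2 (span_pair h₁ h₂ hn hw1 hw2) hwY1 hwY2 h

end fin

section

variable {K : Type} [Field K] [NumberField K]

/-- The vectors fixed by the stabilizer of an embedding of `K`. -/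
def inv (τ₀ : EmbQ K) {W : Type} [AddCommGroup W] [Module ℚ W] (ρ : Representation ℚ Gam W) :
    Submodule ℚ W where
  carrier := {w | ∀ g : Gam, act g τ₀ = τ₀ → ρ g w = w}
  add_mem' := by
    intro v w hv hw g hg
    rw [map_add, hv g hg, hw g hg]
  zero_mem' := by
    intro g _
    rw [map_zero]
  smul_mem' := by
    intro q v hv g hg
    rw [map_smul, hv g hg]

theorem factor_irr {H : Type} [Group H] {r : Gam →* H} (hr : Function.Surjective r)
    (τ₀ : EmbQ K) (htriv : ∀ g, r g = 1 → ∀ τ : EmbQ K, act g τ = τ) {W : Type}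
    [AddCommGroup W] [Module ℚ W] {ρ : Representation ℚ Gam W} (hirr : Irr ρ)
    (h0 : inv τ₀ ρ ≠ ⊥) : ∃ ρ' : Representation ℚ H W, ∀ g, ρ' (r g) = ρ g := by
  apply exists_factor r hr
  intro g hg
  obtain ⟨w, hw, hw0⟩ := Submodule.exists_mem_ne_zero_of_ne_bot h0
  have hker : ∀ h : Gam, r h = 1 → ρ h w = w := fun h hh => hw h (htriv h hh τ₀)
  let S := Submodule.span ℚ (Set.range fun h => ρ h w)
  have hS : S = ⊤ := by
    rcases hirr S (by
      intro h y hy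
      induction hy using Submodule.span_induction with
      | mem y hy =>
        obtain ⟨g', rfl⟩ := hy
        apply Submodule.subset_span
        exact ⟨h * g', by simp⟩
      | zero => rw [map_zero]; exact Submodule.zero_mem _
      | add x y _ _ hx hy => rw [map_add]; exact Submodule.add_mem _ hx hy
      | smul q x _ hx => rw [map_smul]; exact Submodule.smul_mem _ _ hx) with h | h
    · exfalso
      apply hw0
      have h1 : w ∈ S := Submodule.subset_span ⟨1, by simp⟩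
      rw [h] at h1
      exact (Submodule.mem_bot ℚ).mp h1
    · exact h
  apply LinearMap.ext_on hS
  rintro _ ⟨h, rfl⟩
  show ρ g (ρ h w) = ρ h w
  have h1 : ρ g (ρ h w) = ρ h (ρ (h⁻¹ * g * h) w) := by
    rw [← Module.End.mul_apply, ← Module.End.mul_apply, ← map_mul, ← map_mul]
    congr 2
    group
  rw [h1, hker (h⁻¹ * g * h) (by rw [map_mul, map_mul, hg, mul_one, map_inv, inv_mul_cancel])]

theorem irr_level {H : Type} [Group H] {r : Gam →* H} {W : Type}
    [AddCommGroup W] [Module ℚ W] {ρ : Representation ℚ Gam W} {ρ' : Representation ℚ H W}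
    (h : ∀ g, ρ' (r g) = ρ g) (hirr : Irr ρ) : Irr ρ' := by
  intro Y hY
  apply hirr Y
  intro g y hy
  rw [← h]
  exact hY _ y hy

theorem commutant_level {H : Type} [Group H] {r : Gam →* H} (hr : Function.Surjective r)
    {W : Type} [AddCommGroup W] [Module ℚ W] {ρ : Representation ℚ Gam W}
    {ρ' : Representation ℚ H W} (h : ∀ g, ρ' (r g) = ρ g) : commutant ρ' = commutant ρ := by
  ext e
  constructor
  · intro he g y
    rw [← h]
    exact he _ y
  · intro he g' y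
    obtain ⟨g, rfl⟩ := hr g'
    rw [h]
    exact he g y

theorem isoRep_level {H : Type} [Group H] {r : Gam →* H}
    {W₁ W₂ : Type} [AddCommGroup W₁] [Module ℚ W₁] [AddCommGroup W₂] [Module ℚ W₂]
    {ρ₁ : Representation ℚ Gam W₁} {ρ₂ : Representation ℚ Gam W₂}
    {ρ₁' : Representation ℚ H W₁} {ρ₂' : Representation ℚ H W₂} (h₁ : ∀ g, ρ₁' (r g) = ρ₁ g)
    (h₂ : ∀ g, ρ₂' (r g) = ρ₂ g) (h : IsoRep ρ₁' ρ₂') : IsoRep ρ₁ ρ₂ := by
  obtain ⟨e, he⟩ := h
  refine ⟨e, fun g x => ?_⟩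
  rw [← h₁, ← h₂]
  exact he _ x

theorem fixK_level {N : Type} [Field N] [NumberField N] [Algebra K N]
    {r : Gam →* (N ≃ₐ[ℚ] N)} (hr : Function.Surjective r) (τ₀ : EmbQ K)
    (hfix : ∀ g, (∀ x : K, r g (algebraMap K N x) = algebraMap K N x) → act g τ₀ = τ₀)
    {W : Type} [AddCommGroup W] [Module ℚ W] {ρ : Representation ℚ Gam W}
    {ρ' : Representation ℚ (N ≃ₐ[ℚ] N) W} (h : ∀ g, ρ' (r g) = ρ g) :
    inv τ₀ ρ ≤ fixK K ρ' := by
  intro w hw g' hg'
  obtain ⟨g, rfl⟩ := hr g'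
  rw [h]
  exact hw g (hfix g hg')

/-- **Multiplicities, `p`-adic part.** -/
theorem padic_mult {p : ℕ} [Fact p.Prime] (h : PadicPart p K) (τ₀ : EmbQ K) {W : Type}
    [AddCommGroup W] [Module ℚ W] {ρ : Representation ℚ Gam W} (hirr : Irr ρ) :
    Module.finrank ℚ (inv τ₀ ρ) ≤ Module.finrank ℚ (commutant ρ) ∨
      Module.finrank ℚ (inv τ₀ ρ) = 2 ∧ Module.finrank ℚ (commutant ρ) = 1 := by
  by_cases h0 : inv τ₀ ρ = ⊥
  · left
    rw [h0, finrank_bot]
    exact Nat.zero_le _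
  obtain ⟨w, hw, hw0⟩ := Submodule.exists_mem_ne_zero_of_ne_bot h0
  have hnt : Nontrivial W := ⟨⟨w, 0, hw0⟩⟩
  obtain ⟨N, _, _, _, _, r, inc, hr, hinc, hr1, hr2, hr3⟩ := exists_level_at τ₀
  obtain ⟨ρ', hρ'⟩ := factor_irr hr τ₀ hr1 hirr h0
  have hirr' := irr_level hρ' hirr
  have hfd := finite_of_irr hirr'
  have h1 := padic_mult_fin h hirr'
  have h2 := Submodule.finrank_mono (fixK_level hr τ₀ hr2 hρ')
  rw [commutant_level hr hρ'] at h1
  have h3 : Module.finrank ℚ (commutant ρ) = 1 ∨ Module.finrank ℚ (commutant ρ) ≠ 1 := em _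
  rcases h1 with h1 | h1
  · left; exact h2.trans h1
  · by_cases h4 : Module.finrank ℚ (inv τ₀ ρ) = 2
    · exact Or.inr ⟨h4, h1.2⟩
    · left
      omega

/-- **Two multiplicities, `p`-adic part.** -/
theorem padic_mult_pair {p : ℕ} [Fact p.Prime] (h : PadicPart p K) (τ₀ : EmbQ K) {W₁ W₂ : Type}
    [AddCommGroup W₁] [Module ℚ W₁] [AddCommGroup W₂] [Module ℚ W₂]
    {ρ₁ : Representation ℚ Gam W₁} {ρ₂ : Representation ℚ Gam W₂} (h₁ : Irr ρ₁) (h₂ : Irr ρ₂)
    (hn : ¬ IsoRep ρ₁ ρ₂) :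
    Module.finrank ℚ (inv τ₀ ρ₁) ≤ Module.finrank ℚ (commutant ρ₁) ∨
      Module.finrank ℚ (inv τ₀ ρ₂) ≤ Module.finrank ℚ (commutant ρ₂) := by
  by_cases h01 : inv τ₀ ρ₁ = ⊥
  · left
    rw [h01, finrank_bot]
    exact Nat.zero_le _
  by_cases h02 : inv τ₀ ρ₂ = ⊥
  · right
    rw [h02, finrank_bot]
    exact Nat.zero_le _
  obtain ⟨w1, hw1, hw01⟩ := Submodule.exists_mem_ne_zero_of_ne_bot h01
  have hnt1 : Nontrivial W₁ := ⟨⟨w1, 0, hw01⟩⟩
  obtain ⟨w2, hw2, hw02⟩ := Submodule.exists_mem_ne_zero_of_ne_bot h02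
  have hnt2 : Nontrivial W₂ := ⟨⟨w2, 0, hw02⟩⟩
  obtain ⟨N, _, _, _, _, r, inc, hr, hinc, hr1, hr2, hr3⟩ := exists_level_at τ₀
  obtain ⟨ρ₁', hρ₁'⟩ := factor_irr hr τ₀ hr1 h₁ h01
  obtain ⟨ρ₂', hρ₂'⟩ := factor_irr hr τ₀ hr1 h₂ h02
  have hirr₁ := irr_level hρ₁' h₁
  have hirr₂ := irr_level hρ₂' h₂
  have hfd₁ := finite_of_irr hirr₁
  have hfd₂ := finite_of_irr hirr₂
  have hk := padic_mult_pair_fin h hirr₁ hirr₂ fun hi => hn (isoRep_level hρ₁' hρ₂' hi)
  rw [commutant_level hr hρ₁', commutant_level hr hρ₂'] at hk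
  rcases hk with hk | hk
  · left; exact (Submodule.finrank_mono (fixK_level hr τ₀ hr2 hρ₁')).trans hk
  · right; exact (Submodule.finrank_mono (fixK_level hr τ₀ hr2 hρ₂')).trans hk

/-- **Multiplicities, real part.** -/
theorem real_mult (h : ExpectedAnswerReal K) (τ₀ : EmbQ K) (j : Qb →+* ℂ) (c : Gam)
    (hc : ∀ x, j (c x) = (starRingEnd ℂ) (j x)) {W : Type}
    [AddCommGroup W] [Module ℚ W] {ρ : Representation ℚ Gam W} (hirr : Irr ρ)
    (hodd : ∃ x, ρ c x ≠ -x) :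
    Module.finrank ℚ (inv τ₀ ρ) ≤ Module.finrank ℚ (commutant ρ) ∨
      Module.finrank ℚ (inv τ₀ ρ) = 2 ∧ Module.finrank ℚ (commutant ρ) = 1 := by
  by_cases h0 : inv τ₀ ρ = ⊥
  · left
    rw [h0, finrank_bot]
    exact Nat.zero_le _
  obtain ⟨w, hw, hw0⟩ := Submodule.exists_mem_ne_zero_of_ne_bot h0
  have hnt : Nontrivial W := ⟨⟨w, 0, hw0⟩⟩
  obtain ⟨N, _, _, _, _, r, inc, hr, hinc, hr1, hr2, hr3⟩ := exists_level_at τ₀
  obtain ⟨ρ', hρ'⟩ := factor_irr hr τ₀ hr1 hirr h0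
  have hirr' := irr_level hρ' hirr
  have hfd := finite_of_irr hirr'
  rw [← hρ'] at hodd
  have h1 := real_mult_fin h _ (r c) (conj_level r inc hinc j c hc) hirr' hodd
  have h2 := Submodule.finrank_mono (fixK_level hr τ₀ hr2 hρ')
  rw [commutant_level hr hρ'] at h1
  rcases h1 with h1 | h1
  · left; exact h2.trans h1
  · by_cases h4 : Module.finrank ℚ (inv τ₀ ρ) = 2
    · exact Or.inr ⟨h4, h1.2⟩
    · left
      omega

/-- **Two multiplicities, real part.** -/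
theorem real_mult_pair (h : ExpectedAnswerReal K) (τ₀ : EmbQ K) (j : Qb →+* ℂ) (c : Gam)
    (hc : ∀ x, j (c x) = (starRingEnd ℂ) (j x)) {W₁ W₂ : Type}
    [AddCommGroup W₁] [Module ℚ W₁] [AddCommGroup W₂] [Module ℚ W₂]
    {ρ₁ : Representation ℚ Gam W₁} {ρ₂ : Representation ℚ Gam W₂} (h₁ : Irr ρ₁) (h₂ : Irr ρ₂)
    (hn : ¬ IsoRep ρ₁ ρ₂) (hodd₁ : ∃ x, ρ₁ c x ≠ -x) (hodd₂ : ∃ x, ρ₂ c x ≠ -x) :
    Module.finrank ℚ (inv τ₀ ρ₁) ≤ Module.finrank ℚ (commutant ρ₁) ∨
      Module.finrank ℚ (inv τ₀ ρ₂) ≤ Module.finrank ℚ (commutant ρ₂) := by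
  by_cases h01 : inv τ₀ ρ₁ = ⊥
  · left
    rw [h01, finrank_bot]
    exact Nat.zero_le _
  by_cases h02 : inv τ₀ ρ₂ = ⊥
  · right
    rw [h02, finrank_bot]
    exact Nat.zero_le _
  obtain ⟨w1, hw1, hw01⟩ := Submodule.exists_mem_ne_zero_of_ne_bot h01
  have hnt1 : Nontrivial W₁ := ⟨⟨w1, 0, hw01⟩⟩
  obtain ⟨w2, hw2, hw02⟩ := Submodule.exists_mem_ne_zero_of_ne_bot h02
  have hnt2 : Nontrivial W₂ := ⟨⟨w2, 0, hw02⟩⟩
  obtain ⟨N, _, _, _, _, r, inc, hr, hinc, hr1, hr2, hr3⟩ := exists_level_at τ₀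
  obtain ⟨ρ₁', hρ₁'⟩ := factor_irr hr τ₀ hr1 h₁ h01
  obtain ⟨ρ₂', hρ₂'⟩ := factor_irr hr τ₀ hr1 h₂ h02
  have hirr₁ := irr_level hρ₁' h₁
  have hirr₂ := irr_level hρ₂' h₂
  have hfd₁ := finite_of_irr hirr₁
  have hfd₂ := finite_of_irr hirr₂
  rw [← hρ₁'] at hodd₁
  rw [← hρ₂'] at hodd₂
  have hk := real_mult_pair_fin h _ (r c) (conj_level r inc hinc j c hc) hirr₁ hirr₂
    (fun hi => hn (isoRep_level hρ₁' hρ₂' hi)) hodd₁ hodd₂
  rw [commutant_level hr hρ₁', commutant_level hr hρ₂'] at hk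
  rcases hk with hk | hk
  · left; exact (Submodule.finrank_mono (fixK_level hr τ₀ hr2 hρ₁')).trans hk
  · right; exact (Submodule.finrank_mono (fixK_level hr τ₀ hr2 hρ₂')).trans hk

end

end Pool.Agent.J4H74.T3
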