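import Mathlib

set_option autoImplicit false

/-!
# The permutation module of a number field: definitions
-/

namespace Pool.Agent.J4H74.Perm

/-- The absolute Galois group of `ℚ`. -/
def GalQ : Type := AlgebraicClosure ℚ ≃ₐ[ℚ] AlgebraicClosure ℚ

noncomputable instance : Group GalQ :=
  inferInstanceAs (Group (AlgebraicClosure ℚ ≃ₐ[ℚ] AlgebraicClosure ℚ))

/-- The embeddings of `K` in the algebraic closure of `ℚ`. -/
def Emb (K : Type) [Field K] [NumberField K] : Type := K →ₐ[ℚ] AlgebraicClosure ℚ

/-- The action of the absolute Galois group on the embeddings of `K`. -/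
noncomputable def act {K : Type} [Field K] [NumberField K] (g : GalQ) (τ : Emb K) : Emb K :=
  AlgHom.comp (AlgEquiv.toAlgHom g) τ

/-- The action of `g` on the permutation module. -/
noncomputable def permMap (K : Type) [Field K] [NumberField K] (g : GalQ) :
    (Emb K →₀ ℚ) →ₗ[ℚ] (Emb K →₀ ℚ) := Finsupp.lmapDomain ℚ ℚ (act g)

theorem permMap_single {K : Type} [Field K] [NumberField K] (g : GalQ) (τ : Emb K) (q : ℚ) :
    permMap K g (Finsupp.single τ q) = Finsupp.single (act g τ) q := by
  unfold permMap
  rw [Finsupp.lmapDomain_apply, Finsupp.mapDomain_single]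

theorem permMap_one (K : Type) [Field K] [NumberField K] : permMap K 1 = 1 := by
  apply Finsupp.lhom_ext
  intro τ q
  rw [permMap_single]
  rfl

theorem permMap_mul (K : Type) [Field K] [NumberField K] (g h : GalQ) :
    permMap K (g * h) = permMap K g * permMap K h := by
  apply Finsupp.lhom_ext
  intro τ q
  rw [Module.End.mul_apply, permMap_single, permMap_single, permMap_single]
  rfl

/-- The permutation module `ℚ[Hom(K, ℚbar)]` of the number field `K`, a representation of the
absolute Galois group of `ℚ`: the group of characters of `R_{K/ℚ}(G_m)`, tensored with `ℚ`. -/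
noncomputable def permutationModule (K : Type) [Field K] [NumberField K] :
    Representation ℚ GalQ (Emb K →₀ ℚ) where
  toFun := permMap K
  map_one' := permMap_one K
  map_mul' := permMap_mul K

section

variable {G : Type} [Group G] {V W : Type} [AddCommGroup V] [Module ℚ V] [AddCommGroup W]
  [Module ℚ W]

/-- Irreducible representations: `W` is not zero and its only stable subspaces are `0` and `W`. -/
def IsIrreducible (ρ : Representation ℚ G W) : Prop :=
  Nontrivial W ∧ ∀ Y : Submodule ℚ W, (∀ g, ∀ y ∈ Y, ρ g y ∈ Y) → Y = ⊥ ∨ Y = ⊤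

/-- Isomorphic representations. -/
def Isomorphic (σ : Representation ℚ G V) (ρ : Representation ℚ G W) : Prop :=
  ∃ e : V ≃ₗ[ℚ] W, ∀ g x, e (σ g x) = ρ g (e x)

/-- The space `Hom_G(V, W)` of equivariant linear maps. -/
def Hom (σ : Representation ℚ G V) (ρ : Representation ℚ G W) : Submodule ℚ (V →ₗ[ℚ] W) where
  carrier := {e | ∀ g y, e (σ g y) = ρ g (e y)}
  add_mem' := fun ha hb g y => by
    rw [LinearMap.add_apply, LinearMap.add_apply, ha, hb, map_add]
  zero_mem' := fun g y => by rw [LinearMap.zero_apply, LinearMap.zero_apply, map_zero]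
  smul_mem' := fun q e he g y => by
    rw [LinearMap.smul_apply, LinearMap.smul_apply, he, map_smul]

/-- The dimension of `Hom_G(V, W)`. -/
noncomputable def homDim (σ : Representation ℚ G V) (ρ : Representation ℚ G W) : ℕ :=
  Module.finrank ℚ (Hom σ ρ)

end

section

variable {W : Type} [AddCommGroup W] [Module ℚ W]

/-- `dim Hom(P, W) ≤ dim End(W)` for the permutation module `P` of `K`: if `W` is irreducible, the
multiplicity `dim Hom(P, W) / dim End(W)` of `W` in `P` is at most `1`. -/
def MultiplicityAtMostOne (K : Type) [Field K] [NumberField K] (ρ : Representation ℚ GalQ W) :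
    Prop := homDim (permutationModule K) ρ ≤ homDim ρ ρ

/-- `dim Hom(P, W) = 2` and `dim End(W) = 1` for the permutation module `P` of `K`: the
endomorphisms of `W` are the rational scalars and, if `W` is irreducible, its multiplicity in `P`
is `2`. -/
def MultiplicityTwoScalar (K : Type) [Field K] [NumberField K] (ρ : Representation ℚ GalQ W) :
    Prop := homDim (permutationModule K) ρ = 2 ∧ homDim ρ ρ = 1

end

/-- `c` is the complex conjugation given by an embedding of the algebraic closure of `ℚ` in
`ℂ`. -/
def IsComplexConjugation (c : GalQ) : Prop :=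
  ∃ j : AlgebraicClosure ℚ →+* ℂ, ∀ x : AlgebraicClosure ℚ,
    j (AlgEquiv.toAlgHom c x) = (starRingEnd ℂ) (j x)

end Pool.Agent.J4H74.Perm
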