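import Mathlib
import Pool.Agent.J4H74.T3.PermDefs
import Pool.Agent.J4H74.T3.Mult

set_option autoImplicit false

/-!
# Frobenius reciprocity
-/

namespace Pool.Agent.J4H74.Perm

open Pool.Agent.J4H74.T3 Pool.Agent.H440R3 Pool.Agent.H492R2.Tor

variable {K : Type} [Field K] [NumberField K] {W : Type} [AddCommGroup W] [Module ℚ W]

/-- The representation as a representation of the group of automorphisms. -/
def toGam (ρ : Representation ℚ GalQ W) : Representation ℚ Gam W := ρ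

theorem permutationModule_single (g : GalQ) (τ : Emb K) (q : ℚ) :
    permutationModule K g (Finsupp.single τ q) = Finsupp.single (Perm.act g τ) q :=
  permMap_single g τ q

theorem exists_act (τ₀ τ : Emb K) : ∃ g : GalQ, Perm.act g τ₀ = τ := by
  obtain ⟨N, _, _, _, _, r, inc, hr, hinc, hr1, hr2, hr3⟩ := exists_level_at (K := K) τ₀
  exact hr3 τ

/-- The vectors fixed by the stabilizer of an embedding. -/
def fixedVec (τ₀ : Emb K) (ρ : Representation ℚ GalQ W) : Submodule ℚ W :=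
  inv (K := K) τ₀ (toGam ρ)

theorem mem_fixedVec {τ₀ : Emb K} {ρ : Representation ℚ GalQ W} {w : W} :
    w ∈ fixedVec τ₀ ρ ↔ ∀ g : GalQ, Perm.act g τ₀ = τ₀ → ρ g w = w := Iff.rfl

/-- Evaluation at an embedding. -/
noncomputable def ev (τ₀ : Emb K) (ρ : Representation ℚ GalQ W) :
    Hom (permutationModule K) ρ →ₗ[ℚ] fixedVec τ₀ ρ where
  toFun F := ⟨F.1 (Finsupp.single τ₀ (1 : ℚ)), mem_fixedVec.mpr fun g hg => by
    have h1 := F.2 g (Finsupp.single τ₀ (1 : ℚ))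
    rw [permutationModule_single, hg] at h1
    exact h1.symm⟩
  map_add' _ _ := rfl
  map_smul' _ _ := rfl

theorem ev_injective (τ₀ : Emb K) (ρ : Representation ℚ GalQ W) :
    Function.Injective (ev τ₀ ρ) := by
  rw [← LinearMap.ker_eq_bot, LinearMap.ker_eq_bot']
  intro F hF
  have h0 : F.1 (Finsupp.single τ₀ (1 : ℚ)) = 0 := congrArg Subtype.val hF
  apply Subtype.ext
  apply Finsupp.lhom_ext
  intro τ q
  obtain ⟨g, rfl⟩ := exists_act τ₀ τ
  have h1 : (Finsupp.single (Perm.act g τ₀) q : Emb K →₀ ℚ) =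
      q • permutationModule K g (Finsupp.single τ₀ 1) := by
    rw [permutationModule_single, Finsupp.smul_single, smul_eq_mul, mul_one]
  rw [h1, map_smul, F.2 g, h0, map_zero, smul_zero]
  rfl

/-- The commutant is the space of equivariant endomorphisms. -/
theorem commutant_eq (ρ : Representation ℚ GalQ W) :
    Module.finrank ℚ (commutant (toGam ρ)) = homDim ρ ρ := rfl

/-- Irreducible representations which occur have finite dimension. -/
theorem homDim_le (τ₀ : Emb K) {ρ : Representation ℚ GalQ W} (hirr : Irr (toGam ρ)) :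
    homDim (permutationModule K) ρ ≤ Module.finrank ℚ (fixedVec τ₀ ρ) := by
  unfold homDim
  by_cases h0 : fixedVec τ₀ ρ = ⊥
  · have h1 : Hom (permutationModule K) ρ = ⊥ := by
      rw [eq_bot_iff]
      intro F hF
      have h2 : ev τ₀ ρ ⟨F, hF⟩ = 0 := by
        have h3 : ((ev τ₀ ρ ⟨F, hF⟩ : fixedVec τ₀ ρ) : W) ∈ (⊥ : Submodule ℚ W) := by
          rw [← h0]
          exact (ev τ₀ ρ ⟨F, hF⟩).2
        exact Subtype.ext ((Submodule.mem_bot ℚ).mp h3)
      have h3 := ev_injective τ₀ ρ (h2.trans (map_zero _).symm)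
      exact (Submodule.mem_bot ℚ).mpr (congrArg Subtype.val h3)
    rw [h1, finrank_bot]
    exact Nat.zero_le _
  · obtain ⟨w, hw, hw0⟩ := Submodule.exists_mem_ne_zero_of_ne_bot h0
    have hnt : Nontrivial W := ⟨⟨w, 0, hw0⟩⟩
    obtain ⟨N, _, _, _, _, r, inc, hr, hinc, hr1, hr2, hr3⟩ := exists_level_at (K := K) τ₀
    obtain ⟨ρ', hρ'⟩ := factor_irr hr τ₀ hr1 hirr h0
    have hfd := finite_of_irr (irr_level hρ' hirr)
    exact LinearMap.finrank_le_finrank_of_injective (ev_injective τ₀ ρ)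

theorem exists_embedding (K : Type) [Field K] [NumberField K] : Nonempty (Emb K) :=
  ⟨(IsAlgClosed.lift : K →ₐ[ℚ] AlgebraicClosure ℚ)⟩

/-- **Multiplicities, `p`-adic part.** -/
theorem padic_hom {p : ℕ} [Fact p.Prime] (h : PadicPart p K) {ρ : Representation ℚ GalQ W}
    (hirr : IsIrreducible ρ) : MultiplicityAtMostOne K ρ ∨ MultiplicityTwoScalar K ρ := by
  obtain ⟨τ₀⟩ := exists_embedding K
  have hirr' : Irr (toGam ρ) := hirr.2
  have h1 := padic_mult h τ₀ hirr'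
  have h2 := homDim_le τ₀ hirr'
  have h4 : Module.finrank ℚ (fixedVec τ₀ ρ) ≤ homDim ρ ρ ∨
    Module.finrank ℚ (fixedVec τ₀ ρ) = 2 ∧ homDim ρ ρ = 1 := h1
  unfold MultiplicityAtMostOne MultiplicityTwoScalar
  omega

theorem padic_hom_pair {p : ℕ} [Fact p.Prime] (h : PadicPart p K) {W₂ : Type} [AddCommGroup W₂]
    [Module ℚ W₂] {ρ : Representation ℚ GalQ W} {ρ₂ : Representation ℚ GalQ W₂}
    (hirr : IsIrreducible ρ) (hirr₂ : IsIrreducible ρ₂) (hn : ¬ Isomorphic ρ ρ₂) :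
    MultiplicityAtMostOne K ρ ∨ MultiplicityAtMostOne K ρ₂ := by
  obtain ⟨τ₀⟩ := exists_embedding K
  have h₁ : Irr (toGam ρ) := hirr.2
  have h₂ : Irr (toGam ρ₂) := hirr₂.2
  have h1 := padic_mult_pair h τ₀ h₁ h₂ hn
  have h4 : Module.finrank ℚ (fixedVec τ₀ ρ) ≤ homDim ρ ρ ∨
    Module.finrank ℚ (fixedVec τ₀ ρ₂) ≤ homDim ρ₂ ρ₂ := h1
  have h5 := homDim_le τ₀ h₁
  have h6 := homDim_le τ₀ h₂
  unfold MultiplicityAtMostOne
  omega

/-- **Multiplicities, real part.** -/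
theorem real_hom (h : ExpectedAnswerReal K) {c : GalQ} (hc : IsComplexConjugation c)
    {ρ : Representation ℚ GalQ W} (hirr : IsIrreducible ρ) (hodd : ∃ x, ρ c x ≠ -x) :
    MultiplicityAtMostOne K ρ ∨ MultiplicityTwoScalar K ρ := by
  obtain ⟨τ₀⟩ := exists_embedding K
  obtain ⟨j, hj⟩ := hc
  have hirr' : Irr (toGam ρ) := hirr.2
  have h1 := real_mult h τ₀ j c hj hirr' hodd
  have h2 := homDim_le τ₀ hirr'
  have h4 : Module.finrank ℚ (fixedVec τ₀ ρ) ≤ homDim ρ ρ ∨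
    Module.finrank ℚ (fixedVec τ₀ ρ) = 2 ∧ homDim ρ ρ = 1 := h1
  unfold MultiplicityAtMostOne MultiplicityTwoScalar
  omega

theorem real_hom_pair (h : ExpectedAnswerReal K) {c : GalQ} (hc : IsComplexConjugation c)
    {W₂ : Type} [AddCommGroup W₂] [Module ℚ W₂] {ρ : Representation ℚ GalQ W}
    {ρ₂ : Representation ℚ GalQ W₂} (hirr : IsIrreducible ρ) (hirr₂ : IsIrreducible ρ₂)
    (hn : ¬ Isomorphic ρ ρ₂) (hodd : ∃ x, ρ c x ≠ -x) (hodd₂ : ∃ x, ρ₂ c x ≠ -x) :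
    MultiplicityAtMostOne K ρ ∨ MultiplicityAtMostOne K ρ₂ := by
  obtain ⟨τ₀⟩ := exists_embedding K
  obtain ⟨j, hj⟩ := hc
  have h₁ : Irr (toGam ρ) := hirr.2
  have h₂ : Irr (toGam ρ₂) := hirr₂.2
  have h1 := real_mult_pair h τ₀ j c hj h₁ h₂ hn hodd hodd₂
  have h4 : Module.finrank ℚ (fixedVec τ₀ ρ) ≤ homDim ρ ρ ∨
    Module.finrank ℚ (fixedVec τ₀ ρ₂) ≤ homDim ρ₂ ρ₂ := h1
  have h5 := homDim_le τ₀ h₁
  have h6 := homDim_le τ₀ h₂
  unfold MultiplicityAtMostOne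
  omega

end Pool.Agent.J4H74.Perm
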