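import Mathlib
import Pool.Agent.J4H74.T3.Dat
import Pool.Agent.J4H74.T3.Embed
import Pool.Agent.J4H74.T3.Comm

set_option autoImplicit false

/-!
# The `p`-adic part fails if there is a `ℤ_p`-linear relation
-/

namespace Pool.Agent.J4H74.T3

open Filter Topology
open Pool.Agent.H440R3 Pool.Agent.W245.PB

theorem tendsto_mat {R : Type*} [AddCommGroup R] [TopologicalSpace R] [IsTopologicalAddGroup R]
    {e : ℕ} {c : ℕ → Idx e → R} {c' : Idx e → R}
    (h : ∀ x, Tendsto (fun m => c m x) atTop (𝓝 (c' x))) (i : Fin 3) (j : JJ e) :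
    Tendsto (fun m => mat (c m) i j) atTop (𝓝 (mat c' i j)) := by
  rcases j with j | t
  · fin_cases i <;> fin_cases j
    all_goals
      first
      | exact tendsto_const_nhds
      | exact h _
      | exact (h _).neg
  · exact h _

namespace Dat

variable {K N : Type} [Field K] [NumberField K] [Field N] [NumberField N] [Algebra K N]
  {n e : ℕ} (P : Dat K N n e) (p : ℕ) [hp : Fact p.Prime]
  (ι : N →ₐ[ℚ] AlgebraicClosure ℚ_[p])
  (γ : Emb p K → (N ≃ₐ[ℚ] N)) (hγ : ∀ τ (x : K), τ x = ι (γ τ (algebraMap K N x)))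
  (hnear : ∀ j g, Near (ι ((cj g (P.z j) : Nˣ) : N)))

include hγ hnear in
theorem near_y (τ : Emb p K) (i : Fin 3) (j : JJ e) : Near (τ (P.y i j : K)) := by
  have h1 := congrArg (fun u : (AlgebraicClosure ℚ_[p])ˣ => (u : AlgebraicClosure ℚ_[p]))
    (map_emb hγ τ (P.y i j))
  have h2 : τ (P.y i j : K) = ι ((cj (γ τ) (∏ s, ∏ g, cj g (P.z (j, s)) ^ P.m i s g) : Nˣ) : N) := by
    rw [← P.hy]
    exact h1
  rw [h2]
  simp only [map_prod, map_zpow, ← cj_mul, Units.coe_prod, Units.val_zpow_eq_zpow_val, map_zpow₀]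
  refine Near.prod _ _ fun s _ => Near.prod _ _ fun g _ => Near.zpow (hnear _ _) _

theorem tau_Y (τ : Emb p K) (c : Idx e → ℤ) :
    τ (P.Y (Multiplicative.ofAdd c) : K) = ∏ i, ∏ j, τ (P.y i j : K) ^ (mat c i j) := by
  rw [Y_apply]
  simp only [Units.coe_prod, Units.val_zpow_eq_zpow_val, map_prod, map_zpow₀]

include hγ hnear in
theorem near_Y (τ : Emb p K) (c : Idx e → ℤ) : Near (τ (P.Y (Multiplicative.ofAdd c) : K)) := by
  rw [tau_Y]
  exact Near.prod _ _ fun i _ => Near.prod _ _ fun j _ =>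
    Near.zpow (P.near_y p ι γ hγ hnear τ i j) _

include hγ hnear in
theorem L_le_NU : P.L.map (incl p K) ≤ NU p K := by
  rintro _ ⟨_, ⟨c, rfl⟩, rfl⟩
  intro τ
  rw [ext_incl]
  exact P.near_Y p ι γ hγ hnear τ (Multiplicative.toAdd c)

variable {L : PadicAlgCl p → PadicAlgCl p} (hL : IsIwasawaLog p L)

include hγ hnear hL in
theorem log_Y (τ : Emb p K) (c : Idx e → ℤ) : L (τ (P.Y (Multiplicative.ofAdd c) : K)) =
    ∑ i, ∑ j, ((mat c i j : ℤ) : PadicAlgCl p) * L (τ (P.y i j : K)) := by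
  rw [tau_Y]
  have hy := P.near_y p ι γ hγ hnear τ
  rw [hL.prod _ _ fun i _ => (Near.prod _ _ fun j _ => Near.zpow (hy i j) _).ne_zero]
  refine Finset.sum_congr rfl fun i _ => ?_
  rw [hL.prod _ _ fun j _ => (Near.zpow (hy i j) _).ne_zero]
  refine Finset.sum_congr rfl fun j _ => ?_
  rw [hL.zpow (hy i j).ne_zero]

include hγ hnear hL in
theorem exists_seq (cinf : Idx e → ℤ_[p])
    (hrel : ∀ (τ : Emb p K) (i : Fin 3),
      ∑ j, algebraMap ℚ_[p] (PadicAlgCl p) (mat cinf i j : ℤ_[p]) * L (τ (P.y i j : K)) = 0) :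
    ∃ c : ℕ → (Idx e → ℤ),
    Tendsto (fun m i => ((c m i : ℤ) : ℤ_[p])) atTop (𝓝 cinf) ∧
    Tendsto (fun m => incl p K (P.Y (Multiplicative.ofAdd (c m)))) atTop (𝓝 1) := by
  have hp1 : (1 : ℝ) < p := by exact_mod_cast hp.out.one_lt
  have hlim : ∀ x, Tendsto (fun m => (((cinf x).appr m : ℤ) : ℤ_[p])) atTop (𝓝 (cinf x)) := by
    intro x
    rw [tendsto_iff_norm_sub_tendsto_zero]
    have h1 : ∀ m : ℕ, ‖(((cinf x).appr m : ℤ) : ℤ_[p]) - cinf x‖ ≤ ((p : ℝ)⁻¹) ^ m := by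
      intro m
      rw [norm_sub_rev]
      have h2 := PadicInt.appr_spec m (cinf x)
      rw [← PadicInt.norm_le_pow_iff_mem_span_pow] at h2
      rw [inv_pow, ← zpow_natCast, ← zpow_neg]
      simpa using h2
    exact squeeze_zero (fun m => norm_nonneg _) h1
      (tendsto_pow_atTop_nhds_zero_of_lt_one (by positivity) (inv_lt_one_of_one_lt₀ hp1))
  refine ⟨fun m x => ((cinf x).appr m : ℤ), tendsto_pi_nhds.mpr hlim, ?_⟩
  apply tendsto_units_of_ext
  intro τ
  simp only [ext_incl]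
  rw [tendsto_iff_norm_sub_tendsto_zero]
  set C : ℕ → Idx e → ℤ := fun m x => ((cinf x).appr m : ℤ) with hC
  have h1 : ∀ m, ‖τ (P.Y (Multiplicative.ofAdd (C m)) : K) - 1‖ ≤
      ‖∑ i, ∑ j, ((mat (C m) i j : ℤ) : PadicAlgCl p) * L (τ (P.y i j : K))‖ := by
    intro m
    rw [← P.log_Y p ι γ hγ hnear hL]
    exact (P.near_Y p ι γ hγ hnear τ (C m)).le_norm_log hL
  have hcast : Continuous (fun a : ℤ_[p] => algebraMap ℚ_[p] (PadicAlgCl p) (a : ℚ_[p])) := by
    have h2 : Continuous (algebraMap ℚ_[p] (PadicAlgCl p)) := by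
      refine AddMonoidHomClass.continuous_of_bound (algebraMap ℚ_[p] (PadicAlgCl p)) 1 fun z => ?_
      rw [norm_algMap, one_mul]
    exact h2.comp continuous_subtype_val
  have h2 : Tendsto (fun m => ∑ i, ∑ j, ((mat (C m) i j : ℤ) : PadicAlgCl p) *
      L (τ (P.y i j : K))) atTop (𝓝 0) := by
    have h0 : (0 : PadicAlgCl p) = ∑ i, ∑ j, algebraMap ℚ_[p] (PadicAlgCl p)
        (mat cinf i j : ℤ_[p]) * L (τ (P.y i j : K)) := by
      rw [Finset.sum_eq_zero fun i _ => hrel τ i]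
    rw [h0]
    refine tendsto_finsetSum _ fun i _ => tendsto_finsetSum _ fun j _ => ?_
    refine Tendsto.mul_const _ ?_
    have h3 : ∀ m, ((mat (C m) i j : ℤ) : PadicAlgCl p) =
        algebraMap ℚ_[p] (PadicAlgCl p)
          ((mat (fun x => ((C m x : ℤ) : ℤ_[p])) i j : ℤ_[p]) : ℚ_[p]) := by
      intro m
      have h4 : mat (fun x => ((C m x : ℤ) : ℤ_[p])) i j = ((mat (C m) i j : ℤ) : ℤ_[p]) :=
        (mat_map (Int.castAddHom ℤ_[p]) (C m) i j).symm
      rw [h4, PadicInt.coe_intCast, map_intCast]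
    simp only [h3]
    exact (hcast.tendsto _).comp (tendsto_mat hlim i j)
  rw [tendsto_zero_iff_norm_tendsto_zero] at h2
  exact squeeze_zero (fun m => norm_nonneg _) h1 h2

theorem map_L : P.L.map (incl p K) = ((incl p K).comp P.Y).range := by
  unfold L
  rw [MonoidHom.range_comp]

include hγ hnear in
theorem isCompact_closure : IsCompact (closureIn p K P.L : Set (QpPoints p K)) := by
  have hcl : IsClosed (NU p K : Set (QpPoints p K)) := (NU_compact p K).isClosed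
  have h : closureIn p K P.L ≤ NU p K :=
    Subgroup.topologicalClosure_minimal _ (P.L_le_NU p ι γ hγ hnear) hcl
  exact (NU_compact p K).of_isClosed_subset (Subgroup.isClosed_topologicalClosure _) h

end Dat

theorem Dat.not_PadicPart {K N : Type} [Field K] [NumberField K] [Field N] [NumberField N]
    [Algebra K N] {e : ℕ} (P : Dat K N (e + 1) e) (p : ℕ) [hp : Fact p.Prime]
    (ι : N →ₐ[ℚ] AlgebraicClosure ℚ_[p])
    (γ : Emb p K → (N ≃ₐ[ℚ] N)) (hγ : ∀ τ (x : K), τ x = ι (γ τ (algebraMap K N x)))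
    (hnear : ∀ j g, Near (ι ((cj g (P.z j) : Nˣ) : N)))
    (hcov : P.Cover p γ)
    {L : PadicAlgCl p → PadicAlgCl p} (hL : IsIwasawaLog p L)
    (cinf : Idx e → ℤ_[p]) (hcinf : cinf ≠ 0)
    (hrel : ∀ (τ : Emb p K) (i : Fin 3),
      ∑ j, algebraMap ℚ_[p] (PadicAlgCl p) (mat cinf i j : ℤ_[p]) * L (τ (P.y i j : K)) = 0) :
    ¬ PadicPart p K := by
  intro h
  have hCc := P.isCompact_closure p ι γ hγ hnear
  obtain ⟨H, Z, hH, hZ, ⟨φ⟩⟩ := h P.L P.L_fg
    ⟨NU p K, NU_compact p K, P.L_le_NU p ι γ hγ hnear⟩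
    (fun Ψ => P.rank_condition p ι γ hγ hcov Ψ)
    (closureIn p K P.L) ⟨le_rfl, hCc, fun C' h' _ => h'⟩
  obtain ⟨c, hlim, hone⟩ := P.exists_seq p ι γ hγ hnear hL cinf hrel
  have hC' : closureIn p K P.L = ((incl p K).comp P.Y).range.topologicalClosure := by
    rw [← map_L]
    rfl
  have hrk := P.rk_L (Nat.succ_pos e)
  revert φ hH hZ
  revert Z
  rw [hrk]
  intro Z hH hZ φ
  exact commens_contra (card_Idx e) ((incl p K).comp P.Y) _ hC' hCc H Z hH hZ φ c cinf hcinf hlim hone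

end Pool.Agent.J4H74.T3
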