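import Mathlib
import Pool.Agent.J4H74.T3.Build
import Pool.Agent.J4H74.T3.PMain
import Pool.Agent.J4H74.T3.Desc

set_option autoImplicit false

/-!
# The `p`-adic part fails if `W³` is a quotient of the permutation module
-/

namespace Pool.Agent.J4H74.T3

open NumberField Pool.Agent.H440R3 Pool.Agent.W245.PB

/-- Two independent relations over `F` between functions with values in an `F`-algebra. -/
theorem exists_mat_rel_fun {F R U : Type*} [CommRing F] [IsDomain F] [CommRing R] (φ : F →+* R)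
    {e : ℕ} (Φ : JJ e → U → R) (k h : JJ e → F) (hk : ∀ u, ∑ j, φ (k j) * Φ j u = 0)
    (hh : ∀ u, ∑ j, φ (h j) * Φ j u = 0)
    (hind : ∀ a b : F, a • k + b • h = 0 → a = 0 ∧ b = 0) :
    ∃ c : Idx e → F, c ≠ 0 ∧ ∀ i u, ∑ j, φ (mat c i j) * Φ j u = 0 := by
  let _ : Algebra F R := φ.toAlgebra
  have hs : ∀ (a : F) (f : U → R) (u : U), (a • f) u = φ a * f u := by
    intro a f u
    rw [Pi.smul_apply, Algebra.smul_def]; rfl
  obtain ⟨c, hc, hc'⟩ := exists_mat_rel Φ k h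
    (by funext u; rw [Finset.sum_apply, Pi.zero_apply, ← hk u]; simp only [hs])
    (by funext u; rw [Finset.sum_apply, Pi.zero_apply, ← hh u]; simp only [hs]) hind
  refine ⟨c, hc, fun i u => ?_⟩
  have h1 := congrFun (hc' i) u
  rw [Finset.sum_apply, Pi.zero_apply] at h1
  rw [← h1]
  simp only [hs]

section

variable {K N : Type} [Field K] [NumberField K] [Field N] [NumberField N] [Algebra K N]
  [IsGalois ℚ N]

/-- **The `p`-adic part fails if `W³` is a quotient of the permutation module.** -/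
theorem not_padicPart_of_triple {W : Type} [AddCommGroup W] [Module ℚ W] [FiniteDimensional ℚ W]
    [Nontrivial W] (ρ : Representation ℚ (N ≃ₐ[ℚ] N) W) (w : Fin 3 → W)
    (hfix : ∀ g : N ≃ₐ[ℚ] N, (∀ x : K, g (algebraMap K N x) = algebraMap K N x) →
      ∀ i, ρ g (w i) = w i)
    (hspan : Submodule.span ℚ {v : Fin 3 → W | ∃ g, v = fun i => ρ g (w i)} = ⊤)
    (p : ℕ) [hp : Fact p.Prime] : ¬ PadicPart p K := by
  classical
  obtain ⟨e, he⟩ : ∃ e, Module.finrank ℚ W = e + 1 :=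
    ⟨Module.finrank ℚ W - 1, by have := Module.finrank_pos (R := ℚ) (M := W); omega⟩
  let b : Module.Basis (Fin (e + 1)) ℚ W := Module.finBasisOfFinrankEq ℚ W he
  obtain ⟨D, P, hD, hm, -, hz⟩ := exists_dat b ρ w hfix hspan e (M := p ^ 3)
    (pow_pos hp.out.pos 3) one_pos
  obtain ⟨ι⟩ : Nonempty (N →ₐ[ℚ] AlgebraicClosure ℚ_[p]) := ⟨IsAlgClosed.lift⟩
  choose γ hγ using fun τ : Emb p K => exists_gal_sub (K := K) ι τ
  -- the elements are close to `1`
  have hnear : ∀ j g, Near (ι ((cj g (P.z j) : Nˣ) : N)) := by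
    intro j g
    obtain ⟨r, hr⟩ := hz j
    have h1 : ι ((cj g (P.z j) : Nˣ) : N) - 1 = -((p : PadicAlgCl p) ^ 3 * ι (g (r : N))) := by
      rw [cj_val, hr]
      simp
    have h2 : ‖ι (g (r : N))‖ ≤ 1 := by
      have h3 : IsIntegral ℤ (ι (g (r : N))) :=
        map_isIntegral_int (ι : N →+* AlgebraicClosure ℚ_[p])
          (map_isIntegral_int (g : N →+* N) r.2)
      have h4 := (Valuation.integer.integers
        (Valued.v : Valuation (PadicAlgCl p) NNReal)).mem_of_integral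
        (h3.tower_top (A := (Valued.v : Valuation (PadicAlgCl p) NNReal).integer))
      rw [← PadicAlgCl.valuation_coe p]
      exact_mod_cast h4
    have hp0 : (0 : ℝ) < p := by exact_mod_cast hp.out.pos
    have h5 : ‖(p : PadicAlgCl p)‖ = (p : ℝ)⁻¹ := by
      have := norm_algMap p (p : ℚ_[p])
      rw [map_natCast, Padic.norm_p] at this
      exact this
    unfold Near
    rw [h1, norm_neg, norm_mul, norm_pow, h5]
    calc ((p : ℝ)⁻¹) ^ 3 * ‖ι (g (r : N))‖ * (p : ℝ) ^ 3 = ‖ι (g (r : N))‖ := by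
          field_simp
      _ ≤ 1 := h2
  -- all automorphisms are covered
  have hcov : P.Cover p γ := by
    intro g
    refine ⟨ι.comp ((g⁻¹ : N ≃ₐ[ℚ] N) : N →ₐ[ℚ] N) |>.comp (IsScalarTower.toAlgHom ℚ K N), ?_⟩
    set τ : Emb p K := (ι.comp ((g⁻¹ : N ≃ₐ[ℚ] N) : N →ₐ[ℚ] N)).comp (IsScalarTower.toAlgHom ℚ K N)
      with hτ
    intro i s
    have h1 : ∀ x : K, (g * γ τ) (algebraMap K N x) = algebraMap K N x := by
      intro x
      have h2 := hγ τ x
      have h3 : τ x = ι (g⁻¹ (algebraMap K N x)) := rfl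
      rw [h3] at h2
      have h4 := ι.injective h2
      rw [AlgEquiv.mul_apply, ← h4, ← AlgEquiv.mul_apply, mul_inv_cancel]
      rfl
    have h2 : ((P.m i s (γ τ)⁻¹ : ℤ) : ℚ) = ((P.m i s g : ℤ) : ℚ) := by
      rw [hm, hm, inv_inv]
      have h3 : ρ (γ τ) (w i) = ρ g⁻¹ (w i) := by
        have h4 := hfix _ h1 i
        rw [map_mul, Module.End.mul_apply] at h4
        conv_rhs => rw [← h4]
        rw [← Module.End.mul_apply, ← map_mul, inv_mul_cancel, map_one, Module.End.one_apply]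
      rw [h3]
    exact_mod_cast h2
  -- the logarithm
  obtain ⟨L, hL⟩ := Pool.Agent.R350.exists_log p
  let Φ : JJ e → W →ₗ[ℚ] PadicAlgCl p := fun j =>
    ∑ s, ∑ g : N ≃ₐ[ℚ] N, ((b.coord s).comp (ρ g⁻¹)).smulRight
      (L (ι ((cj g (P.z (j, s)) : Nˣ) : N)))
  have hΦ : ∀ j u, Φ j u = ∑ s, ∑ g : N ≃ₐ[ℚ] N, (b.repr (ρ g⁻¹ u) s) •
      (L (ι ((cj g (P.z (j, s)) : Nˣ) : N))) := by
    intro j u
    simp only [Φ, LinearMap.sum_apply, LinearMap.smulRight_apply, LinearMap.comp_apply,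
      Module.Basis.coord_apply]
  have hcard : Module.finrank ℚ W + 2 ≤ Fintype.card (JJ e) := by
    rw [he]; simp [JJ]; omega
  obtain ⟨k, h, hk, hh, hind⟩ := exists_two_relations Φ hcard (by
    intro σ
    obtain ⟨g₀, hg₀⟩ := exists_gal ι (((σ.restrictScalars ℚ : PadicAlgCl p ≃ₐ[ℚ] PadicAlgCl p) :
      PadicAlgCl p →ₐ[ℚ] PadicAlgCl p).comp ι)
    have hg₀' : ∀ x, σ (ι x) = ι (g₀ x) := hg₀
    refine ⟨ρ g₀, ?_, ?_⟩
    · intro u
      refine ⟨ρ g₀⁻¹ u, ?_⟩
      rw [← Module.End.mul_apply, ← map_mul, mul_inv_cancel, map_one, Module.End.one_apply]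
    · intro j u
      rw [hΦ, hΦ, map_sum]
      refine Finset.sum_congr rfl fun s _ => ?_
      rw [map_sum, ← Equiv.sum_comp (Equiv.mulLeft g₀) (fun g => (b.repr (ρ g⁻¹ (ρ g₀ u)) s) •
        (L (ι ((cj g (P.z (j, s)) : Nˣ) : N))))]
      refine Finset.sum_congr rfl fun g _ => ?_
      rw [Equiv.coe_mulLeft, ← Module.End.mul_apply, ← map_mul, mul_inv_rev,
        inv_mul_cancel_right]
      have h1 : σ ((b.repr (ρ g⁻¹ u) s) • L (ι ((cj g (P.z (j, s)) : Nˣ) : N))) =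
          (b.repr (ρ g⁻¹ u) s) • σ (L (ι ((cj g (P.z (j, s)) : Nˣ) : N))) := by
        exact map_rat_smul σ _ _
      rw [h1, ← (hnear (j, s) g).log_map hL σ, hg₀']
      rfl)
  obtain ⟨c, hc0, hc⟩ := exists_mat_rel_fun
    ((algebraMap ℚ_[p] (PadicAlgCl p)).comp (PadicInt.Coe.ringHom : ℤ_[p] →+* ℚ_[p]))
    (fun j u => Φ j u) k h hk hh hind
  refine P.not_PadicPart p ι γ hγ hnear hcov hL c hc0 ?_
  intro τ i
  have h1 : ∀ j, L (τ (P.y i j : K)) = Φ j ((D : ℚ) • ρ (γ τ) (w i)) := by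
    intro j
    have h2 := congrArg (fun u : (AlgebraicClosure ℚ_[p])ˣ => (u : AlgebraicClosure ℚ_[p]))
      (Dat.map_emb hγ τ (P.y i j))
    have h3 : τ (P.y i j : K) =
        ι ((cj (γ τ) (∏ s, ∏ g, cj g (P.z (j, s)) ^ P.m i s g) : Nˣ) : N) := by
      rw [← P.hy]
      exact h2
    rw [h3]
    simp only [map_prod, map_zpow, ← cj_mul, Units.coe_prod, Units.val_zpow_eq_zpow_val, map_zpow₀]
    rw [hL.prod _ _ fun s _ => (Near.prod _ _ fun g _ => Near.zpow (hnear _ _) _).ne_zero, hΦ]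
    refine Finset.sum_congr rfl fun s _ => ?_
    rw [hL.prod _ _ fun g _ => (Near.zpow (hnear _ _) _).ne_zero,
      ← Equiv.sum_comp (Equiv.mulLeft (γ τ)) (fun g => (b.repr (ρ g⁻¹ ((D : ℚ) • ρ (γ τ) (w i))) s) •
        (L (ι ((cj g (P.z (j, s)) : Nˣ) : N))))]
    refine Finset.sum_congr rfl fun g _ => ?_
    rw [hL.zpow (hnear _ _).ne_zero, Equiv.coe_mulLeft, map_smul, map_smul, Finsupp.smul_apply,
      ← Module.End.mul_apply, ← map_mul, mul_inv_rev, inv_mul_cancel_right, smul_eq_mul, ← hm,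
      Rat.smul_def]
    simp
  simp only [h1]
  exact hc i _

end

end Pool.Agent.J4H74.T3
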