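import Mathlib
import Pool.Agent.J4H74.T3.Mult

set_option autoImplicit false
set_option linter.unusedSectionVars false

/-!
# Irreducible representations separate the cosets of a subgroup
-/

namespace Pool.Agent.J4H74.T3

section

variable {G : Type} [Group G] [Finite G]

/-- The action on a module over the group ring. -/
noncomputable def modRep (G : Type) [Group G] (W : Type) [AddCommGroup W]
    [Module (MonoidAlgebra ℚ G) W] [Module ℚ W] [IsScalarTower ℚ (MonoidAlgebra ℚ G) W] :
    Representation ℚ G W :=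
  (Algebra.lsmul ℚ ℚ W : MonoidAlgebra ℚ G →ₐ[ℚ] Module.End ℚ W).toRingHom.toMonoidHom.comp
    (MonoidAlgebra.of ℚ G)

theorem modRep_apply (W : Type) [AddCommGroup W]
    [Module (MonoidAlgebra ℚ G) W] [Module ℚ W] [IsScalarTower ℚ (MonoidAlgebra ℚ G) W]
    (g : G) (w : W) : modRep G W g w = (MonoidAlgebra.of ℚ G g) • w := rfl

theorem modRep_irr (W : Type) [AddCommGroup W]
    [Module (MonoidAlgebra ℚ G) W] [Module ℚ W] [IsScalarTower ℚ (MonoidAlgebra ℚ G) W]
    [IsSimpleModule (MonoidAlgebra ℚ G) W] : Irr (modRep G W) := by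
  intro Y hY
  let Y' : Submodule (MonoidAlgebra ℚ G) W :=
    { carrier := Y
      add_mem' := fun ha hb => Y.add_mem ha hb
      zero_mem' := Y.zero_mem
      smul_mem' := by
        intro c x hx
        induction c using MonoidAlgebra.induction_on with
        | of g => exact hY g x hx
        | add a b ha hb => rw [add_smul]; exact Y.add_mem ha hb
        | smul r a ha => rw [smul_assoc]; exact Y.smul_mem _ ha }
  rcases eq_bot_or_eq_top Y' with h | h
  · left
    ext x
    exact SetLike.ext_iff.mp h x
  · right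
    ext x
    exact SetLike.ext_iff.mp h x

theorem exists_irr_sep (H : Subgroup G) {x : G} (hx : x ∉ H) :
    ∃ (W : Type) (_ : AddCommGroup W) (_ : Module ℚ W) (_ : Nontrivial W)
      (ρ : Representation ℚ G W) (w : W), Irr ρ ∧ (∀ h ∈ H, ρ h w = w) ∧ ρ x w ≠ w := by
  classical
  have : Fintype G := Fintype.ofFinite G
  have : NeZero (Nat.card G : ℚ) := ⟨by exact_mod_cast Nat.card_pos.ne'⟩
  let R := MonoidAlgebra ℚ G
  let u : R := ∑ h : H, MonoidAlgebra.of ℚ G (h : G)
  have hu : ∀ h ∈ H, MonoidAlgebra.of ℚ G h * u = u := by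
    intro h hh
    show _ * ∑ k : H, MonoidAlgebra.of ℚ G (k : G) = ∑ k : H, MonoidAlgebra.of ℚ G (k : G)
    rw [Finset.mul_sum]
    have h1 := Equiv.sum_comp (Equiv.mulLeft (⟨h, hh⟩ : H))
      (fun k : H => MonoidAlgebra.of ℚ G (k : G))
    rw [← h1]
    refine Finset.sum_congr rfl fun k _ => ?_
    rw [← map_mul]
    rfl
  have hxu : MonoidAlgebra.of ℚ G x * u - u ≠ 0 := by
    intro h
    have h1 := sub_eq_zero.mp h
    have h2 := congrArg (fun f : R => f.coeff x) h1
    have h3 : (MonoidAlgebra.of ℚ G x * u : R).coeff x = 1 := by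
      show (_ * ∑ k : H, MonoidAlgebra.of ℚ G (k : G) : R).coeff x = 1
      rw [Finset.mul_sum]
      simp only [← map_mul]
      rw [MonoidAlgebra.coeff_sum, Finset.sum_apply']
      rw [Finset.sum_eq_single (1 : H)]
      · simp [MonoidAlgebra.of_apply]
      · intro k _ hk
        rw [MonoidAlgebra.of_apply, MonoidAlgebra.coeff_single, Finsupp.single_apply, if_neg]
        intro h4
        apply hk
        exact Subtype.ext (mul_eq_left.mp h4)
      · intro h; exact absurd (Finset.mem_univ _) h
    have h4 : (u : R).coeff x = 0 := by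
      show (∑ k : H, MonoidAlgebra.of ℚ G (k : G) : R).coeff x = 0
      rw [MonoidAlgebra.coeff_sum, Finset.sum_apply']
      refine Finset.sum_eq_zero fun k _ => ?_
      rw [MonoidAlgebra.of_apply, MonoidAlgebra.coeff_single, Finsupp.single_apply, if_neg]
      intro h5
      exact hx (h5 ▸ k.2)
    have h5 : (MonoidAlgebra.of ℚ G x * u : R).coeff x = (u : R).coeff x := h2
    rw [h3, h4] at h5
    exact one_ne_zero h5
  have hj : Module.jacobson R R = ⊥ := IsSemisimpleModule.jacobson_eq_bot R R
  obtain ⟨N, hN, hzN⟩ : ∃ N : Submodule R R, IsCoatom N ∧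
      MonoidAlgebra.of ℚ G x * u - u ∉ N := by
    by_contra hcon
    push Not at hcon
    apply hxu
    have h1 : MonoidAlgebra.of ℚ G x * u - u ∈ Module.jacobson R R := by
      unfold Module.jacobson
      rw [Submodule.mem_sInf]
      intro N hN
      exact hcon N hN
    rw [hj] at h1
    exact (Submodule.mem_bot R).mp h1
  have hs : IsSimpleModule R (R ⧸ N) := isSimpleModule_iff_isCoatom.mpr hN
  have hnt : Nontrivial (R ⧸ N) := Submodule.Quotient.nontrivial_iff.mpr hN.1
  refine ⟨R ⧸ N, inferInstance, inferInstance, hnt, modRep G (R ⧸ N), N.mkQ u, modRep_irr _,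
    ?_, ?_⟩
  · intro h hh
    rw [modRep_apply, ← map_smul, smul_eq_mul, hu h hh]
  · rw [modRep_apply, ← map_smul, smul_eq_mul]
    intro h
    apply hzN
    rw [← Submodule.Quotient.mk_eq_zero, ← Submodule.mkQ_apply, map_sub, h, sub_self]

/-- A representation whose commutant has the same dimension is spanned by the multiples of any
vector. -/
theorem exists_commutant_of_eq {W : Type} [AddCommGroup W] [Module ℚ W] [FiniteDimensional ℚ W]
    {ρ : Representation ℚ G W} (hirr : Irr ρ)
    (h : Module.finrank ℚ W = Module.finrank ℚ (commutant ρ)) {w : W} (hw : w ≠ 0) (v : W) :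
    ∃ e, Cm ρ e ∧ e w = v := by
  let T : commutant ρ →ₗ[ℚ] W :=
    { toFun := fun e => (e : Module.End ℚ W) w
      map_add' := fun e e' => rfl
      map_smul' := fun q e => rfl }
  have hnt : Nontrivial W := ⟨⟨w, 0, hw⟩⟩
  have hT : Function.Injective T := by
    rw [← LinearMap.ker_eq_bot, LinearMap.ker_eq_bot']
    intro e he
    by_contra h0
    have h1 : (e : Module.End ℚ W) ≠ 0 := fun h => h0 (Subtype.ext h)
    obtain ⟨f, hf, hfe⟩ := exists_inv hirr e.2 h1
    apply hw
    rw [← hfe w]
    have : (e : Module.End ℚ W) w = 0 := he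
    rw [this, map_zero]
  have hs : Function.Surjective T :=
    (LinearMap.injective_iff_surjective_of_finrank_eq_finrank h.symm).mp hT
  obtain ⟨e, he⟩ := hs v
  exact ⟨e, e.2, he⟩

/-- If every irreducible representation is trivial on the normal subgroup `Q` or has multiplicity
one, all subgroups of `Q` are normal. -/
theorem normal_of_nice (Q : Subgroup G) [Q.Normal]
    (hQ : ∀ (W : Type) [AddCommGroup W] [Module ℚ W] [Nontrivial W] (ρ : Representation ℚ G W),
      Irr ρ → (∀ t ∈ Q, ρ t = 1) ∨ Module.finrank ℚ W = Module.finrank ℚ (commutant ρ))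
    (H : Subgroup G) (hH : H ≤ Q) : H.Normal := by
  constructor
  intro h hh g
  by_contra hx
  obtain ⟨W, _, _, _, ρ, w, hirr, hw, hxw⟩ := exists_irr_sep H hx
  have hfd := finite_of_irr hirr
  have hxQ : g * h * g⁻¹ ∈ Q := ‹Q.Normal›.conj_mem h (hH hh) g
  have hw0 : w ≠ 0 := by
    rintro rfl
    exact hxw (map_zero _)
  rcases hQ W ρ hirr with h1 | h1
  · apply hxw
    rw [h1 _ hxQ, Module.End.one_apply]
  · have h2 : ρ h = 1 := by
      apply LinearMap.ext
      intro v
      obtain ⟨e, he, rfl⟩ := exists_commutant_of_eq hirr h1 hw0 v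
      rw [← he, hw h hh, Module.End.one_apply]
    apply hxw
    rw [map_mul, map_mul, h2, mul_one, ← map_mul, mul_inv_cancel, map_one, Module.End.one_apply]

omit [Finite G] in
/-- A finite group all of whose subgroups are normal is solvable. -/
theorem solvable_of_normal (Q : Subgroup G) [Finite Q] (hQ : ∀ H : Subgroup G, H ≤ Q → H.Normal) :
    Group.IsSolvable Q := by
  have hnil : Group.IsNilpotent Q := by
    have h := (Group.isNilpotent_of_finite_tfae (G := Q)).out 2 0
    apply h.mp
    intro H _
    have h1 := hQ (H.map Q.subtype) (by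
      rintro _ ⟨y, -, rfl⟩
      exact y.2)
    constructor
    intro n hn g
    have h2 := h1.conj_mem (n : G) ⟨n, hn, rfl⟩ (g : G)
    obtain ⟨y, hy, hy'⟩ := h2
    have h3 : y = g * n * g⁻¹ := Subtype.ext hy'
    rw [← h3]
    exact hy
  infer_instance

end

end Pool.Agent.J4H74.T3
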