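import Mathlib
import Pool.Agent.J4H74.T3.Sep

set_option autoImplicit false
set_option linter.unusedSectionVars false

/-!
# Solvability
-/

namespace Pool.Agent.J4H74.T3

section

variable {G : Type} [Group G] [Fintype G] {W : Type} [AddCommGroup W] [Module ℚ W]
  [FiniteDimensional ℚ W]

/-- The relations satisfied by the matrix of a special orthogonal transformation. -/
theorem so_rel {a b c m00 m01 m10 m11 : ℚ} (h1 : a * m00 ^ 2 + 2 * c * m00 * m10 + b * m10 ^ 2 = a)
    (h2 : a * m00 * m01 + c * (m00 * m11 + m10 * m01) + b * m10 * m11 = c)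
    (hd : m00 * m11 - m01 * m10 = 1) :
    a * m01 = -b * m10 ∧ a * (m11 - m00) = 2 * c * m10 := by
  constructor
  · linear_combination m00 * h2 - m01 * h1 - (c * m00 + b * m10) * hd
  · linear_combination m10 * h2 - m11 * h1 + (a * m00 + c * m10) * hd

theorem det_one_rel (ρ : Representation ℚ G W) (b : Module.Basis (Fin 2) ℚ W) (g : G)
    (hg : LinearMap.det (ρ g) = 1) :
    form ρ (b 0) (b 0) * LinearMap.toMatrix b b (ρ g) 0 1 =
        -form ρ (b 1) (b 1) * LinearMap.toMatrix b b (ρ g) 1 0 ∧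
      form ρ (b 0) (b 0) * (LinearMap.toMatrix b b (ρ g) 1 1 - LinearMap.toMatrix b b (ρ g) 0 0) =
        2 * form ρ (b 0) (b 1) * LinearMap.toMatrix b b (ρ g) 1 0 := by
  have hexp : ∀ j, ρ g (b j) = LinearMap.toMatrix b b (ρ g) 0 j • b 0 +
      LinearMap.toMatrix b b (ρ g) 1 j • b 1 := by
    intro j
    rw [LinearMap.toMatrix_apply, LinearMap.toMatrix_apply]
    conv_lhs => rw [← b.sum_repr (ρ g (b j))]
    rw [Fin.sum_univ_two]
  have hd : LinearMap.toMatrix b b (ρ g) 0 0 * LinearMap.toMatrix b b (ρ g) 1 1 -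
      LinearMap.toMatrix b b (ρ g) 0 1 * LinearMap.toMatrix b b (ρ g) 1 0 = 1 := by
    rw [← Matrix.det_fin_two, LinearMap.det_toMatrix, hg]
  have hs : form ρ (b 1) (b 0) = form ρ (b 0) (b 1) := form_symm ρ _ _
  apply so_rel _ _ hd
  · have h := form_inv ρ g (b 0) (b 0)
    rw [hexp 0] at h
    simp only [map_add, map_smul, LinearMap.add_apply, LinearMap.smul_apply, smul_eq_mul] at h
    rw [hs] at h
    linear_combination h
  · have h := form_inv ρ g (b 0) (b 1)
    rw [hexp 0, hexp 1] at h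
    simp only [map_add, map_smul, LinearMap.add_apply, LinearMap.smul_apply, smul_eq_mul] at h
    rw [hs] at h
    linear_combination h

theorem comm_of_det_one (ρ : Representation ℚ G W) (h2 : Module.finrank ℚ W = 2) {g h : G}
    (hg : LinearMap.det (ρ g) = 1) (hh : LinearMap.det (ρ h) = 1) : ρ g * ρ h = ρ h * ρ g := by
  let b : Module.Basis (Fin 2) ℚ W := Module.finBasisOfFinrankEq ℚ W h2
  have ha : form ρ (b 0) (b 0) ≠ 0 := fun h0 => b.ne_zero 0 (form_self ρ h0)
  obtain ⟨g1, g2⟩ := det_one_rel ρ b g hg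
  obtain ⟨k1, k2⟩ := det_one_rel ρ b h hh
  apply (LinearMap.toMatrix b b).injective
  rw [LinearMap.toMatrix_mul, LinearMap.toMatrix_mul]
  generalize LinearMap.toMatrix b b (ρ g) = M at g1 g2
  generalize LinearMap.toMatrix b b (ρ h) = N at k1 k2
  generalize form ρ (b 0) (b 0) = a at *
  generalize form ρ (b 1) (b 1) = b' at *
  generalize form ρ (b 0) (b 1) = c at *
  have ha2 : a * a ≠ 0 := mul_ne_zero ha ha
  ext i j
  fin_cases i <;> fin_cases j <;> simp only [Matrix.mul_apply, Fin.sum_univ_two, Fin.zero_eta,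
    Fin.mk_one, Fin.isValue]
  · apply mul_left_cancel₀ ha
    linear_combination N 1 0 * g1 - M 1 0 * k1
  · apply mul_left_cancel₀ ha2
    linear_combination (-(a * N 0 1)) * g2 + (a * M 0 1) * k2 - 2 * c * M 1 0 * k1 +
      2 * c * N 1 0 * g1
  · apply mul_left_cancel₀ ha
    linear_combination N 1 0 * g2 - M 1 0 * k2
  · apply mul_left_cancel₀ ha
    linear_combination M 1 0 * k1 - N 1 0 * g1

theorem solvable_of_dim_two (ρ : Representation ℚ G W) (h2 : Module.finrank ℚ W = 2)
    (hk : Group.IsSolvable (MonoidHom.ker ρ)) : Group.IsSolvable G := by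
  let d : G →* ℚˣ := ((LinearMap.det : (W →ₗ[ℚ] W) →* ℚ).comp ρ).toHomUnits
  have hd : ∀ g, d g = 1 ↔ LinearMap.det (ρ g) = 1 := by
    intro g
    rw [← Units.val_inj]
    rfl
  let φ : d.ker →* (Module.End ℚ W)ˣ := (ρ.comp d.ker.subtype).toHomUnits
  have hφ : ∀ g, φ g = 1 ↔ ρ (g : G) = 1 := by
    intro g
    rw [← Units.val_inj]
    rfl
  have hcomm : ∀ x y : φ.range, x * y = y * x := by
    rintro ⟨_, g, rfl⟩ ⟨_, h, rfl⟩
    apply Subtype.ext
    apply Units.ext
    exact comm_of_det_one ρ h2 ((hd g).mp g.2) ((hd h).mp h.2)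
  have hs1 : Group.IsSolvable φ.range := Group.isSolvable_of_comm hcomm
  have hle : MonoidHom.ker ρ ≤ d.ker := by
    intro g hg
    rw [MonoidHom.mem_ker] at hg ⊢
    rw [hd, hg]
    exact LinearMap.det_id
  have hs2 : Group.IsSolvable d.ker := by
    refine Group.isSolvable_of_ker_le_range (Subgroup.inclusion hle) φ.rangeRestrict ?_
    intro g hg
    rw [MonoidHom.mem_ker] at hg
    have h1 : φ g = 1 := congrArg Subtype.val hg
    rw [hφ] at h1
    exact ⟨⟨g, h1⟩, rfl⟩
  exact Group.isSolvable_of_ker_le_range d.ker.subtype d (by rw [Subgroup.range_subtype])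

end

section

variable {G : Type} [Group G] [Finite G]

/-- **The Dedekind kernel.** -/
theorem dedekind_kernel (T : Subgroup G) [T.Normal]
    (h1 : ∀ (W : Type) [AddCommGroup W] [Module ℚ W] [Nontrivial W] (ρ : Representation ℚ G W),
      Irr ρ → (∀ t ∈ T, ρ t = 1) ∨ Module.finrank ℚ W = Module.finrank ℚ (commutant ρ) ∨
        Module.finrank ℚ W = 2)
    (h2 : ∀ (W₁ W₂ : Type) [AddCommGroup W₁] [Module ℚ W₁] [Nontrivial W₁] [AddCommGroup W₂]
      [Module ℚ W₂] [Nontrivial W₂] (ρ₁ : Representation ℚ G W₁) (ρ₂ : Representation ℚ G W₂),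
      Irr ρ₁ → Irr ρ₂ → ¬ IsoRep ρ₁ ρ₂ → (∀ t ∈ T, ρ₁ t = 1) ∨ (∀ t ∈ T, ρ₂ t = 1) ∨
        Module.finrank ℚ W₁ = Module.finrank ℚ (commutant ρ₁) ∨
        Module.finrank ℚ W₂ = Module.finrank ℚ (commutant ρ₂)) :
    ∃ (W₀ : Type) (_ : AddCommGroup W₀) (_ : Module ℚ W₀) (ρ₀ : Representation ℚ G W₀),
      Module.finrank ℚ W₀ = 2 ∧ ∀ H : Subgroup G, H ≤ T ⊓ MonoidHom.ker ρ₀ → H.Normal := by
  by_cases hA : ∃ (W₀ : Type) (_ : AddCommGroup W₀) (_ : Module ℚ W₀) (_ : Nontrivial W₀)
      (ρ₀ : Representation ℚ G W₀), Irr ρ₀ ∧ ¬ (∀ t ∈ T, ρ₀ t = 1) ∧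
        Module.finrank ℚ W₀ ≠ Module.finrank ℚ (commutant ρ₀)
  · obtain ⟨W₀, _, _, _, ρ₀, hirr, hT, hne⟩ := hA
    refine ⟨W₀, inferInstance, inferInstance, ρ₀, ?_, ?_⟩
    · rcases h1 W₀ ρ₀ hirr with h | h | h
      · exact absurd h hT
      · exact absurd h hne
      · exact h
    · intro H hH
      refine normal_of_nice (T ⊓ MonoidHom.ker ρ₀) ?_ H hH
      intro W _ _ _ ρ hρ
      by_cases hiso : IsoRep ρ ρ₀
      · left
        obtain ⟨e, he⟩ := hiso
        intro t ht
        apply LinearMap.ext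
        intro x
        apply e.injective
        rw [he, MonoidHom.mem_ker.mp ht.2]
        rfl
      · rcases h2 W W₀ ρ ρ₀ hρ hirr hiso with h | h | h | h
        · left
          intro t ht
          exact h t ht.1
        · exact absurd h hT
        · right; exact h
        · exact absurd h hne
  · push Not at hA
    refine ⟨Fin 2 → ℚ, inferInstance, inferInstance, 1, by simp, ?_⟩
    intro H hH
    refine normal_of_nice T ?_ H (hH.trans inf_le_left)
    intro W _ _ _ ρ hρ
    by_cases hT : ∀ t ∈ T, ρ t = 1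
    · exact Or.inl hT
    · right
      exact hA W inferInstance inferInstance inferInstance ρ hρ (by push Not at hT; exact hT)

theorem solvable_of_dedekind_kernel (T : Subgroup G) {W₀ : Type} [AddCommGroup W₀] [Module ℚ W₀]
    (ρ₀ : Representation ℚ G W₀) (h2 : Module.finrank ℚ W₀ = 2)
    (h : ∀ H : Subgroup G, H ≤ T ⊓ MonoidHom.ker ρ₀ → H.Normal) : Group.IsSolvable T := by
  have : Fintype T := Fintype.ofFinite T
  have hfd : FiniteDimensional ℚ W₀ := Module.finite_of_finrank_pos (by omega)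
  let ρ : Representation ℚ T W₀ := ρ₀.comp T.subtype
  refine solvable_of_dim_two ρ h2 ?_
  have hs := solvable_of_normal (T ⊓ MonoidHom.ker ρ₀) h
  let ψ : MonoidHom.ker ρ →* (T ⊓ MonoidHom.ker ρ₀ : Subgroup G) :=
    { toFun := fun x => ⟨((x : T) : G), (x : T).2, x.2⟩
      map_one' := rfl
      map_mul' := fun x y => rfl }
  have hψ : Function.Injective ψ := by
    intro x y hxy
    have h3 : ((x : T) : G) = ((y : T) : G) := by
      have h4 := congrArg Subtype.val hxy
      exact h4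
    exact Subtype.ext (Subtype.ext h3)
  exact Group.isSolvable_of_isSolvable_injective hψ

end

end Pool.Agent.J4H74.T3
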