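import Mathlib
import Pool.Agent.J4H74.T3.Solv

set_option autoImplicit false
set_option linter.unusedSectionVars false

/-!
# Galois number fields with a group which is not solvable
-/

namespace Pool.Agent.J4H74.T3

open NumberField Pool.Agent.H440R3 Pool.Agent.H492R2.Tor

section

variable {G H : Type} [Group G] [Group H] {r : G →* H} {W : Type} [AddCommGroup W] [Module ℚ W]
  {ρ' : Representation ℚ H W}

theorem irr_comp (hr : Function.Surjective r) (hirr : Irr ρ') : Irr (ρ'.comp r) := by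
  intro Y hY
  apply hirr Y
  intro g' y hy
  obtain ⟨g, rfl⟩ := hr g'
  exact hY g y hy

theorem commutant_comp (hr : Function.Surjective r) :
    commutant (ρ'.comp r) = commutant ρ' := by
  ext e
  constructor
  · intro he g' y
    obtain ⟨g, rfl⟩ := hr g'
    exact he g y
  · intro he g y
    exact he _ y

theorem isoRep_comp (hr : Function.Surjective r) {W₂ : Type} [AddCommGroup W₂] [Module ℚ W₂]
    {ρ₂' : Representation ℚ H W₂} (h : IsoRep (ρ'.comp r) (ρ₂'.comp r)) : IsoRep ρ' ρ₂' := by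
  obtain ⟨e, he⟩ := h
  refine ⟨e, fun g' x => ?_⟩
  obtain ⟨g, rfl⟩ := hr g'
  exact he g x

/-- A group is solvable if two of its pieces are. -/
theorem solvable_of_pieces (c : G) (h1 : Group.IsSolvable (G ⧸ Subgroup.normalClosure {c}))
    (h2 : Group.IsSolvable (Subgroup.normalClosure {x : G | ∃ g, x = c * g * c⁻¹ * g⁻¹})) :
    Group.IsSolvable G := by
  set T := Subgroup.normalClosure {x : G | ∃ g, x = c * g * c⁻¹ * g⁻¹} with hT
  let Z := Subgroup.center (G ⧸ T)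
  let π : G →* (G ⧸ T) ⧸ Z := (QuotientGroup.mk' Z).comp (QuotientGroup.mk' T)
  have hπ : Function.Surjective π :=
    (QuotientGroup.mk'_surjective Z).comp (QuotientGroup.mk'_surjective T)
  have hc : c ∈ π.ker := by
    rw [MonoidHom.mem_ker]
    show (QuotientGroup.mk' Z) (QuotientGroup.mk' T c) = 1
    rw [← MonoidHom.mem_ker, QuotientGroup.ker_mk']
    rw [Subgroup.mem_center_iff]
    intro a
    obtain ⟨g, rfl⟩ := QuotientGroup.mk'_surjective T a
    rw [← map_mul, ← map_mul, eq_comm]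
    have h3 : c * g * c⁻¹ * g⁻¹ ∈ T := Subgroup.subset_normalClosure ⟨g, rfl⟩
    have h4 : c * g = (c * g * c⁻¹ * g⁻¹) * (g * c) := by group
    rw [h4, map_mul]
    have h5 : QuotientGroup.mk' T (c * g * c⁻¹ * g⁻¹) = 1 := by
      rw [← MonoidHom.mem_ker, QuotientGroup.ker_mk']
      exact h3
    rw [h5, one_mul]
  have hC : Subgroup.normalClosure {c} ≤ π.ker :=
    Subgroup.normalClosure_le_normal (by
      intro x hx
      rw [Set.mem_singleton_iff] at hx
      rw [hx]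
      exact hc)
  have hs1 : Group.IsSolvable ((G ⧸ T) ⧸ Z) := by
    have hsurj : Function.Surjective
        (QuotientGroup.lift (Subgroup.normalClosure {c}) π (fun x hx => hC hx)) := by
      intro y
      obtain ⟨g, rfl⟩ := hπ y
      exact ⟨QuotientGroup.mk g, rfl⟩
    exact Group.isSolvable_of_surjective hsurj
  have hs2 : Group.IsSolvable Z := Group.isSolvable_of_comm fun x y => by
    apply Subtype.ext
    exact (Subgroup.mem_center_iff.mp y.2 x.1)
  have hs3 : Group.IsSolvable (G ⧸ T) := (Group.isSolvable_iff_subgroup_quotient Z).mpr ⟨hs2, hs1⟩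
  exact (Group.isSolvable_iff_subgroup_quotient T).mpr ⟨h2, hs3⟩

end

variable {K : Type} [Field K] [NumberField K] [IsGalois ℚ K]

/-- **The `p`-adic part and solvability.** -/
theorem padic_solvable {p : ℕ} [Fact p.Prime] (h : PadicPart p K) :
    (∃ φ : (K ≃ₐ[ℚ] K) →* Matrix.GeneralLinearGroup (Fin 2) ℚ,
      ∀ H : Subgroup (K ≃ₐ[ℚ] K), H ≤ φ.ker → H.Normal) ∧ Group.IsSolvable (K ≃ₐ[ℚ] K) := by
  obtain ⟨W₀, _, _, ρ₀, h2, hker⟩ := dedekind_kernel (G := K ≃ₐ[ℚ] K) ⊤ (by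
    intro W _ _ _ ρ hρ
    rcases padic_galois h hρ with h1 | h1
    · exact Or.inr (Or.inl h1)
    · exact Or.inr (Or.inr h1.1)) (by
    intro W₁ W₂ _ _ _ _ _ _ ρ₁ ρ₂ hρ₁ hρ₂ hn
    exact Or.inr (Or.inr (padic_galois_pair h hρ₁ hρ₂ hn)))
  constructor
  · have hfd : FiniteDimensional ℚ W₀ := Module.finite_of_finrank_pos (by omega)
    let b : Module.Basis (Fin 2) ℚ W₀ := Module.finBasisOfFinrankEq ℚ W₀ h2
    let ψ : (K ≃ₐ[ℚ] K) →* Matrix (Fin 2) (Fin 2) ℚ :=
      ((LinearMap.toMatrixAlgEquiv b : (W₀ →ₗ[ℚ] W₀) ≃ₐ[ℚ] Matrix (Fin 2) (Fin 2) ℚ) :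
        (W₀ →ₗ[ℚ] W₀) →* Matrix (Fin 2) (Fin 2) ℚ).comp ρ₀
    refine ⟨ψ.toHomUnits, fun H hH => hker H ?_⟩
    intro g hg
    refine ⟨trivial, ?_⟩
    have h3 := hH hg
    rw [MonoidHom.mem_ker, ← Units.val_inj] at h3
    have h4 : (LinearMap.toMatrixAlgEquiv b : (W₀ →ₗ[ℚ] W₀) ≃ₐ[ℚ] Matrix (Fin 2) (Fin 2) ℚ)
      (ρ₀ g) = (LinearMap.toMatrixAlgEquiv b :
        (W₀ →ₗ[ℚ] W₀) ≃ₐ[ℚ] Matrix (Fin 2) (Fin 2) ℚ) 1 := by
      rw [map_one]
      exact h3
    exact (LinearMap.toMatrixAlgEquiv b).injective h4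
  · have h3 := solvable_of_dedekind_kernel ⊤ ρ₀ h2 hker
    exact Group.isSolvable_of_surjective (f := (⊤ : Subgroup (K ≃ₐ[ℚ] K)).subtype)
      (fun g => ⟨⟨g, trivial⟩, rfl⟩)

/-- **The real part and solvability.** -/
theorem real_solvable (h : ExpectedAnswerReal K) : Group.IsSolvable (K ≃ₐ[ℚ] K) := by
  obtain ⟨ι⟩ : Nonempty (K →ₐ[ℚ] ℂ) := ⟨IsAlgClosed.lift⟩
  obtain ⟨c, hc'⟩ := exists_gal ι ((starRingEnd ℂ).comp ι.toRingHom).toRatAlgHom
  have hc : ∀ x, ι (c x) = (starRingEnd ℂ) (ι x) := fun x => (hc' x).symm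
  have hne : ∀ {W : Type} [AddCommGroup W] [Module ℚ W] [Nontrivial W] (e : Module.End ℚ W),
      e = 1 → ∃ x, e x ≠ -x := by
    intro W _ _ _ e he
    obtain ⟨x, hx⟩ := exists_ne (0 : W)
    refine ⟨x, fun h1 => hx ?_⟩
    rw [he, Module.End.one_apply] at h1
    have h2 : (2 : ℚ) • x = 0 := by
      rw [two_smul]
      nth_rewrite 1 [h1]
      rw [neg_add_cancel]
    exact (smul_eq_zero.mp h2).resolve_left two_ne_zero
  apply solvable_of_pieces c
  · -- the totally real part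
    set C := Subgroup.normalClosure {c} with hC
    have hcC : QuotientGroup.mk' C c = 1 := by
      rw [← MonoidHom.mem_ker, QuotientGroup.ker_mk']
      exact Subgroup.subset_normalClosure rfl
    have hr := QuotientGroup.mk'_surjective C
    obtain ⟨W₀, _, _, ρ₀, h2, hker⟩ := dedekind_kernel (G := (K ≃ₐ[ℚ] K) ⧸ C) ⊤ (by
      intro W _ _ _ ρ hρ
      have h1 := real_galois h ι c hc (irr_comp hr hρ) (hne _ (by
        show ρ (QuotientGroup.mk' C c) = 1
        rw [hcC, map_one]))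
      rw [commutant_comp hr] at h1
      rcases h1 with h1 | h1
      · exact Or.inr (Or.inl h1)
      · exact Or.inr (Or.inr h1.1)) (by
      intro W₁ W₂ _ _ _ _ _ _ ρ₁ ρ₂ hρ₁ hρ₂ hn
      have h1 := real_galois_pair h ι c hc (irr_comp hr hρ₁) (irr_comp hr hρ₂)
        (fun hi => hn (isoRep_comp hr hi)) (hne _ (by
        show ρ₁ (QuotientGroup.mk' C c) = 1
        rw [hcC, map_one])) (hne _ (by
        show ρ₂ (QuotientGroup.mk' C c) = 1
        rw [hcC, map_one]))
      rw [commutant_comp hr, commutant_comp hr] at h1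
      exact Or.inr (Or.inr h1))
    have h3 := solvable_of_dedekind_kernel ⊤ ρ₀ h2 hker
    exact Group.isSolvable_of_surjective (f := (⊤ : Subgroup ((K ≃ₐ[ℚ] K) ⧸ C)).subtype)
      (fun g => ⟨⟨g, trivial⟩, rfl⟩)
  · set T := Subgroup.normalClosure {x : K ≃ₐ[ℚ] K | ∃ g, x = c * g * c⁻¹ * g⁻¹} with hT
    have htriv : ∀ (W : Type) [AddCommGroup W] [Module ℚ W] (ρ : Representation ℚ (K ≃ₐ[ℚ] K) W),
        (∀ x, ρ c x = -x) → ∀ t ∈ T, ρ t = 1 := by
      intro W _ _ ρ hρ t ht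
      have h1 : ρ c = -1 := LinearMap.ext fun x => by
        rw [hρ x, LinearMap.neg_apply, Module.End.one_apply]
      have h2 : T ≤ MonoidHom.ker ρ := by
        apply Subgroup.normalClosure_le_normal
        rintro _ ⟨g, rfl⟩
        show ρ (c * g * c⁻¹ * g⁻¹) = 1
        have h3 : ρ c * ρ c⁻¹ = 1 := by rw [← map_mul, mul_inv_cancel, map_one]
        have h4 : ρ c⁻¹ = -1 := by
          rw [h1, neg_one_mul, neg_eq_iff_eq_neg] at h3
          exact h3
        have h5 : ρ g * ρ g⁻¹ = 1 := by rw [← map_mul, mul_inv_cancel, map_one]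
        rw [map_mul, map_mul, map_mul, h1, h4]
        simp only [neg_mul, one_mul, mul_neg, mul_one, neg_neg]
        exact h5
      exact h2 ht
    obtain ⟨W₀, _, _, ρ₀, h2, hker⟩ := dedekind_kernel (G := K ≃ₐ[ℚ] K) T (by
      intro W _ _ _ ρ hρ
      by_cases hodd : ∃ x, ρ c x ≠ -x
      · rcases real_galois h ι c hc hρ hodd with h1 | h1
        · exact Or.inr (Or.inl h1)
        · exact Or.inr (Or.inr h1.1)
      · push Not at hodd
        exact Or.inl (htriv W ρ hodd)) (by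
      intro W₁ W₂ _ _ _ _ _ _ ρ₁ ρ₂ hρ₁ hρ₂ hn
      by_cases hodd₁ : ∃ x, ρ₁ c x ≠ -x
      · by_cases hodd₂ : ∃ x, ρ₂ c x ≠ -x
        · exact Or.inr (Or.inr (real_galois_pair h ι c hc hρ₁ hρ₂ hn hodd₁ hodd₂))
        · push Not at hodd₂
          exact Or.inr (Or.inl (htriv W₂ ρ₂ hodd₂))
      · push Not at hodd₁
        exact Or.inl (htriv W₁ ρ₁ hodd₁))
    exact solvable_of_dedekind_kernel T ρ₀ h2 hker

end Pool.Agent.J4H74.T3
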