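import Mathlib
import Pool.Agent.J4H74.T3.SolvGal

set_option autoImplicit false
set_option linter.unusedSectionVars false

/-!
# Number fields which contain a Galois number field with a group which is not solvable
-/

namespace Pool.Agent.J4H74.T3

open NumberField Pool.Agent.H440R3 Pool.Agent.H492R2.Tor

/-- Solvability from the real condition. -/
theorem solvable_of_real {G : Type} [Group G] [Finite G] (c : G)
    (h1 : ∀ (W : Type) [AddCommGroup W] [Module ℚ W] [Nontrivial W] (ρ : Representation ℚ G W),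
      Irr ρ → (∃ x, ρ c x ≠ -x) → Module.finrank ℚ W = Module.finrank ℚ (commutant ρ) ∨
        Module.finrank ℚ W = 2)
    (h2 : ∀ (W₁ W₂ : Type) [AddCommGroup W₁] [Module ℚ W₁] [Nontrivial W₁] [AddCommGroup W₂]
      [Module ℚ W₂] [Nontrivial W₂] (ρ₁ : Representation ℚ G W₁) (ρ₂ : Representation ℚ G W₂),
      Irr ρ₁ → Irr ρ₂ → ¬ IsoRep ρ₁ ρ₂ → (∃ x, ρ₁ c x ≠ -x) → (∃ x, ρ₂ c x ≠ -x) →
        Module.finrank ℚ W₁ = Module.finrank ℚ (commutant ρ₁) ∨
        Module.finrank ℚ W₂ = Module.finrank ℚ (commutant ρ₂)) : Group.IsSolvable G := by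
  have hne : ∀ {W : Type} [AddCommGroup W] [Module ℚ W] [Nontrivial W] (e : Module.End ℚ W),
      e = 1 → ∃ x, e x ≠ -x := by
    intro W _ _ _ e he
    obtain ⟨x, hx⟩ := exists_ne (0 : W)
    refine ⟨x, fun h1 => hx ?_⟩
    rw [he, Module.End.one_apply] at h1
    have h2 : (2 : ℚ) • x = 0 := by
      rw [two_smul]
      nth_rewrite 1 [h1]
      rw [neg_add_cancel]
    exact (smul_eq_zero.mp h2).resolve_left two_ne_zero
  apply solvable_of_pieces c
  · set C := Subgroup.normalClosure {c} with hC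
    have hcC : QuotientGroup.mk' C c = 1 := by
      rw [← MonoidHom.mem_ker, QuotientGroup.ker_mk']
      exact Subgroup.subset_normalClosure rfl
    have hr := QuotientGroup.mk'_surjective C
    obtain ⟨W₀, _, _, ρ₀, h0, hker⟩ := dedekind_kernel (G := G ⧸ C) ⊤ (by
      intro W _ _ _ ρ hρ
      have h3 := h1 W _ (irr_comp hr hρ) (hne _ (by
        show ρ (QuotientGroup.mk' C c) = 1
        rw [hcC, map_one]))
      rw [commutant_comp hr] at h3
      exact Or.inr h3) (by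
      intro W₁ W₂ _ _ _ _ _ _ ρ₁ ρ₂ hρ₁ hρ₂ hn
      have h3 := h2 W₁ W₂ _ _ (irr_comp hr hρ₁) (irr_comp hr hρ₂)
        (fun hi => hn (isoRep_comp hr hi)) (hne _ (by
        show ρ₁ (QuotientGroup.mk' C c) = 1
        rw [hcC, map_one])) (hne _ (by
        show ρ₂ (QuotientGroup.mk' C c) = 1
        rw [hcC, map_one]))
      rw [commutant_comp hr, commutant_comp hr] at h3
      exact Or.inr (Or.inr h3))
    have h3 := solvable_of_dedekind_kernel ⊤ ρ₀ h0 hker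
    exact Group.isSolvable_of_surjective (f := (⊤ : Subgroup (G ⧸ C)).subtype)
      (fun g => ⟨⟨g, trivial⟩, rfl⟩)
  · set T := Subgroup.normalClosure {x : G | ∃ g, x = c * g * c⁻¹ * g⁻¹} with hT
    have htriv : ∀ (W : Type) [AddCommGroup W] [Module ℚ W] (ρ : Representation ℚ G W),
        (∀ x, ρ c x = -x) → ∀ t ∈ T, ρ t = 1 := by
      intro W _ _ ρ hρ t ht
      have h1 : ρ c = -1 := LinearMap.ext fun x => by
        rw [hρ x, LinearMap.neg_apply, Module.End.one_apply]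
      have h2 : T ≤ MonoidHom.ker ρ := by
        apply Subgroup.normalClosure_le_normal
        rintro _ ⟨g, rfl⟩
        show ρ (c * g * c⁻¹ * g⁻¹) = 1
        have h3 : ρ c * ρ c⁻¹ = 1 := by rw [← map_mul, mul_inv_cancel, map_one]
        have h4 : ρ c⁻¹ = -1 := by
          rw [h1, neg_one_mul, neg_eq_iff_eq_neg] at h3
          exact h3
        have h5 : ρ g * ρ g⁻¹ = 1 := by rw [← map_mul, mul_inv_cancel, map_one]
        rw [map_mul, map_mul, map_mul, h1, h4]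
        simp only [neg_mul, one_mul, mul_neg, mul_one, neg_neg]
        exact h5
      exact h2 ht
    obtain ⟨W₀, _, _, ρ₀, h0, hker⟩ := dedekind_kernel (G := G) T (by
      intro W _ _ _ ρ hρ
      by_cases hodd : ∃ x, ρ c x ≠ -x
      · exact Or.inr (h1 W ρ hρ hodd)
      · push Not at hodd
        exact Or.inl (htriv W ρ hodd)) (by
      intro W₁ W₂ _ _ _ _ _ _ ρ₁ ρ₂ hρ₁ hρ₂ hn
      by_cases hodd₁ : ∃ x, ρ₁ c x ≠ -x
      · by_cases hodd₂ : ∃ x, ρ₂ c x ≠ -x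
        · exact Or.inr (Or.inr (h2 W₁ W₂ ρ₁ ρ₂ hρ₁ hρ₂ hn hodd₁ hodd₂))
        · push Not at hodd₂
          exact Or.inr (Or.inl (htriv W₂ ρ₂ hodd₂))
      · push Not at hodd₁
        exact Or.inl (htriv W₁ ρ₁ hodd₁))
    exact solvable_of_dedekind_kernel T ρ₀ h0 hker

/-- Solvability from the `p`-adic condition. -/
theorem solvable_of_padic {G : Type} [Group G] [Finite G]
    (h1 : ∀ (W : Type) [AddCommGroup W] [Module ℚ W] [Nontrivial W] (ρ : Representation ℚ G W),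
      Irr ρ → Module.finrank ℚ W = Module.finrank ℚ (commutant ρ) ∨
        Module.finrank ℚ W = 2)
    (h2 : ∀ (W₁ W₂ : Type) [AddCommGroup W₁] [Module ℚ W₁] [Nontrivial W₁] [AddCommGroup W₂]
      [Module ℚ W₂] [Nontrivial W₂] (ρ₁ : Representation ℚ G W₁) (ρ₂ : Representation ℚ G W₂),
      Irr ρ₁ → Irr ρ₂ → ¬ IsoRep ρ₁ ρ₂ →
        Module.finrank ℚ W₁ = Module.finrank ℚ (commutant ρ₁) ∨
        Module.finrank ℚ W₂ = Module.finrank ℚ (commutant ρ₂)) :
    (∃ φ : G →* Matrix.GeneralLinearGroup (Fin 2) ℚ,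
      ∀ H : Subgroup G, H ≤ φ.ker → H.Normal) ∧ Group.IsSolvable G := by
  obtain ⟨W₀, _, _, ρ₀, h0, hker⟩ := dedekind_kernel (G := G) ⊤
    (fun W _ _ _ ρ hρ => Or.inr (h1 W ρ hρ))
    (fun W₁ W₂ _ _ _ _ _ _ ρ₁ ρ₂ hρ₁ hρ₂ hn => Or.inr (Or.inr (h2 W₁ W₂ ρ₁ ρ₂ hρ₁ hρ₂ hn)))
  constructor
  · have hfd : FiniteDimensional ℚ W₀ := Module.finite_of_finrank_pos (by omega)
    let b : Module.Basis (Fin 2) ℚ W₀ := Module.finBasisOfFinrankEq ℚ W₀ h0
    let ψ : G →* Matrix (Fin 2) (Fin 2) ℚ :=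
      ((LinearMap.toMatrixAlgEquiv b : (W₀ →ₗ[ℚ] W₀) ≃ₐ[ℚ] Matrix (Fin 2) (Fin 2) ℚ) :
        (W₀ →ₗ[ℚ] W₀) →* Matrix (Fin 2) (Fin 2) ℚ).comp ρ₀
    refine ⟨ψ.toHomUnits, fun H hH => hker H ?_⟩
    intro g hg
    refine ⟨trivial, ?_⟩
    have h3 := hH hg
    rw [MonoidHom.mem_ker, ← Units.val_inj] at h3
    have h4 : (LinearMap.toMatrixAlgEquiv b : (W₀ →ₗ[ℚ] W₀) ≃ₐ[ℚ] Matrix (Fin 2) (Fin 2) ℚ)
      (ρ₀ g) = (LinearMap.toMatrixAlgEquiv b :
        (W₀ →ₗ[ℚ] W₀) ≃ₐ[ℚ] Matrix (Fin 2) (Fin 2) ℚ) 1 := by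
      rw [map_one]
      exact h3
    exact (LinearMap.toMatrixAlgEquiv b).injective h4
  · have h3 := solvable_of_dedekind_kernel ⊤ ρ₀ h0 hker
    exact Group.isSolvable_of_surjective (f := (⊤ : Subgroup G).subtype)
      (fun g => ⟨⟨g, trivial⟩, rfl⟩)

section

variable (K L : Type) [Field K] [NumberField K] [Field L] [NumberField L] [Algebra K L]
  [IsGalois ℚ K]

/-- A Galois extension which contains `L`. -/
theorem exists_res : ∃ (N : Type) (_ : Field N) (_ : NumberField N) (_ : IsGalois ℚ N)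
    (_ : Algebra L N) (res : (N ≃ₐ[ℚ] N) →* (K ≃ₐ[ℚ] K)), Function.Surjective res ∧
      ∀ g, (∀ x : L, g (algebraMap L N x) = algebraMap L N x) → res g = 1 := by
  obtain ⟨τ₀⟩ : Nonempty (EmbQ L) := ⟨IsAlgClosed.lift⟩
  obtain ⟨N, _, _, _, _, r, inc, hr, hinc, hr1, hr2, hr3⟩ := exists_level_at τ₀
  let _ : Algebra K N := ((algebraMap L N).comp (algebraMap K L)).toAlgebra
  have hKN : ∀ x, algebraMap K N x = algebraMap L N (algebraMap K L x) := fun x => rfl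
  have htow : IsScalarTower ℚ K N := inferInstance
  refine ⟨N, inferInstance, inferInstance, inferInstance, inferInstance,
    AlgEquiv.restrictNormalHom K, AlgEquiv.restrictNormalHom_surjective N, fun g hg => ?_⟩
  ext x
  apply (algebraMap K N).injective
  have h1 : algebraMap K N (AlgEquiv.restrictNormalHom K g x) = g (algebraMap K N x) :=
    AlgEquiv.restrictNormal_commutes g K x
  rw [h1, hKN, hg]
  rfl

variable {K L}

theorem padic_galois_sub {p : ℕ} [Fact p.Prime] (h : PadicPart p L) :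
    (∀ (W : Type) [AddCommGroup W] [Module ℚ W] [Nontrivial W]
      (ρ : Representation ℚ (K ≃ₐ[ℚ] K) W), Irr ρ →
      Module.finrank ℚ W = Module.finrank ℚ (commutant ρ) ∨
        Module.finrank ℚ W = 2 ∧ Module.finrank ℚ (commutant ρ) = 1) ∧
    (∀ (W₁ W₂ : Type) [AddCommGroup W₁] [Module ℚ W₁] [Nontrivial W₁] [AddCommGroup W₂]
      [Module ℚ W₂] [Nontrivial W₂] (ρ₁ : Representation ℚ (K ≃ₐ[ℚ] K) W₁)
      (ρ₂ : Representation ℚ (K ≃ₐ[ℚ] K) W₂), Irr ρ₁ → Irr ρ₂ → ¬ IsoRep ρ₁ ρ₂ →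
        Module.finrank ℚ W₁ = Module.finrank ℚ (commutant ρ₁) ∨
        Module.finrank ℚ W₂ = Module.finrank ℚ (commutant ρ₂)) := by
  obtain ⟨N, _, _, _, _, res, hres, htriv⟩ := exists_res K L
  have hfix : ∀ {W : Type} [AddCommGroup W] [Module ℚ W] (ρ : Representation ℚ (K ≃ₐ[ℚ] K) W),
      fixK L (ρ.comp res : Representation ℚ (N ≃ₐ[ℚ] N) W) = ⊤ := by
    intro W _ _ ρ
    rw [eq_top_iff]
    intro w _ g hg
    show ρ (res g) w = w
    rw [htriv g hg, map_one, Module.End.one_apply]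
  constructor
  · intro W _ _ _ ρ hirr
    have hfd := finite_of_irr hirr
    have h1 := padic_mult_fin h (irr_comp hres hirr)
    rw [hfix, finrank_top, commutant_comp hres] at h1
    rcases h1 with h1 | h1
    · exact Or.inl (le_antisymm h1 (le_of_irr hirr))
    · exact Or.inr h1
  · intro W₁ W₂ _ _ _ _ _ _ ρ₁ ρ₂ h₁ h₂ hn
    have hfd₁ := finite_of_irr h₁
    have hfd₂ := finite_of_irr h₂
    have h1 := padic_mult_pair_fin h (irr_comp hres h₁) (irr_comp hres h₂)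
      (fun hi => hn (isoRep_comp hres hi))
    rw [hfix, hfix, finrank_top, finrank_top, commutant_comp hres, commutant_comp hres] at h1
    rcases h1 with h1 | h1
    · exact Or.inl (le_antisymm h1 (le_of_irr h₁))
    · exact Or.inr (le_antisymm h1 (le_of_irr h₂))

theorem real_galois_sub (h : ExpectedAnswerReal L) : ∃ c : K ≃ₐ[ℚ] K,
    (∀ (W : Type) [AddCommGroup W] [Module ℚ W] [Nontrivial W]
      (ρ : Representation ℚ (K ≃ₐ[ℚ] K) W), Irr ρ → (∃ x, ρ c x ≠ -x) →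
      Module.finrank ℚ W = Module.finrank ℚ (commutant ρ) ∨
        Module.finrank ℚ W = 2 ∧ Module.finrank ℚ (commutant ρ) = 1) ∧
    (∀ (W₁ W₂ : Type) [AddCommGroup W₁] [Module ℚ W₁] [Nontrivial W₁] [AddCommGroup W₂]
      [Module ℚ W₂] [Nontrivial W₂] (ρ₁ : Representation ℚ (K ≃ₐ[ℚ] K) W₁)
      (ρ₂ : Representation ℚ (K ≃ₐ[ℚ] K) W₂), Irr ρ₁ → Irr ρ₂ → ¬ IsoRep ρ₁ ρ₂ →
        (∃ x, ρ₁ c x ≠ -x) → (∃ x, ρ₂ c x ≠ -x) →
        Module.finrank ℚ W₁ = Module.finrank ℚ (commutant ρ₁) ∨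
        Module.finrank ℚ W₂ = Module.finrank ℚ (commutant ρ₂)) := by
  obtain ⟨N, _, _, _, _, res, hres, htriv⟩ := exists_res K L
  have hfix : ∀ {W : Type} [AddCommGroup W] [Module ℚ W] (ρ : Representation ℚ (K ≃ₐ[ℚ] K) W),
      fixK L (ρ.comp res : Representation ℚ (N ≃ₐ[ℚ] N) W) = ⊤ := by
    intro W _ _ ρ
    rw [eq_top_iff]
    intro w _ g hg
    show ρ (res g) w = w
    rw [htriv g hg, map_one, Module.End.one_apply]
  obtain ⟨ι⟩ : Nonempty (N →ₐ[ℚ] ℂ) := ⟨IsAlgClosed.lift⟩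
  obtain ⟨c, hc'⟩ := exists_gal ι ((starRingEnd ℂ).comp ι.toRingHom).toRatAlgHom
  have hc : ∀ x, ι (c x) = (starRingEnd ℂ) (ι x) := fun x => (hc' x).symm
  refine ⟨res c, ?_, ?_⟩
  · intro W _ _ _ ρ hirr hodd
    have hfd := finite_of_irr hirr
    have h1 := real_mult_fin h ι c hc (irr_comp hres hirr) hodd
    rw [hfix, finrank_top, commutant_comp hres] at h1
    rcases h1 with h1 | h1
    · exact Or.inl (le_antisymm h1 (le_of_irr hirr))
    · exact Or.inr h1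
  · intro W₁ W₂ _ _ _ _ _ _ ρ₁ ρ₂ h₁ h₂ hn hodd₁ hodd₂
    have hfd₁ := finite_of_irr h₁
    have hfd₂ := finite_of_irr h₂
    have h1 := real_mult_pair_fin h ι c hc (irr_comp hres h₁) (irr_comp hres h₂)
      (fun hi => hn (isoRep_comp hres hi)) hodd₁ hodd₂
    rw [hfix, hfix, finrank_top, finrank_top, commutant_comp hres, commutant_comp hres] at h1
    rcases h1 with h1 | h1
    · exact Or.inl (le_antisymm h1 (le_of_irr h₁))
    · exact Or.inr (le_antisymm h1 (le_of_irr h₂))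

theorem padic_solvable_sub {p : ℕ} [Fact p.Prime] (h : PadicPart p L) :
    (∃ φ : (K ≃ₐ[ℚ] K) →* Matrix.GeneralLinearGroup (Fin 2) ℚ,
      ∀ H : Subgroup (K ≃ₐ[ℚ] K), H ≤ φ.ker → H.Normal) ∧ Group.IsSolvable (K ≃ₐ[ℚ] K) := by
  obtain ⟨h1, h2⟩ := padic_galois_sub (K := K) h
  apply solvable_of_padic
  · intro W _ _ _ ρ hρ
    rcases h1 W ρ hρ with h3 | h3
    · exact Or.inl h3
    · exact Or.inr h3.1
  · exact h2

theorem real_solvable_sub (h : ExpectedAnswerReal L) : Group.IsSolvable (K ≃ₐ[ℚ] K) := by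
  obtain ⟨c, h1, h2⟩ := real_galois_sub (K := K) h
  apply solvable_of_real c
  · intro W _ _ _ ρ hρ hodd
    rcases h1 W ρ hρ hodd with h3 | h3
    · exact Or.inl h3
    · exact Or.inr h3.1
  · exact h2

end

end Pool.Agent.J4H74.T3
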